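import Pool.Agent.H74.ArrLift

/-!
# Logarithmic vector fields of the arrangements
-/

namespace Pool.Agent.H74.Arr

open MvPolynomial

noncomputable section

set_option linter.unusedSimpArgs false

/-! ### Generalities -/

/-- The action of the vector field `v` on polynomials. -/
def act (v : Fin 3 → S3) (g : S3) : S3 := ∑ k, v k * pderiv k g

lemma act_mul (v : Fin 3 → S3) (g h : S3) : act v (g * h) = act v g * h + g * act v h := by
  unfold act
  rw [Finset.sum_mul, Finset.mul_sum, ← Finset.sum_add_distrib]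
  refine Finset.sum_congr rfl fun k _ => ?_
  rw [Derivation.leibniz]
  simp only [smul_eq_mul]
  ring

lemma act_add (v w : Fin 3 → S3) (g : S3) : act (v + w) g = act v g + act w g := by
  unfold act
  rw [← Finset.sum_add_distrib]
  refine Finset.sum_congr rfl fun k _ => ?_
  simp only [Pi.add_apply]
  ring

lemma act_sub (v w : Fin 3 → S3) (g : S3) : act (v - w) g = act v g - act w g := by
  unfold act
  rw [← Finset.sum_sub_distrib]
  refine Finset.sum_congr rfl fun k _ => ?_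
  simp only [Pi.sub_apply]
  ring

lemma act_smul (a : S3) (v : Fin 3 → S3) (g : S3) : act (a • v) g = a * act v g := by
  unfold act
  rw [Finset.mul_sum]
  refine Finset.sum_congr rfl fun k _ => ?_
  simp only [Pi.smul_apply, smul_eq_mul]
  ring

/-- The Euler vector field. -/
def E : Fin 3 → S3 := fun k => X k

lemma act_E {g : S3} {n : ℕ} (hg : g.IsHomogeneous n) : act E g = (n : S3) * g := by
  unfold act E
  rw [hg.sum_X_mul_pderiv, nsmul_eq_mul]

lemma act_line (v : Fin 3 → S3) (p : ℂ × ℂ) :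
    act v (X 0 - nodeS p) = v 0 - C p.1 * v 1 + C p.2 * v 2 := by
  unfold act
  rw [nodeS_eq, Fin.sum_univ_three]
  have h10 : (1 : Fin 3) ≠ 0 := by decide
  have h20 : (2 : Fin 3) ≠ 0 := by decide
  have h12 : (1 : Fin 3) ≠ 2 := by decide
  simp only [map_sub, Derivation.leibniz, smul_eq_mul, pderiv_X_self, pderiv_C,
    pderiv_X_of_ne h10, pderiv_X_of_ne h20, pderiv_X_of_ne h10.symm, pderiv_X_of_ne h20.symm,
    pderiv_X_of_ne h12, pderiv_X_of_ne h12.symm]
  ring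

lemma act_ellS (v : Fin 3 → S3) (σ : ℂ) : act v (ellS σ) = v 1 - C σ * v 2 := by
  unfold act
  rw [ellS_eq, Fin.sum_univ_three]
  have h10 : (1 : Fin 3) ≠ 0 := by decide
  have h20 : (2 : Fin 3) ≠ 0 := by decide
  have h12 : (1 : Fin 3) ≠ 2 := by decide
  simp only [map_sub, Derivation.leibniz, smul_eq_mul, pderiv_X_self, pderiv_C,
    pderiv_X_of_ne h10, pderiv_X_of_ne h20, pderiv_X_of_ne h10.symm, pderiv_X_of_ne h20.symm,
    pderiv_X_of_ne h12, pderiv_X_of_ne h12.symm]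
  ring

lemma dvd_act_mul {v : Fin 3 → S3} {g h : S3} (hg : g ∣ act v g) (hh : h ∣ act v h) :
    g * h ∣ act v (g * h) := by
  rw [act_mul]
  exact dvd_add (mul_dvd_mul_right hg h) (mul_dvd_mul_left g hh)

lemma dvd_act_prod {ι : Type*} {v : Fin 3 → S3} (s : Finset ι) (g : ι → S3)
    (hg : ∀ i ∈ s, g i ∣ act v (g i)) : ∏ i ∈ s, g i ∣ act v (∏ i ∈ s, g i) := by
  classical
  induction s using Finset.induction_on with
  | empty => simp
  | insert i s hi ih =>
    rw [Finset.prod_insert hi]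
    exact dvd_act_mul (hg i (Finset.mem_insert_self _ _))
      (ih fun j hj => hg j (Finset.mem_insert_of_mem hj))

lemma dvd_act_of_prime {v : Fin 3 → S3} {g f' : S3} (hg : Prime g) (hf' : ¬ g ∣ f')
    (h : act v (g * f') = 0) : g ∣ act v g := by
  rw [act_mul] at h
  have h1 : g ∣ act v g * f' := by
    have : act v g * f' = - (g * act v f') := by linear_combination h
    rw [this]
    exact (dvd_mul_right _ _).neg_right
  exact (hg.dvd_or_dvd h1).resolve_right hf'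

lemma prod_dvd_of_primes {ι α : Type*} [CommRing α] [IsDomain α] (s : Finset ι) (g : ι → α)
    (n : α) (hp : ∀ i ∈ s, Prime (g i)) (hne : ∀ i ∈ s, ∀ j ∈ s, i ≠ j → ¬ g i ∣ g j)
    (hd : ∀ i ∈ s, g i ∣ n) : ∏ i ∈ s, g i ∣ n := by
  classical
  induction s using Finset.induction_on with
  | empty => simp
  | insert i s hi ih =>
    obtain ⟨m, hm⟩ := ih (fun j hj => hp j (Finset.mem_insert_of_mem hj))
      (fun j hj k hk => hne j (Finset.mem_insert_of_mem hj) k (Finset.mem_insert_of_mem hk))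
      (fun j hj => hd j (Finset.mem_insert_of_mem hj))
    have hpi := hp i (Finset.mem_insert_self _ _)
    have h1 : g i ∣ (∏ j ∈ s, g j) * m := hm ▸ hd i (Finset.mem_insert_self _ _)
    have h2 : ¬ g i ∣ ∏ j ∈ s, g j := by
      rw [hpi.dvd_finsetProd_iff]
      rintro ⟨j, hj, hdj⟩
      exact hne i (Finset.mem_insert_self _ _) j (Finset.mem_insert_of_mem hj)
        (fun h => hi (h ▸ hj)) hdj
    obtain ⟨m', rfl⟩ := (hpi.dvd_or_dvd h1).resolve_left h2
    rw [Finset.prod_insert hi, hm]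
    exact ⟨m', by ring⟩

lemma homog_of_mul {a b : S3} {i n : ℕ} (ha : a.IsHomogeneous i) (ha0 : a ≠ 0)
    (hab : (a * b).IsHomogeneous (i + n)) : b.IsHomogeneous n := by
  have h := hc_mul (b := b) ha n
  rw [homogeneousComponent_eq_self hab] at h
  have h2 : b = homogeneousComponent n b := mul_left_cancel₀ ha0 h
  rw [h2]
  exact homogeneousComponent_isHomogeneous _ _

/-! ### Non-divisibility -/

lemma line_not_dvd_iota (p : ℂ × ℂ) {r : R2} (hr : r ≠ 0) : ¬ (X 0 - nodeS p) ∣ iota r := by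
  intro h
  rw [← phi_dvd, map_sub, phi_X0, nodeS, phi_iota, phi_iota, Polynomial.dvd_iff_isRoot] at h
  apply hr
  simpa using h

lemma line_not_dvd_line {p q : ℂ × ℂ} (h : node p ≠ node q) :
    ¬ (X 0 - nodeS p) ∣ (X 0 - nodeS q) := by
  intro hd
  apply line_not_dvd_iota p (sub_ne_zero.mpr h)
  have e : iota (node p - node q) = (X 0 - nodeS q) - (X 0 - nodeS p) := by
    rw [map_sub]; unfold nodeS; ring
  rw [e]
  exact dvd_sub hd dvd_rfl

lemma ellS_not_dvd_line (σ : ℂ) (p : ℂ × ℂ) : ¬ ellS σ ∣ (X 0 - nodeS p) := by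
  intro h
  rw [← phi_dvd, map_sub, phi_X0, nodeS, phi_iota, ellS, phi_iota,
    Polynomial.C_dvd_iff_dvd_coeff] at h
  have := h 1
  simp at this
  exact (prime_ell σ).not_isUnit (isUnit_of_dvd_one this)

lemma ellS_dvd_iota {σ : ℂ} {r : R2} : ellS σ ∣ iota r ↔ ell σ ∣ r := by
  constructor
  · intro h
    rw [← phi_dvd, phi_iota, ellS, phi_iota, Polynomial.C_dvd_iff_dvd_coeff] at h
    simpa using h 0
  · rintro ⟨a, rfl⟩
    exact ⟨iota a, by rw [map_mul, ellS]⟩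

lemma ellS_not_dvd_X0 (σ : ℂ) : ¬ ellS σ ∣ X 0 := by
  have h := ellS_not_dvd_line σ (0, 0)
  have e : nodeS (0, 0) = 0 := by simp [nodeS_eq]
  rwa [e, sub_zero] at h

/-! ### Configurations -/

/-- The combinatorial data of the arrangement: `s` groups `T i` of special slopes, the set `Sg`
of the other slopes and the set `Λ` of nodes. -/
structure Config where
  s : ℕ
  K : ℕ
  T : ℕ → Finset ℂ
  Sg : Finset ℂ
  Λ : Finset (ℂ × ℂ)
  hK : 0 < K
  hα : Set.InjOn Prod.fst (Λ : Set (ℂ × ℂ))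
  h0 : (0, 0) ∈ Λ
  disj : ∀ i < s, ∀ j < s, i ≠ j → Disjoint (T i) (T j)
  hST : ∀ i < s, Disjoint Sg (T i)
  hcard : ∀ i < s, ∀ τ ∈ T i, (Λ.filter (fun r => r.2 = τ * r.1)).card = (i + 1) * K + 1
  hsl : ∀ p ∈ Λ, ∀ q ∈ Λ, p ≠ q → (p.2 - q.2) / (p.1 - q.1) ∈ Sg ∨
    ∃ i < s, (p.2 - q.2) / (p.1 - q.1) ∈ T i ∧ q.2 = (p.2 - q.2) / (p.1 - q.1) * q.1
  hbig : Λ.card < Sg.card

namespace Config

variable (c : Config)

/-- `∏_{σ ∈ Sg} (x - σ y)`. -/
def AR : R2 := ∏ σ ∈ c.Sg, ell σ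

/-- `∏_{τ ∈ T i} (x - τ y)`. -/
def LR (i : ℕ) : R2 := ∏ τ ∈ c.T i, ell τ

/-- `∏_{j ≤ i < s} L i`. -/
def PR (j : ℕ) : R2 := ∏ i ∈ Finset.Ico j c.s, c.LR i

/-- `A P_j`. -/
def GR (j : ℕ) : R2 := c.AR * c.PR j

/-- The product of the non-special lines through the centre. -/
def A : S3 := iota c.AR

/-- The product of the special lines of group `i`. -/
def L (i : ℕ) : S3 := iota (c.LR i)

/-- The product of the special lines of the groups `≥ j`. -/
def P (j : ℕ) : S3 := iota (c.PR j)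

/-- The product of the lines not through the centre. -/
def B : S3 := ∏ p ∈ c.Λ, (X 0 - nodeS p)

/-- The equation of the arrangement. -/
def f : S3 := c.A * c.B

/-- The number of lines. -/
def d : ℕ := c.Sg.card + c.Λ.card

/-- The generators of the Bourbaki ideal. -/
def h (j : ℕ) : S3 := X 0 ^ (j * c.K) * c.P j

/-- The degree of `P_j`. -/
def dp (j : ℕ) : ℕ := ∑ i ∈ Finset.Ico j c.s, (c.T i).card

lemma AR_homog : c.AR.IsHomogeneous c.Sg.card := by
  have := IsHomogeneous.prod c.Sg (fun σ => ell σ) (fun _ => 1) (fun σ _ => ell_homog σ)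
  simpa [AR] using this

lemma LR_homog (i : ℕ) : (c.LR i).IsHomogeneous (c.T i).card := by
  have := IsHomogeneous.prod (c.T i) (fun σ => ell σ) (fun _ => 1) (fun σ _ => ell_homog σ)
  simpa [LR] using this

lemma PR_homog (j : ℕ) : (c.PR j).IsHomogeneous (c.dp j) :=
  IsHomogeneous.prod _ _ _ (fun i _ => c.LR_homog i)

lemma GR_homog (j : ℕ) : (c.GR j).IsHomogeneous (c.Sg.card + c.dp j) :=
  c.AR_homog.mul (c.PR_homog j)

lemma AR_ne_zero : c.AR ≠ 0 := Finset.prod_ne_zero_iff.mpr fun σ _ => ell_ne_zero σ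

lemma LR_ne_zero (i : ℕ) : c.LR i ≠ 0 := Finset.prod_ne_zero_iff.mpr fun σ _ => ell_ne_zero σ

lemma PR_ne_zero (j : ℕ) : c.PR j ≠ 0 := Finset.prod_ne_zero_iff.mpr fun i _ => c.LR_ne_zero i

lemma iota_ne_zero {r : R2} (hr : r ≠ 0) : iota r ≠ 0 := by
  intro h
  exact hr (iota_injective (by rw [h, map_zero]))

lemma A_ne_zero : c.A ≠ 0 := iota_ne_zero c.AR_ne_zero
lemma L_ne_zero (i : ℕ) : c.L i ≠ 0 := iota_ne_zero (c.LR_ne_zero i)
lemma P_ne_zero (i : ℕ) : c.P i ≠ 0 := iota_ne_zero (c.PR_ne_zero i)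

lemma B_ne_zero : c.B ≠ 0 := Finset.prod_ne_zero_iff.mpr fun p _ => (prime_line p).ne_zero

lemma f_ne_zero : c.f ≠ 0 := mul_ne_zero c.A_ne_zero c.B_ne_zero

lemma B_homog : c.B.IsHomogeneous c.Λ.card := by
  have := IsHomogeneous.prod c.Λ (fun p => X 0 - nodeS p) (fun _ => 1) (fun p _ => line_homog p)
  simpa [B] using this

lemma f_homog : c.f.IsHomogeneous c.d := (iota_homog c.AR_homog).mul c.B_homog

lemma card_Λ_pos : 0 < c.Λ.card := Finset.card_pos.mpr ⟨_, c.h0⟩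

lemma card_Sg : 2 ≤ c.Sg.card := by
  have := c.card_Λ_pos
  have := c.hbig
  omega

lemma d_pos : 0 < c.d := by
  have := c.card_Λ_pos
  unfold d; omega

lemma P_step {j : ℕ} (hj : j < c.s) : c.P j = c.L j * c.P (j + 1) := by
  unfold P L PR
  rw [← map_mul]
  congr 1
  exact Finset.prod_eq_prod_Ico_succ_bot hj _

lemma dp_step {j : ℕ} (hj : j < c.s) : c.dp j = (c.T j).card + c.dp (j + 1) :=
  Finset.sum_eq_sum_Ico_succ_bot hj _

lemma node_ne {p q : ℂ × ℂ} (hp : p ∈ c.Λ) (hq : q ∈ c.Λ) (h : p ≠ q) : node p ≠ node q :=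
  fun h' => h (node_injOn c.hα hp hq h')

lemma line_not_dvd {p : ℂ × ℂ} (hp : p ∈ c.Λ) :
    ¬ (X 0 - nodeS p) ∣ c.A * ∏ q ∈ c.Λ.erase p, (X 0 - nodeS q) := by
  intro hd
  rcases (prime_line p).dvd_or_dvd hd with h | h
  · exact line_not_dvd_iota p c.AR_ne_zero h
  · rw [(prime_line p).dvd_finsetProd_iff] at h
    obtain ⟨q, hq, h⟩ := h
    rw [Finset.mem_erase] at hq
    exact line_not_dvd_line (c.node_ne hp hq.2 hq.1.symm) h

lemma f_eq_line {p : ℂ × ℂ} (hp : p ∈ c.Λ) :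
    c.f = (X 0 - nodeS p) * (c.A * ∏ q ∈ c.Λ.erase p, (X 0 - nodeS q)) := by
  unfold f B
  rw [← Finset.mul_prod_erase c.Λ _ hp]
  ring

lemma ell_not_dvd_AR_erase (σ : ℂ) : ¬ ell σ ∣ ∏ σ' ∈ c.Sg.erase σ, ell σ' := by
  rw [(prime_ell σ).dvd_finsetProd_iff]
  rintro ⟨σ', hσ', h⟩
  exact (Finset.ne_of_mem_erase hσ') (eq_of_ell_dvd h).symm

lemma ellS_not_dvd_B (σ : ℂ) : ¬ ellS σ ∣ c.B := by
  unfold B
  rw [(prime_ellS σ).dvd_finsetProd_iff]
  rintro ⟨p, _, h⟩
  exact ellS_not_dvd_line σ p h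

lemma f_eq_ell {σ : ℂ} (hσ : σ ∈ c.Sg) :
    c.f = ellS σ * (iota (∏ σ' ∈ c.Sg.erase σ, ell σ') * c.B) := by
  unfold f A AR
  rw [← Finset.mul_prod_erase c.Sg _ hσ, map_mul, ellS]
  ring

lemma ellS_not_dvd (σ : ℂ) :
    ¬ ellS σ ∣ iota (∏ σ' ∈ c.Sg.erase σ, ell σ') * c.B := by
  intro hd
  rcases (prime_ellS σ).dvd_or_dvd hd with h | h
  · exact c.ell_not_dvd_AR_erase σ (ellS_dvd_iota.mp h)
  · exact c.ellS_not_dvd_B σ h

/-- Logarithmic conditions for syzygies. -/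
lemma line_dvd_act {v : Fin 3 → S3} (hv : act v c.f = 0) {p : ℂ × ℂ} (hp : p ∈ c.Λ) :
    (X 0 - nodeS p) ∣ act v (X 0 - nodeS p) := by
  rw [c.f_eq_line hp] at hv
  exact dvd_act_of_prime (prime_line p) (c.line_not_dvd hp) hv

lemma ell_dvd_act {v : Fin 3 → S3} (hv : act v c.f = 0) {σ : ℂ} (hσ : σ ∈ c.Sg) :
    ellS σ ∣ act v (ellS σ) := by
  rw [c.f_eq_ell hσ] at hv
  exact dvd_act_of_prime (prime_ellS σ) (c.ellS_not_dvd σ) hv

/-- `f` is squarefree. -/
lemma f_squarefree : Squarefree c.f := by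
  rw [squarefree_iff_irreducible_sq_not_dvd_of_ne_zero c.f_ne_zero]
  intro g hg hgg
  have hp : Prime g := hg.prime
  have h1 : g ∣ c.f := (dvd_mul_right g g).trans hgg
  rcases hp.dvd_or_dvd h1 with h | h
  · -- `g` divides `A`
    have h2 : ∃ σ ∈ c.Sg, g ∣ ellS σ := by
      have e : c.A = ∏ σ ∈ c.Sg, ellS σ := by unfold A AR; rw [map_prod]; rfl
      rw [e, hp.dvd_finsetProd_iff] at h
      exact h
    obtain ⟨σ, hσ, hd⟩ := h2
    have hass : Associated g (ellS σ) := (hp.dvd_prime_iff_associated (prime_ellS σ)).mp hd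
    have h3 : ellS σ * ellS σ ∣ c.f := 
      (mul_dvd_mul hass.symm.dvd hass.symm.dvd).trans hgg
    rw [c.f_eq_ell hσ] at h3
    exact c.ellS_not_dvd σ ((mul_dvd_mul_iff_left (prime_ellS σ).ne_zero).mp h3)
  · obtain ⟨p, hp', hd⟩ : ∃ p ∈ c.Λ, g ∣ X 0 - nodeS p := by
      unfold B at h
      rw [hp.dvd_finsetProd_iff] at h
      exact h
    have hass : Associated g (X 0 - nodeS p) := (hp.dvd_prime_iff_associated (prime_line p)).mp hd
    have h3 : (X 0 - nodeS p) * (X 0 - nodeS p) ∣ c.f :=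
      (mul_dvd_mul hass.symm.dvd hass.symm.dvd).trans hgg
    rw [c.f_eq_line hp'] at h3
    exact c.line_not_dvd hp' ((mul_dvd_mul_iff_left (prime_line p).ne_zero).mp h3)

end Config

end

end Pool.Agent.H74.Arr
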