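import Pool.Agent.H74.ArrFinal

/-!
# The configuration attached to an ordered partition
-/

namespace Pool.Agent.H74.Arr

open MvPolynomial

noncomputable section

/-- The arithmetic input. -/
lemma arith {M a b : ℕ} {u v : ℤ} (hu : |u| < M) (hv : |v| < M) (hab : a ≠ b)
    (h : (M : ℤ) ^ a * u = (M : ℤ) ^ b * v) : v = 0 := by
  have hM : (0 : ℤ) < M := lt_of_le_of_lt (abs_nonneg u) hu
  have key : ∀ (n : ℕ) (x y : ℤ), |x| < M → n ≠ 0 → x = (M : ℤ) ^ n * y → y = 0 := by
    intro n x y hx hn hxy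
    by_contra hy
    have h1 : (1 : ℤ) ≤ |y| := Int.one_le_abs hy
    have h2 : (M : ℤ) ≤ (M : ℤ) ^ n := by
      calc (M : ℤ) = (M : ℤ) ^ 1 := (pow_one _).symm
        _ ≤ (M : ℤ) ^ n := pow_le_pow_right₀ (by omega) (by omega)
    have h3 : (M : ℤ) ≤ |x| := by
      rw [hxy, abs_mul, abs_of_pos (pow_pos hM n)]
      nlinarith
    omega
  rcases lt_or_gt_of_ne hab with hlt | hlt
  · obtain ⟨n, rfl⟩ : ∃ n, b = a + n := ⟨b - a, by omega⟩
    rw [pow_add, mul_assoc] at h
    have h1 := mul_left_cancel₀ (pow_pos hM a).ne' h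
    exact key n u v hu (by omega) h1
  · obtain ⟨n, rfl⟩ : ∃ n, a = b + n := ⟨a - b, by omega⟩
    rw [pow_add, mul_assoc] at h
    have h1 := mul_left_cancel₀ (pow_pos hM b).ne' h
    have h2 := key n v u hv (by omega) h1.symm
    rw [h2, mul_zero] at h1
    exact h1.symm

variable {t : ℕ} (π : Composition t)

/-- The exponent of the `k`-th node on the special line of slope `τ`. -/
def expo (t τ k : ℕ) : ℕ := τ * (t * t + 1) + k

lemma expo_inj {t τ k τ' k' : ℕ} (hk : k < t * t + 1) (hk' : k' < t * t + 1)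
    (h : expo t τ k = expo t τ' k') : τ = τ' ∧ k = k' := by
  unfold expo at h
  have h1 : (τ * (t * t + 1) + k) / (t * t + 1) = τ := by
    rw [Nat.add_comm, Nat.add_mul_div_right _ _ (by omega), Nat.div_eq_of_lt hk, zero_add]
  have h2 : (τ' * (t * t + 1) + k') / (t * t + 1) = τ' := by
    rw [Nat.add_comm, Nat.add_mul_div_right _ _ (by omega), Nat.div_eq_of_lt hk', zero_add]
  rw [h, h2] at h1
  subst h1
  exact ⟨rfl, by omega⟩

/-- The `k`-th node on the special line of slope `τ`. -/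
def nodeP (t τ k : ℕ) : ℂ × ℂ :=
  (((t + 1 : ℕ) : ℂ) ^ expo t τ k, (τ : ℂ) * ((t + 1 : ℕ) : ℂ) ^ expo t τ k)

lemma nodeP_fst_ne (t τ k : ℕ) : (nodeP t τ k).1 ≠ 0 :=
  pow_ne_zero _ (by exact_mod_cast Nat.succ_ne_zero t)

lemma pow_inj_M {t : ℕ} (ht : 1 ≤ t) {a b : ℕ}
    (h : ((t + 1 : ℕ) : ℂ) ^ a = ((t + 1 : ℕ) : ℂ) ^ b) : a = b := by
  have h1 : (t + 1) ^ a = (t + 1) ^ b := by exact_mod_cast h
  exact Nat.pow_right_injective (by omega) h1

/-- The nodes. -/
def nodes : Finset (ℂ × ℂ) := insert (0, 0) ((Finset.univ : Finset (Fin t)).biUnion fun τ =>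
  (Finset.range ((π.index τ + 1) * t)).image fun k => nodeP t τ k)

lemma mem_nodes {p : ℂ × ℂ} : p ∈ nodes π ↔ p = (0, 0) ∨
    ∃ τ : Fin t, ∃ k < ((π.index τ : ℕ) + 1) * t, p = nodeP t τ k := by
  unfold nodes
  simp only [Finset.mem_insert, Finset.mem_biUnion, Finset.mem_univ, true_and, Finset.mem_image,
    Finset.mem_range]
  constructor
  · rintro (h | ⟨τ, k, hk, h⟩)
    · exact Or.inl h
    · exact Or.inr ⟨τ, k, hk, h.symm⟩
  · rintro (h | ⟨τ, k, hk, h⟩)
    · exact Or.inl h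
    · exact Or.inr ⟨τ, k, hk, h.symm⟩

lemma range_lt {t : ℕ} (π : Composition t) (τ : Fin t) {k : ℕ}
    (hk : k < ((π.index τ : ℕ) + 1) * t) : k < t * t + 1 := by
  have h1 : (π.index τ : ℕ) + 1 ≤ t := by
    have h2 := (π.index τ).2
    have h3 := π.length_le
    omega
  have h4 : ((π.index τ : ℕ) + 1) * t ≤ t * t := Nat.mul_le_mul_right _ h1
  omega

lemma nodes_injOn (ht : 1 ≤ t) : Set.InjOn Prod.fst (nodes π : Set (ℂ × ℂ)) := by
  intro p hp q hq h
  rw [Finset.mem_coe, mem_nodes] at hp hq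
  rcases hp with rfl | ⟨τ, k, hk, rfl⟩ <;> rcases hq with rfl | ⟨τ', k', hk', rfl⟩
  · rfl
  · exact absurd h.symm (nodeP_fst_ne _ _ _)
  · exact absurd h (nodeP_fst_ne _ _ _)
  · have h1 := pow_inj_M ht h
    obtain ⟨h2, h3⟩ := expo_inj (range_lt π τ hk) (range_lt π τ' hk') h1
    rw [h2, h3]

/-- The special slopes of group `i`. -/
def slopesT (i : ℕ) : Finset ℂ :=
  ((Finset.univ : Finset (Fin t)).filter fun τ => (π.index τ : ℕ) = i).image
    fun τ : Fin t => ((τ : ℕ) : ℂ)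

lemma mem_slopesT {i : ℕ} {z : ℂ} :
    z ∈ slopesT π i ↔ ∃ τ : Fin t, (π.index τ : ℕ) = i ∧ z = ((τ : ℕ) : ℂ) := by
  unfold slopesT
  simp only [Finset.mem_image, Finset.mem_filter, Finset.mem_univ, true_and]
  constructor
  · rintro ⟨τ, h, h'⟩; exact ⟨τ, h, h'.symm⟩
  · rintro ⟨τ, h, h'⟩; exact ⟨τ, h, h'.symm⟩

lemma card_slopesT (i : Fin π.length) : (slopesT π i).card = π.blocksFun i := by
  unfold slopesT
  rw [Finset.card_image_of_injective]
  · have h : (Finset.univ : Finset (Fin t)).filter (fun τ => (π.index τ : ℕ) = i) =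
        Finset.univ.map (π.embedding i).toEmbedding := by
      ext τ
      simp only [Finset.mem_filter, Finset.mem_univ, true_and, Finset.mem_map]
      constructor
      · intro h
        have h1 : i = π.index τ := Fin.ext h.symm
        have h2 := (π.mem_range_embedding_iff').mpr h1
        obtain ⟨k, hk⟩ := h2
        exact ⟨k, hk⟩
      · rintro ⟨k, hk⟩
        have h2 : τ ∈ Set.range (π.embedding i) := ⟨k, hk⟩
        have h1 := (π.mem_range_embedding_iff').mp h2
        rw [h1]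
    rw [h, Finset.card_map, Finset.card_univ, Fintype.card_fin]
  · intro a b h
    have h' : ((a : ℕ) : ℂ) = ((b : ℕ) : ℂ) := h
    exact Fin.ext (by exact_mod_cast h')

/-- The slopes of all pairs of nodes. -/
def allSlopes : Finset ℂ :=
  ((nodes π) ×ˢ (nodes π)).image fun pq => (pq.1.2 - pq.2.2) / (pq.1.1 - pq.2.1)

open Classical in
/-- The non-special slopes. -/
def slopesS : Finset ℂ :=
  (allSlopes π).filter (fun z => ∀ i, z ∉ slopesT π i) ∪
    (Finset.range ((nodes π).card + 1)).image fun n => -(((n + 1 : ℕ) : ℂ))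

lemma card_slopesS : (nodes π).card < (slopesS π).card := by
  classical
  have h1 : ((Finset.range ((nodes π).card + 1)).image fun n : ℕ => -(((n + 1 : ℕ) : ℂ))).card =
      (nodes π).card + 1 := by
    rw [Finset.card_image_of_injective, Finset.card_range]
    intro a b h
    have h2 : (((a + 1 : ℕ) : ℂ)) = ((b + 1 : ℕ) : ℂ) := neg_injective h
    have h3 : a + 1 = b + 1 := by exact_mod_cast h2
    omega
  have h2 : ((Finset.range ((nodes π).card + 1)).image fun n : ℕ => -(((n + 1 : ℕ) : ℂ))).card ≤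
      (slopesS π).card := Finset.card_le_card Finset.subset_union_right
  omega

lemma disjoint_slopes (i : ℕ) : Disjoint (slopesS π) (slopesT π i) := by
  classical
  rw [Finset.disjoint_left]
  intro z hz hz'
  unfold slopesS at hz
  rw [Finset.mem_union] at hz
  rcases hz with h | h
  · rw [Finset.mem_filter] at h
    exact h.2 i hz'
  · rw [Finset.mem_image] at h
    obtain ⟨n, _, hn⟩ := h
    obtain ⟨τ, _, hτ⟩ := (mem_slopesT π).mp hz'
    rw [hτ] at hn
    have h1 : (((n + 1 + (τ : ℕ) : ℕ)) : ℂ) = 0 := by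
      push_cast
      push_cast at hn
      linear_combination -hn
    have h2 : n + 1 + (τ : ℕ) = 0 := by exact_mod_cast h1
    omega

/-- The slope of two nodes. -/
lemma slope_special {p q : ℂ × ℂ} (hp : p ∈ nodes π) (hq : q ∈ nodes π) (hpq : p ≠ q) {i : ℕ}
    (h : (p.2 - q.2) / (p.1 - q.1) ∈ slopesT π i) :
    q.2 = (p.2 - q.2) / (p.1 - q.1) * q.1 := by
  obtain ⟨τ, hτi, hτ⟩ := (mem_slopesT π).mp h
  rw [hτ]
  rw [mem_nodes] at hp hq
  rcases hq with rfl | ⟨τ', k', hk', rfl⟩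
  · simp
  rcases hp with rfl | ⟨τ'', k'', hk'', rfl⟩
  · -- `p = 0`
    have h1 : (nodeP t τ' k').1 ≠ 0 := nodeP_fst_ne _ _ _
    rw [← hτ]
    rw [zero_sub, zero_sub, neg_div_neg_eq, div_mul_cancel₀ _ h1]
  · have hτlt := τ.2
    have hne : expo t τ'' k'' ≠ expo t τ' k' := by
      intro he
      obtain ⟨h2, h3⟩ := expo_inj (range_lt π τ'' hk'') (range_lt π τ' hk') he
      apply hpq
      rw [h2, h3]
    set a := expo t τ'' k'' with ha
    set b := expo t τ' k' with hb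
    have hM : ((t + 1 : ℕ) : ℂ) ^ a - ((t + 1 : ℕ) : ℂ) ^ b ≠ 0 := by
      rw [sub_ne_zero]
      intro h2
      exact hne (pow_inj_M (by omega) h2)
    have h1 : (((τ'' : ℕ) : ℂ) * ((t + 1 : ℕ) : ℂ) ^ a - ((τ' : ℕ) : ℂ) * ((t + 1 : ℕ) : ℂ) ^ b) =
        ((τ : ℕ) : ℂ) * (((t + 1 : ℕ) : ℂ) ^ a - ((t + 1 : ℕ) : ℂ) ^ b) := by
      have h3 : (((τ'' : ℕ) : ℂ) * ((t + 1 : ℕ) : ℂ) ^ a -
          ((τ' : ℕ) : ℂ) * ((t + 1 : ℕ) : ℂ) ^ b) /
          (((t + 1 : ℕ) : ℂ) ^ a - ((t + 1 : ℕ) : ℂ) ^ b) = ((τ : ℕ) : ℂ) := hτ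
      rw [div_eq_iff hM] at h3
      exact h3
    have h4 : ((t + 1 : ℕ) : ℤ) ^ a * (((τ'' : ℕ) : ℤ) - (τ : ℕ)) =
        ((t + 1 : ℕ) : ℤ) ^ b * (((τ' : ℕ) : ℤ) - (τ : ℕ)) := by
      have h5 : ((((t + 1 : ℕ) : ℤ) ^ a * (((τ'' : ℕ) : ℤ) - (τ : ℕ)) : ℤ) : ℂ) =
          ((((t + 1 : ℕ) : ℤ) ^ b * (((τ' : ℕ) : ℤ) - (τ : ℕ)) : ℤ) : ℂ) := by
        push_cast
        push_cast at h1
        linear_combination h1
      exact_mod_cast h5
    have h6 : (((τ' : ℕ) : ℤ) - (τ : ℕ)) = 0 := by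
      refine arith ?_ ?_ hne h4
      · have := τ''.2
        rw [abs_lt]; push_cast; omega
      · have := τ'.2
        rw [abs_lt]; push_cast; omega
    have h7 : (τ' : ℕ) = (τ : ℕ) := by omega
    change ((τ' : ℕ) : ℂ) * ((t + 1 : ℕ) : ℂ) ^ b = ((τ : ℕ) : ℂ) * ((t + 1 : ℕ) : ℂ) ^ b
    rw [h7]

lemma card_line (ht : 1 ≤ t) (τ : Fin t) :
    ((nodes π).filter (fun r => r.2 = ((τ : ℕ) : ℂ) * r.1)).card =
      ((π.index τ : ℕ) + 1) * t + 1 := by
  classical
  have h : (nodes π).filter (fun r => r.2 = ((τ : ℕ) : ℂ) * r.1) =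
      insert (0, 0) ((Finset.range (((π.index τ : ℕ) + 1) * t)).image fun k => nodeP t τ k) := by
    ext p
    rw [Finset.mem_filter, mem_nodes, Finset.mem_insert, Finset.mem_image]
    constructor
    · rintro ⟨rfl | ⟨τ', k, hk, rfl⟩, h2⟩
      · exact Or.inl rfl
      · right
        have h3 : ((τ' : ℕ) : ℂ) = ((τ : ℕ) : ℂ) := by
          have h4 : ((τ' : ℕ) : ℂ) * (nodeP t τ' k).1 = ((τ : ℕ) : ℂ) * (nodeP t τ' k).1 := h2
          exact mul_right_cancel₀ (nodeP_fst_ne _ _ _) h4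
        have h5 : (τ' : ℕ) = (τ : ℕ) := by exact_mod_cast h3
        have h6 : τ' = τ := Fin.ext h5
        subst h6
        exact ⟨k, Finset.mem_range.mpr hk, rfl⟩
    · rintro (rfl | ⟨k, hk, rfl⟩)
      · exact ⟨Or.inl rfl, by simp⟩
      · exact ⟨Or.inr ⟨τ, k, Finset.mem_range.mp hk, rfl⟩, rfl⟩
  rw [h, Finset.card_insert_of_notMem, Finset.card_image_of_injOn, Finset.card_range]
  · intro k hk k' hk' he
    rw [Finset.mem_coe, Finset.mem_range] at hk hk'
    have h1 := pow_inj_M ht (congrArg Prod.fst he)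
    exact (expo_inj (range_lt π τ hk) (range_lt π τ hk') h1).2
  · intro h1
    rw [Finset.mem_image] at h1
    obtain ⟨k, _, hk⟩ := h1
    exact nodeP_fst_ne t τ k (congrArg Prod.fst hk)

/-- The configuration. -/
def config (ht : 1 ≤ t) : Config where
  s := π.length
  K := t
  T := slopesT π
  Sg := slopesS π
  Λ := nodes π
  hK := ht
  hα := nodes_injOn π ht
  h0 := (mem_nodes π).mpr (Or.inl rfl)
  disj := by
    intro i _ j _ hij
    rw [Finset.disjoint_left]
    intro z hz hz'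
    obtain ⟨τ, h1, h2⟩ := (mem_slopesT π).mp hz
    obtain ⟨τ', h1', h2'⟩ := (mem_slopesT π).mp hz'
    rw [h2] at h2'
    have h3 : (τ : ℕ) = (τ' : ℕ) := by exact_mod_cast h2'
    have h4 : τ = τ' := Fin.ext h3
    subst h4
    exact hij (h1.symm.trans h1')
  hST := fun i _ => disjoint_slopes π i
  hcard := by
    intro i _ z hz
    obtain ⟨τ, h1, h2⟩ := (mem_slopesT π).mp hz
    rw [h2, card_line π ht τ, h1]
  hsl := by
    classical
    intro p hp q hq hpq
    by_cases h : ∃ i, (p.2 - q.2) / (p.1 - q.1) ∈ slopesT π i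
    · right
      obtain ⟨i, hi⟩ := h
      have hi' : i < π.length := by
        obtain ⟨τ, h1, _⟩ := (mem_slopesT π).mp hi
        rw [← h1]
        exact (π.index τ).2
      exact ⟨i, hi', hi, slope_special π hp hq hpq hi⟩
    · left
      push Not at h
      unfold slopesS
      rw [Finset.mem_union]
      left
      rw [Finset.mem_filter]
      refine ⟨?_, h⟩
      unfold allSlopes
      rw [Finset.mem_image]
      exact ⟨(p, q), Finset.mem_product.mpr ⟨hp, hq⟩, rfl⟩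
  hbig := card_slopesS π

/-- **Every ordered partition is realised.** -/
theorem main (ht : 1 ≤ t) : ∃ (d : ℕ) (f : Jac.S), Jac.IsReducedCurve f d ∧ Jac.HasClass f d π := by
  set c := config π ht with hc
  have hTcard : ∀ i : Fin π.length, (c.T i).card = π.blocksFun i := fun i => card_slopesT π i
  have hKT : ∀ i < c.s, (c.T i).card ≤ c.K := by
    intro i hi
    rw [hTcard ⟨i, hi⟩]
    exact π.blocksFun_le ⟨i, hi⟩
  have hT : ∀ i < c.s, 0 < (c.T i).card := by
    intro i hi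
    rw [hTcard ⟨i, hi⟩]
    exact π.one_le_blocksFun ⟨i, hi⟩
  refine ⟨c.d, c.f, ⟨?_, c.f_ne_zero, c.f_homog, c.f_squarefree⟩, c.degs, c.twists, c.gens,
    c.rels, c.degs_mono hKT, c.twists_mono hKT, c.isMinimalResolution hT, ?_, ?_⟩
  · have h1 := c.card_Sg
    have h2 := c.card_Λ_pos
    unfold Config.d
    omega
  · intro j
    rw [← hTcard j]
    exact c.twists_eq j
  · have h1 : c.degs 0 = c.Λ.card := rfl
    have h2 : c.degs 1 = c.D 0 := rfl
    have h3 : c.dp 0 = t := by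
      have h4 : c.dp 0 = ∑ i ∈ Finset.range π.length, (c.T i).card := by
        unfold Config.dp
        rw [← Finset.range_eq_Ico]
        rfl
      rw [h4, Finset.sum_range]
      rw [Finset.sum_congr rfl fun i _ => hTcard i]
      exact π.sum_blocksFun
    have h5 := c.card_Sg
    change c.degs 0 + c.degs 1 + 1 = c.d + t
    rw [h1, h2]
    unfold Config.D Config.d
    rw [h3]
    omega

end

end Pool.Agent.H74.Arr
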