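import Mathlib

/-!
# Jacobian syzygies of plane curves

The definitions used in the statement of `Pool.Agent.Results.MP_c865e8_ag.AllPartitions.result`.
-/

namespace Pool.Agent.H74.Jac

open MvPolynomial

/-- `S = ℂ[x, y, z]`. -/
abbrev S : Type := MvPolynomial (Fin 3) ℂ

/-- `f = 0` is a reduced plane curve of degree `d ≥ 3`. -/
structure IsReducedCurve (f : S) (d : ℕ) : Prop where
  three_le : 3 ≤ d
  ne_zero : f ≠ 0
  homogeneous : f.IsHomogeneous d
  squarefree : Squarefree f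

/-- The data `e, c, r, ρ` form a minimal graded free resolution
`0 → ⊕ⱼ S(-cⱼ) → ⊕ᵢ S(1-d-eᵢ) → S³(1-d) → S`
of the Jacobian (Milnor) algebra `S / (f_x, f_y, f_z)` of the curve `f = 0` of degree `d`:
the third map sends the basis vectors of `S³` to `f_x, f_y, f_z`, the second sends the `i`-th basis
vector to the syzygy `r i ∈ S³`, the first sends the `j`-th basis vector to the relation
`ρ j ∈ S^m` between the `r i`. -/
structure IsMinimalResolution (f : S) (d : ℕ) {m n : ℕ} (e : Fin m → ℕ) (c : Fin n → ℕ)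
    (r : Fin m → Fin 3 → S) (ρ : Fin n → Fin m → S) : Prop where
  /-- the map `⊕ᵢ S(1-d-eᵢ) → S³(1-d)` is graded -/
  graded_r : ∀ i k, (r i k).IsHomogeneous (e i)
  /-- the map `⊕ⱼ S(-cⱼ) → ⊕ᵢ S(1-d-eᵢ)` is graded -/
  graded_ρ : ∀ j i, ρ j i ≠ 0 → ∃ k, c j = (d - 1 + e i) + k ∧ (ρ j i).IsHomogeneous k
  /-- minimality: the entries of the matrices of all three maps lie in the maximal ideal -/
  minimal_f : ∀ k, constantCoeff (pderiv k f) = 0
  minimal_r : ∀ i k, constantCoeff (r i k) = 0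
  minimal_ρ : ∀ j i, constantCoeff (ρ j i) = 0
  /-- exactness at `S³(1-d)` -/
  exact_r : Function.Exact (Fintype.linearCombination S r)
    (Fintype.linearCombination S fun k => pderiv k f)
  /-- exactness at `⊕ᵢ S(1-d-eᵢ)` -/
  exact_ρ : Function.Exact (Fintype.linearCombination S ρ) (Fintype.linearCombination S r)
  /-- exactness at `⊕ⱼ S(-cⱼ)` -/
  injective_ρ : Function.Injective (Fintype.linearCombination S ρ)

/-- The curve `f = 0` of degree `d` has class `tT_π`, where `π = (ε_1, …, ε_s)` is an ordered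
partition of `t`: its Jacobian algebra has a minimal graded free resolution
`0 → ⊕_{j=1}^{m-2} S(-cⱼ) → ⊕_{i=1}^m S(1-d-dᵢ) → S³(1-d) → S` with `m = s + 2`,
`d_1 ≤ … ≤ d_m`, `c_1 ≤ … ≤ c_{m-2}` and `cⱼ = d + d_{j+2} - 1 + εⱼ`, and `d_1 + d_2 + 1 - d = t`.
(Indices start at `0` in Lean: `e 0 = d_1`, `e 1 = d_2`, `e j.succ.succ = d_{j+3}` for the
`j`-th element `j` of `Fin s`.) -/
def HasClass (f : S) (d : ℕ) {t : ℕ} (π : Composition t) : Prop :=
  ∃ (e : Fin (π.length + 2) → ℕ) (c : Fin π.length → ℕ) (r : Fin (π.length + 2) → Fin 3 → S)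
    (ρ : Fin π.length → Fin (π.length + 2) → S),
    Monotone e ∧ Monotone c ∧ IsMinimalResolution f d e c r ρ ∧
      (∀ j, c j = d + e j.succ.succ - 1 + π.blocksFun j) ∧ e 0 + e 1 + 1 = d + t

end Pool.Agent.H74.Jac
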