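import Pool.Agent.H74.ArrRes
import Pool.Agent.H74.JacDefs

/-!
# Assembling the minimal resolution
-/

namespace Pool.Agent.H74.Arr

open MvPolynomial

noncomputable section

lemma constantCoeff_of_homog {g : S3} {n : ℕ} (hg : g.IsHomogeneous n) (hn : n ≠ 0) :
    constantCoeff g = 0 := by
  rw [constantCoeff_eq]
  apply hg.coeff_eq_zero
  simpa using hn.symm

lemma sum_castSucc {s : ℕ} (F : Fin s → S3) (i : Fin (s + 1)) :
    ∑ j, (if i = j.castSucc then F j else 0) = if h : (i : ℕ) < s then F ⟨i, h⟩ else 0 := by
  induction i using Fin.lastCases with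
  | last =>
    rw [dif_neg (by simp)]
    refine Finset.sum_eq_zero fun j _ => ?_
    rw [if_neg]
    exact (Fin.castSucc_lt_last j).ne'
  | cast i =>
    have h : ((i.castSucc : Fin (s + 1)) : ℕ) < s := by simp
    rw [dif_pos h]
    rw [Finset.sum_eq_single i]
    · rw [if_pos rfl]; rfl
    · intro j _ hj
      rw [if_neg]
      intro h
      exact hj (Fin.castSucc_injective _ h).symm
    · intro h; exact absurd (Finset.mem_univ _) h

lemma sum_succ {s : ℕ} (F : Fin s → S3) (i : Fin (s + 1)) :
    ∑ j, (if i = j.succ then F j else 0) =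
      if h : 0 < (i : ℕ) then F ⟨i - 1, by omega⟩ else 0 := by
  induction i using Fin.cases with
  | zero =>
    rw [dif_neg (by simp)]
    refine Finset.sum_eq_zero fun j _ => ?_
    rw [if_neg]
    exact (Fin.succ_ne_zero j).symm
  | succ i =>
    have h : 0 < ((i.succ : Fin (s + 1)) : ℕ) := by simp
    rw [dif_pos h]
    rw [Finset.sum_eq_single i]
    · rw [if_pos rfl]; rfl
    · intro j _ hj
      rw [if_neg]
      intro h
      exact hj (Fin.succ_injective _ h).symm
    · intro h; exact absurd (Finset.mem_univ _) h

namespace Config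

variable (c : Config)

/-- The coefficients `q_j`. -/
def qq (j : Fin c.s) : S3 := (c.exists_q j.2).choose

lemma qq_spec (j : Fin c.s) :
    (X 0 ^ c.K : S3) • c.rr j - c.L j • c.rr (j + 1) = c.qq j • c.r0 :=
  (c.exists_q j.2).choose_spec.1

lemma qq_homog (j : Fin c.s) : (c.qq j).IsHomogeneous (c.K + c.D j - c.Λ.card) :=
  (c.exists_q j.2).choose_spec.2

/-- All generators. -/
def gens : Fin (c.s + 2) → Fin 3 → S3 := Fin.cons c.r0 fun j : Fin (c.s + 1) => c.rr j

/-- The non-trivial part of the relations. -/
def rel (j : Fin c.s) (i : Fin (c.s + 1)) : S3 :=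
  (if i = j.castSucc then X 0 ^ c.K else 0) + (if i = j.succ then - c.L j else 0)

/-- All relations. -/
def rels (j : Fin c.s) : Fin (c.s + 2) → S3 := Fin.cons (- c.qq j) (c.rel j)

/-- The degrees of the generators. -/
def degs : Fin (c.s + 2) → ℕ := Fin.cons c.Λ.card fun j : Fin (c.s + 1) => c.D j

/-- The twists of the relations. -/
def twists (j : Fin c.s) : ℕ := c.d - 1 + (c.K + c.D j)

@[simp] lemma gens_zero : c.gens 0 = c.r0 := rfl
@[simp] lemma gens_succ (j : Fin (c.s + 1)) : c.gens j.succ = c.rr j := rfl
@[simp] lemma rels_zero (j : Fin c.s) : c.rels j 0 = - c.qq j := rfl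
@[simp] lemma rels_succ (j : Fin c.s) (i : Fin (c.s + 1)) : c.rels j i.succ = c.rel j i := rfl
@[simp] lemma degs_zero : c.degs 0 = c.Λ.card := rfl
@[simp] lemma degs_succ (j : Fin (c.s + 1)) : c.degs j.succ = c.D j := rfl

lemma lin_grad (v : Fin 3 → S3) (f : S3) :
    Fintype.linearCombination S3 (fun k => pderiv k f) v = act v f := by
  simp [Fintype.linearCombination_apply, act]

lemma lin_gens (a : Fin (c.s + 2) → S3) : Fintype.linearCombination S3 c.gens a =
    a 0 • c.r0 + ∑ j : Fin (c.s + 1), a j.succ • c.rr j := by
  rw [Fintype.linearCombination_apply, Fin.sum_univ_succ]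
  simp

lemma exact_gens : Function.Exact (Fintype.linearCombination S3 c.gens)
    (Fintype.linearCombination S3 fun k => pderiv k c.f) := by
  intro v
  rw [lin_grad]
  constructor
  · intro hv
    obtain ⟨g, a, h⟩ := c.generate hv
    refine ⟨Fin.cons g a, ?_⟩
    rw [lin_gens, h]
    rfl
  · rintro ⟨a, rfl⟩
    rw [lin_gens, act_add, act_smul, r0_act, mul_zero, zero_add, act_sum]
    refine Finset.sum_eq_zero fun j _ => ?_
    rw [act_smul, rr_act, mul_zero]

lemma gens_rels (j : Fin c.s) : Fintype.linearCombination S3 c.gens (c.rels j) = 0 := by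
  rw [lin_gens]
  have h : ∑ i : Fin (c.s + 1), c.rels j i.succ • c.rr i =
      (X 0 ^ c.K : S3) • c.rr j - c.L j • c.rr (j + 1) := by
    simp only [rels_succ, rel, add_smul, Finset.sum_add_distrib, ite_smul, zero_smul,
      Finset.sum_ite_eq', Finset.mem_univ, if_true, neg_smul]
    simp [sub_eq_add_neg]
  rw [h, qq_spec, rels_zero, neg_smul, neg_add_cancel]

lemma lin_rels_succ (μ : Fin c.s → S3) (i : Fin (c.s + 1)) :
    Fintype.linearCombination S3 c.rels μ i.succ =
      (if h : (i : ℕ) < c.s then X 0 ^ c.K * μ ⟨i, h⟩ else 0) -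
        (if h : 0 < (i : ℕ) then c.L (i - 1) * μ ⟨i - 1, by omega⟩ else 0) := by
  rw [Fintype.linearCombination_apply, Finset.sum_apply]
  simp only [Pi.smul_apply, rels_succ, rel, smul_eq_mul, mul_add, Finset.sum_add_distrib,
    mul_ite, mul_zero]
  rw [sum_castSucc, sum_succ]
  by_cases h1 : (i : ℕ) < c.s
  · by_cases h2 : 0 < (i : ℕ)
    · rw [dif_pos h1, dif_pos h2, dif_pos h1, dif_pos h2]; ring
    · rw [dif_pos h1, dif_neg h2, dif_pos h1, dif_neg h2]; ring
  · by_cases h2 : 0 < (i : ℕ)
    · rw [dif_neg h1, dif_pos h2, dif_neg h1, dif_pos h2]; ring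
    · rw [dif_neg h1, dif_neg h2, dif_neg h1, dif_neg h2]; ring

lemma exact_rels : Function.Exact (Fintype.linearCombination S3 c.rels)
    (Fintype.linearCombination S3 c.gens) := by
  intro w
  constructor
  · intro hw
    have hw' := hw
    rw [lin_gens] at hw
    -- apply `wedge`
    have h1 := congrArg wedge hw
    rw [wedge_add, wedge_smul, r0_wedge, mul_zero, zero_add, wedge_sum] at h1
    have h0 : wedge (0 : Fin 3 → S3) = 0 := by simp [wedge]
    rw [h0] at h1
    set a : ℕ → S3 := fun j => if h : j < c.s + 1 then w (Fin.succ ⟨j, h⟩) else 0 with ha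
    have h2 : ∑ j ∈ Finset.range (c.s + 1), a j * c.h j = 0 := by
      have h3 : c.A * ∑ j ∈ Finset.range (c.s + 1), a j * c.h j = 0 := by
        rw [← h1, Finset.mul_sum, Finset.sum_range]
        refine Finset.sum_congr rfl fun j _ => ?_
        rw [wedge_smul, rr_wedge, ha]
        simp only [j.2, dif_pos]
        ring
      exact (mul_eq_zero.mp h3).resolve_left c.A_ne_zero
    obtain ⟨ν, hν0, hν1, hν2⟩ := c.relations_h a h2
    set μ : Fin c.s → S3 := fun j => ν (j + 1) with hμ
    have hsucc : ∀ i : Fin (c.s + 1),
        Fintype.linearCombination S3 c.rels μ i.succ = w i.succ := by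
      intro i
      have hi : w i.succ = a i := by
        rw [ha]; simp only [i.2, dif_pos]
      rw [lin_rels_succ, hi]
      have hL : (if h : 0 < (i : ℕ) then c.L (i - 1) * μ ⟨i - 1, by omega⟩ else 0) =
          c.L (i - 1) * ν i := by
        by_cases h : 0 < (i : ℕ)
        · rw [dif_pos h, hμ]
          simp only
          congr 2
          omega
        · rw [dif_neg h]
          have : (i : ℕ) = 0 := by omega
          rw [this, hν0, mul_zero]
      rw [hL]
      by_cases h : (i : ℕ) < c.s
      · rw [dif_pos h, hν1 i h]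
      · rw [dif_neg h]
        have : (i : ℕ) = c.s := by omega
        rw [this, hν2]
        ring
    refine ⟨μ, ?_⟩
    -- the component `0`
    have hker : Fintype.linearCombination S3 c.gens
        (w - Fintype.linearCombination S3 c.rels μ) = 0 := by
      rw [map_sub, hw', zero_sub, neg_eq_zero]
      rw [Fintype.linearCombination_apply S3 c.rels, map_sum]
      refine Finset.sum_eq_zero fun j _ => ?_
      rw [map_smul, gens_rels, smul_zero]
    rw [lin_gens] at hker
    have hz : ∑ j : Fin (c.s + 1),
        (w - Fintype.linearCombination S3 c.rels μ) j.succ • c.rr j = 0 := by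
      refine Finset.sum_eq_zero fun j _ => ?_
      rw [Pi.sub_apply, hsucc, sub_self, zero_smul]
    rw [hz, add_zero, smul_eq_zero] at hker
    have h4 := hker.resolve_right c.r0_ne_zero
    funext i
    induction i using Fin.cases with
    | zero =>
      rw [Pi.sub_apply, sub_eq_zero] at h4
      exact h4.symm
    | succ i => exact hsucc i
  · rintro ⟨μ, rfl⟩
    rw [Fintype.linearCombination_apply S3 c.rels, map_sum]
    refine Finset.sum_eq_zero fun j _ => ?_
    rw [map_smul, gens_rels, smul_zero]

lemma injective_rels : Function.Injective (Fintype.linearCombination S3 c.rels) := by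
  rw [← LinearMap.ker_eq_bot, LinearMap.ker_eq_bot']
  intro μ hμ
  have hX : (X 0 ^ c.K : S3) ≠ 0 := pow_ne_zero _ (X_ne_zero 0)
  have key : ∀ n, ∀ h : n < c.s, μ ⟨n, h⟩ = 0 := by
    intro n
    induction n with
    | zero =>
      intro h
      have h1 := congrFun hμ (Fin.succ ⟨0, by omega⟩)
      rw [lin_rels_succ] at h1
      simp only [h, dif_pos, lt_irrefl, dif_neg, not_false_iff, sub_zero, Pi.zero_apply] at h1
      exact (mul_eq_zero.mp h1).resolve_left hX
    | succ n ih =>
      intro h
      have h1 := congrFun hμ (Fin.succ ⟨n + 1, by omega⟩)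
      rw [lin_rels_succ] at h1
      simp only [h, dif_pos, Nat.succ_pos, Nat.add_sub_cancel, Pi.zero_apply] at h1
      rw [ih (by omega), mul_zero, sub_zero] at h1
      exact (mul_eq_zero.mp h1).resolve_left hX
  funext j
  exact key j j.2

lemma degs_mono (hKT : ∀ i < c.s, (c.T i).card ≤ c.K) : Monotone c.degs := by
  rw [Fin.monotone_iff_le_succ]
  intro i
  induction i using Fin.cases with
  | zero => exact c.card_le_D 0
  | succ i =>
    rw [← Fin.succ_castSucc, degs_succ, degs_succ]
    have h1 := c.D_step i.2
    have h2 := hKT i i.2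
    simp only [Fin.val_castSucc, Fin.val_succ]
    omega

lemma twists_mono (hKT : ∀ i < c.s, (c.T i).card ≤ c.K) : Monotone c.twists := by
  have hD : ∀ i < c.s, c.D i ≤ c.D (i + 1) := by
    intro i hi
    have h1 := c.D_step hi
    have h2 := hKT i hi
    omega
  intro i j hij
  unfold twists
  have h3 : c.D i ≤ c.D j := by
    have : ∀ n, ∀ m, m + n < c.s → c.D m ≤ c.D (m + n) := by
      intro n
      induction n with
      | zero => intro m _; exact le_rfl
      | succ n ih =>
        intro m hm
        exact (ih m (by omega)).trans (hD (m + n) (by omega))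
    have h4 := this (j - i) i (by have := j.2; have : (i : ℕ) ≤ j := hij; omega)
    have h5 : (i : ℕ) + (j - i) = j := by have : (i : ℕ) ≤ j := hij; omega
    rwa [h5] at h4
  omega

lemma twists_eq (j : Fin c.s) :
    c.twists j = c.d + c.degs j.succ.succ - 1 + (c.T j).card := by
  rw [degs_succ]
  unfold twists
  have h1 := c.D_step j.2
  have h2 := c.d_pos
  simp only [Fin.val_succ]
  omega

/-- The minimal graded free resolution. -/
lemma isMinimalResolution (hT : ∀ i < c.s, 0 < (c.T i).card) :
    Jac.IsMinimalResolution c.f c.d c.degs c.twists c.gens c.rels where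
  graded_r := by
    intro i k
    induction i using Fin.cases with
    | zero => exact c.r0_homog k
    | succ i => exact c.rr_homog i k
  graded_ρ := by
    intro j i hne
    induction i using Fin.cases with
    | zero =>
      refine ⟨c.K + c.D j - c.Λ.card, ?_, ?_⟩
      · have := c.card_le_D j
        rw [degs_zero]
        unfold twists
        omega
      · exact (c.qq_homog j).neg
    | succ i =>
      rw [rels_succ, rel] at hne ⊢
      by_cases h1 : i = j.castSucc
      · have h2 : i ≠ j.succ := by
          rw [h1]; exact (Fin.castSucc_lt_succ).ne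
        rw [if_pos h1, if_neg h2, add_zero]
        refine ⟨c.K, ?_, isHomogeneous_X_pow 0 c.K⟩
        rw [h1, degs_succ]
        unfold twists
        simp only [Fin.val_castSucc]
        omega
      · by_cases h2 : i = j.succ
        · rw [if_neg h1, if_pos h2, zero_add]
          have hL : (c.L j).IsHomogeneous (c.T j).card := iota_homog (c.LR_homog j)
          refine ⟨(c.T j).card, ?_, hL.neg⟩
          rw [h2, twists_eq]
          have := c.d_pos
          omega
        · rw [if_neg h1, if_neg h2, add_zero] at hne
          exact absurd rfl hne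
  minimal_f := by
    intro k
    have h := c.f_homog.pderiv (i := k)
    refine constantCoeff_of_homog h ?_
    have h1 := c.card_Sg
    have h2 := c.card_Λ_pos
    unfold d
    omega
  minimal_r := by
    intro i k
    induction i using Fin.cases with
    | zero => exact constantCoeff_of_homog (c.r0_homog k) c.card_Λ_pos.ne'
    | succ i =>
      have := c.D_pos i
      exact constantCoeff_of_homog (c.rr_homog i k) (by omega)
  minimal_ρ := by
    intro j i
    have hL : (c.L j).IsHomogeneous (c.T j).card := iota_homog (c.LR_homog j)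
    induction i using Fin.cases with
    | zero =>
      rw [rels_zero, map_neg, neg_eq_zero]
      refine constantCoeff_of_homog (c.qq_homog j) ?_
      have h1 := c.card_le_D j
      have h2 := c.hK
      omega
    | succ i =>
      rw [rels_succ, rel, map_add]
      have e1 : constantCoeff (if i = j.castSucc then (X 0 ^ c.K : S3) else 0) = 0 := by
        split_ifs
        · exact constantCoeff_of_homog (isHomogeneous_X_pow 0 c.K) c.hK.ne'
        · simp
      have e2 : constantCoeff (if i = j.succ then - c.L j else 0) = 0 := by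
        split_ifs
        · rw [map_neg, constantCoeff_of_homog hL (hT j j.2).ne', neg_zero]
        · simp
      rw [e1, e2, add_zero]
  exact_r := c.exact_gens
  exact_ρ := c.exact_rels
  injective_ρ := c.injective_rels

end Config

end

end Pool.Agent.H74.Arr
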