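import Pool.Agent.H74.ArrAlg

/-!
# Generation of the module of logarithmic vector fields
-/

namespace Pool.Agent.H74.Arr

open MvPolynomial

noncomputable section

/-- `a y - b x` for the vector field `(c, a, b)`. -/
def wedge (v : Fin 3 → S3) : S3 := v 1 * X 2 - v 2 * X 1

lemma wedge_add (v w : Fin 3 → S3) : wedge (v + w) = wedge v + wedge w := by
  simp only [wedge, Pi.add_apply]; ring

lemma wedge_sub (v w : Fin 3 → S3) : wedge (v - w) = wedge v - wedge w := by
  simp only [wedge, Pi.sub_apply]; ring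

lemma wedge_smul (a : S3) (v : Fin 3 → S3) : wedge (a • v) = a * wedge v := by
  simp only [wedge, Pi.smul_apply, smul_eq_mul]; ring

lemma wedge_E : wedge E = 0 := by simp only [wedge, E]; ring

lemma wedge_sum {ι : Type*} (s : Finset ι) (v : ι → Fin 3 → S3) :
    wedge (∑ i ∈ s, v i) = ∑ i ∈ s, wedge (v i) := by
  classical
  induction s using Finset.induction_on with
  | empty => simp [wedge]
  | insert i s hi ih => rw [Finset.sum_insert hi, Finset.sum_insert hi, wedge_add, ih]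

lemma act_sum {ι : Type*} (s : Finset ι) (v : ι → Fin 3 → S3) (g : S3) :
    act (∑ i ∈ s, v i) g = ∑ i ∈ s, act (v i) g := by
  classical
  induction s using Finset.induction_on with
  | empty => simp [act]
  | insert i s hi ih => rw [Finset.sum_insert hi, Finset.sum_insert hi, act_add, ih]

/-- The vertical vector field `g ∂_z`. -/
def vert (g : S3) : Fin 3 → S3 := ![g, 0, 0]

lemma wedge_vert (g : S3) : wedge (vert g) = 0 := by simp [wedge, vert]

lemma act_vert (g h : S3) : act (vert g) h = g * pderiv 0 h := by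
  simp [act, vert, Fin.sum_univ_three]

lemma X1_not_dvd_X2 : ¬ (X 1 : S3) ∣ X 2 := by
  rw [X_dvd_X]; decide

/-- A vector field with `wedge = 0` is `e E + g ∂_z`. -/
lemma eq_of_wedge_eq_zero {v : Fin 3 → S3} (hw : wedge v = 0) :
    ∃ e g : S3, v = e • E + vert g := by
  have h1 : v 1 * X 2 = v 2 * X 1 := sub_eq_zero.mp hw
  have h2 : (X 1 : S3) ∣ v 1 * X 2 := by rw [h1]; exact dvd_mul_left _ _
  have hp : Prime (X 1 : S3) := X_prime
  obtain ⟨e, he⟩ := (hp.dvd_or_dvd h2).resolve_right X1_not_dvd_X2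
  have h3 : v 2 = e * X 2 := by
    have : X 1 * (e * X 2) = X 1 * v 2 := by
      rw [← mul_assoc, ← he, h1]; ring
    exact (mul_left_cancel₀ hp.ne_zero this).symm
  refine ⟨e, v 0 - e * X 0, ?_⟩
  funext k
  fin_cases k
  · simp [E, vert]
  · simp [E, vert, he]; ring
  · simp [E, vert, h3]

namespace Config

variable (c : Config)

/-- Log vector fields with `wedge = 0`. -/
lemma log_wedge_zero {v : Fin 3 → S3} (hv : ∀ p ∈ c.Λ, (X 0 - nodeS p) ∣ act v (X 0 - nodeS p))
    (hw : wedge v = 0) : ∃ e g : S3, v = e • E + g • vert c.B := by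
  obtain ⟨e, g, rfl⟩ := eq_of_wedge_eq_zero hw
  have h1 : ∀ p ∈ c.Λ, (X 0 - nodeS p) ∣ g := by
    intro p hp
    have h := hv p hp
    rw [act_add, act_smul, act_E (line_homog p), act_line] at h
    have e1 : vert g 0 - C p.1 * vert g 1 + C p.2 * vert g 2 = g := by simp [vert]
    rw [e1] at h
    have h2 : (X 0 - nodeS p) ∣ e * (((1 : ℕ) : S3) * (X 0 - nodeS p)) :=
      (dvd_mul_left _ _).mul_left _
    exact (dvd_add_right h2).mp h
  have h2 : c.B ∣ g := prod_dvd_of_primes c.Λ _ g (fun p _ => prime_line p)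
    (fun p hp q hq hpq => line_not_dvd_line (c.node_ne hp hq hpq)) h1
  obtain ⟨g', rfl⟩ := h2
  refine ⟨e, g', ?_⟩
  congr 1
  funext k
  fin_cases k
  · simp [vert, mul_comm]
  · simp [vert]
  · simp [vert]

/-- Divisibility by the non-special lines. -/
lemma A_dvd_wedge {v : Fin 3 → S3} (hv : ∀ σ ∈ c.Sg, ellS σ ∣ act v (ellS σ)) :
    c.A ∣ wedge v := by
  have e : c.A = ∏ σ ∈ c.Sg, ellS σ := by unfold A AR; rw [map_prod]; rfl
  rw [e]
  refine prod_dvd_of_primes c.Sg _ _ (fun σ _ => prime_ellS σ) ?_ ?_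
  · intro σ _ σ' _ hne hd
    exact hne (eq_of_ell_dvd (ellS_dvd_iota.mp hd))
  · intro σ hσ
    have h := hv σ hσ
    rw [act_ellS] at h
    have e2 : wedge v = (v 1 - C σ * v 2) * X 2 - v 2 * ellS σ := by
      rw [ellS_eq]; unfold wedge; ring
    rw [e2]
    exact dvd_sub (h.mul_right _) (dvd_mul_left _ _)

lemma quotS (σ : ℂ) (s : Finset (ℂ × ℂ)) (hs : ∀ p ∈ s, p.2 = σ * p.1) :
    ∃ Q : S3, X 0 ^ s.card - ∏ p ∈ s, (X 0 - nodeS p) = ellS σ * Q := by
  obtain ⟨Q, hQ⟩ := exists_quot σ s hs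
  refine ⟨(finSuccEquiv ℂ 2).symm Q, ?_⟩
  apply (finSuccEquiv ℂ 2).injective
  rw [map_mul, AlgEquiv.apply_symm_apply, ellS, phi_iota, ← hQ, map_sub, map_pow, phi_X0,
    map_prod, Interp.nodal]
  congr 1
  refine Finset.prod_congr rfl fun p _ => ?_
  rw [map_sub, phi_X0, nodeS, phi_iota]

/-- The condition at a special line. -/
lemma wedge_special {v : Fin 3 → S3} (hv : ∀ p ∈ c.Λ, (X 0 - nodeS p) ∣ act v (X 0 - nodeS p))
    {i : ℕ} (hi : i < c.s) {τ : ℂ} (hτ : τ ∈ c.T i) :
    ∃ a b : S3, wedge v = X 0 ^ ((i + 1) * c.K) * a + ellS τ * b := by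
  classical
  set cls := c.Λ.filter (fun r => r.2 = τ * r.1) with hcls
  set ta := v 1 - C τ * v 2 with hta
  have hnode : ∀ p ∈ cls, nodeS p = C p.1 * ellS τ := by
    intro p hp
    rw [hcls, Finset.mem_filter] at hp
    unfold nodeS ellS
    rw [node_of_line hp.2, map_mul, iota_C]
  have h1 : ∀ p ∈ cls, (X 0 - nodeS p) ∣ ellS τ * v 0 - X 0 * ta := by
    intro p hp
    have hp' : p ∈ c.Λ := (Finset.mem_filter.mp hp).1
    have h := hv p hp'
    rw [act_line] at h
    have hl : p.2 = τ * p.1 := (Finset.mem_filter.mp hp).2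
    have e1 : ellS τ * v 0 - X 0 * ta = ellS τ * (v 0 - C p.1 * v 1 + C p.2 * v 2) -
        (X 0 - nodeS p) * ta := by
      rw [hnode p hp, hta, hl, C_mul]
      ring
    rw [e1]
    exact dvd_sub (h.mul_left _) (dvd_mul_right _ _)
  have h2 : ∏ p ∈ cls, (X 0 - nodeS p) ∣ ellS τ * v 0 - X 0 * ta := by
    refine prod_dvd_of_primes cls _ _ (fun p _ => prime_line p) ?_ h1
    intro p hp q hq hpq
    exact line_not_dvd_line
      (c.node_ne (Finset.mem_filter.mp hp).1 (Finset.mem_filter.mp hq).1 hpq)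
  obtain ⟨H, hH⟩ := h2
  obtain ⟨Q, hQ⟩ := quotS τ cls (fun p hp => (Finset.mem_filter.mp hp).2)
  have hc : cls.card = (i + 1) * c.K + 1 := c.hcard i hi τ hτ
  rw [hc] at hQ
  -- `X 0 * (ta + X 0 ^ n * H)` is divisible by `ellS τ`
  have h3 : ellS τ ∣ X 0 * (ta + X 0 ^ ((i + 1) * c.K) * H) := by
    refine ⟨v 0 + Q * H, ?_⟩
    rw [pow_succ] at hQ
    linear_combination (-1 : S3) * hH + H * hQ
  obtain ⟨m, hm⟩ := ((prime_ellS τ).dvd_or_dvd h3).resolve_left (ellS_not_dvd_X0 τ)
  refine ⟨- H * X 2, m * X 2 - v 2, ?_⟩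
  have e2 : wedge v = ta * X 2 - v 2 * ellS τ := by
    rw [ellS_eq, hta]; unfold wedge; ring
  rw [e2]
  linear_combination (X 2 : S3) * hm

/-- The quotient of `wedge v` by `A` lies in the ideal generated by the `h j`. -/
lemma mem_span_h {v : Fin 3 → S3} (hv : ∀ p ∈ c.Λ, (X 0 - nodeS p) ∣ act v (X 0 - nodeS p))
    {i : S3} (hi : wedge v = c.A * i) :
    i ∈ Ideal.span (Set.range fun j : Fin (c.s + 1) => c.h j) := by
  classical
  set q := finSuccEquiv ℂ 2 i with hq
  -- divisibility of the coefficients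
  have hcoef : ∀ k, ∀ l < c.s, k < (l + 1) * c.K → ∀ τ ∈ c.T l, ell τ ∣ q.coeff k := by
    intro k l hl hk τ hτ
    obtain ⟨a, b, hab⟩ := c.wedge_special hv hl hτ
    rw [hi] at hab
    have h1 := congrArg (fun g => (finSuccEquiv ℂ 2 g).coeff k) hab
    simp only [map_mul, map_add, map_pow, phi_X0] at h1
    rw [A, phi_iota, ellS, phi_iota, Polynomial.coeff_C_mul, Polynomial.coeff_add,
      Polynomial.coeff_C_mul, Polynomial.coeff_X_pow_mul', if_neg (by omega), zero_add] at h1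
    have h2 : ell τ ∣ c.AR * q.coeff k := by rw [h1]; exact dvd_mul_right _ _
    refine ((prime_ell τ).dvd_or_dvd h2).resolve_left ?_
    unfold AR
    rw [(prime_ell τ).dvd_finsetProd_iff]
    rintro ⟨σ, hσ, hd⟩
    have := eq_of_ell_dvd hd
    subst this
    exact (Finset.disjoint_left.mp (c.hST l hl) hσ) hτ
  have hcoefP : ∀ j k, k < (j + 1) * c.K → c.PR j ∣ q.coeff k := by
    intro j k hk
    unfold PR LR
    rw [← Finset.prod_biUnion]
    · refine prod_dvd_of_primes _ _ _ (fun τ _ => prime_ell τ)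
        (fun τ _ τ' _ hne hd => hne (eq_of_ell_dvd hd)) ?_
      intro τ hτ
      rw [Finset.mem_biUnion] at hτ
      obtain ⟨l, hl, hτ⟩ := hτ
      rw [Finset.mem_Ico] at hl
      refine hcoef k l hl.2 (lt_of_lt_of_le hk ?_) τ hτ
      exact Nat.mul_le_mul_right _ (by omega)
    · intro a ha b hb hab
      rw [Finset.mem_coe, Finset.mem_Ico] at ha hb
      exact c.disj a ha.2 b hb.2 hab
  -- the sum of monomials
  have hsum : i = ∑ k ∈ Finset.range (q.natDegree + 1), iota (q.coeff k) * X 0 ^ k := by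
    apply (finSuccEquiv ℂ 2).injective
    rw [← hq, map_sum]
    conv_lhs => rw [q.as_sum_range_C_mul_X_pow]
    refine Finset.sum_congr rfl fun k _ => ?_
    rw [map_mul, map_pow, phi_X0, phi_iota]
  rw [hsum]
  refine Ideal.sum_mem _ fun k _ => ?_
  -- the index
  set j := min (k / c.K) c.s with hj
  have hjs : j < c.s + 1 := by omega
  have hmem : c.h j ∈ Ideal.span (Set.range fun j : Fin (c.s + 1) => c.h j) :=
    Ideal.subset_span ⟨⟨j, hjs⟩, rfl⟩
  have hjk : j * c.K ≤ k := by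
    calc j * c.K ≤ k / c.K * c.K := Nat.mul_le_mul_right _ (min_le_left _ _)
      _ ≤ k := Nat.div_mul_le_self k c.K
  have hdvd : c.PR j ∣ q.coeff k := by
    by_cases hks : k / c.K < c.s
    · have e : j = k / c.K := by omega
      rw [e]
      apply hcoefP
      rw [mul_comm]
      exact Nat.lt_mul_div_succ k c.hK
    · have e : j = c.s := by omega
      rw [e]
      unfold PR
      simp
  have hdvd2 : c.h j ∣ iota (q.coeff k) * X 0 ^ k := by
    obtain ⟨a, ha⟩ := hdvd
    refine ⟨iota a * X 0 ^ (k - j * c.K), ?_⟩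
    unfold h P
    rw [ha, map_mul]
    have : (X 0 : S3) ^ k = X 0 ^ (j * c.K) * X 0 ^ (k - j * c.K) := by
      rw [← pow_add]; congr 1; omega
    rw [this]
    ring
  exact Ideal.mem_of_dvd _ hdvd2 hmem

end Config

end

end Pool.Agent.H74.Arr
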