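import Pool.Agent.H74.ArrLocal

/-!
# Passing from `ℂ[x, y][z]` to `ℂ[z, x, y]`
-/

namespace Pool.Agent.H74.Arr

open MvPolynomial

noncomputable section

/-- `ℂ[z, x, y]`, with `z = X 0`, `x = X 1`, `y = X 2`. -/
abbrev S3 := MvPolynomial (Fin 3) ℂ

/-- The inclusion `ℂ[x, y] ⊂ ℂ[z, x, y]`. -/
def iota : R2 →ₐ[ℂ] S3 := rename Fin.succ

@[simp] lemma iota_X0 : iota (X 0) = X 1 := by simp [iota]
@[simp] lemma iota_X1 : iota (X 1) = X 2 := by
  simp only [iota, rename_X]; rfl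
@[simp] lemma iota_C (a : ℂ) : iota (C a) = C a := by simp [iota]

lemma phi_iota (r : R2) : finSuccEquiv ℂ 2 (iota r) = Polynomial.C r := by
  have h : ((finSuccEquiv ℂ 2).toAlgHom.comp iota) =
      (Polynomial.CAlgHom (R := ℂ) (A := R2)) := by
    apply MvPolynomial.algHom_ext
    intro i
    change finSuccEquiv ℂ 2 (rename Fin.succ (X i)) = Polynomial.C (X i)
    rw [rename_X, finSuccEquiv_X_succ]
  exact DFunLike.congr_fun h r

@[simp] lemma phi_X0 : finSuccEquiv ℂ 2 (X 0) = Polynomial.X := finSuccEquiv_X_zero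

lemma iota_injective : Function.Injective iota :=
  rename_injective _ (Fin.succ_injective 2)

lemma iota_homog {r : R2} {n : ℕ} (h : r.IsHomogeneous n) : (iota r).IsHomogeneous n :=
  h.rename_isHomogeneous

lemma pderiv0_iota (r : R2) : pderiv 0 (iota r) = 0 := by
  unfold iota
  induction r using MvPolynomial.induction_on with
  | C a => simp
  | add p q hp hq => simp [hp, hq]
  | mul_X p i hp =>
    rw [map_mul, rename_X, Derivation.leibniz, hp, pderiv_X_of_ne (Fin.succ_ne_zero i)]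
    simp

lemma pderiv1_iota (r : R2) : pderiv 1 (iota r) = iota (pderiv 0 r) :=
  pderiv_rename (Fin.succ_injective 2) 0 r

lemma pderiv2_iota (r : R2) : pderiv 2 (iota r) = iota (pderiv 1 r) :=
  pderiv_rename (Fin.succ_injective 2) 1 r

lemma prime_phi {f : S3} : Prime (finSuccEquiv ℂ 2 f) ↔ Prime f :=
  MulEquiv.prime_iff (finSuccEquiv ℂ 2).toMulEquiv

lemma phi_dvd {f g : S3} : finSuccEquiv ℂ 2 f ∣ finSuccEquiv ℂ 2 g ↔ f ∣ g :=
  map_dvd_iff (finSuccEquiv ℂ 2)

/-- `x - σ y` in `ℂ[z, x, y]`. -/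
def ellS (σ : ℂ) : S3 := iota (ell σ)

/-- `α x - β y` in `ℂ[z, x, y]`. -/
def nodeS (p : ℂ × ℂ) : S3 := iota (node p)

lemma ellS_eq (σ : ℂ) : ellS σ = X 1 - C σ * X 2 := by simp [ellS, ell]

lemma nodeS_eq (p : ℂ × ℂ) : nodeS p = C p.1 * X 1 - C p.2 * X 2 := by simp [nodeS, node]

lemma prime_ellS (σ : ℂ) : Prime (ellS σ) := by
  rw [← prime_phi, ellS, phi_iota]
  exact Polynomial.prime_C_iff.mpr (prime_ell σ)

lemma prime_line (p : ℂ × ℂ) : Prime (X 0 - nodeS p) := by
  rw [← prime_phi, map_sub, phi_X0, nodeS, phi_iota]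
  exact Polynomial.prime_X_sub_C _

lemma dvd_sub_iota_eval (p : ℂ × ℂ) (c : S3) :
    X 0 - nodeS p ∣ c - iota ((finSuccEquiv ℂ 2 c).eval (node p)) := by
  rw [← phi_dvd, map_sub, map_sub, phi_X0, nodeS, phi_iota, phi_iota]
  exact Polynomial.X_sub_C_dvd_sub_C_eval

section Graded

attribute [local instance] MvPolynomial.gradedAlgebra

/-- Homogeneous components of a product with a homogeneous factor. -/
lemma hc_mul {a b : S3} {i : ℕ} (ha : a.IsHomogeneous i) (n : ℕ) :
    homogeneousComponent (i + n) (a * b) = a * homogeneousComponent n b := by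
  have h := DirectSum.coe_decompose_mul_of_left_mem_of_le (homogeneousSubmodule (Fin 3) ℂ)
    (a := a) (b := b) (i := i) (n := i + n) ha (Nat.le_add_right _ _)
  rw [Nat.add_sub_cancel_left] at h
  have e1 : ∀ (p : S3) (k : ℕ), ((DirectSum.decompose (homogeneousSubmodule (Fin 3) ℂ) p k :
      homogeneousSubmodule (Fin 3) ℂ k) : S3) = homogeneousComponent k p :=
    fun p k => decomposition.decompose'_apply p k
  rw [e1, e1] at h
  exact h

lemma hc_dvd {g p : S3} {i : ℕ} (hg : g.IsHomogeneous i) (h : g ∣ p) (n : ℕ) :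
    g ∣ homogeneousComponent n p := by
  have hI : (Ideal.span {g}).IsHomogeneous (homogeneousSubmodule (Fin 3) ℂ) := by
    apply Ideal.homogeneous_span
    intro x hx
    rw [Set.mem_singleton_iff] at hx
    subst hx
    exact ⟨i, hg⟩
  rw [← Ideal.mem_span_singleton] at h ⊢
  exact homogeneousComponent_mem_of_mem hI h n

end Graded

lemma ell_homog (σ : ℂ) : (ell σ).IsHomogeneous 1 := by
  unfold ell
  exact (isHomogeneous_X ℂ 0).sub (isHomogeneous_C_mul_X σ 1)

lemma node_homog (p : ℂ × ℂ) : (node p).IsHomogeneous 1 := by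
  unfold node
  exact (isHomogeneous_C_mul_X _ 0).sub (isHomogeneous_C_mul_X _ 1)

lemma line_homog (p : ℂ × ℂ) : (X 0 - nodeS p : S3).IsHomogeneous 1 :=
  (isHomogeneous_X ℂ 0).sub (iota_homog (node_homog p))

/-- Existence of the homogeneous third component. -/
lemma exists_cS (Λ : Finset (ℂ × ℂ)) (hα : Set.InjOn Prod.fst (Λ : Set (ℂ × ℂ))) (G : R2)
    (N g : ℕ) (hG : G.IsHomogeneous (g + 1))
    (H : ∀ p ∈ Λ, ∀ q ∈ Λ, p ≠ q → ell ((p.2 - q.2) / (p.1 - q.1)) ∣ G ∨
      (q.2 = ((p.2 - q.2) / (p.1 - q.1)) * q.1 ∧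
        (Λ.filter (fun r => r.2 = ((p.2 - q.2) / (p.1 - q.1)) * r.1)).card ≤ N + 1)) :
    ∃ c : S3, c.IsHomogeneous (N + g) ∧ ∀ p ∈ Λ, X 0 - nodeS p ∣
      c - X 0 ^ N * (C p.1 * iota (pderiv 1 G) + C p.2 * iota (pderiv 0 G)) := by
  obtain ⟨c, hc⟩ := exists_c Λ hα G N H
  set c' : S3 := (finSuccEquiv ℂ 2).symm c with hc'
  refine ⟨homogeneousComponent (N + g) c', homogeneousComponent_isHomogeneous _ _, ?_⟩
  intro p hp
  have h1 := dvd_sub_iota_eval p c'
  rw [hc', AlgEquiv.apply_symm_apply, ← hc', hc p hp] at h1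
  have h2 : X 0 - nodeS p ∣ X 0 ^ N * (C p.1 * iota (pderiv 1 G) + C p.2 * iota (pderiv 0 G)) -
      iota (val G N p) := by
    have e : X 0 ^ N * (C p.1 * iota (pderiv 1 G) + C p.2 * iota (pderiv 0 G)) -
      iota (val G N p) = (X 0 ^ N - nodeS p ^ N) *
        (C p.1 * iota (pderiv 1 G) + C p.2 * iota (pderiv 0 G)) := by
      unfold val nodeS
      simp only [map_mul, map_pow, map_add, iota_C]
      ring
    rw [e]
    exact (sub_dvd_pow_sub_pow _ _ _).mul_right _
  have h3 : X 0 - nodeS p ∣ c' - X 0 ^ N * (C p.1 * iota (pderiv 1 G) +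
      C p.2 * iota (pderiv 0 G)) := by
    have e := dvd_sub h1 h2
    convert e using 1
    ring
  have h4 := hc_dvd (line_homog p) h3 (N + g)
  rw [map_sub] at h4
  have h5 : (X 0 ^ N * (C p.1 * iota (pderiv 1 G) + C p.2 * iota (pderiv 0 G)) : S3).IsHomogeneous
      (N + g) := by
    have hd1 : (pderiv 1 G).IsHomogeneous g := by simpa using hG.pderiv (i := 1)
    have hd0 : (pderiv 0 G).IsHomogeneous g := by simpa using hG.pderiv (i := 0)
    have h6 := (isHomogeneous_X_pow (R := ℂ) (0 : Fin 3) N).mul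
      (((iota_homog hd1).C_mul p.1).add ((iota_homog hd0).C_mul p.2))
    exact h6
  rwa [homogeneousComponent_eq_self h5] at h4

end

end Pool.Agent.H74.Arr
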