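import Pool.Agent.H74.Interp

/-!
# Local solutions of the interpolation problem for line arrangements
-/

namespace Pool.Agent.H74.Arr

open MvPolynomial

noncomputable section

/-- `ℂ[x, y]`. -/
abbrev R2 := MvPolynomial (Fin 2) ℂ

/-- The linear form `x - σ y`. -/
def ell (σ : ℂ) : R2 := X 0 - C σ * X 1

/-- The linear form `α x - β y` attached to the pair `(α, β)`. -/
def node (p : ℂ × ℂ) : R2 := C p.1 * X 0 - C p.2 * X 1

lemma prime_ell (σ : ℂ) : Prime (ell σ) := by
  rw [← MulEquiv.prime_iff (finSuccEquiv ℂ 1).toMulEquiv]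
  have : (finSuccEquiv ℂ 1).toMulEquiv (ell σ) =
      Polynomial.X - Polynomial.C (C σ * X 0) := by
    have h1 : (1 : Fin 2) = Fin.succ 0 := rfl
    change finSuccEquiv ℂ 1 (ell σ) = _
    unfold ell
    rw [map_sub, map_mul, finSuccEquiv_X_zero, h1, finSuccEquiv_X_succ]
    simp [finSuccEquiv_apply]
  rw [this]
  exact Polynomial.prime_X_sub_C _

lemma ell_ne_zero (σ : ℂ) : ell σ ≠ 0 := (prime_ell σ).ne_zero

lemma eq_of_ell_dvd {σ σ' : ℂ} (h : ell σ ∣ ell σ') : σ = σ' := by
  obtain ⟨g, hg⟩ := h
  have := congrArg (MvPolynomial.eval ![σ, 1]) hg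
  simp [ell] at this
  exact (sub_eq_zero.mp this)

lemma node_sub (p q : ℂ × ℂ) (h : p.1 ≠ q.1) :
    node p - node q = C (p.1 - q.1) * ell ((p.2 - q.2) / (p.1 - q.1)) := by
  have h' : p.1 - q.1 ≠ 0 := sub_ne_zero.mpr h
  unfold node ell
  rw [mul_sub, ← mul_assoc (C (p.1 - q.1)) (C _), ← C_mul, mul_div_cancel₀ _ h']
  simp only [C_sub]
  ring

lemma node_of_line {σ : ℂ} {p : ℂ × ℂ} (h : p.2 = σ * p.1) : node p = C p.1 * ell σ := by
  unfold node ell
  rw [h, C_mul]
  ring

lemma node_injOn {Λ : Finset (ℂ × ℂ)} (hα : Set.InjOn Prod.fst (Λ : Set (ℂ × ℂ))) :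
    Set.InjOn node (Λ : Set (ℂ × ℂ)) := by
  intro p hp q hq h
  by_contra hne
  have h1 : p.1 ≠ q.1 := fun h' => hne (hα hp hq h')
  have h2 := node_sub p q h1
  rw [h, sub_self] at h2
  have h3 : (C (p.1 - q.1) : R2) ≠ 0 := by
    rw [Ne, C_eq_zero]; exact sub_ne_zero.mpr h1
  exact (mul_ne_zero h3 (ell_ne_zero _)) h2.symm

/-- `∏ (X - α ℓ) ≡ X^n` modulo `ℓ`. -/
lemma exists_quot (σ : ℂ) (s : Finset (ℂ × ℂ)) (hs : ∀ p ∈ s, p.2 = σ * p.1) :
    ∃ Q : Polynomial R2, Polynomial.X ^ s.card - Interp.nodal node s =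
      Polynomial.C (ell σ) * Q := by
  classical
  induction s using Finset.induction_on with
  | empty => exact ⟨0, by simp [Interp.nodal]⟩
  | insert p s hp ih =>
    obtain ⟨Q, hQ⟩ := ih (fun q hq => hs q (Finset.mem_insert_of_mem hq))
    have h2 : Interp.nodal node (insert p s) =
        (Polynomial.X - Polynomial.C (node p)) * Interp.nodal node s := by
      unfold Interp.nodal; rw [Finset.prod_insert hp]
    refine ⟨Polynomial.X * Q + Polynomial.C (C p.1) * Interp.nodal node s, ?_⟩
    rw [h2, Finset.card_insert_of_notMem hp, node_of_line (hs p (Finset.mem_insert_self _ _)),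
      Polynomial.C_mul, pow_succ]
    linear_combination Polynomial.X * hQ

/-- The values to be interpolated. -/
def val (G : R2) (N : ℕ) (p : ℂ × ℂ) : R2 :=
  node p ^ N * (C p.1 * pderiv 1 G + C p.2 * pderiv 0 G)

/-- The interpolation problem is solvable. -/
lemma exists_c (Λ : Finset (ℂ × ℂ)) (hα : Set.InjOn Prod.fst (Λ : Set (ℂ × ℂ))) (G : R2) (N : ℕ)
    (H : ∀ p ∈ Λ, ∀ q ∈ Λ, p ≠ q → ell ((p.2 - q.2) / (p.1 - q.1)) ∣ G ∨
      (q.2 = ((p.2 - q.2) / (p.1 - q.1)) * q.1 ∧
        (Λ.filter (fun r => r.2 = ((p.2 - q.2) / (p.1 - q.1)) * r.1)).card ≤ N + 1)) :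
    ∃ c : Polynomial R2, ∀ p ∈ Λ, c.eval (node p) = val G N p := by
  classical
  refine Interp.interpolation node (val G N) Λ (node_injOn hα) ?_ (prime_ell 0)
  intro π hπ q hq
  by_cases hex : ∃ p ∈ Λ, p ≠ q ∧ π ∣ node p - node q
  · obtain ⟨p, hp, hpq, hdvd⟩ := hex
    have h1 : p.1 ≠ q.1 := fun h' => hpq (hα hp hq h')
    set σ := (p.2 - q.2) / (p.1 - q.1) with hσ
    have hsub := node_sub p q h1
    rw [← hσ] at hsub
    have hπσ : π ∣ ell σ := by
      rw [hsub] at hdvd
      rcases hπ.dvd_or_dvd hdvd with h | h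
      · exfalso
        apply hπ.not_isUnit
        apply isUnit_of_dvd_unit h
        exact (IsUnit.mk0 _ (sub_ne_zero.mpr h1)).map C
      · exact h
    have hassoc : Associated π (ell σ) := (hπ.dvd_prime_iff_associated (prime_ell σ)).mp hπσ
    -- the members of the class
    have hcls : ∀ r ∈ Λ, π ∣ node r - node q → r.2 - q.2 = σ * (r.1 - q.1) := by
      intro r hr hd
      by_cases hrq : r = q
      · subst hrq; simp
      · have h2 : r.1 ≠ q.1 := fun h' => hrq (hα hr hq h')
        have h3 := node_sub r q h2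
        have h4 : ell σ ∣ node r - node q := hassoc.symm.dvd.trans hd
        rw [h3] at h4
        have h5 : ell σ ∣ ell ((r.2 - q.2) / (r.1 - q.1)) := by
          rcases (prime_ell σ).dvd_or_dvd h4 with h | h
          · exfalso
            apply (prime_ell σ).not_isUnit
            apply isUnit_of_dvd_unit h
            exact (IsUnit.mk0 _ (sub_ne_zero.mpr h2)).map C
          · exact h
        rw [eq_of_ell_dvd h5, div_mul_cancel₀ _ (sub_ne_zero.mpr h2)]
    rcases H p hp q hq hpq with hG | ⟨hline, hcard⟩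
    · -- `ell σ` divides `G`
      obtain ⟨G', hG'⟩ := hG
      rw [← hσ] at hG'
      set V := pderiv 1 G' + C σ * pderiv 0 G' with hV
      have hVG : pderiv 1 G + C σ * pderiv 0 G = ell σ * V := by
        rw [hG', hV]
        unfold ell
        simp only [Derivation.leibniz, smul_eq_mul, map_sub, pderiv_X_self, pderiv_C,
          pderiv_X_of_ne (show (1 : Fin 2) ≠ 0 by decide), pderiv_X_of_ne (show (0 : Fin 2) ≠ 1 by decide)]
        ring
      refine ⟨Polynomial.X ^ N * (Polynomial.C (C q.1 * pderiv 1 G + C q.2 * pderiv 0 G) +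
        (Polynomial.X - Polynomial.C (node q)) * Polynomial.C V), ?_⟩
      intro r hr hd
      have h2 := hcls r hr hd
      have h3 : node r - node q = C (r.1 - q.1) * ell σ := by
        have e2 : r.2 = q.2 + σ * (r.1 - q.1) := by rw [← h2]; ring
        unfold node ell
        rw [e2]
        simp only [C_add, C_mul, C_sub]
        ring
      have e2 : r.2 = q.2 + σ * (r.1 - q.1) := by rw [← h2]; ring
      simp only [Polynomial.eval_mul, Polynomial.eval_pow, Polynomial.eval_X,
        Polynomial.eval_add, Polynomial.eval_C, Polynomial.eval_sub]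
      rw [h3]
      unfold val
      have e3 : (C r.1 * pderiv 1 G + C r.2 * pderiv 0 G : R2) =
          C q.1 * pderiv 1 G + C q.2 * pderiv 0 G +
            C (r.1 - q.1) * (pderiv 1 G + C σ * pderiv 0 G) := by
        rw [e2]
        simp only [C_add, C_mul, C_sub]
        ring
      rw [e3, hVG]
      ring
    · -- the special class
      rw [← hσ] at hline hcard
      set cls := Λ.filter (fun r => r.2 = σ * r.1) with hclsdef
      obtain ⟨Q, hQ⟩ := exists_quot σ cls (by
        intro r hr
        rw [hclsdef, Finset.mem_filter] at hr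
        exact hr.2)
      set Wd := pderiv 1 G + C σ * pderiv 0 G with hWd
      refine ⟨Polynomial.X ^ (N + 1 - cls.card) * Q * Polynomial.C Wd, ?_⟩
      intro r hr hd
      have h2 := hcls r hr hd
      have hrl : r.2 = σ * r.1 := by
        have : r.2 = q.2 + σ * (r.1 - q.1) := by rw [← h2]; ring
        rw [this, hline]; ring
      have hrc : r ∈ cls := by
        rw [hclsdef, Finset.mem_filter]; exact ⟨hr, hrl⟩
      have h4 := congrArg (Polynomial.eval (node r)) hQ
      rw [Polynomial.eval_sub, Polynomial.eval_pow, Polynomial.eval_X,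
        Interp.nodal_eval_eq_zero node hrc, sub_zero, Polynomial.eval_mul,
        Polynomial.eval_C] at h4
      simp only [Polynomial.eval_mul, Polynomial.eval_pow, Polynomial.eval_X,
        Polynomial.eval_C]
      apply mul_left_cancel₀ (ell_ne_zero σ)
      have h5 : node r = C r.1 * ell σ := node_of_line hrl
      calc ell σ * (node r ^ (N + 1 - cls.card) * Q.eval (node r) * Wd)
          = node r ^ (N + 1 - cls.card) * (ell σ * Q.eval (node r)) * Wd := by ring
        _ = node r ^ (N + 1 - cls.card) * node r ^ cls.card * Wd := by rw [← h4]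
        _ = node r ^ N * node r * Wd := by
            rw [← pow_add, Nat.sub_add_cancel hcard, pow_succ]
        _ = node r ^ N * (C r.1 * ell σ) * Wd := by
            conv_lhs => rw [mul_assoc, mul_comm (node r) Wd, ← mul_assoc]
            nth_rewrite 2 [h5]
            ring
        _ = ell σ * val G N r := by
            unfold val
            rw [hrl, hWd, C_mul]
            ring
  · push Not at hex
    refine ⟨Polynomial.C (val G N q), fun r hr hd => ?_⟩
    by_cases hrq : r = q
    · subst hrq; simp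
    · exact absurd hd (hex r hr hrq)

end

end Pool.Agent.H74.Arr
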