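import Pool.Agent.H74.ArrKer

/-!
# The generators of the syzygy module and their relations
-/

namespace Pool.Agent.H74.Arr

open MvPolynomial

noncomputable section

namespace Config

variable (c : Config)

/-- The degree of the generator attached to `h j`. -/
def D (j : ℕ) : ℕ := j * c.K + (c.Sg.card + c.dp j - 1)

lemma D_step {j : ℕ} (hj : j < c.s) : c.D (j + 1) + (c.T j).card = c.K + c.D j := by
  have h1 := c.dp_step hj
  have h2 := c.card_Sg
  unfold D
  rw [Nat.add_mul]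
  omega

lemma card_le_D (j : ℕ) : c.Λ.card ≤ c.D j := by
  have := c.hbig
  unfold D
  omega

lemma D_pos (j : ℕ) : 1 ≤ c.D j := le_trans c.card_Λ_pos (c.card_le_D j)

/-- The hypothesis of the interpolation lemma. -/
lemma interp_hyp (j : ℕ) : ∀ p ∈ c.Λ, ∀ q ∈ c.Λ, p ≠ q →
    ell ((p.2 - q.2) / (p.1 - q.1)) ∣ c.GR j ∨
      (q.2 = ((p.2 - q.2) / (p.1 - q.1)) * q.1 ∧
        (c.Λ.filter (fun r => r.2 = ((p.2 - q.2) / (p.1 - q.1)) * r.1)).card ≤ j * c.K + 1) := by
  intro p hp q hq hpq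
  rcases c.hsl p hp q hq hpq with h | ⟨i, hi, h, h'⟩
  · left
    exact (Finset.dvd_prod_of_mem _ h).mul_right _
  · by_cases hij : j ≤ i
    · left
      refine Dvd.dvd.mul_left ?_ _
      exact (Finset.dvd_prod_of_mem _ h).trans
        (Finset.dvd_prod_of_mem c.LR (Finset.mem_Ico.mpr ⟨hij, hi⟩))
    · right
      refine ⟨h', ?_⟩
      rw [c.hcard i hi _ h]
      have : (i + 1) * c.K ≤ j * c.K := Nat.mul_le_mul_right _ (by omega)
      omega

/-- The logarithmic vector fields `θ_j`. -/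
lemma exists_theta (j : ℕ) : ∃ θ : Fin 3 → S3, (∀ k, (θ k).IsHomogeneous (c.D j)) ∧
    wedge θ = c.A * c.h j ∧ c.f ∣ act θ c.f := by
  have hcS := c.card_Sg
  obtain ⟨g, hg⟩ : ∃ g, c.Sg.card + c.dp j = g + 1 := ⟨c.Sg.card + c.dp j - 1, by omega⟩
  set G := c.GR j with hG
  have hGh : G.IsHomogeneous (g + 1) := hg ▸ c.GR_homog j
  obtain ⟨c₀, hc₀, hdiv⟩ := exists_cS c.Λ c.hα G (j * c.K) g hGh (c.interp_hyp j)
  set N := j * c.K with hN
  have hD : c.D j = N + g := by unfold D; omega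
  set θ₀ : Fin 3 → S3 := ![c₀, X 0 ^ N * iota (pderiv 1 G), - (X 0 ^ N * iota (pderiv 0 G))]
    with hθ₀
  have h00 : θ₀ 0 = c₀ := rfl
  have h01 : θ₀ 1 = X 0 ^ N * iota (pderiv 1 G) := rfl
  have h02 : θ₀ 2 = - (X 0 ^ N * iota (pderiv 0 G)) := rfl
  have hd1 : (pderiv 1 G).IsHomogeneous g := by simpa using hGh.pderiv (i := 1)
  have hd0 : (pderiv 0 G).IsHomogeneous g := by simpa using hGh.pderiv (i := 0)
  have hhom : ∀ k, (θ₀ k).IsHomogeneous (N + g) := by
    intro k
    fin_cases k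
    · exact hc₀
    · exact (isHomogeneous_X_pow (R := ℂ) (0 : Fin 3) N).mul (iota_homog hd1)
    · exact ((isHomogeneous_X_pow (R := ℂ) (0 : Fin 3) N).mul (iota_homog hd0)).neg
  have hiG : iota G = c.A * c.P j := by rw [hG]; unfold GR A P; rw [map_mul]
  have hwedge : wedge θ₀ = C ((g : ℂ) + 1) * (c.A * c.h j) := by
    have heul : X 1 * iota (pderiv 0 G) + X 2 * iota (pderiv 1 G) = C ((g : ℂ) + 1) * iota G := by
      have h := hGh.sum_X_mul_pderiv
      rw [Fin.sum_univ_two] at h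
      have h2 := congrArg iota h
      rw [map_add, map_mul, map_mul, iota_X0, iota_X1] at h2
      rw [h2, map_nsmul, nsmul_eq_mul]
      congr 1
      simp
    unfold wedge
    rw [h01, h02]
    unfold h
    rw [← hN]
    have : C ((g : ℂ) + 1) * (c.A * (X 0 ^ N * c.P j)) =
        X 0 ^ N * (C ((g : ℂ) + 1) * iota G) := by rw [hiG]; ring
    rw [this, ← heul]
    ring
  have hA : c.A ∣ act θ₀ c.A := by
    unfold act A
    rw [Fin.sum_univ_three, pderiv0_iota, pderiv1_iota, pderiv2_iota, h01, h02]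
    have hG2 : G = c.AR * c.PR j := hG
    refine ⟨X 0 ^ N * iota (pderiv 1 (c.PR j) * pderiv 0 c.AR -
      pderiv 0 (c.PR j) * pderiv 1 c.AR), ?_⟩
    rw [hG2, Derivation.leibniz, Derivation.leibniz]
    simp only [smul_eq_mul, map_add, map_mul, map_sub]
    ring
  have hB : c.B ∣ act θ₀ c.B := by
    unfold B
    refine dvd_act_prod _ _ fun p hp => ?_
    rw [act_line, h00, h01, h02]
    convert hdiv p hp using 1
    ring
  have hf : c.f ∣ act θ₀ c.f := dvd_act_mul hA hB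
  have hg0 : ((g : ℂ) + 1) ≠ 0 := by exact_mod_cast Nat.succ_ne_zero g
  refine ⟨(C (1 / ((g : ℂ) + 1)) : S3) • θ₀, fun k => ?_, ?_, ?_⟩
  · rw [hD]
    exact (hhom k).C_mul _
  · rw [wedge_smul, hwedge, ← mul_assoc, ← C_mul, one_div, inv_mul_cancel₀ hg0, C_1, one_mul]
  · rw [act_smul]
    exact hf.mul_left _

lemma cd_ne_zero : (c.d : ℂ) ≠ 0 := by
  exact_mod_cast c.d_pos.ne'

/-- Make a logarithmic vector field into a syzygy. -/
lemma exists_syz {θ : Fin 3 → S3} {D : ℕ} (hD : 1 ≤ D) (hhom : ∀ k, (θ k).IsHomogeneous D)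
    (hf : c.f ∣ act θ c.f) : ∃ r : Fin 3 → S3, (∀ k, (r k).IsHomogeneous D) ∧
      wedge r = wedge θ ∧ act r c.f = 0 := by
  obtain ⟨u, hu⟩ := hf
  obtain ⟨D', rfl⟩ : ∃ D', D = D' + 1 := ⟨D - 1, by omega⟩
  have hact : (act θ c.f).IsHomogeneous (c.d + D') := by
    unfold act
    refine IsHomogeneous.sum _ _ _ fun k _ => ?_
    have h1 := (hhom k).mul (c.f_homog.pderiv (i := k))
    have e : D' + 1 + (c.d - 1) = c.d + D' := by
      have := c.d_pos; omega
    rwa [e] at h1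
  have huh : u.IsHomogeneous D' := homog_of_mul c.f_homog c.f_ne_zero (hu ▸ hact)
  refine ⟨θ - (C (1 / (c.d : ℂ)) * u) • E, fun k => ?_, ?_, ?_⟩
  · refine (hhom k).sub ?_
    exact (huh.C_mul _).mul (isHomogeneous_X ℂ k)
  · rw [wedge_sub, wedge_smul, wedge_E, mul_zero, sub_zero]
  · rw [act_sub, act_smul, act_E c.f_homog, hu]
    have h1 : (C (1 / (c.d : ℂ)) : S3) * (c.d : S3) = 1 := by
      have : ((c.d : ℕ) : S3) = C (c.d : ℂ) := by simp
      rw [this, ← C_mul, one_div, inv_mul_cancel₀ c.cd_ne_zero, C_1]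
    linear_combination (- u * c.f) * h1

lemma exists_r (j : ℕ) : ∃ r : Fin 3 → S3, (∀ k, (r k).IsHomogeneous (c.D j)) ∧
    wedge r = c.A * c.h j ∧ act r c.f = 0 := by
  obtain ⟨θ, h1, h2, h3⟩ := c.exists_theta j
  obtain ⟨r, h4, h5, h6⟩ := c.exists_syz (c.D_pos j) h1 h3
  exact ⟨r, h4, h5.trans h2, h6⟩

/-- The generators `r_j`. -/
def rr (j : ℕ) : Fin 3 → S3 := (c.exists_r j).choose

lemma rr_homog (j : ℕ) (k : Fin 3) : (c.rr j k).IsHomogeneous (c.D j) :=
  (c.exists_r j).choose_spec.1 k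

lemma rr_wedge (j : ℕ) : wedge (c.rr j) = c.A * c.h j := (c.exists_r j).choose_spec.2.1

lemma rr_act (j : ℕ) : act (c.rr j) c.f = 0 := (c.exists_r j).choose_spec.2.2

/-- The generator `r_0 = B ∂_z - (1/d) B_z E`. -/
def r0 : Fin 3 → S3 := vert c.B - (C (1 / (c.d : ℂ)) * pderiv 0 c.B) • E

lemma pderiv0_f : pderiv 0 c.f = c.A * pderiv 0 c.B := by
  unfold f
  rw [Derivation.leibniz]
  have : pderiv 0 c.A = 0 := pderiv0_iota _
  rw [this]
  simp

lemma C_inv_d : (C (1 / (c.d : ℂ)) : S3) * (c.d : S3) = 1 := by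
  have : ((c.d : ℕ) : S3) = C (c.d : ℂ) := by simp
  rw [this, ← C_mul, one_div, inv_mul_cancel₀ c.cd_ne_zero, C_1]

lemma r0_act : act c.r0 c.f = 0 := by
  unfold r0
  rw [act_sub, act_smul, act_E c.f_homog, act_vert, pderiv0_f]
  have h1 := c.C_inv_d
  have hf : c.f = c.A * c.B := rfl
  rw [hf]
  linear_combination (- pderiv 0 c.B * (c.A * c.B)) * h1

lemma r0_wedge : wedge c.r0 = 0 := by
  unfold r0
  rw [wedge_sub, wedge_smul, wedge_E, wedge_vert, mul_zero, sub_zero]

lemma r0_homog (k : Fin 3) : (c.r0 k).IsHomogeneous c.Λ.card := by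
  have h1 : (pderiv 0 c.B).IsHomogeneous (c.Λ.card - 1) := c.B_homog.pderiv
  have h2 : ((C (1 / (c.d : ℂ)) * pderiv 0 c.B) * E k).IsHomogeneous c.Λ.card := by
    have := (h1.C_mul (1 / (c.d : ℂ))).mul (isHomogeneous_X ℂ k)
    have e : c.Λ.card - 1 + 1 = c.Λ.card := by have := c.card_Λ_pos; omega
    rwa [e] at this
  unfold r0
  refine IsHomogeneous.sub ?_ h2
  fin_cases k
  · exact c.B_homog
  · exact isHomogeneous_zero _ _ _
  · exact isHomogeneous_zero _ _ _

lemma r0_ne_zero : c.r0 ≠ 0 := by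
  intro h
  have h1 := congrFun h 1
  have h0 := congrFun h 0
  simp only [r0, Pi.sub_apply, Pi.smul_apply, smul_eq_mul, E, vert, Matrix.cons_val_one,
    Matrix.cons_val_zero, Pi.zero_apply, zero_sub, neg_eq_zero] at h1 h0
  have hX : (X 1 : S3) ≠ 0 := X_ne_zero 1
  have h2 := (mul_eq_zero.mp h1).resolve_right hX
  rw [h2, zero_mul, sub_zero] at h0
  exact c.B_ne_zero h0

/-- Syzygies with `wedge = 0` are multiples of `r_0`. -/
lemma syz_wedge_zero {v : Fin 3 → S3} (hv : act v c.f = 0) (hw : wedge v = 0) :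
    ∃ g : S3, v = g • c.r0 := by
  obtain ⟨e, g, rfl⟩ := c.log_wedge_zero (fun p hp => c.line_dvd_act hv hp) hw
  refine ⟨g, ?_⟩
  rw [act_add, act_smul, act_smul, act_E c.f_homog, act_vert, pderiv0_f] at hv
  have hf : c.f = c.A * c.B := rfl
  have h1 : c.f * (e * c.d + g * pderiv 0 c.B) = 0 := by
    rw [← hv, hf]; ring
  have h2 := (mul_eq_zero.mp h1).resolve_left c.f_ne_zero
  have h3 : e = - (g * (C (1 / (c.d : ℂ)) * pderiv 0 c.B)) := by
    have h4 := c.C_inv_d
    linear_combination (C (1 / (c.d : ℂ)) : S3) * h2 - e * h4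
  unfold r0
  rw [h3, smul_sub, smul_smul, neg_smul]
  abel

/-- **Generation.** -/
lemma generate {v : Fin 3 → S3} (hv : act v c.f = 0) :
    ∃ (g : S3) (a : Fin (c.s + 1) → S3), v = g • c.r0 + ∑ j, a j • c.rr j := by
  obtain ⟨i, hi⟩ := c.A_dvd_wedge (fun σ hσ => c.ell_dvd_act hv hσ)
  have hmem := c.mem_span_h (fun p hp => c.line_dvd_act hv hp) hi
  rw [Ideal.mem_span_range_iff_exists_fun] at hmem
  obtain ⟨a, ha⟩ := hmem
  have h1 : act (v - ∑ j, a j • c.rr j) c.f = 0 := by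
    rw [act_sub, hv, act_sum]
    simp only [act_smul, rr_act, mul_zero, Finset.sum_const_zero, sub_zero]
  have h2 : wedge (v - ∑ j, a j • c.rr j) = 0 := by
    rw [wedge_sub, hi, wedge_sum, ← ha, Finset.mul_sum, sub_eq_zero]
    refine Finset.sum_congr rfl fun j _ => ?_
    rw [wedge_smul, rr_wedge]
    ring
  obtain ⟨g, hg⟩ := c.syz_wedge_zero h1 h2
  exact ⟨g, a, by rw [← hg]; abel⟩

/-- The relation between consecutive generators. -/
lemma exists_q {j : ℕ} (hj : j < c.s) : ∃ q : S3,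
    (X 0 ^ c.K : S3) • c.rr j - c.L j • c.rr (j + 1) = q • c.r0 ∧
      q.IsHomogeneous (c.K + c.D j - c.Λ.card) := by
  have h1 : act ((X 0 ^ c.K : S3) • c.rr j - c.L j • c.rr (j + 1)) c.f = 0 := by
    rw [act_sub, act_smul, act_smul, rr_act, rr_act, mul_zero, mul_zero, sub_zero]
  have h2 : wedge ((X 0 ^ c.K : S3) • c.rr j - c.L j • c.rr (j + 1)) = 0 := by
    rw [wedge_sub, wedge_smul, wedge_smul, rr_wedge, rr_wedge]
    unfold h
    rw [c.P_step hj, Nat.add_mul, one_mul, pow_add]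
    ring
  obtain ⟨q, hq⟩ := c.syz_wedge_zero h1 h2
  refine ⟨q, hq, ?_⟩
  obtain ⟨k, hk⟩ : ∃ k, c.r0 k ≠ 0 := by
    by_contra hcon
    push Not at hcon
    exact c.r0_ne_zero (funext hcon)
  have h3 := congrFun hq k
  simp only [Pi.sub_apply, Pi.smul_apply, smul_eq_mul] at h3
  have hle := c.card_le_D j
  have h4 : (c.r0 k * q).IsHomogeneous (c.Λ.card + (c.K + c.D j - c.Λ.card)) := by
    rw [mul_comm, ← h3]
    have e1 : c.Λ.card + (c.K + c.D j - c.Λ.card) = c.K + c.D j := by omega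
    rw [e1]
    have hX : (X 0 ^ c.K : S3).IsHomogeneous c.K := isHomogeneous_X_pow 0 c.K
    have hA : (X 0 ^ c.K * c.rr j k).IsHomogeneous (c.K + c.D j) := hX.mul (c.rr_homog j k)
    have hL : (c.L j).IsHomogeneous (c.T j).card := iota_homog (c.LR_homog j)
    have hB : (c.L j * c.rr (j + 1) k).IsHomogeneous (c.K + c.D j) := by
      have e2 : c.K + c.D j = (c.T j).card + c.D (j + 1) := by
        have := c.D_step hj
        omega
      rw [e2]
      exact hL.mul (c.rr_homog (j + 1) k)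
    exact hA.sub hB
  exact homog_of_mul (c.r0_homog k) hk h4

lemma X0_not_dvd_iota {r : R2} (hr : r ≠ 0) : ¬ (X 0 : S3) ∣ iota r := by
  have h := line_not_dvd_iota (0, 0) hr
  have e : nodeS (0, 0) = 0 := by simp [nodeS_eq]
  rwa [e, sub_zero] at h

lemma X0_pow_dvd {n : ℕ} {r : R2} (hr : r ≠ 0) {g : S3} (h : (X 0 : S3) ^ n ∣ iota r * g) :
    (X 0 : S3) ^ n ∣ g := by
  have hp : Prime (X 0 : S3) := X_prime
  exact (hp.pow_dvd_of_dvd_mul_left n (X0_not_dvd_iota hr)) h

/-- The relations between the `h j`. -/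
lemma relations_h (a : ℕ → S3) (ha : ∑ j ∈ Finset.range (c.s + 1), a j * c.h j = 0) :
    ∃ ν : ℕ → S3, ν 0 = 0 ∧ (∀ j < c.s, a j = X 0 ^ c.K * ν (j + 1) - c.L (j - 1) * ν j) ∧
      a c.s = - (c.L (c.s - 1) * ν c.s) := by
  classical
  have key : ∀ n ≤ c.s, ∃ ν : ℕ → S3, ν 0 = 0 ∧
      (∀ j < n, a j = X 0 ^ c.K * ν (j + 1) - c.L (j - 1) * ν j) ∧
      ∑ j ∈ Finset.range n, a j * c.h j =
        X 0 ^ (n * c.K) * (c.L (n - 1) * c.P n * ν n) := by
    intro n
    induction n with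
    | zero =>
      intro _
      exact ⟨fun _ => 0, rfl, by simp, by simp⟩
    | succ n ih =>
      intro hn
      obtain ⟨ν, h0, h1, h2⟩ := ih (by omega)
      -- split the sum
      have hrest : ∃ t : S3, ∑ j ∈ Finset.Ico (n + 1) (c.s + 1), a j * c.h j =
          X 0 ^ ((n + 1) * c.K) * t := by
        have : X 0 ^ ((n + 1) * c.K) ∣ ∑ j ∈ Finset.Ico (n + 1) (c.s + 1), a j * c.h j := by
          refine Finset.dvd_sum fun j hj => ?_
          rw [Finset.mem_Ico] at hj
          unfold h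
          refine Dvd.dvd.mul_left (Dvd.dvd.mul_right ?_ _) _
          exact pow_dvd_pow _ (Nat.mul_le_mul_right _ hj.1)
        exact this
      obtain ⟨t, ht⟩ := hrest
      have hsplit : ∑ j ∈ Finset.range (c.s + 1), a j * c.h j =
          ∑ j ∈ Finset.range n, a j * c.h j + a n * c.h n +
            ∑ j ∈ Finset.Ico (n + 1) (c.s + 1), a j * c.h j := by
        rw [← Finset.sum_range_succ, Finset.sum_range_add_sum_Ico _ (by omega)]
      rw [ha, h2, ht] at hsplit
      have h3 : X 0 ^ (n * c.K) * (c.P n * (a n + c.L (n - 1) * ν n) + X 0 ^ c.K * t) = 0 := by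
        have e : (X 0 : S3) ^ ((n + 1) * c.K) = X 0 ^ (n * c.K) * X 0 ^ c.K := by
          rw [Nat.add_mul, one_mul, pow_add]
        rw [e] at hsplit
        unfold h at hsplit
        linear_combination (-1 : S3) * hsplit
      have hX : (X 0 : S3) ^ (n * c.K) ≠ 0 := pow_ne_zero _ (X_ne_zero 0)
      have h4 := (mul_eq_zero.mp h3).resolve_left hX
      have h5 : (X 0 : S3) ^ c.K ∣ iota (c.PR n) * (a n + c.L (n - 1) * ν n) := by
        refine ⟨- t, ?_⟩
        have : iota (c.PR n) = c.P n := rfl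
        rw [this]
        linear_combination h4
      obtain ⟨b, hb⟩ := X0_pow_dvd (c.PR_ne_zero n) h5
      refine ⟨Function.update ν (n + 1) b, ?_, ?_, ?_⟩
      · rw [Function.update_of_ne (by omega)]; exact h0
      · intro j hj
        by_cases hjn : j = n
        · subst hjn
          rw [Function.update_self, Function.update_of_ne (by omega), ← hb]
          ring
        · rw [Function.update_of_ne (by omega), Function.update_of_ne (by omega)]
          exact h1 j (by omega)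
      · rw [Function.update_self, Finset.sum_range_succ, h2, Nat.add_sub_cancel]
        have e : (X 0 : S3) ^ ((n + 1) * c.K) = X 0 ^ (n * c.K) * X 0 ^ c.K := by
          rw [Nat.add_mul, one_mul, pow_add]
        rw [e, ← c.P_step (by omega)]
        unfold h
        linear_combination (X 0 ^ (n * c.K) * c.P n) * hb
  obtain ⟨ν, h0, h1, h2⟩ := key c.s le_rfl
  refine ⟨ν, h0, h1, ?_⟩
  rw [Finset.sum_range_succ, h2] at ha
  have h3 : X 0 ^ (c.s * c.K) * (c.P c.s * (a c.s + c.L (c.s - 1) * ν c.s)) = 0 := by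
    unfold h at ha
    linear_combination ha
  have hX : (X 0 : S3) ^ (c.s * c.K) ≠ 0 := pow_ne_zero _ (X_ne_zero 0)
  have h4 := (mul_eq_zero.mp ((mul_eq_zero.mp h3).resolve_left hX)).resolve_left (c.P_ne_zero _)
  linear_combination h4

end Config

end

end Pool.Agent.H74.Arr
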