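import Mathlib

/-!
# The orbifold Euler characteristic of the minimal strata: the published formulas

Mathlib has no moduli spaces of curves or of differentials. This file defines, for every `g`, the
rational number `chi g` to which published theorems evaluate the orbifold Euler characteristic of
the minimal stratum `M_g(2g-1)`. These published theorems are not formalised; they are:

* [CMZ] M. Costantini, M. Moeller, J. Zachhuber, The Chern classes and the Euler characteristic of
  the moduli spaces of abelian differentials, Theorem 1.3: for a stratum `B` of dimension `d`,
  `chi(B) = (-1)^d sum_G (K_G N_G / #Aut G) prod_i int_(B_G^[i]) xi^(d_i)`, the sum over all level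
  graphs `G` of `B` (the trivial graph included), with `K_G` the product of the prong numbers of
  the edges, `N_G` the dimension of the unprojectivised top level, `B_G^[i]` the stratum at level
  `i`, `d_i` its dimension and `xi = c_1(O(-1))`.
* [S] A. Sauvaget, Volumes and Siegel-Veech constants of H(2g-2) and Hodge integrals: the vanishing
  `xi^(2g) = 0` on strata of holomorphic differentials of genus `g`, and the generating series of
  the numbers `int_(M_g(2g-1)) xi^(2g-1)` (see `f`).
* [CSS] M. Costantini, A. Sauvaget, J. Schmitt, Integrals of psi classes on twisted double
  ramification cycles and spaces of differentials, Theorem 1.1 (see `psiInt`).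
* the two relations `xi = a psi_1 - sum_G l_G [D_G]` (sum over all two-level graphs, for a stratum
  whose only zero has order `a - 1`) and `[res_y = 0] = -xi - sum_G l_G [D_G]` (sum over the
  two-level graphs for which the pole `y` is on the lower level or its residue vanishes on `D_G`),
  due to Sauvaget and [CMZ] (see `resInt`).

How they give `chi g` for the minimal stratum, of dimension `d = 2g-1`. Because of `xi^(2g') = 0`
only graphs with top vertices carrying minimal strata, each joined to the rest by one edge,
contribute. Summing over all level graphs with a given top level, and using
`xi + sum_G l_G [D_G] = a psi_1` on the stratum below the top level (single zero of order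
`a - 1 = 2g-2`, and one pole without residue for every top vertex), the product of the integrals
below the top level becomes `int (a psi_1)^(2h-1)`, `h` being the genus below the top level. So
`chi(M_g(2g-1))` is the sum of the term of the trivial graph, `-2g int xi^(2g-1)`, and of one term
for every two-level graph with top vertices of genera `c_1, ..., c_k` (prong numbers `2c_i - 1`) and
one bottom vertex of genus `h = g - (c_1 + ... + c_k) >= 1`; this is the definition of `chi`.

By the closed formula proved in `Pool.Agent.H74.EulZc` (`main`), the values of `chi` at
`g = 1, ..., 5` are `-1/12, -1/40, -55/504, -1169/720, -4671/88`, the values in the table of [CMZ]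
(see `Pool.Agent.H74.EulZd`).
-/

namespace Pool.Agent.H74.Strata

open PowerSeries

/-- `S(z) = sinh(z/2) / (z/2)`. -/
noncomputable def S : ℚ⟦X⟧ :=
  mk fun n => if Even n then 1 / (2 ^ n * (n + 1).factorial) else 0

/-- `w(z) = exp (z S'(z) / S(z))`. -/
noncomputable def w : ℚ⟦X⟧ :=
  (PowerSeries.exp ℚ).subst (X * derivative ℚ S * S⁻¹)

/-- The sum of the numbers `b + 1` over the entries `b` of a list. -/
def total (P : List ℕ) : ℕ := (P.map (· + 1)).sum

/-- For `P = [b_1, ..., b_k]`, `psiInt h P` is the value given by [CSS, Theorem 1.1] to the integral
of `psi_1 ^ (2h - 2 + k)` over (the closure in `Mbar_(h,k+1)` of) the projectivised stratum of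
differentials of genus `h` with one zero, of order `a - 1` and at the first marked point, and
`k >= 1` poles of orders `b_1 + 1, ..., b_k + 1`, where `a = 2h - 1 + total P`:
the coefficient of `z^(2h)` in
`exp(a z S'(z)/S(z)) * S(b_1 z) * ... * S(b_k z) / S(z)^(2h + k + 1)`. -/
noncomputable def psiInt (h : ℕ) (P : List ℕ) : ℚ :=
  coeff (2 * h) (w ^ (2 * h + total P - 1) * (P.map fun b : ℕ => rescale (b : ℚ) S).prod *
    S⁻¹ ^ (2 * h + P.length + 1))

/-- All ways to distribute the entries of a list (in order) over two lists: the list of the pairs
`(Q, Y \ Q)`, with `Q` running over the sublists of `Y`. -/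
def splits : List ℕ → List (List ℕ × List ℕ)
  | [] => [([], [])]
  | y :: Y => (splits Y).flatMap fun p => [(y :: p.1, p.2), (p.1, y :: p.2)]

theorem length_of_mem_splits {Y : List ℕ} {p : List ℕ × List ℕ} (hp : p ∈ splits Y) :
    p.1.length + p.2.length = Y.length := by
  induction Y generalizing p with
  | nil => simp [splits] at hp; simp [hp]
  | cons y Y ih =>
    simp only [splits, List.mem_flatMap, List.mem_cons, List.not_mem_nil, or_false] at hp
    obtain ⟨q, hq, rfl | rfl⟩ := hp
    · have := ih hq
      simp only [List.length_cons]
      omega
    · have := ih hq
      simp only [List.length_cons]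
      omega

/-- `resInt h P Y` is the integral of the top power of `psi_1` over the closure of the projectivised
stratum of differentials of genus `h` with one zero, at the first marked point, with poles of
orders `b + 1` for the entries `b` of `P` and of `Y`, and with zero residue at the poles belonging
to `Y` (no condition at those of `P`). If `Y = []` it is `psiInt h P`. The condition at one more
pole `y` is imposed by intersecting with the divisor
`[res_y = 0] = -a psi_1 + sum_G l_G [D_G]`, the sum over the two-level graphs `G` for which `y` lies
on the top level and its residue does not vanish there; here `a - 1` is the order of the zero, so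
`a = 2h - 1 + (sum of b + 1 over all poles)`. After multiplication with the top power of `psi_1`
only graphs with a top level of projectivised dimension `0` contribute: the top vertex has genus
`0`, carries `y`, one pole `x` of `P` and a subset `Q` of the poles of `Y`, and is joined to the
bottom vertex (genus `h`) by one edge with prong number `x + y + 1 + total Q`, which is a new pole
without residue condition of the bottom vertex:
`resInt h P (y::Y) = -a resInt h (y::P) Y
  + sum_(x in P) sum_(Q in Y) k resInt 0 [x,y] Q resInt h (k::(P \ x)) (Y \ Q)`,
`k = x + y + 1 + total Q`. -/
noncomputable def resInt (h : ℕ) (P : List ℕ) (Y : List ℕ) : ℚ :=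
  match Y with
  | [] => psiInt h P
  | y :: Y =>
    -(2 * h + total P + total (y :: Y) - 1) * resInt h (y :: P) Y +
      ∑ i : Fin P.length, ((splits Y).attach.map fun ⟨(Q, R), _⟩ =>
        (P.get i + y + 1 + total Q) * resInt 0 [P.get i, y] Q *
          resInt h ((P.get i + y + 1 + total Q) :: P.eraseIdx i) R).sum
termination_by Y.length
decreasing_by
  · simp
  all_goals
    rename_i hp
    have := length_of_mem_splits hp
    simp only [List.length_cons] at this ⊢
    omega

/-- The coefficients of Sauvaget's series `F(t) = 1 + sum_(g >= 1) f_g t^(2g)`, the only series with
`[t^(2g)] F(t)^(2g) = (2g)! [t^(2g)] 1/S(t)` for all `g >= 1`. By [S],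
`f_g = -(2g-1) int_(M_g(2g-1)) xi^(2g-1)` with `xi = c_1(O(-1))`. -/
noncomputable def f : ℕ → ℚ
  | 0 => 1
  | g + 1 => ((2 * (g + 1)).factorial * coeff (2 * (g + 1)) S⁻¹ -
      coeff (g + 1) ((∑ j : Fin (g + 1), monomial (j : ℕ) (f j)) ^ (2 * (g + 1)))) / (2 * (g + 1))

/-- `twoLevel h n` is the sum over the two-level graphs with top vertices of genera `c_1, ..., c_k`
with `c_1 + ... + c_k = n` (each carrying the minimal stratum of its genus and joined by one edge
with prong number `2c_i - 1` to the bottom) and one bottom vertex of genus `h`, of
`(1/#Aut) prod_i f_(c_i)` times the integral of `psi_1^(2h-1)` over the stratum of the bottom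
vertex, which has one zero, of order `2(h+n)-2`, and `k` poles of orders `2c_i`, all with zero
residue. By the residue theorem it is enough to impose the last condition at all poles but the
first. The sum over the multisets of genera weighted by `1/#Aut` is written as a sum over
compositions `c` of `n` weighted by `1/k!`. The sign and the prong numbers of the top level are
contained in the product of the `f_(c_i)`, cf. `f`. -/
noncomputable def twoLevel (h n : ℕ) : ℚ :=
  ∑ c : Composition n, (1 / (c.length.factorial : ℚ)) * (c.blocks.map f).prod *
    resInt h ((c.blocks.map fun m => 2 * m - 1).take 1) ((c.blocks.map fun m => 2 * m - 1).drop 1)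

/-- The value given by the published formulas (see the head of this file) to the orbifold Euler
characteristic of the minimal stratum `M_g(2g-1)`: the term `-2g int xi^(2g-1)` of the trivial
graph, plus, for every genus `h` with `1 <= h < g` of the bottom vertex, the dimension `2(g-h)` of
the unprojectivised top level times `(2g-1)^(2h-1)` times `twoLevel h (g-h)`. -/
noncomputable def chi (g : ℕ) : ℚ :=
  2 * g * (f g / (2 * g - 1)) +
    ∑ h ∈ Finset.Ico 1 g, 2 * (g - h) * (2 * g - 1) ^ (2 * h - 1) * twoLevel h (g - h)

end Pool.Agent.H74.Strata
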