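import Pool.Agent.H74.EulO
import Pool.Agent.H74.EulerDefs

/-!
# Weighted sums over lists
-/

namespace Pool.Agent.H74.Strata

open PowerSeries
open Finset.HasAntidiagonal (antidiagonal mem_antidiagonal)

section Weighted

variable {V V' : Type*} [AddCommGroup V] [Module ℚ V] [AddCommGroup V'] [Module ℚ V']

/-- Weighted sum over the lists of length `k` with entries `2m-1`, `1 ≤ m ≤ M`. -/
noncomputable def W (wt : ℕ → ℚ) (M : ℕ) : ℕ → (List ℕ → V) → V
  | 0, φ => φ []
  | k + 1, φ => ∑ m ∈ Finset.Icc 1 M, wt m • W wt M k fun Y => φ ((2 * m - 1) :: Y)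

lemma W_zero (wt : ℕ → ℚ) (M : ℕ) (φ : List ℕ → V) : W wt M 0 φ = φ [] := rfl

lemma W_succ (wt : ℕ → ℚ) (M k : ℕ) (φ : List ℕ → V) :
    W wt M (k + 1) φ = ∑ m ∈ Finset.Icc 1 M, wt m • W wt M k fun Y => φ ((2 * m - 1) :: Y) := rfl

lemma W_congr (wt : ℕ → ℚ) (M : ℕ) (k : ℕ) {φ ψ : List ℕ → V}
    (h : ∀ Y, Y.length = k → φ Y = ψ Y) : W wt M k φ = W wt M k ψ := by
  induction k generalizing φ ψ with
  | zero => exact h [] rfl
  | succ k ih =>
    rw [W_succ, W_succ]
    apply Finset.sum_congr rfl
    intro m _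
    rw [ih]
    intro Y hY
    exact h _ (by simp [hY])

lemma W_map (wt : ℕ → ℚ) (M : ℕ) (ℓ : V →ₗ[ℚ] V') (k : ℕ) (φ : List ℕ → V) :
    ℓ (W wt M k φ) = W wt M k fun Y => ℓ (φ Y) := by
  induction k generalizing φ with
  | zero => rfl
  | succ k ih =>
    rw [W_succ, W_succ, map_sum]
    apply Finset.sum_congr rfl
    intro m _
    rw [map_smul, ih]

lemma W_add (wt : ℕ → ℚ) (M k : ℕ) (φ ψ : List ℕ → V) :
    (W wt M k fun Y => φ Y + ψ Y) = W wt M k φ + W wt M k ψ := by
  induction k generalizing φ ψ with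
  | zero => rfl
  | succ k ih =>
    rw [W_succ, W_succ, W_succ, ← Finset.sum_add_distrib]
    apply Finset.sum_congr rfl
    intro m _
    rw [ih, smul_add]

lemma W_zero_fun (wt : ℕ → ℚ) (M k : ℕ) : (W wt M k fun _ => (0 : V)) = 0 := by
  induction k with
  | zero => rfl
  | succ k ih =>
    rw [W_succ]
    apply Finset.sum_eq_zero
    intro m _
    rw [ih, smul_zero]

lemma W_sum (wt : ℕ → ℚ) (M k : ℕ) {ι : Type*} (s : Finset ι) (φ : ι → List ℕ → V) :
    (W wt M k fun Y => ∑ i ∈ s, φ i Y) = ∑ i ∈ s, W wt M k (φ i) := by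
  classical
  induction s using Finset.induction_on with
  | empty => simpa using W_zero_fun wt M k
  | insert i s hi ih =>
    rw [Finset.sum_insert hi, ← ih, ← W_add]
    apply W_congr
    intro Y _
    rw [Finset.sum_insert hi]

lemma W_smul (wt : ℕ → ℚ) (M k : ℕ) (c : ℚ) (φ : List ℕ → V) :
    (W wt M k fun Y => c • φ Y) = c • W wt M k φ :=
  (W_map wt M (c • LinearMap.id) k φ).symm

omit [Module ℚ V] in
lemma splits_sum_cons (g : List ℕ → List ℕ → V) (y : ℕ) (Y : List ℕ) :
    ((splits (y :: Y)).map fun p => g p.1 p.2).sum =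
      ((splits Y).map fun p => g (y :: p.1) p.2).sum +
        ((splits Y).map fun p => g p.1 (y :: p.2)).sum := by
  rw [splits]
  induction splits Y with
  | nil => simp
  | cons q l ih =>
    simp only [List.flatMap_cons, List.map_append, List.map_cons, List.map_nil, List.sum_append,
      List.sum_cons, List.sum_nil] at ih ⊢
    rw [ih]
    abel

/-- Weighted sums over lists of sums over splittings. -/
lemma W_splits (wt : ℕ → ℚ) (M k : ℕ) (g : List ℕ → List ℕ → V) :
    (W wt M k fun Y => ((splits Y).map fun p => g p.1 p.2).sum) =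
      ∑ p ∈ antidiagonal k, (k.choose p.1) • W wt M p.1 fun Q => W wt M p.2 fun T => g Q T := by
  induction k generalizing g with
  | zero => simp [W_zero, splits]
  | succ k ih =>
    rw [Finset.sum_antidiagonal_choose_succ_nsmul
      (fun i j => W wt M i fun Q => W wt M j fun T => g Q T) k, W_succ]
    have h1 : ∀ m ∈ Finset.Icc 1 M, wt m • (W wt M k fun Y =>
        ((splits ((2 * m - 1) :: Y)).map fun p => g p.1 p.2).sum) =
        (∑ p ∈ antidiagonal k, (k.choose p.1) • wt m • W wt M p.1 fun Q => W wt M p.2 fun T =>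
          g ((2 * m - 1) :: Q) T) +
        ∑ p ∈ antidiagonal k, (k.choose p.1) • wt m • W wt M p.1 fun Q => W wt M p.2 fun T =>
          g Q ((2 * m - 1) :: T) := by
      intro m _
      simp only [splits_sum_cons]
      rw [W_add, ih (fun Q T => g ((2 * m - 1) :: Q) T), ih (fun Q T => g Q ((2 * m - 1) :: T)),
        smul_add, Finset.smul_sum, Finset.smul_sum]
      congr 1
      · apply Finset.sum_congr rfl
        intro p _
        rw [smul_comm]
      · apply Finset.sum_congr rfl
        intro p _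
        rw [smul_comm]
    rw [Finset.sum_congr rfl h1, Finset.sum_add_distrib, add_comm, Finset.sum_comm]
    rw [Finset.sum_comm (s := Finset.Icc 1 M)]
    congr 1
    · apply Finset.sum_congr rfl
      intro p hp
      rw [← Finset.smul_sum]
      congr 1
      simp only [W_succ]
      rw [W_sum]
      apply Finset.sum_congr rfl
      intro m _
      rw [W_smul]
    · apply Finset.sum_congr rfl
      intro p hp
      rw [← Finset.smul_sum, W_succ]
      congr 1
      have := mem_antidiagonal.mp hp
      rw [← this]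
      exact (Nat.choose_symm_add).symm ▸ rfl

end Weighted

end Pool.Agent.H74.Strata
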