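import Pool.Agent.H74.EulB

/-!
# Power series with polynomial coefficients
-/

namespace Pool.Agent.H74.Strata

open PowerSeries
open Finset.HasAntidiagonal (antidiagonal mem_antidiagonal)

section Deriv

variable {A : Type*} [CommRing A] [Algebra ℚ A] (δ : Derivation ℚ A A)

/-- The coefficientwise action of a derivation. -/
noncomputable def D (Θ : A⟦X⟧) : A⟦X⟧ := mk fun n => δ (coeff n Θ)

@[simp] lemma coeff_D (n : ℕ) (Θ : A⟦X⟧) : coeff n (D δ Θ) = δ (coeff n Θ) := coeff_mk _ _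

lemma D_mul (Θ Θ' : A⟦X⟧) : D δ (Θ * Θ') = D δ Θ * Θ' + Θ * D δ Θ' := by
  ext1 n
  rw [coeff_D, coeff_mul, map_add, coeff_mul, coeff_mul, map_sum, ← Finset.sum_add_distrib]
  apply Finset.sum_congr rfl
  intro p _
  rw [Derivation.leibniz, coeff_D, coeff_D, smul_eq_mul, smul_eq_mul]
  ring

lemma D_one : D δ (1 : A⟦X⟧) = 0 := by
  ext1 n
  rw [coeff_D, coeff_one]
  split_ifs <;> simp

lemma derivative_D (Θ : A⟦X⟧) : derivative _ (D δ Θ) = D δ (derivative _ Θ) := by
  ext1 n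
  rw [coeff_derivative, coeff_D, coeff_D, coeff_derivative, Derivation.leibniz]
  have : δ (n + 1 : A) = 0 := by
    have := δ.map_natCast (n + 1)
    push_cast at this
    exact this
  rw [this, smul_zero, zero_add, smul_eq_mul]
  ring

/-- The logarithmic derivative of an exponential. -/
lemma D_exp {Y K : A⟦X⟧} (hY : IsExp Y (derivative A K)) (hK : constantCoeff K = 0) :
    D δ Y = D δ K * Y := by
  have : D δ Y - D δ K * Y = 0 := by
    apply ode_zero (r := derivative A K)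
    · rw [map_sub, Derivation.leibniz, derivative_D, derivative_D, hY.deriv, D_mul, smul_eq_mul,
        smul_eq_mul]
      ring
    · rw [map_sub, map_mul]
      have h1 : constantCoeff (D δ Y) = 0 := by
        rw [← coeff_zero_eq_constantCoeff_apply, coeff_D, coeff_zero_eq_constantCoeff_apply,
          hY.const]
        simp
      have h2 : constantCoeff (D δ K) = 0 := by
        rw [← coeff_zero_eq_constantCoeff_apply, coeff_D, coeff_zero_eq_constantCoeff_apply, hK]
        simp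
      rw [h1, h2]
      simp
  exact sub_eq_zero.mp this

end Deriv

/-- A Leibniz rule for products over lists. -/
lemma leibniz_list {B : Type*} [CommRing B] (D : B → B) (hmul : ∀ x y, D (x * y) = D x * y + x * D y)
    (hone : D 1 = 0) (L : ℕ → B) (P : List ℕ) :
    D (P.map L).prod = ∑ i : Fin P.length, D (L (P.get i)) * ((P.eraseIdx i).map L).prod := by
  induction P with
  | nil => simp [hone]
  | cons x l ih =>
    rw [List.map_cons, List.prod_cons, hmul, ih]
    simp only [List.length_cons, Fin.sum_univ_succ, Finset.mul_sum]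
    congr 1
    apply Finset.sum_congr rfl
    intro i _
    simp only [List.get_eq_getElem, Fin.val_succ, List.getElem_cons_succ, List.eraseIdx_cons_succ,
      List.map_cons, List.prod_cons]
    ring

/-- Associativity of triple sums. -/
lemma sum_triple {V : Type*} [AddCommMonoid V] (F : ℕ → ℕ → ℕ → V) (k : ℕ) :
    ∑ p ∈ antidiagonal k, ∑ q ∈ antidiagonal p.1, F q.1 q.2 p.2 =
      ∑ p ∈ antidiagonal k, ∑ q ∈ antidiagonal p.2, F p.1 q.1 q.2 := by
  rw [Finset.sum_sigma', Finset.sum_sigma']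
  refine Finset.sum_nbij' (fun x => ⟨(x.2.1, x.2.2 + x.1.2), (x.2.2, x.1.2)⟩)
    (fun x => ⟨(x.1.1 + x.2.1, x.2.2), (x.1.1, x.2.1)⟩) ?_ ?_ ?_ ?_ ?_
  · rintro ⟨⟨i, l⟩, ⟨j, i'⟩⟩ h
    simp only [Finset.mem_sigma, mem_antidiagonal, and_true] at h ⊢
    omega
  · rintro ⟨⟨i, l⟩, ⟨j, i'⟩⟩ h
    simp only [Finset.mem_sigma, mem_antidiagonal, and_true] at h ⊢
    omega
  · rintro ⟨⟨i, l⟩, ⟨j, i'⟩⟩ h
    simp only [Finset.mem_sigma, mem_antidiagonal] at h
    obtain ⟨_, h⟩ := h
    subst h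
    rfl
  · rintro ⟨⟨i, l⟩, ⟨j, i'⟩⟩ h
    simp only [Finset.mem_sigma, mem_antidiagonal] at h
    obtain ⟨_, h⟩ := h
    subst h
    rfl
  · rintro ⟨⟨i, l⟩, ⟨j, i'⟩⟩ h
    rfl

section Eps

variable {R : Type*} [CommRing R] [Algebra ℚ R]

/-- The coefficient of `ε^k` of a power series over `R[ε]`. -/
noncomputable def E (k : ℕ) (Θ : (Polynomial R)⟦X⟧) : R⟦X⟧ := mk fun n => (coeff n Θ).coeff k

omit [Algebra ℚ R] in
@[simp] lemma coeff_E (k n : ℕ) (Θ : (Polynomial R)⟦X⟧) :
    coeff n (E k Θ) = (coeff n Θ).coeff k := coeff_mk _ _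

omit [Algebra ℚ R] in
lemma E_add (k : ℕ) (Θ Θ' : (Polynomial R)⟦X⟧) : E k (Θ + Θ') = E k Θ + E k Θ' := by
  ext n; simp

omit [Algebra ℚ R] in
lemma E_zero' (k : ℕ) : E k (0 : (Polynomial R)⟦X⟧) = 0 := by
  ext n; simp

omit [Algebra ℚ R] in
lemma E_sum (k : ℕ) {ι : Type*} (s : Finset ι) (Θ : ι → (Polynomial R)⟦X⟧) :
    E k (∑ i ∈ s, Θ i) = ∑ i ∈ s, E k (Θ i) := by
  classical
  induction s using Finset.induction_on with
  | empty => simp [E_zero']
  | insert i s hi ih => rw [Finset.sum_insert hi, Finset.sum_insert hi, E_add, ih]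

lemma E_smul (k : ℕ) (c : ℚ) (Θ : (Polynomial R)⟦X⟧) : E k (c • Θ) = c • E k Θ := by
  ext n; simp

omit [Algebra ℚ R] in
lemma E_mul (k : ℕ) (Θ Θ' : (Polynomial R)⟦X⟧) :
    E k (Θ * Θ') = ∑ p ∈ antidiagonal k, E p.1 Θ * E p.2 Θ' := by
  ext n
  rw [coeff_E, coeff_mul, Polynomial.finsetSum_coeff, map_sum]
  simp only [coeff_mul, Polynomial.coeff_mul, coeff_E]
  rw [Finset.sum_comm]

/-- Differentiation with respect to `ε`. -/
noncomputable def dε (R : Type*) [CommRing R] [Algebra ℚ R] :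
    Derivation ℚ (Polynomial R) (Polynomial R) :=
  (Polynomial.derivative' (R := R)).restrictScalars ℚ

lemma dε_apply (p : Polynomial R) : dε R p = Polynomial.derivative p := rfl

lemma E_D (k : ℕ) (Θ : (Polynomial R)⟦X⟧) :
    E k (D (dε R) Θ) = ((k + 1 : ℕ) : ℚ) • E (k + 1) Θ := by
  ext n
  rw [coeff_E, coeff_D, dε_apply, Polynomial.coeff_derivative, coeff_smul, coeff_E,
    Algebra.smul_def]
  push_cast
  simp [mul_comm]

end Eps

end Pool.Agent.H74.Strata
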