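import Pool.Agent.H74.EulE

/-!
# The coefficient identities
-/

namespace Pool.Agent.H74.Strata

open PowerSeries
open Finset.HasAntidiagonal (antidiagonal mem_antidiagonal)

lemma total_nil : total [] = 0 := rfl

lemma total_cons (y : ℕ) (Y : List ℕ) : total (y :: Y) = y + 1 + total Y := by
  simp [total]

lemma X_mul_derivative_X_pow (n : ℕ) :
    X * derivative ℚ (X ^ n : ℚ⟦X⟧) = (n : ℚ) • X ^ n := by
  rw [derivative_pow, derivative_X, mul_one]
  rcases Nat.eq_zero_or_pos n with rfl | hn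
  · simp
  · obtain ⟨k, rfl⟩ : ∃ k, n = k + 1 := ⟨n - 1, by omega⟩
    rw [Algebra.smul_def]
    simp only [Nat.add_sub_cancel, pow_succ]
    simp
    ring

lemma coeff_X_mul_derivative (F : ℚ⟦X⟧) (N : ℕ) :
    coeff N (X * derivative ℚ F) = N * coeff N F := by
  cases N with
  | zero => simp
  | succ N =>
    rw [coeff_succ_X_mul, coeff_derivative]
    push_cast
    ring

/-- A linear functional applied to a weighted sum of monomials. -/
lemma W_monomial {V : Type*} [AddCommGroup V] [Module ℚ V] (wt : ℕ → ℚ) (M : ℕ)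
    (ℓ : ℚ⟦X⟧ →ₗ[ℚ] V) (j x : ℕ) :
    (W wt M j fun Q => ℓ (X ^ (x + total Q))) =
      ℓ (X ^ x * (∑ m ∈ Finset.Icc 1 M, wt m • X ^ (2 * m)) ^ j) := by
  induction j generalizing x with
  | zero => simp [W_zero, total_nil]
  | succ j ih =>
    rw [W_succ]
    have h1 : ∀ m ∈ Finset.Icc 1 M, wt m • (W wt M j fun Q => ℓ (X ^ (x + total ((2 * m - 1) :: Q)))) =
        ℓ (wt m • (X ^ x * X ^ (2 * m) * (∑ m ∈ Finset.Icc 1 M, wt m • X ^ (2 * m)) ^ j)) := by
      intro m hm
      have hm1 := (Finset.mem_Icc.mp hm).1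
      rw [map_smul, ← pow_add, ← ih (x + 2 * m)]
      congr 1
      apply W_congr
      intro Q _
      rw [total_cons]
      congr 2
      omega
    rw [Finset.sum_congr rfl h1, ← map_sum]
    congr 1
    rw [pow_succ', ← mul_assoc (X ^ x), Finset.mul_sum, Finset.sum_mul]
    apply Finset.sum_congr rfl
    intro m _
    rw [mul_smul_comm, smul_mul_assoc]

lemma W_prod {V : Type*} [AddCommGroup V] [Module ℚ V] (f : ℕ → ℚ) (M : ℕ) (j : ℕ)
    (φ : List ℕ → V) :
    (W f M j fun Q => (Q.prod : ℚ) • φ Q) = W (fun m => ((2 * m - 1 : ℕ) : ℚ) * f m) M j φ := by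
  induction j generalizing φ with
  | zero => simp [W_zero]
  | succ j ih =>
    rw [W_succ, W_succ]
    apply Finset.sum_congr rfl
    intro m _
    have h1 : (W f M j fun Y => ((((2 * m - 1) :: Y).prod : ℕ) : ℚ) • φ ((2 * m - 1) :: Y)) =
        W f M j fun Y => ((2 * m - 1 : ℕ) : ℚ) • ((Y.prod : ℚ) • φ ((2 * m - 1) :: Y)) := by
      apply W_congr
      intro Q _
      rw [List.prod_cons, Nat.cast_mul, mul_smul]
    rw [h1, W_smul, ih, smul_smul, mul_comm]

section Coeffs

variable (f : ℕ → ℚ) (M : ℕ)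

/-- `Φ = ∑ f_m t^(2m)`. -/
noncomputable def Phi : ℚ⟦X⟧ := ∑ m ∈ Finset.Icc 1 M, f m • X ^ (2 * m)

/-- `Υ = ∑ (2m-1) f_m t^(2m)`. -/
noncomputable def Ups : ℚ⟦X⟧ := ∑ m ∈ Finset.Icc 1 M, (((2 * m - 1 : ℕ) : ℚ) * f m) • X ^ (2 * m)

lemma X_mul_derivative_Phi : X * derivative ℚ (Phi f M) = Phi f M + Ups f M := by
  rw [Phi, Ups, ← Finset.sum_add_distrib, map_sum, Finset.mul_sum]
  apply Finset.sum_congr rfl
  intro m hm
  have hm1 := (Finset.mem_Icc.mp hm).1
  rw [Derivation.map_smul, mul_smul_comm, X_mul_derivative_X_pow, smul_smul, ← add_smul]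
  congr 1
  rw [Nat.cast_sub (by omega)]
  push_cast
  ring

/-- coefficients of the series `L_x`. -/
noncomputable def lc (x k N : ℕ) : ℚ := 1 / N * N.choose k * coeff N (X ^ x * Phi f M ^ k)

/-- coefficients of the series `H`. -/
noncomputable def hc (k N : ℕ) : ℚ :=
  1 / ((N + 1) * N) * (N + 1).choose k * coeff (N + 1) (Phi f M ^ k)

/-- The functional `G ↦ [t^N] (t G' Φ^i)`. -/
noncomputable def ell (N i : ℕ) : ℚ⟦X⟧ →ₗ[ℚ] ℚ where
  toFun G := coeff N (X * derivative ℚ G * Phi f M ^ i)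
  map_add' G G' := by rw [map_add, mul_add, add_mul, map_add]
  map_smul' c G := by
    rw [Derivation.map_smul, mul_smul_comm, smul_mul_assoc, coeff_smul]; rfl

lemma ell_apply (N i : ℕ) (G : ℚ⟦X⟧) :
    ell f M N i G = coeff N (X * derivative ℚ G * Phi f M ^ i) := rfl

lemma ell_X_pow (N i κ : ℕ) :
    ell f M N i (X ^ κ) = κ * coeff N (X ^ κ * Phi f M ^ i) := by
  rw [ell_apply, X_mul_derivative_X_pow, smul_mul_assoc, coeff_smul, smul_eq_mul]

lemma ell_mul (N i j x : ℕ) :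
    ell f M N i (X ^ x * Phi f M * Ups f M ^ j) =
      (N - i) * coeff N (X ^ x * Phi f M ^ (i + 1) * Ups f M ^ j) -
        i * coeff N (X ^ x * Phi f M ^ i * Ups f M ^ (j + 1)) := by
  have h1 := coeff_X_mul_derivative (X ^ x * Phi f M * Ups f M ^ j * Phi f M ^ i) N
  rw [Derivation.leibniz, smul_eq_mul, smul_eq_mul, derivative_pow] at h1
  rw [ell_apply]
  rcases Nat.eq_zero_or_pos i with rfl | hi
  · simp only [pow_zero, Nat.cast_zero, zero_mul, mul_zero, zero_add, mul_one, one_mul] at h1 ⊢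
    rw [h1]; simp
  · obtain ⟨l, rfl⟩ : ∃ l, i = l + 1 := ⟨i - 1, by omega⟩
    have h2 : X * (X ^ x * Phi f M * Ups f M ^ j * (((l + 1 : ℕ) : ℚ⟦X⟧) * Phi f M ^ (l + 1 - 1) *
        derivative ℚ (Phi f M)) + Phi f M ^ (l + 1) *
          derivative ℚ (X ^ x * Phi f M * Ups f M ^ j)) =
        X * derivative ℚ (X ^ x * Phi f M * Ups f M ^ j) * Phi f M ^ (l + 1) +
        ((l + 1 : ℕ) : ℚ) • (X ^ x * Phi f M ^ (l + 1 + 1) * Ups f M ^ j +
          X ^ x * Phi f M ^ (l + 1) * Ups f M ^ (j + 1)) := by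
      have h3 : X * (X ^ x * Phi f M * Ups f M ^ j * (((l + 1 : ℕ) : ℚ⟦X⟧) * Phi f M ^ (l + 1 - 1) *
        derivative ℚ (Phi f M)) + Phi f M ^ (l + 1) *
          derivative ℚ (X ^ x * Phi f M * Ups f M ^ j)) =
        X * derivative ℚ (X ^ x * Phi f M * Ups f M ^ j) * Phi f M ^ (l + 1) +
        X ^ x * Phi f M * Ups f M ^ j * (((l + 1 : ℕ) : ℚ⟦X⟧) * Phi f M ^ l) *
          (X * derivative ℚ (Phi f M)) := by
        rw [Nat.add_sub_cancel]; ring
      rw [h3, X_mul_derivative_Phi, Algebra.smul_def]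
      simp only [map_natCast]
      ring
    rw [h2, map_add, coeff_smul, map_add, smul_eq_mul] at h1
    have h4 : X ^ x * Phi f M * Ups f M ^ j * Phi f M ^ (l + 1) =
        X ^ x * Phi f M ^ (l + 1 + 1) * Ups f M ^ j := by ring
    rw [h4] at h1
    push_cast at h1 ⊢
    linear_combination h1

/-- The telescoping identity. -/
lemma telescope (N x k : ℕ) :
    ∑ p ∈ antidiagonal k, (N.choose p.2 : ℚ) * ell f M N p.2 (X ^ x * Phi f M * Ups f M ^ p.1) =
      (k + 1) * N.choose (k + 1) * coeff N (X ^ x * Phi f M ^ (k + 1)) := by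
  have h0 : ∑ p ∈ antidiagonal k, (N.choose p.2 : ℚ) *
      ell f M N p.2 (X ^ x * Phi f M * Ups f M ^ p.1) =
      ∑ i ∈ Finset.range (k + 1), (N.choose i : ℚ) *
        ell f M N i (X ^ x * Phi f M * Ups f M ^ (k - i)) := by
    rw [← Finset.Nat.sum_antidiagonal_eq_sum_range_succ_mk
      (fun p : ℕ × ℕ => (N.choose p.1 : ℚ) * ell f M N p.1 (X ^ x * Phi f M * Ups f M ^ p.2)) k]
    exact (Finset.Nat.sum_antidiagonal_swap (n := k)
      (f := fun p : ℕ × ℕ => (N.choose p.2 : ℚ) *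
        ell f M N p.2 (X ^ x * Phi f M * Ups f M ^ p.1))).symm
  have key : ∀ n ≤ k + 1, ∑ i ∈ Finset.range n, (N.choose i : ℚ) *
      ell f M N i (X ^ x * Phi f M * Ups f M ^ (k - i)) =
      n * N.choose n * coeff N (X ^ x * Phi f M ^ n * Ups f M ^ (k + 1 - n)) := by
    intro n
    induction n with
    | zero => simp
    | succ n ih =>
      intro hn
      rw [Finset.sum_range_succ, ih (by omega), ell_mul]
      have e1 : k - n + 1 = k + 1 - n := by omega
      have e2 : k + 1 - (n + 1) = k - n := by omega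
      rw [e1, e2]
      have hc : ((n : ℚ) + 1) * N.choose (n + 1) = N.choose n * (N - n) := by
        rcases Nat.lt_or_ge N n with h | h
        · rw [Nat.choose_eq_zero_of_lt h, Nat.choose_eq_zero_of_lt (by omega)]; simp
        · have := Nat.choose_succ_right_eq N n
          have h2 : ((N.choose (n + 1) * (n + 1) : ℕ) : ℚ) = ((N.choose n * (N - n) : ℕ) : ℚ) := by
            rw [this]
          rw [Nat.cast_mul, Nat.cast_mul, Nat.cast_sub h] at h2
          push_cast at h2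
          linear_combination h2
      push_cast
      rw [hc]
      ring
  rw [h0, key (k + 1) le_rfl]
  simp

/-- The coefficient identity behind the differential equation of `L_x`. -/
lemma lc_identity (x k N : ℕ) :
    ((k + 1 : ℕ) : ℚ) * lc f M x (k + 1) N = ∑ p ∈ antidiagonal k, ∑ m ∈ Finset.Icc 1 M, f m *
      W (fun m => ((2 * m - 1 : ℕ) : ℚ) * f m) M p.1 fun Q =>
        (((x + (2 * m - 1) + 1 + total Q : ℕ) : ℚ) *
          lc f M (x + (2 * m - 1) + 1 + total Q) p.2 N) := by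
  have h1 : ∀ p ∈ antidiagonal k, ∑ m ∈ Finset.Icc 1 M, f m *
      (W (fun m => ((2 * m - 1 : ℕ) : ℚ) * f m) M p.1 fun Q =>
        (((x + (2 * m - 1) + 1 + total Q : ℕ) : ℚ) *
          lc f M (x + (2 * m - 1) + 1 + total Q) p.2 N)) =
      1 / N * ((N.choose p.2 : ℚ) * ell f M N p.2 (X ^ x * Phi f M * Ups f M ^ p.1)) := by
    intro p _
    have h2 : ∀ m ∈ Finset.Icc 1 M, f m *
      (W (fun m => ((2 * m - 1 : ℕ) : ℚ) * f m) M p.1 fun Q =>
        (((x + (2 * m - 1) + 1 + total Q : ℕ) : ℚ) *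
          lc f M (x + (2 * m - 1) + 1 + total Q) p.2 N)) =
        1 / N * N.choose p.2 * ell f M N p.2 (f m • (X ^ x * X ^ (2 * m) * Ups f M ^ p.1)) := by
      intro m hm
      have hm1 := (Finset.mem_Icc.mp hm).1
      have h3 : (W (fun m => ((2 * m - 1 : ℕ) : ℚ) * f m) M p.1 fun Q =>
        (((x + (2 * m - 1) + 1 + total Q : ℕ) : ℚ) *
          lc f M (x + (2 * m - 1) + 1 + total Q) p.2 N)) =
          (1 / (N : ℚ) * N.choose p.2) • W (fun m => ((2 * m - 1 : ℕ) : ℚ) * f m) M p.1 fun Q =>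
            ell f M N p.2 (X ^ ((x + 2 * m) + total Q)) := by
        rw [← W_smul]
        apply W_congr
        intro Q _
        rw [ell_X_pow, lc]
        have : x + (2 * m - 1) + 1 + total Q = x + 2 * m + total Q := by omega
        rw [this, smul_eq_mul]
        ring
      rw [h3, W_monomial, map_smul, ← pow_add, smul_eq_mul, smul_eq_mul]
      rw [← Ups]
      ring
    rw [Finset.sum_congr rfl h2, ← Finset.mul_sum, ← map_sum]
    rw [mul_assoc]
    congr 3
    rw [Phi, Finset.mul_sum, Finset.sum_mul]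
    apply Finset.sum_congr rfl
    intro m _
    rw [mul_smul_comm, smul_mul_assoc]
  rw [Finset.sum_congr rfl h1, ← Finset.mul_sum, telescope, lc]
  push_cast
  ring

lemma hc_identity (k N : ℕ) :
    ((k + 1 : ℕ) : ℚ) * hc f M (k + 1) N =
      ∑ m ∈ Finset.Icc 1 M, f m * lc f M (2 * m - 1) k N := by
  rcases Nat.eq_zero_or_pos N with rfl | hN
  · simp [hc, lc]
  · have h1 : coeff (N + 1) (Phi f M ^ (k + 1)) =
        ∑ m ∈ Finset.Icc 1 M, f m * coeff N (X ^ (2 * m - 1) * Phi f M ^ k) := by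
      have e0 : Phi f M * Phi f M ^ k =
          ∑ m ∈ Finset.Icc 1 M, (f m • X ^ (2 * m)) * Phi f M ^ k := by
        rw [← Finset.sum_mul]; rfl
      rw [pow_succ', e0, map_sum]
      apply Finset.sum_congr rfl
      intro m hm
      have hm1 := (Finset.mem_Icc.mp hm).1
      obtain ⟨l, rfl⟩ : ∃ l, m = l + 1 := ⟨m - 1, by omega⟩
      have e1 : 2 * (l + 1) = 2 * (l + 1) - 1 + 1 := by omega
      rw [smul_mul_assoc, coeff_smul, smul_eq_mul]
      conv_lhs => rw [e1, pow_succ', mul_assoc, coeff_succ_X_mul]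
    have h2 : ((N : ℚ) + 1) * N.choose k = (N + 1).choose (k + 1) * (k + 1) := by
      have := Nat.add_one_mul_choose_eq N k
      exact_mod_cast this
    rw [hc, h1]
    simp only [lc]
    have h3 : ∑ m ∈ Finset.Icc 1 M, f m * (1 / (N : ℚ) * (N.choose k) *
        coeff N (X ^ (2 * m - 1) * Phi f M ^ k)) = 1 / (N : ℚ) * (N.choose k) *
        ∑ m ∈ Finset.Icc 1 M, f m * coeff N (X ^ (2 * m - 1) * Phi f M ^ k) := by
      rw [Finset.mul_sum]
      apply Finset.sum_congr rfl
      intro m _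
      ring
    rw [h3]
    have hN' : (N : ℚ) ≠ 0 := by exact_mod_cast hN.ne'
    have hN1 : (N : ℚ) + 1 ≠ 0 := by positivity
    have h4 : ((k + 1 : ℕ) : ℚ) * (1 / ((N + 1) * N) * ((N + 1).choose (k + 1) : ℚ)) =
        1 / (N : ℚ) * N.choose k := by
      field_simp
      push_cast
      linear_combination -h2
    rw [← h4]
    ring

end Coeffs

end Pool.Agent.H74.Strata
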