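import Pool.Agent.H74.EulL

/-!
# The solution of the residue recursion
-/

namespace Pool.Agent.H74.Strata

open PowerSeries
open Finset.HasAntidiagonal (antidiagonal mem_antidiagonal)

lemma total_splits {Y : List ℕ} {p : List ℕ × List ℕ} (hp : p ∈ splits Y) :
    total p.1 + total p.2 = total Y := by
  induction Y generalizing p with
  | nil => simp [splits] at hp; simp [hp, total_nil]
  | cons y Y ih =>
    simp only [splits, List.mem_flatMap, List.mem_cons, List.not_mem_nil, or_false] at hp
    obtain ⟨q, hq, rfl | rfl⟩ := hp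
    · have := ih hq
      simp only [total_cons]
      omega
    · have := ih hq
      simp only [total_cons]
      omega

lemma total_eraseIdx (P : List ℕ) (i : Fin P.length) :
    total (P.eraseIdx i) + (P.get i + 1) = total P := by
  induction P with
  | nil => exact i.elim0
  | cons x l ih =>
    refine Fin.cases ?_ (fun j => ?_) i
    · simp [total_cons]; omega
    · have := ih j
      simp only [List.get_eq_getElem, Fin.val_succ, List.getElem_cons_succ,
        List.eraseIdx_cons_succ, total_cons] at this ⊢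
      omega

section Abstract

variable {R : Type*} [CommRing R] [Algebra ℚ R] (a : ℚ) (br : ℕ → R)

/-- The solution of the residue recursion with values in a ring `R`. -/
noncomputable def J (P : List ℕ) (Y : List ℕ) : R :=
  match Y with
  | [] => (P.map fun x : ℕ => (1 / (x : ℚ)) • br x).prod
  | y :: Y =>
    -a • J (y :: P) Y +
      ∑ i : Fin P.length, ((splits Y).attach.map fun ⟨(Q, T), _⟩ =>
        ((P.get i + y + 1 + total Q : ℕ) * (Q.length.factorial * Q.prod) : ℚ) •
          J ((P.get i + y + 1 + total Q) :: P.eraseIdx i) T).sum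
termination_by Y.length
decreasing_by
  · simp
  · rename_i hp
    have := length_of_mem_splits hp
    simp only [List.length_cons] at this ⊢
    omega

lemma J_nil (P : List ℕ) : J a br P [] = (P.map fun x : ℕ => (1 / (x : ℚ)) • br x).prod := by
  rw [J]

lemma J_cons (P : List ℕ) (y : ℕ) (Y : List ℕ) : J a br P (y :: Y) =
    -a • J a br (y :: P) Y +
      ∑ i : Fin P.length, ((splits Y).map fun p =>
        ((P.get i + y + 1 + total p.1 : ℕ) * (p.1.length.factorial * p.1.prod) : ℚ) •
          J a br ((P.get i + y + 1 + total p.1) :: P.eraseIdx i) p.2).sum := by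
  rw [J]
  congr 1
  apply Finset.sum_congr rfl
  intro i _
  congr 1
  exact List.attach_map_val (l := splits Y) (f := fun p =>
        ((P.get i + y + 1 + total p.1 : ℕ) * (p.1.length.factorial * p.1.prod) : ℚ) •
          J a br ((P.get i + y + 1 + total p.1) :: P.eraseIdx i) p.2)

/-- `J` with a power of `u` keeping track of the total. -/
noncomputable def Jm (P Y : List ℕ) : R⟦X⟧ := monomial (total P + total Y) (J a br P Y)

lemma monomial_smul' (n : ℕ) (c : ℚ) (r : R) :
    (monomial n (c • r) : R⟦X⟧) = c • monomial n r := by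
  ext m
  rw [coeff_smul, coeff_monomial, coeff_monomial]
  split_ifs <;> simp

lemma Jm_cons (P : List ℕ) (y : ℕ) (Y : List ℕ) : Jm a br P (y :: Y) =
    -a • Jm a br (y :: P) Y +
      ∑ i : Fin P.length, ((splits Y).map fun p =>
        ((P.get i + y + 1 + total p.1 : ℕ) * (p.1.length.factorial * p.1.prod) : ℚ) •
          Jm a br ((P.get i + y + 1 + total p.1) :: P.eraseIdx i) p.2).sum := by
  rw [Jm, J_cons, map_add, monomial_smul', map_sum]
  congr 1
  · rw [Jm, total_cons, total_cons]
    congr 3
    omega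
  · apply Finset.sum_congr rfl
    intro i _
    rw [map_list_sum, List.map_map]
    congr 1
    apply List.map_congr_left
    intro p hp
    have h1 := total_splits hp
    have h2 := total_eraseIdx P i
    rw [Function.comp_apply, monomial_smul', Jm]
    congr 3
    rw [total_cons, total_cons]
    omega

variable (f : ℕ → ℚ) (M : ℕ)

/-- The series `L_x`. -/
noncomputable def Lser (x : ℕ) : (Polynomial R)⟦X⟧ := mk fun n => match n with
  | 0 => 0
  | N + 1 => ∑ k ∈ Finset.range (N + 1), Polynomial.monomial k (lc f M x k N • br N)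

/-- The series `H`. -/
noncomputable def Hser : (Polynomial R)⟦X⟧ := mk fun n => match n with
  | 0 => 0
  | N + 1 => ∑ k ∈ Finset.range (N + 2), Polynomial.monomial k (hc f M k N • br N)

lemma coeff_E_Lser_zero (x k : ℕ) : coeff 0 (E k (Lser br f M x)) = 0 := by
  rw [coeff_E, Lser, coeff_mk]; simp

lemma coeff_E_Lser_succ (x k N : ℕ) :
    coeff (N + 1) (E k (Lser br f M x)) = lc f M x k N • br N := by
  rw [coeff_E, Lser, coeff_mk]
  simp only [Polynomial.finsetSum_coeff, Polynomial.coeff_monomial]
  rw [Finset.sum_ite_eq']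
  split_ifs with h
  · rfl
  · have : N.choose k = 0 := Nat.choose_eq_zero_of_lt (by
      have := Finset.mem_range.not.mp h
      omega)
    rw [lc, this]
    simp

lemma coeff_E_Hser_zero (k : ℕ) : coeff 0 (E k (Hser br f M)) = 0 := by
  rw [coeff_E, Hser, coeff_mk]; simp

lemma coeff_E_Hser_succ (k N : ℕ) :
    coeff (N + 1) (E k (Hser br f M)) = hc f M k N • br N := by
  rw [coeff_E, Hser, coeff_mk]
  simp only [Polynomial.finsetSum_coeff, Polynomial.coeff_monomial]
  rw [Finset.sum_ite_eq']
  split_ifs with h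
  · rfl
  · have : (N + 1).choose k = 0 := Nat.choose_eq_zero_of_lt (by
      have := Finset.mem_range.not.mp h
      omega)
    rw [hc, this]
    simp

omit [Algebra ℚ R] in
lemma E_ext {Θ Θ' : (Polynomial R)⟦X⟧} (h : ∀ k, E k Θ = E k Θ') : Θ = Θ' := by
  ext n k
  have := congrArg (coeff n) (h k)
  rwa [coeff_E, coeff_E] at this

lemma D_Hser : D (dε R) (Hser br f M) = ∑ m ∈ Finset.Icc 1 M, f m • Lser br f M (2 * m - 1) := by
  apply E_ext
  intro k
  rw [E_D, E_sum]
  ext n
  rw [coeff_smul, map_sum]
  cases n with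
  | zero =>
    rw [coeff_E_Hser_zero, smul_zero]
    symm
    apply Finset.sum_eq_zero
    intro m _
    rw [E_smul, coeff_smul, coeff_E_Lser_zero, smul_zero]
  | succ N =>
    rw [coeff_E_Hser_succ, smul_smul, hc_identity, Finset.sum_smul]
    apply Finset.sum_congr rfl
    intro m _
    rw [E_smul, coeff_smul, coeff_E_Lser_succ, smul_smul]

/-- The differential equation of `L_x`, in coefficients. -/
lemma E_D_Lser (x k : ℕ) : E k (D (dε R) (Lser br f M x)) =
    ∑ p ∈ antidiagonal k, ∑ m ∈ Finset.Icc 1 M, f m •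
      W (fun m => ((2 * m - 1 : ℕ) : ℚ) * f m) M p.1 fun Q =>
        ((x + (2 * m - 1) + 1 + total Q : ℕ) : ℚ) •
          E p.2 (Lser br f M (x + (2 * m - 1) + 1 + total Q)) := by
  rw [E_D]
  ext n
  rw [coeff_smul, map_sum]
  simp only [map_sum, coeff_smul]
  cases n with
  | zero =>
    rw [coeff_E_Lser_zero, smul_zero]
    symm
    apply Finset.sum_eq_zero
    intro p _
    apply Finset.sum_eq_zero
    intro m _
    have := W_map (fun m => ((2 * m - 1 : ℕ) : ℚ) * f m) M ((coeff (R := R) 0).restrictScalars ℚ)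
      p.1 fun Q => ((x + (2 * m - 1) + 1 + total Q : ℕ) : ℚ) •
          E p.2 (Lser br f M (x + (2 * m - 1) + 1 + total Q))
    simp only [LinearMap.restrictScalars_apply] at this
    rw [this]
    have h2 : (W (fun m => ((2 * m - 1 : ℕ) : ℚ) * f m) M p.1 fun Q =>
        coeff (R := R) 0 (((x + (2 * m - 1) + 1 + total Q : ℕ) : ℚ) •
          E p.2 (Lser br f M (x + (2 * m - 1) + 1 + total Q)))) =
        W (fun m => ((2 * m - 1 : ℕ) : ℚ) * f m) M p.1 fun _ => (0 : R) := by
      apply W_congr
      intro Q _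
      rw [coeff_smul, coeff_E_Lser_zero, smul_zero]
    rw [h2, W_zero_fun, smul_zero]
  | succ N =>
    rw [coeff_E_Lser_succ, smul_smul, lc_identity, Finset.sum_smul]
    apply Finset.sum_congr rfl
    intro p _
    rw [Finset.sum_smul]
    apply Finset.sum_congr rfl
    intro m _
    have := W_map (fun m => ((2 * m - 1 : ℕ) : ℚ) * f m) M
      ((coeff (R := R) (N + 1)).restrictScalars ℚ)
      p.1 fun Q => ((x + (2 * m - 1) + 1 + total Q : ℕ) : ℚ) •
          E p.2 (Lser br f M (x + (2 * m - 1) + 1 + total Q))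
    simp only [LinearMap.restrictScalars_apply] at this
    rw [this, mul_smul]
    congr 1
    have h3 := W_map (fun m => ((2 * m - 1 : ℕ) : ℚ) * f m) M
      (LinearMap.toSpanSingleton ℚ R (br N)) p.1 fun Q =>
        (((x + (2 * m - 1) + 1 + total Q : ℕ) : ℚ) *
          lc f M (x + (2 * m - 1) + 1 + total Q) p.2 N)
    simp only [LinearMap.toSpanSingleton_apply] at h3
    rw [h3]
    apply W_congr
    intro Q _
    rw [coeff_smul, coeff_E_Lser_succ, smul_smul]

/-- The differential equation of `L_x`, multiplied with another series. -/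
lemma E_D_Lser_mul (x k : ℕ) (Θ : (Polynomial R)⟦X⟧) :
    E k (D (dε R) (Lser br f M x) * Θ) =
    ∑ p ∈ antidiagonal k, ∑ m ∈ Finset.Icc 1 M, f m •
      W (fun m => ((2 * m - 1 : ℕ) : ℚ) * f m) M p.1 fun Q =>
        ((x + (2 * m - 1) + 1 + total Q : ℕ) : ℚ) •
          E p.2 (Lser br f M (x + (2 * m - 1) + 1 + total Q) * Θ) := by
  rw [E_mul]
  have h1 : ∀ p ∈ antidiagonal k, E p.1 (D (dε R) (Lser br f M x)) * E p.2 Θ =
      ∑ q ∈ antidiagonal p.1, ∑ m ∈ Finset.Icc 1 M, f m •
      W (fun m => ((2 * m - 1 : ℕ) : ℚ) * f m) M q.1 fun Q =>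
        ((x + (2 * m - 1) + 1 + total Q : ℕ) : ℚ) •
          (E q.2 (Lser br f M (x + (2 * m - 1) + 1 + total Q)) * E p.2 Θ) := by
    intro p _
    rw [E_D_Lser, Finset.sum_mul]
    apply Finset.sum_congr rfl
    intro q _
    rw [Finset.sum_mul]
    apply Finset.sum_congr rfl
    intro m _
    rw [smul_mul_assoc]
    congr 1
    have := W_map (fun m => ((2 * m - 1 : ℕ) : ℚ) * f m) M
      (LinearMap.mulRight ℚ (E p.2 Θ)) q.1 fun Q =>
        ((x + (2 * m - 1) + 1 + total Q : ℕ) : ℚ) •
          E q.2 (Lser br f M (x + (2 * m - 1) + 1 + total Q))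
    simp only [LinearMap.mulRight_apply] at this
    rw [this]
    apply W_congr
    intro Q _
    rw [smul_mul_assoc]
  rw [Finset.sum_congr rfl h1]
  rw [sum_triple (fun j i l => ∑ m ∈ Finset.Icc 1 M, f m •
      W (fun m => ((2 * m - 1 : ℕ) : ℚ) * f m) M j fun Q =>
        ((x + (2 * m - 1) + 1 + total Q : ℕ) : ℚ) •
          (E i (Lser br f M (x + (2 * m - 1) + 1 + total Q)) * E l Θ)) k]
  apply Finset.sum_congr rfl
  intro p _
  rw [Finset.sum_comm]
  apply Finset.sum_congr rfl
  intro m _
  rw [← Finset.smul_sum, ← W_sum]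
  congr 1
  apply W_congr
  intro Q _
  rw [E_mul, Finset.smul_sum]

end Abstract

end Pool.Agent.H74.Strata
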