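import Pool.Agent.H74.EulM

/-!
# The closed formula for the solution of the residue recursion
-/

namespace Pool.Agent.H74.Strata

open PowerSeries
open Finset.HasAntidiagonal (antidiagonal mem_antidiagonal)

section Abstract

variable {R : Type*} [CommRing R] [Algebra ℚ R] (a : ℚ) (br : ℕ → R) (f : ℕ → ℚ) (M : ℕ)

omit [Algebra ℚ R] in
lemma derivative_E (k : ℕ) (Θ : (Polynomial R)⟦X⟧) :
    derivative R (E k Θ) = E k (derivative _ Θ) := by
  ext n
  rw [coeff_derivative, coeff_E, coeff_E, coeff_derivative]
  have : ((n : Polynomial R) + 1) = Polynomial.C ((n : R) + 1) := by simp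
  rw [this, Polynomial.coeff_mul_C]

/-- The series `Ψ = exp (-a H)`. -/
noncomputable def Psi : (Polynomial R)⟦X⟧ :=
  (PowerSeries.exp (Polynomial R)).subst (-a • Hser br f M)

lemma constantCoeff_neg_Hser : constantCoeff (-a • Hser br f M) = 0 := by
  rw [← coeff_zero_eq_constantCoeff_apply, coeff_smul, Hser, coeff_mk, smul_zero]

lemma isExp_Psi : IsExp (Psi a br f M) (derivative _ (-a • Hser br f M)) :=
  isExp_exp (constantCoeff_neg_Hser a br f M)

lemma D_smul' {A : Type*} [CommRing A] [Algebra ℚ A] (δ : Derivation ℚ A A) (c : ℚ) (Θ : A⟦X⟧) :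
    D δ (c • Θ) = c • D δ Θ := by
  ext1 n
  rw [coeff_D, coeff_smul, coeff_smul, coeff_D, Derivation.map_smul]

lemma D_Psi : D (dε R) (Psi a br f M) =
    -a • ((∑ m ∈ Finset.Icc 1 M, f m • Lser br f M (2 * m - 1)) * Psi a br f M) := by
  rw [D_exp (dε R) (isExp_Psi a br f M) (constantCoeff_neg_Hser a br f M), D_smul', D_Hser,
    smul_mul_assoc]

lemma E_zero_Hser : E 0 (Hser br f M) = 0 := by
  ext n
  cases n with
  | zero => rw [coeff_E_Hser_zero]; simp
  | succ N =>
    rw [coeff_E_Hser_succ, hc]
    simp [coeff_one]

lemma E_zero_Psi : E 0 (Psi a br f M) = 1 := by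
  apply IsExp.unique (r := 0) (hZ := IsExp.one)
  constructor
  · rw [derivative_E, (isExp_Psi a br f M).deriv, E_mul, Finset.Nat.antidiagonal_zero,
      Finset.sum_singleton, ← derivative_E, E_smul, E_zero_Hser]
    simp
  · rw [← coeff_zero_eq_constantCoeff_apply, coeff_E, coeff_zero_eq_constantCoeff_apply,
      (isExp_Psi a br f M).const]
    simp

lemma E_zero_Lser (x : ℕ) :
    E 0 (Lser br f M x) = monomial (x + 1) ((1 / (x : ℚ)) • br x) := by
  ext n
  cases n with
  | zero => rw [coeff_E_Lser_zero, coeff_monomial, if_neg (by omega)]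
  | succ N =>
    rw [coeff_E_Lser_succ, lc, coeff_monomial, pow_zero, mul_one, coeff_X_pow]
    by_cases h : N = x
    · subst h; simp
    · rw [if_neg h, if_neg (by omega)]; simp

lemma E_zero_prod (P : List ℕ) :
    E 0 (P.map (Lser br f M)).prod =
      monomial (total P) (P.map fun x : ℕ => (1 / (x : ℚ)) • br x).prod := by
  induction P with
  | nil =>
    ext n
    rw [coeff_E]
    simp only [List.map_nil, List.prod_nil, total_nil, coeff_one, coeff_monomial]
    split_ifs <;> simp
  | cons x P ih =>
    rw [List.map_cons, List.prod_cons, E_mul, Finset.Nat.antidiagonal_zero,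
      Finset.sum_singleton, ih, E_zero_Lser, List.map_cons, List.prod_cons, total_cons,
      monomial_mul_monomial]

/-- The closed formula for the solution of the residue recursion. -/
theorem closed_formula (k : ℕ) : ∀ P : List ℕ,
    E k (Psi a br f M * (P.map (Lser br f M)).prod) =
      (1 / (k.factorial : ℚ)) • W f M k fun Y => Jm a br P Y := by
  induction k using Nat.strong_induction_on with
  | _ k ih =>
  intro P
  cases k with
  | zero =>
    rw [E_mul, Finset.Nat.antidiagonal_zero, Finset.sum_singleton, E_zero_Psi, one_mul,
      E_zero_prod, W_zero, Jm, J_nil, total_nil]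
    simp
  | succ k =>
    -- the left hand side
    have hk : ((k + 1 : ℕ) : ℚ) ≠ 0 := by positivity
    have h1 : ((k + 1 : ℕ) : ℚ) • E (k + 1) (Psi a br f M * (P.map (Lser br f M)).prod) =
        (-a • ∑ m ∈ Finset.Icc 1 M, f m •
          E k (Psi a br f M * (((2 * m - 1) :: P).map (Lser br f M)).prod)) +
        ∑ i : Fin P.length, ∑ p ∈ antidiagonal k, ∑ m ∈ Finset.Icc 1 M, f m •
          W (fun m => ((2 * m - 1 : ℕ) : ℚ) * f m) M p.1 fun Q =>
            ((P.get i + (2 * m - 1) + 1 + total Q : ℕ) : ℚ) •
              E p.2 (Psi a br f M * (((P.get i + (2 * m - 1) + 1 + total Q) ::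
                P.eraseIdx i).map (Lser br f M)).prod) := by
      rw [← E_D, D_mul, D_Psi, E_add]
      congr 1
      · rw [smul_mul_assoc, E_smul, Finset.sum_mul, Finset.sum_mul, E_sum]
        congr 1
        apply Finset.sum_congr rfl
        intro m _
        rw [← E_smul]
        congr 1
        rw [List.map_cons, List.prod_cons, smul_mul_assoc, smul_mul_assoc]
        congr 1
        ring
      · rw [leibniz_list (D (dε R)) (D_mul (dε R)) (D_one (dε R)), Finset.mul_sum, E_sum]
        apply Finset.sum_congr rfl
        intro i _
        have h2 : Psi a br f M * (D (dε R) (Lser br f M (P.get i)) *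
            ((P.eraseIdx i).map (Lser br f M)).prod) = D (dε R) (Lser br f M (P.get i)) *
            (Psi a br f M * ((P.eraseIdx i).map (Lser br f M)).prod) := by ring
        rw [h2, E_D_Lser_mul]
        apply Finset.sum_congr rfl
        intro p _
        apply Finset.sum_congr rfl
        intro m _
        congr 1
        apply W_congr
        intro Q _
        congr 2
        rw [List.map_cons, List.prod_cons]
        ring
    -- the right hand side
    have h3 : ((k + 1 : ℕ) : ℚ) • ((1 / ((k + 1).factorial : ℚ)) •
        W f M (k + 1) fun Y => Jm a br P Y) =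
        (-a • ∑ m ∈ Finset.Icc 1 M, f m • ((1 / (k.factorial : ℚ)) •
          W f M k fun Y => Jm a br ((2 * m - 1) :: P) Y)) +
        ∑ i : Fin P.length, ∑ p ∈ antidiagonal k, ∑ m ∈ Finset.Icc 1 M, f m •
          W (fun m => ((2 * m - 1 : ℕ) : ℚ) * f m) M p.1 fun Q =>
            ((P.get i + (2 * m - 1) + 1 + total Q : ℕ) : ℚ) •
              ((1 / (p.2.factorial : ℚ)) • W f M p.2 fun T => Jm a br
                ((P.get i + (2 * m - 1) + 1 + total Q) :: P.eraseIdx i) T) := by
      have hf : ((k + 1 : ℕ) : ℚ) * (1 / ((k + 1).factorial : ℚ)) = 1 / (k.factorial : ℚ) := by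
        rw [Nat.factorial_succ]
        push_cast
        have : (k.factorial : ℚ) ≠ 0 := by positivity
        have : (k : ℚ) + 1 ≠ 0 := by positivity
        field_simp
      rw [smul_smul, hf, W_succ]
      have h4 : ∀ m ∈ Finset.Icc 1 M, f m • (W f M k fun Y => Jm a br P ((2 * m - 1) :: Y)) =
          (-a • f m • W f M k fun Y => Jm a br ((2 * m - 1) :: P) Y) +
          ∑ i : Fin P.length, ∑ p ∈ antidiagonal k, (k.factorial : ℚ) • f m •
          W (fun m => ((2 * m - 1 : ℕ) : ℚ) * f m) M p.1 fun Q =>
            ((P.get i + (2 * m - 1) + 1 + total Q : ℕ) : ℚ) •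
              ((1 / (p.2.factorial : ℚ)) • W f M p.2 fun T => Jm a br
                ((P.get i + (2 * m - 1) + 1 + total Q) :: P.eraseIdx i) T) := by
        intro m _
        have h5 : (W f M k fun Y => Jm a br P ((2 * m - 1) :: Y)) =
            (W f M k fun Y => -a • Jm a br ((2 * m - 1) :: P) Y +
              ∑ i : Fin P.length, ((splits Y).map fun p =>
                ((P.get i + (2 * m - 1) + 1 + total p.1 : ℕ) *
                  (p.1.length.factorial * p.1.prod) : ℚ) •
                  Jm a br ((P.get i + (2 * m - 1) + 1 + total p.1) :: P.eraseIdx i) p.2).sum) := by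
          apply W_congr
          intro Y _
          rw [Jm_cons]
        rw [h5, W_add, W_smul, smul_add, W_sum, Finset.smul_sum]
        congr 1
        · rw [smul_comm]
        · apply Finset.sum_congr rfl
          intro i _
          rw [W_splits f M k (fun Q T => ((P.get i + (2 * m - 1) + 1 + total Q : ℕ) *
                  (Q.length.factorial * Q.prod) : ℚ) •
                  Jm a br ((P.get i + (2 * m - 1) + 1 + total Q) :: P.eraseIdx i) T),
            Finset.smul_sum]
          apply Finset.sum_congr rfl
          intro p hp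
          have hp' := mem_antidiagonal.mp hp
          have h6 : (W f M p.1 fun Q => W f M p.2 fun T =>
              ((P.get i + (2 * m - 1) + 1 + total Q : ℕ) *
                  (Q.length.factorial * Q.prod) : ℚ) •
                  Jm a br ((P.get i + (2 * m - 1) + 1 + total Q) :: P.eraseIdx i) T) =
              ((p.1.factorial * p.2.factorial : ℕ) : ℚ) •
              W (fun m => ((2 * m - 1 : ℕ) : ℚ) * f m) M p.1 fun Q =>
                ((P.get i + (2 * m - 1) + 1 + total Q : ℕ) : ℚ) •
              ((1 / (p.2.factorial : ℚ)) • W f M p.2 fun T => Jm a br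
                ((P.get i + (2 * m - 1) + 1 + total Q) :: P.eraseIdx i) T) := by
            rw [← W_prod, ← W_smul]
            apply W_congr
            intro Q hQ
            rw [W_smul, hQ, smul_smul, smul_smul, smul_smul]
            congr 1
            have : (p.2.factorial : ℚ) ≠ 0 := by positivity
            push_cast
            field_simp
          have h8 : ((k.choose p.1 : ℕ) : ℚ) * ((p.1.factorial * p.2.factorial : ℕ) : ℚ) =
              (k.factorial : ℚ) := by
            have h9 := Nat.choose_mul_factorial_mul_factorial (n := p.1 + p.2) (k := p.1)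
              (Nat.le_add_right _ _)
            rw [Nat.add_sub_cancel_left] at h9
            rw [← Nat.cast_mul, ← hp', ← mul_assoc, h9]
          rw [h6, ← Nat.cast_smul_eq_nsmul ℚ, smul_smul _ _ (W _ _ _ _), h8, smul_comm]
      rw [Finset.sum_congr rfl h4, Finset.sum_add_distrib, smul_add]
      congr 1
      · simp only [Finset.smul_sum]
        apply Finset.sum_congr rfl
        intro m _
        rw [smul_comm, smul_comm (1 / (k.factorial : ℚ)) (f m)]
      · rw [Finset.sum_comm, Finset.smul_sum]
        apply Finset.sum_congr rfl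
        intro i _
        rw [Finset.sum_comm, Finset.smul_sum]
        apply Finset.sum_congr rfl
        intro p _
        rw [Finset.smul_sum]
        apply Finset.sum_congr rfl
        intro m _
        rw [smul_smul]
        have : (k.factorial : ℚ) ≠ 0 := by positivity
        rw [one_div_mul_cancel this, one_smul]
    have h7 : ((k + 1 : ℕ) : ℚ) • E (k + 1) (Psi a br f M * (P.map (Lser br f M)).prod) =
        ((k + 1 : ℕ) : ℚ) • ((1 / ((k + 1).factorial : ℚ)) •
          W f M (k + 1) fun Y => Jm a br P Y) := by
      rw [h1, h3]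
      congr 1
      · congr 1
        apply Finset.sum_congr rfl
        intro m _
        rw [ih k (by omega)]
      · apply Finset.sum_congr rfl
        intro i _
        apply Finset.sum_congr rfl
        intro p hp
        have hp' := mem_antidiagonal.mp hp
        apply Finset.sum_congr rfl
        intro m _
        congr 1
        apply W_congr
        intro Q _
        rw [ih p.2 (by omega)]
    exact smul_right_injective _ hk h7

end Abstract

end Pool.Agent.H74.Strata
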