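import Mathlib

/-!
# First order linear differential equations for formal power series
-/

namespace Pool.Agent.H74.Strata

open PowerSeries

variable {A : Type*} [CommRing A] [Algebra ℚ A]

lemma natCast_smul_cancel {n : ℕ} (hn : n ≠ 0) {x y : A} (h : (n : A) * x = n * y) : x = y := by
  have hu : IsUnit (n : A) := by
    have : IsUnit (algebraMap ℚ A (n : ℚ)) := (IsUnit.mk0 (n : ℚ) (by exact_mod_cast hn)).map _
    simpa using this
  exact hu.mul_left_cancel h

/-- Uniqueness for `Y' = rY`. -/
lemma ode_zero {W r : A⟦X⟧} (hd : derivative A W = r * W) (hc : constantCoeff W = 0) : W = 0 := by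
  have key : ∀ n, ∀ m ≤ n, coeff m W = 0 := by
    intro n
    induction n with
    | zero =>
      intro m hm
      obtain rfl : m = 0 := by omega
      simpa using hc
    | succ n ih =>
      intro m hm
      rcases Nat.lt_or_ge m (n + 1) with h | h
      · exact ih m (by omega)
      · obtain rfl : m = n + 1 := by omega
        have h1 := congrArg (coeff n) hd
        rw [coeff_derivative, coeff_mul] at h1
        have h2 : ∑ p ∈ Finset.HasAntidiagonal.antidiagonal n, coeff p.1 r * coeff p.2 W = 0 := by
          apply Finset.sum_eq_zero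
          intro p hp
          have := Finset.HasAntidiagonal.mem_antidiagonal.mp hp
          rw [ih p.2 (by omega), mul_zero]
        rw [h2] at h1
        apply natCast_smul_cancel (n := n + 1) (by omega)
        push_cast
        rw [mul_comm, h1, mul_zero]
  ext n
  simpa using key n n le_rfl

/-- `Y` is the exponential of an antiderivative of `r`. -/
structure IsExp (Y r : A⟦X⟧) : Prop where
  deriv : derivative A Y = r * Y
  const : constantCoeff Y = 1

lemma IsExp.unique {Y Z r : A⟦X⟧} (hY : IsExp Y r) (hZ : IsExp Z r) : Y = Z := by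
  have : Y - Z = 0 := by
    apply ode_zero (r := r)
    · rw [map_sub, hY.deriv, hZ.deriv]; ring
    · rw [map_sub, hY.const, hZ.const, sub_self]
  exact sub_eq_zero.mp this

omit [Algebra ℚ A] in
lemma IsExp.one : IsExp (1 : A⟦X⟧) 0 := ⟨by simp, by simp⟩

omit [Algebra ℚ A] in
lemma IsExp.mul {Y Z r s : A⟦X⟧} (hY : IsExp Y r) (hZ : IsExp Z s) : IsExp (Y * Z) (r + s) := by
  constructor
  · rw [Derivation.leibniz, hY.deriv, hZ.deriv, smul_eq_mul, smul_eq_mul]; ring
  · rw [map_mul, hY.const, hZ.const, one_mul]

omit [Algebra ℚ A] in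
lemma IsExp.pow {Y r : A⟦X⟧} (hY : IsExp Y r) (n : ℕ) : IsExp (Y ^ n) (n * r) := by
  induction n with
  | zero => simpa using IsExp.one
  | succ n ih =>
    rw [pow_succ]
    have := ih.mul hY
    convert! this using 1
    push_cast; ring

omit [Algebra ℚ A] in
lemma IsExp.prod {ι : Type*} (s : Finset ι) {Y r : ι → A⟦X⟧} (h : ∀ i ∈ s, IsExp (Y i) (r i)) :
    IsExp (∏ i ∈ s, Y i) (∑ i ∈ s, r i) := by
  classical
  induction s using Finset.induction_on with
  | empty => simpa using IsExp.one
  | insert i s hi ih =>
    rw [Finset.prod_insert hi, Finset.sum_insert hi]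
    exact (h i (by simp)).mul (ih fun j hj => h j (by simp [hj]))

omit [Algebra ℚ A] in
lemma constantCoeff_subst_of_zero {g : A⟦X⟧} (hg : constantCoeff g = 0) (F : A⟦X⟧) :
    constantCoeff (F.subst g) = constantCoeff F := by
  have hs : HasSubst g := HasSubst.of_constantCoeff_zero' hg
  have h1 : F = C (constantCoeff F) + (F - C (constantCoeff F)) := by ring
  rw [h1, subst_add hs, map_add, map_add]
  have h2 : constantCoeff ((F - C (constantCoeff F)).subst g : A⟦X⟧) = 0 := by
    have := constantCoeff_subst_eq_zero (a := g) (by exact hg) (F - C (constantCoeff F)) (by simp)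
    exact this
  rw [h2]
  have h3 : ((C (constantCoeff F) : A⟦X⟧).subst g : A⟦X⟧) = C (constantCoeff F) := by
    exact subst_C _
  rw [h3]
  simp

lemma isExp_exp {g : A⟦X⟧} (hg : constantCoeff g = 0) :
    IsExp ((PowerSeries.exp A).subst g) (derivative A g) := by
  constructor
  · rw [derivative_subst (HasSubst.of_constantCoeff_zero' hg), derivative_exp, mul_comm]
  · rw [constantCoeff_subst_of_zero hg, constantCoeff_exp]

end Pool.Agent.H74.Strata
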