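import Pool.Agent.H74.EulM

/-!
# The residue recursion in genus zero
-/

namespace Pool.Agent.H74.Strata

open PowerSeries

lemma resInt_nil (h : ℕ) (P : List ℕ) : resInt h P [] = psiInt h P := by rw [resInt]

lemma resInt_cons (h : ℕ) (P : List ℕ) (y : ℕ) (Y : List ℕ) : resInt h P (y :: Y) =
    -(2 * h + total P + total (y :: Y) - 1) * resInt h (y :: P) Y +
      ∑ i : Fin P.length, ((splits Y).map fun p =>
        (P.get i + y + 1 + total p.1) * resInt 0 [P.get i, y] p.1 *
          resInt h ((P.get i + y + 1 + total p.1) :: P.eraseIdx i) p.2).sum := by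
  rw [resInt]
  congr 1
  apply Finset.sum_congr rfl
  intro i _
  congr 1
  exact List.attach_map_val (l := splits Y) (f := fun p =>
        (P.get i + y + 1 + total p.1 : ℚ) * resInt 0 [P.get i, y] p.1 *
          resInt h ((P.get i + y + 1 + total p.1) :: P.eraseIdx i) p.2)

lemma constantCoeff_S : constantCoeff S = 1 := by
  rw [← coeff_zero_eq_constantCoeff_apply, S, coeff_mk]; simp

lemma constantCoeff_S_inv : constantCoeff S⁻¹ = 1 := by
  rw [PowerSeries.constantCoeff_inv, constantCoeff_S, inv_one]

lemma constantCoeff_w : constantCoeff w = 1 := by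
  have h : constantCoeff (X * derivative ℚ S * S⁻¹) = 0 := by simp
  rw [w, constantCoeff_subst_of_zero h, constantCoeff_exp]

lemma psiInt_zero (P : List ℕ) : psiInt 0 P = 1 := by
  rw [psiInt]
  simp only [Nat.mul_zero, Nat.zero_add, coeff_zero_eq_constantCoeff_apply, map_mul, map_pow,
    constantCoeff_w, constantCoeff_S_inv, one_pow, one_mul, mul_one]
  rw [map_list_prod, List.map_map]
  have : ((constantCoeff : ℚ⟦X⟧ →+* ℚ) : ℚ⟦X⟧ → ℚ) ∘ (fun b : ℕ => rescale (b : ℚ) S) =
      fun _ => 1 := by
    funext b
    rw [Function.comp_apply, ← coeff_zero_eq_constantCoeff_apply, coeff_rescale, pow_zero,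
      one_mul, coeff_zero_eq_constantCoeff_apply, constantCoeff_S]
  rw [this]
  simp

lemma splits_sum_linear {V : Type*} [AddCommMonoid V] (g : List ℕ × List ℕ → V) (y : ℕ)
    (Y : List ℕ) : ((splits (y :: Y)).map g).sum =
      ((splits Y).map fun p => g (y :: p.1, p.2) + g (p.1, y :: p.2)).sum := by
  rw [splits]
  induction splits Y with
  | nil => simp
  | cons q l ih =>
    simp only [List.flatMap_cons, List.map_append, List.map_cons, List.map_nil, List.sum_append,
      List.sum_cons, List.sum_nil] at ih ⊢
    rw [ih]
    simp [add_assoc]

/-- Sums of products of factorials over splittings. -/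
lemma sum_fact (Y : List ℕ) (i j : ℕ) :
    ((splits Y).map fun p => ((p.1.length + i).factorial * (p.2.length + j).factorial : ℚ)).sum =
      i.factorial * j.factorial * (i + j + Y.length + 1).factorial / (i + j + 1).factorial := by
  induction Y generalizing i j with
  | nil =>
    have : ((i + j + 1).factorial : ℚ) ≠ 0 := by positivity
    simp only [splits, List.map_cons, List.map_nil, List.sum_cons, List.sum_nil, List.length_nil,
      Nat.zero_add, Nat.add_zero, add_zero]
    field_simp
  | cons y Y ih =>
    rw [splits_sum_linear]
    have h1 : ((splits Y).map fun p => (((y :: p.1).length + i).factorial *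
        (p.2.length + j).factorial : ℚ) + (p.1.length + i).factorial *
        ((y :: p.2).length + j).factorial).sum =
        ((splits Y).map fun p => (((p.1.length + (i + 1)).factorial *
        (p.2.length + j).factorial : ℚ))).sum + ((splits Y).map fun p =>
        (((p.1.length + i).factorial * (p.2.length + (j + 1)).factorial : ℚ))).sum := by
      rw [← List.sum_map_add]
      congr 1
      apply List.map_congr_left
      intro p _
      simp only [List.length_cons]
      congr 3
      · congr 1; omega
      · congr 1; omega
    simp only at h1 ⊢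
    rw [h1, ih, ih]
    have e1 : i + 1 + j + Y.length + 1 = (i + j + Y.length + 1) + 1 := by omega
    have e2 : i + 1 + j + 1 = (i + j + 1) + 1 := by omega
    have e3 : i + (j + 1) + Y.length + 1 = (i + j + Y.length + 1) + 1 := by omega
    have e4 : i + (j + 1) + 1 = (i + j + 1) + 1 := by omega
    have e5 : i + j + (y :: Y).length + 1 = (i + j + Y.length + 1) + 1 := by
      simp only [List.length_cons]; omega
    rw [e1, e2, e3, e4, e5, Nat.factorial_succ (i + j + 1), Nat.factorial_succ i,
      Nat.factorial_succ j]
    have h2 : ((i + j + 1).factorial : ℚ) ≠ 0 := by positivity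
    have h3 : (((i + j + 1 + 1 : ℕ)) : ℚ) ≠ 0 := by positivity
    push_cast at h3 ⊢
    field_simp
    ring

/-- Sums of products of factorials over splittings, weighted with the total. -/
lemma sum_fact_total (Y : List ℕ) (i j : ℕ) :
    ((splits Y).map fun p => ((total p.1 : ℚ) * ((p.1.length + i).factorial *
      (p.2.length + j).factorial))).sum =
      total Y * ((i + 1).factorial * j.factorial * (i + j + Y.length + 1).factorial /
        (i + j + 2).factorial) := by
  induction Y generalizing i j with
  | nil => simp [splits, total_nil]
  | cons y Y ih =>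
    rw [splits_sum_linear]
    have h1 : ((splits Y).map fun p => ((total (y :: p.1) : ℚ) * (((y :: p.1).length + i).factorial *
        (p.2.length + j).factorial : ℚ)) + ((total p.1 : ℚ) * ((p.1.length + i).factorial *
        ((y :: p.2).length + j).factorial))).sum =
        ((splits Y).map fun p => ((y + 1 : ℚ) * (((p.1.length + (i + 1)).factorial *
        (p.2.length + j).factorial : ℚ)))).sum +
        ((splits Y).map fun p => ((total p.1 : ℚ) * (((p.1.length + (i + 1)).factorial *
        (p.2.length + j).factorial : ℚ)))).sum + ((splits Y).map fun p =>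
        ((total p.1 : ℚ) * ((p.1.length + i).factorial *
          (p.2.length + (j + 1)).factorial : ℚ))).sum := by
      rw [← List.sum_map_add, ← List.sum_map_add]
      congr 1
      apply List.map_congr_left
      intro p _
      simp only [List.length_cons, total_cons]
      have e1 : p.1.length + 1 + i = p.1.length + (i + 1) := by omega
      have e2 : p.2.length + 1 + j = p.2.length + (j + 1) := by omega
      rw [e1, e2]
      push_cast
      ring
    simp only at h1 ⊢
    rw [h1, ih, ih, List.sum_map_mul_left, sum_fact]
    have e1 : i + 1 + j + Y.length + 1 = (i + j + Y.length + 1) + 1 := by omega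
    have e2 : i + 1 + j + 1 = (i + j + 1) + 1 := by omega
    have e3 : i + (j + 1) + Y.length + 1 = (i + j + Y.length + 1) + 1 := by omega
    have e4 : i + (j + 1) + 2 = (i + j + 2) + 1 := by omega
    have e6 : i + 1 + j + 2 = (i + j + 2) + 1 := by omega
    have e7 : i + j + 1 + 1 = i + j + 2 := by omega
    have e5 : i + j + (y :: Y).length + 1 = (i + j + Y.length + 1) + 1 := by
      simp only [List.length_cons]; omega
    rw [e1, e2, e3, e4, e5, e6, e7, Nat.factorial_succ (i + j + 2), Nat.factorial_succ (i + 1),
      Nat.factorial_succ j, total_cons]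
    have h2 : ((i + j + 2).factorial : ℚ) ≠ 0 := by positivity
    have h3 : (((i + j + 2 + 1 : ℕ)) : ℚ) ≠ 0 := by positivity
    push_cast at h3 ⊢
    field_simp
    ring

lemma prod_splits {Y : List ℕ} {p : List ℕ × List ℕ} (hp : p ∈ splits Y) :
    p.1.prod * p.2.prod = Y.prod := by
  induction Y generalizing p with
  | nil => simp [splits] at hp; simp [hp]
  | cons y Y ih =>
    simp only [splits, List.mem_flatMap, List.mem_cons, List.not_mem_nil, or_false] at hp
    obtain ⟨q, hq, rfl | rfl⟩ := hp
    · have := ih hq
      simp only [List.prod_cons]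
      rw [← this]; ring
    · have := ih hq
      simp only [List.prod_cons]
      rw [← this]; ring

lemma sum_get_eq (P : List ℕ) : ∑ i : Fin P.length, (P.get i : ℚ) = total P - P.length := by
  induction P with
  | nil => simp [total_nil]
  | cons x P ih =>
    simp only [List.length_cons, Fin.sum_univ_succ]
    simp only [List.get_eq_getElem, Fin.val_zero, List.getElem_cons_zero, Fin.val_succ,
      List.getElem_cons_succ, total_cons] at ih ⊢
    rw [ih]
    push_cast
    ring

/-- The genus zero numbers. -/
theorem resInt_genus_zero (n : ℕ) : ∀ Y : List ℕ, Y.length = n → ∀ P : List ℕ, 2 ≤ P.length →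
    resInt 0 P Y = Y.prod * (P.length + Y.length - 2).factorial / (P.length - 2).factorial := by
  induction n using Nat.strong_induction_on with
  | _ n ih =>
  intro Y hY P hP
  cases Y with
  | nil =>
    rw [resInt_nil, psiInt_zero]
    have : ((P.length - 2).factorial : ℚ) ≠ 0 := by positivity
    simp only [List.prod_nil, List.length_nil, Nat.add_zero, Nat.cast_one, one_mul]
    field_simp
  | cons y Y =>
    simp only [List.length_cons] at hY
    obtain ⟨m, hm⟩ : ∃ m, P.length = m + 2 := ⟨P.length - 2, by omega⟩
    rw [resInt_cons, ih Y.length (by omega) Y rfl (y :: P) (by simp; omega)]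
    have h1 : ∀ i : Fin P.length, ((splits Y).map fun p =>
        (P.get i + y + 1 + total p.1 : ℚ) * resInt 0 [P.get i, y] p.1 *
          resInt 0 ((P.get i + y + 1 + total p.1) :: P.eraseIdx i) p.2).sum =
        (Y.prod / m.factorial) * ((P.get i + y + 1 : ℚ) *
          (m.factorial * (m + Y.length + 1).factorial / (m + 1).factorial) +
          (total Y * (m.factorial * (m + Y.length + 1).factorial / (m + 2).factorial))) := by
      intro i
      have h2 : ((splits Y).map fun p =>
        (P.get i + y + 1 + total p.1 : ℚ) * resInt 0 [P.get i, y] p.1 *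
          resInt 0 ((P.get i + y + 1 + total p.1) :: P.eraseIdx i) p.2).sum =
          ((splits Y).map fun p => (Y.prod / m.factorial : ℚ) * (((P.get i + y + 1 : ℚ)) *
            ((p.1.length + 0).factorial * (p.2.length + m).factorial) + ((total p.1 : ℚ) *
            ((p.1.length + 0).factorial * (p.2.length + m).factorial)))).sum := by
        congr 1
        apply List.map_congr_left
        intro p hp
        have hlen := length_of_mem_splits hp
        have hprod := prod_splits hp
        have hl : (P.eraseIdx i).length = P.length - 1 := List.length_eraseIdx_of_lt i.2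
        rw [ih p.1.length (by omega) p.1 rfl [P.get i, y] (by simp),
          ih p.2.length (by omega) p.2 rfl _ (by simp only [List.length_cons]; omega)]
        have e1 : (((P.get i + y + 1 + total p.1) :: P.eraseIdx i).length + p.2.length - 2) =
            p.2.length + m := by simp only [List.length_cons]; omega
        have e2 : (((P.get i + y + 1 + total p.1) :: P.eraseIdx i).length - 2) = m := by
          simp only [List.length_cons]; omega
        have e3 : [P.get i, y].length + p.1.length - 2 = p.1.length + 0 := by simp
        have e4 : [P.get i, y].length - 2 = 0 := by simp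
        rw [e1, e2, e3, e4, ← hprod]
        push_cast
        have : (m.factorial : ℚ) ≠ 0 := by positivity
        simp only [Nat.factorial_zero, Nat.cast_one, div_one]
        field_simp
      rw [h2, List.sum_map_mul_left, List.sum_map_add, List.sum_map_mul_left, sum_fact,
        sum_fact_total]
      simp only [Nat.zero_add, Nat.factorial_zero, Nat.cast_one, one_mul, Nat.factorial_one]
    rw [Finset.sum_congr rfl fun i _ => h1 i, ← Finset.mul_sum, Finset.sum_add_distrib,
      ← Finset.sum_mul]
    have h3 : ∑ i : Fin P.length, (P.get i + y + 1 : ℚ) = total P - P.length +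
        P.length * (y + 1) := by
      have : ∀ i : Fin P.length, (P.get i + y + 1 : ℚ) = P.get i + (y + 1) := fun i => by ring
      rw [Finset.sum_congr rfl fun i _ => this i, Finset.sum_add_distrib, sum_get_eq,
        Finset.sum_const, Finset.card_univ, Fintype.card_fin, nsmul_eq_mul]
    rw [h3, Finset.sum_const, Finset.card_univ, Fintype.card_fin, nsmul_eq_mul, hm]
    simp only [List.length_cons, List.prod_cons, total_cons]
    have e1 : m + 2 + 1 + Y.length - 2 = m + Y.length + 1 := by omega
    have e2 : m + 2 + 1 - 2 = m + 1 := by omega
    have e3 : m + 2 + (Y.length + 1) - 2 = m + Y.length + 1 := by omega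
    have e4 : m + 2 - 2 = m := by omega
    rw [hm, e1, e2, e3, e4]
    have f1 : ((m + 1).factorial : ℚ) = (m + 1) * m.factorial := by
      rw [Nat.factorial_succ]; push_cast; ring
    have f2 : ((m + 2).factorial : ℚ) = (m + 2) * ((m + 1) * m.factorial) := by
      rw [Nat.factorial_succ, Nat.factorial_succ]; push_cast; ring
    rw [f1, f2]
    have g1 : (m.factorial : ℚ) ≠ 0 := by positivity
    have g2 : (m : ℚ) + 1 ≠ 0 := by positivity
    have g3 : (m : ℚ) + 2 ≠ 0 := by positivity
    push_cast
    field_simp
    ring

/-- The genus zero numbers with one free pole vanish. -/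
theorem resInt_genus_zero_one (x y : ℕ) (Y : List ℕ) : resInt 0 [x] (y :: Y) = 0 := by
  induction hn : Y.length using Nat.strong_induction_on generalizing x y Y with
  | _ n ih =>
  rw [resInt_cons]
  have h1 : resInt 0 [y, x] Y = Y.prod * Y.length.factorial := by
    rw [resInt_genus_zero Y.length Y rfl [y, x] (by simp)]
    simp only [List.length_cons, List.length_nil]
    have : 0 + 1 + 1 + Y.length - 2 = Y.length := by omega
    rw [this]
    simp
  have h2 : ((splits Y).map fun p =>
        (x + y + 1 + total p.1 : ℚ) * resInt 0 [x, y] p.1 *
          resInt 0 [x + y + 1 + total p.1] p.2).sum =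
      (x + y + 1 + total Y) * (Y.prod * Y.length.factorial) := by
    have key : ∀ (Z : List ℕ) (g : List ℕ → ℚ), ((splits Z).map fun p =>
        g p.1 * if p.2 = [] then 1 else 0).sum = g Z := by
      intro Z
      induction Z with
      | nil => intro g; simp [splits]
      | cons z Z ihZ =>
        intro g
        rw [splits_sum_linear (fun p => g p.1 * if p.2 = [] then 1 else 0)]
        simp only [reduceCtorEq, if_false, mul_zero, add_zero]
        exact ihZ fun Q => g (z :: Q)
    have h3 := key Y fun Q => (x + y + 1 + total Q : ℚ) * (Q.prod * Q.length.factorial)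
    rw [← h3]
    congr 1
    apply List.map_congr_left
    intro p hp
    have hlen := length_of_mem_splits hp
    have h4 : resInt 0 [x, y] p.1 = p.1.prod * p.1.length.factorial := by
      rw [resInt_genus_zero p.1.length p.1 rfl [x, y] (by simp)]
      simp only [List.length_cons, List.length_nil]
      have : 0 + 1 + 1 + p.1.length - 2 = p.1.length := by omega
      rw [this]
      simp
    rw [h4]
    by_cases hT : p.2 = []
    · rw [if_pos hT, hT, resInt_nil, psiInt_zero]
    · rw [if_neg hT]
      obtain ⟨z, Z, hz⟩ : ∃ z Z, p.2 = z :: Z := by
        cases h : p.2 with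
        | nil => exact absurd h hT
        | cons z Z => exact ⟨z, Z, rfl⟩
      rw [hz] at hlen ⊢
      simp only [List.length_cons] at hlen
      rw [ih Z.length (by omega) _ z Z rfl]
  have h5 : ∑ i : Fin [x].length, ((splits Y).map fun p =>
        (([x].get i : ℕ) + y + 1 + total p.1 : ℚ) * resInt 0 [[x].get i, y] p.1 *
          resInt 0 (([x].get i + y + 1 + total p.1) :: [x].eraseIdx i) p.2).sum =
      (x + y + 1 + total Y) * (Y.prod * Y.length.factorial) := by
    rw [← h2]
    simp only [List.length_cons, List.length_nil]
    rw [Fin.sum_univ_one]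
    rfl
  rw [h5, h1]
  simp only [total_cons, total_nil]
  push_cast
  ring

end Pool.Agent.H74.Strata
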