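import Pool.Agent.H74.EulQ
import Pool.Agent.H74.EulN

/-!
# The intersection numbers in terms of the abstract recursion
-/

namespace Pool.Agent.H74.Strata

open PowerSeries
open Finset.HasAntidiagonal (antidiagonal mem_antidiagonal)

/-- The numbers `[x]_q = x S(xz) / S(z)`. -/
noncomputable def brk (x : ℕ) : ℚ⟦X⟧ := (x : ℚ) • (rescale (x : ℚ) S * S⁻¹)

lemma mem_splits {Y : List ℕ} {p : List ℕ × List ℕ} (hp : p ∈ splits Y) :
    (∀ x ∈ p.1, x ∈ Y) ∧ (∀ x ∈ p.2, x ∈ Y) := by
  induction Y generalizing p with
  | nil => simp [splits] at hp; simp [hp]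
  | cons y Y ih =>
    simp only [splits, List.mem_flatMap, List.mem_cons, List.not_mem_nil, or_false] at hp
    obtain ⟨q, hq, rfl | rfl⟩ := hp
    · obtain ⟨h1, h2⟩ := ih hq
      constructor
      · intro x hx
        simp only [List.mem_cons] at hx ⊢
        rcases hx with rfl | hx
        · exact Or.inl rfl
        · exact Or.inr (h1 x hx)
      · intro x hx
        exact List.mem_cons_of_mem _ (h2 x hx)
    · obtain ⟨h1, h2⟩ := ih hq
      constructor
      · intro x hx
        exact List.mem_cons_of_mem _ (h1 x hx)
      · intro x hx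
        simp only [List.mem_cons] at hx ⊢
        rcases hx with rfl | hx
        · exact Or.inl rfl
        · exact Or.inr (h2 x hx)

/-- Coefficient extraction. -/
noncomputable def extr (h A : ℕ) : ℚ⟦X⟧ →ₗ[ℚ] ℚ where
  toFun T := coeff (2 * h) (w ^ A * S⁻¹ ^ (2 * h + 1) * T)
  map_add' T T' := by rw [mul_add, map_add]
  map_smul' c T := by rw [mul_smul_comm, coeff_smul]; rfl

lemma extr_apply (h A : ℕ) (T : ℚ⟦X⟧) :
    extr h A T = coeff (2 * h) (w ^ A * S⁻¹ ^ (2 * h + 1) * T) := rfl

lemma psiInt_eq (h : ℕ) (P : List ℕ) (hP : ∀ x ∈ P, 0 < x) :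
    psiInt h P = extr h (2 * h + total P - 1)
      (P.map fun x : ℕ => (1 / (x : ℚ)) • brk x).prod := by
  rw [psiInt, extr_apply]
  congr 1
  have : (P.map fun x : ℕ => (1 / (x : ℚ)) • brk x).prod =
      (P.map fun b : ℕ => rescale (b : ℚ) S).prod * S⁻¹ ^ P.length := by
    induction P with
    | nil => simp
    | cons x P ih =>
      have hx : (x : ℚ) ≠ 0 := by
        have := hP x (by simp)
        positivity
      rw [List.map_cons, List.prod_cons, ih fun y hy => hP y (by simp [hy]), List.map_cons,
        List.prod_cons, List.length_cons, pow_succ, brk, smul_smul, one_div_mul_cancel hx,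
        one_smul]
      ring
  rw [this]
  have e : 2 * h + P.length + 1 = (2 * h + 1) + P.length := by ring
  rw [e, pow_add]
  ring

theorem resInt_eq (h : ℕ) (n : ℕ) : ∀ Y : List ℕ, Y.length = n → ∀ P : List ℕ, 1 ≤ P.length →
    (∀ x ∈ P, 0 < x) → (∀ x ∈ Y, 0 < x) →
    resInt h P Y = extr h (2 * h + total P + total Y - 1)
      (J ((2 * h + total P + total Y - 1 : ℕ) : ℚ) brk P Y) := by
  induction n using Nat.strong_induction_on with
  | _ n ih =>
  intro Y hY P hP hPpos hYpos
  cases Y with
  | nil =>
    rw [resInt_nil, J_nil, psiInt_eq h P hPpos, total_nil, Nat.add_zero]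
  | cons y Y =>
    simp only [List.length_cons] at hY
    have hypos : 0 < y := hYpos y (by simp)
    have hYpos' : ∀ x ∈ Y, 0 < x := fun x hx => hYpos x (by simp [hx])
    have e1 : 2 * h + total (y :: P) + total Y - 1 = 2 * h + total P + total (y :: Y) - 1 := by
      rw [total_cons, total_cons]
      congr 1
      ring
    rw [resInt_cons, J_cons, map_add, map_smul, map_sum]
    rw [ih Y.length (by omega) Y rfl (y :: P) (by simp) (by
      intro x hx
      simp only [List.mem_cons] at hx
      rcases hx with rfl | hx
      · exact hypos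
      · exact hPpos x hx) hYpos', e1]
    have hcast : ((2 * h + total P + total (y :: Y) - 1 : ℕ) : ℚ) =
        2 * h + total P + total (y :: Y) - 1 := by
      rw [Nat.cast_sub (by rw [total_cons]; omega)]
      push_cast
      ring
    congr 1
    · rw [← hcast, smul_eq_mul]
    · apply Finset.sum_congr rfl
      intro i _
      rw [map_list_sum, List.map_map]
      congr 1
      apply List.map_congr_left
      intro p hp
      have hlen := length_of_mem_splits hp
      have htot := total_splits hp
      have hmem := mem_splits hp
      have herase := total_eraseIdx P i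
      have hi : 0 < P.get i := hPpos _ (List.get_mem P i)
      have h4 : resInt 0 [P.get i, y] p.1 = p.1.length.factorial * p.1.prod := by
        rw [resInt_genus_zero p.1.length p.1 rfl [P.get i, y] (by simp)]
        simp only [List.length_cons, List.length_nil]
        have : 0 + 1 + 1 + p.1.length - 2 = p.1.length := by omega
        rw [this]
        simp [mul_comm]
      have e2 : 2 * h + total ((P.get i + y + 1 + total p.1) :: P.eraseIdx i) + total p.2 - 1 =
          2 * h + total P + total (y :: Y) - 1 := by
        rw [total_cons, total_cons]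
        omega
      rw [h4, Function.comp_apply, map_smul, ih p.2.length (by omega) p.2 rfl
        ((P.get i + y + 1 + total p.1) :: P.eraseIdx i) (by simp) (by
          intro x hx
          simp only [List.mem_cons] at hx
          rcases hx with rfl | hx
          · omega
          · exact hPpos x (List.mem_of_mem_eraseIdx hx))
        (fun x hx => hYpos' x (hmem.2 x hx)), e2]
      rw [smul_eq_mul]
      push_cast
      ring

end Pool.Agent.H74.Strata
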