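import Pool.Agent.H74.EulN

/-!
# Sums over compositions
-/

namespace Pool.Agent.H74.Strata

open PowerSeries
open Finset.HasAntidiagonal (antidiagonal mem_antidiagonal)

/-- The lists of blocks of the compositions of `n` with `k` blocks. -/
noncomputable def CL (n k : ℕ) : Finset (List ℕ) :=
  ((Finset.univ : Finset (Composition n)).filter fun c => c.length = k).image Composition.blocks

lemma mem_CL {n k : ℕ} {l : List ℕ} :
    l ∈ CL n k ↔ l.length = k ∧ (∀ x ∈ l, 0 < x) ∧ l.sum = n := by
  simp only [CL, Finset.mem_image, Finset.mem_filter, Finset.mem_univ, true_and]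
  constructor
  · rintro ⟨c, hc, rfl⟩
    exact ⟨hc, fun x hx => c.blocks_pos hx, c.blocks_sum⟩
  · rintro ⟨h1, h2, h3⟩
    exact ⟨⟨l, fun hx => h2 _ hx, h3⟩, h1, rfl⟩

lemma sum_composition {V : Type*} [AddCommMonoid V] (n : ℕ) (F : ℕ → List ℕ → V) :
    ∑ c : Composition n, F c.length c.blocks = ∑ k ∈ Finset.range (n + 1), ∑ l ∈ CL n k, F k l := by
  rw [← Finset.sum_fiberwise_of_maps_to (s := Finset.univ) (t := Finset.range (n + 1))
    (g := fun c : Composition n => c.length)
    (fun c _ => Finset.mem_range.mpr (Nat.lt_succ_of_le c.length_le))]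
  apply Finset.sum_congr rfl
  intro k _
  rw [CL, Finset.sum_image]
  · apply Finset.sum_congr rfl
    intro c hc
    rw [(Finset.mem_filter.mp hc).2]
  · intro c _ c' _ h
    exact Composition.ext h

lemma sum_CL_zero {V : Type*} [AddCommMonoid V] (n : ℕ) (g : List ℕ → V) :
    ∑ l ∈ CL n 0, g l = if n = 0 then g [] else 0 := by
  split_ifs with h
  · have : CL n 0 = {[]} := by
      ext l
      rw [mem_CL, Finset.mem_singleton]
      constructor
      · rintro ⟨h1, _, _⟩
        exact List.length_eq_zero_iff.mp h1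
      · rintro rfl
        simp [h]
    rw [this, Finset.sum_singleton]
  · have : CL n 0 = ∅ := by
      ext l
      rw [mem_CL]
      constructor
      · rintro ⟨h1, _, h3⟩
        rw [List.length_eq_zero_iff.mp h1] at h3
        exact absurd h3.symm h
      · intro hl
        simp at hl
    rw [this, Finset.sum_empty]

lemma sum_CL_succ {V : Type*} [AddCommMonoid V] (n k : ℕ) (g : List ℕ → V) :
    ∑ l ∈ CL n (k + 1), g l = ∑ m ∈ Finset.Icc 1 n, ∑ l ∈ CL (n - m) k, g (m :: l) := by
  rw [Finset.sum_sigma']
  refine Finset.sum_nbij' (fun l => ⟨l.headI, l.tail⟩) (fun x => x.1 :: x.2) ?_ ?_ ?_ ?_ ?_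
  · intro l hl
    obtain ⟨h1, h2, h3⟩ := mem_CL.mp hl
    cases l with
    | nil => simp at h1
    | cons m l =>
      simp only [List.headI_cons, List.tail_cons, Finset.mem_sigma, Finset.mem_Icc, mem_CL]
      simp only [List.length_cons, List.mem_cons, List.sum_cons] at h1 h2 h3
      refine ⟨⟨h2 m (Or.inl rfl), by omega⟩, by omega, fun x hx => h2 x (Or.inr hx), by omega⟩
  · rintro ⟨m, l⟩ h
    simp only [Finset.mem_sigma, Finset.mem_Icc, mem_CL] at h ⊢
    obtain ⟨⟨h1, h2⟩, h3, h4, h5⟩ := h
    refine ⟨by simp [h3], ?_, by simp only [List.sum_cons]; omega⟩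
    intro x hx
    simp only [List.mem_cons] at hx
    rcases hx with rfl | hx
    · omega
    · exact h4 x hx
  · intro l hl
    obtain ⟨h1, _, _⟩ := mem_CL.mp hl
    cases l with
    | nil => simp at h1
    | cons m l => rfl
  · rintro ⟨m, l⟩ _
    rfl
  · intro l hl
    obtain ⟨h1, _, _⟩ := mem_CL.mp hl
    cases l with
    | nil => simp at h1
    | cons m l => rfl

section Abstract

variable {R : Type*} [CommRing R] [Algebra ℚ R] (f : ℕ → ℚ) (M : ℕ)

lemma total_map (l : List ℕ) (hl : ∀ x ∈ l, 0 < x) :
    total (l.map fun m => 2 * m - 1) = 2 * l.sum := by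
  induction l with
  | nil => rfl
  | cons m l ih =>
    have := hl m (by simp)
    rw [List.map_cons, total_cons, ih fun x hx => hl x (by simp [hx]), List.sum_cons]
    omega

/-- Coefficients of weighted sums of monomials. -/
lemma coeff_W_monomial (k : ℕ) : ∀ (n : ℕ) (ψ : List ℕ → R), n ≤ M →
    coeff (2 * n) (W f M k fun Y => monomial (total Y) (ψ Y)) =
      ∑ l ∈ CL n k, (l.map f).prod • ψ (l.map fun m => 2 * m - 1) := by
  induction k with
  | zero =>
    intro n ψ _
    rw [W_zero, total_nil, sum_CL_zero, coeff_monomial]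
    by_cases h : n = 0
    · subst h; simp
    · rw [if_neg h, if_neg (by omega)]
  | succ k ih =>
    intro n ψ hn
    rw [W_succ, map_sum, sum_CL_succ]
    have h1 : ∀ m ∈ Finset.Icc 1 M, coeff (2 * n) (f m • (W f M k fun Y =>
        (monomial (total ((2 * m - 1) :: Y)) (ψ ((2 * m - 1) :: Y)) : R⟦X⟧))) =
        if m ≤ n then ∑ l ∈ CL (n - m) k,
          ((m :: l).map f).prod • ψ ((m :: l).map fun m => 2 * m - 1) else 0 := by
      intro m hm
      have hm1 := (Finset.mem_Icc.mp hm).1
      have h2 : (W f M k fun Y =>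
          (monomial (total ((2 * m - 1) :: Y)) (ψ ((2 * m - 1) :: Y)) : R⟦X⟧)) =
          X ^ (2 * m) * W f M k fun Y => (monomial (total Y) (ψ ((2 * m - 1) :: Y)) : R⟦X⟧) := by
        have := W_map f M (LinearMap.mulLeft ℚ (X ^ (2 * m) : R⟦X⟧)) k
          fun Y => (monomial (total Y) (ψ ((2 * m - 1) :: Y)) : R⟦X⟧)
        simp only [LinearMap.mulLeft_apply] at this
        rw [this]
        apply W_congr
        intro Y _
        rw [X_pow_eq, monomial_mul_monomial, one_mul, total_cons]
        congr 2
        omega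
      rw [coeff_smul, h2, coeff_X_pow_mul']
      by_cases h : m ≤ n
      · rw [if_pos (by omega), if_pos h]
        have e : 2 * n - 2 * m = 2 * (n - m) := by omega
        rw [e, ih (n - m) (fun Y => ψ ((2 * m - 1) :: Y)) (by omega), Finset.smul_sum]
        apply Finset.sum_congr rfl
        intro l _
        rw [smul_smul]
        rfl
      · rw [if_neg (by omega), if_neg h, smul_zero]
    rw [Finset.sum_congr rfl h1, ← Finset.sum_filter]
    apply Finset.sum_congr
    · ext m
      simp only [Finset.mem_filter, Finset.mem_Icc]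
      omega
    · intro m _
      rfl

lemma CL_empty {n k : ℕ} (h : n < k) : CL n k = ∅ := by
  ext l
  rw [mem_CL]
  constructor
  · rintro ⟨h1, h2, h3⟩
    exfalso
    have : l.length ≤ l.sum := by
      clear h1 h3
      induction l with
      | nil => simp
      | cons x l ih =>
        have := h2 x (by simp)
        have := ih fun y hy => h2 y (by simp [hy])
        simp only [List.length_cons, List.sum_cons]
        omega
    omega
  · intro hl
    simp at hl

variable (a : ℚ) (br : ℕ → R)

/-- The numbers `J` with one free entry. -/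
noncomputable def Jone (L : List ℕ) : R := J a br (L.take 1) (L.drop 1)

/-- `-a` times the weighted sum of the numbers `Jone` is a coefficient of `Ψ`. -/
lemma E_Psi_eq (k : ℕ) (hk : k ≠ 0) : E k (Psi a br f M) =
    (-a / k.factorial) • W f M k fun Y => (monomial (total Y) (Jone a br Y) : R⟦X⟧) := by
  obtain ⟨k, rfl⟩ : ∃ l, k = l + 1 := ⟨k - 1, by omega⟩
  have hk1 : ((k + 1 : ℕ) : ℚ) ≠ 0 := by positivity
  have h1 : ((k + 1 : ℕ) : ℚ) • E (k + 1) (Psi a br f M) =
      ((k + 1 : ℕ) : ℚ) • ((-a / (k + 1).factorial) • W f M (k + 1) fun Y =>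
        (monomial (total Y) (Jone a br Y) : R⟦X⟧)) := by
    rw [← E_D, D_Psi, E_smul, Finset.sum_mul, E_sum, W_succ, smul_smul, Finset.smul_sum,
      Finset.smul_sum]
    apply Finset.sum_congr rfl
    intro m _
    have h2 : f m • Lser br f M (2 * m - 1) * Psi a br f M =
        f m • (Psi a br f M * ([2 * m - 1].map (Lser br f M)).prod) := by
      rw [List.map_cons, List.map_nil, List.prod_singleton, smul_mul_assoc, mul_comm]
    have h3 : (W f M k fun Y => Jm a br [2 * m - 1] Y) = W f M k fun Y =>
        (monomial (total ((2 * m - 1) :: Y)) (Jone a br ((2 * m - 1) :: Y)) : R⟦X⟧) := by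
      apply W_congr
      intro Y _
      rw [Jm, total_cons, total_cons, total_nil]
      rfl
    rw [h2, E_smul, closed_formula, h3]
    rw [smul_smul, smul_smul, smul_smul]
    congr 1
    rw [Nat.factorial_succ]
    push_cast
    have : (k.factorial : ℚ) ≠ 0 := by positivity
    have : (k : ℚ) + 1 ≠ 0 := by positivity
    field_simp
  exact smul_right_injective _ hk1 h1

/-- The sum over compositions. -/
noncomputable def CJ (n : ℕ) : R := ∑ c : Composition n,
  ((1 / (c.length.factorial : ℚ)) * (c.blocks.map f).prod) •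
    Jone a br (c.blocks.map fun m => 2 * m - 1)

lemma coeff_coeff_Psi (n k : ℕ) (hk : k ≠ 0) (hn : n ≤ M) :
    (coeff (2 * n) (Psi a br f M)).coeff k = (-a / k.factorial) •
      ∑ l ∈ CL n k, (l.map f).prod • Jone a br (l.map fun m => 2 * m - 1) := by
  rw [← coeff_E, E_Psi_eq f M a br k hk, coeff_smul, coeff_W_monomial f M k n _ hn]

theorem CJ_eq (n : ℕ) (hn0 : n ≠ 0) (hn : n ≤ M) :
    -a • CJ f a br n = Polynomial.eval 1 (coeff (2 * n) (Psi a br f M)) := by
  have hdeg : (coeff (2 * n) (Psi a br f M)).natDegree < n + 1 := by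
    rw [Nat.lt_succ_iff, Polynomial.natDegree_le_iff_coeff_eq_zero]
    intro k hk
    rw [coeff_coeff_Psi f M a br n k (by omega) hn, CL_empty hk, Finset.sum_empty, smul_zero]
  rw [Polynomial.eval_eq_sum_range' hdeg, CJ, sum_composition n fun k l =>
    ((1 / (k.factorial : ℚ)) * (l.map f).prod) • Jone a br (l.map fun m => 2 * m - 1),
    Finset.smul_sum]
  apply Finset.sum_congr rfl
  intro k _
  rw [one_pow, mul_one]
  by_cases hk : k = 0
  · subst hk
    rw [sum_CL_zero, if_neg hn0, smul_zero, ← coeff_E, E_zero_Psi, coeff_one, if_neg (by omega)]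
  · rw [coeff_coeff_Psi f M a br n k hk hn, Finset.smul_sum, Finset.smul_sum]
    apply Finset.sum_congr rfl
    intro l _
    rw [smul_smul, smul_smul]
    congr 1
    ring

end Abstract

end Pool.Agent.H74.Strata
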