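import Pool.Agent.H74.EulS
import Pool.Agent.H74.EulQ

/-!
# The series `F` and the passage to `ε = 1`
-/

namespace Pool.Agent.H74.Strata

open PowerSeries
open Finset.HasAntidiagonal (antidiagonal mem_antidiagonal)

lemma f_zero : f 0 = 1 := by rw [f]

/-- The generating series of the numbers `f`. -/
noncomputable def Ftau : ℚ⟦X⟧ := mk f

/-- The truncations of the generating series. -/
noncomputable def Ttau (M : ℕ) : ℚ⟦X⟧ := ∑ j ∈ Finset.range (M + 1), monomial j (f j)

lemma coeff_Ttau (M n : ℕ) : coeff n (Ttau M) = if n < M + 1 then f n else 0 := by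
  rw [Ttau, map_sum]
  simp only [coeff_monomial]
  rw [Finset.sum_ite_eq]
  simp [Finset.mem_range]

lemma Ftau_eq (M : ℕ) : Ftau = Ttau M + X ^ (M + 1) * mk fun n => f (n + (M + 1)) := by
  ext n
  rw [map_add, coeff_Ttau, Ftau, coeff_mk, coeff_X_pow_mul']
  by_cases h : n < M + 1
  · rw [if_pos h, if_neg (by omega), add_zero]
  · rw [if_neg h, if_pos (by omega), coeff_mk, zero_add]
    congr 1; omega

/-- The defining relation of the series `F`. -/
theorem coeff_Ftau (g : ℕ) (hg : g ≠ 0) :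
    coeff g (Ftau ^ (2 * g)) = (2 * g).factorial * coeff (2 * g) S⁻¹ := by
  obtain ⟨g, rfl⟩ : ∃ k, g = k + 1 := ⟨g - 1, by omega⟩
  obtain ⟨z, hz⟩ := Polynomial.powAddExpansion (Ttau g)
    (X ^ (g + 1) * mk fun n => f (n + (g + 1))) (2 * (g + 1))
  rw [Ftau_eq g, hz, map_add, map_add]
  have h1 : coeff (g + 1) (z * (X ^ (g + 1) * mk fun n => f (n + (g + 1))) ^ 2) = 0 := by
    have : z * (X ^ (g + 1) * mk fun n => f (n + (g + 1))) ^ 2 =
        X ^ (2 * (g + 1)) * (z * (mk fun n => f (n + (g + 1))) ^ 2) := by ring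
    rw [this, coeff_X_pow_mul', if_neg (by omega)]
  have h2 : coeff (g + 1) (((2 * (g + 1) : ℕ) : ℚ⟦X⟧) * Ttau g ^ (2 * (g + 1) - 1) *
      (X ^ (g + 1) * mk fun n => f (n + (g + 1)))) = 2 * (g + 1) * f (g + 1) := by
    have : ((2 * (g + 1) : ℕ) : ℚ⟦X⟧) * Ttau g ^ (2 * (g + 1) - 1) *
        (X ^ (g + 1) * mk fun n => f (n + (g + 1))) =
        X ^ (g + 1) * (((2 * (g + 1) : ℕ) : ℚ⟦X⟧) * Ttau g ^ (2 * (g + 1) - 1) *
        mk fun n => f (n + (g + 1))) := by ring
    rw [this, coeff_X_pow_mul', if_pos le_rfl, Nat.sub_self, coeff_zero_eq_constantCoeff_apply,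
      map_mul, map_mul, map_pow]
    have h3 : constantCoeff (Ttau g) = 1 := by
      rw [← coeff_zero_eq_constantCoeff_apply, coeff_Ttau, if_pos (by omega), f_zero]
    have h4 : constantCoeff (mk fun n => f (n + (g + 1))) = f (g + 1) := by
      rw [← coeff_zero_eq_constantCoeff_apply, coeff_mk, Nat.zero_add]
    rw [h3, h4, one_pow, mul_one, map_natCast]
    push_cast
    ring
  have h5 : (∑ j : Fin (g + 1), monomial (j : ℕ) (f j) : ℚ⟦X⟧) = Ttau g := by
    rw [Ttau, ← Fin.sum_univ_eq_sum_range (fun j => (monomial j (f j) : ℚ⟦X⟧)) (g + 1)]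
  rw [h1, h2, add_zero]
  conv_lhs => rw [f]
  rw [h5]
  have : (2 * ((g : ℚ) + 1)) ≠ 0 := by positivity
  field_simp
  ring

lemma one_add_Phi (M : ℕ) : 1 + Phi f M = expand 2 two_ne_zero (Ttau M) := by
  rw [Ttau, Finset.sum_range_succ', Phi, map_add, map_sum, f_zero]
  rw [add_comm]
  congr 1
  · rw [Finset.sum_bij (fun (m : ℕ) _ => m - 1)]
    · intro m hm
      have := Finset.mem_Icc.mp hm
      exact Finset.mem_range.mpr (by omega)
    · intro m hm m' hm' h
      have := Finset.mem_Icc.mp hm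
      have := Finset.mem_Icc.mp hm'
      omega
    · intro j hj
      have := Finset.mem_range.mp hj
      exact ⟨j + 1, Finset.mem_Icc.mpr (by omega), by omega⟩
    · intro m hm
      have := Finset.mem_Icc.mp hm
      have e : m - 1 + 1 = m := by omega
      rw [e, expand_monomial, X_pow_eq]
      ext n
      simp [coeff_monomial]
  · simp

lemma coeff_Ttau_pow (M n m : ℕ) (hm : m ≤ M) :
    coeff m (Ttau M ^ n) = coeff m (Ftau ^ n) := by
  have h1 : (X : ℚ⟦X⟧) ^ (M + 1) ∣ Ftau ^ n - Ttau M ^ n := by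
    refine dvd_trans ?_ (sub_dvd_pow_sub_pow Ftau (Ttau M) n)
    rw [Ftau_eq M, add_sub_cancel_left]
    exact dvd_mul_right _ _
  have h2 := X_pow_dvd_iff.mp h1 m (by omega)
  rw [map_sub] at h2
  linarith

lemma coeff_one_add_Phi_even (M m : ℕ) (hm0 : m ≠ 0) (hm : m ≤ M) :
    coeff (2 * m) ((1 + Phi f M) ^ (2 * m)) = (2 * m).factorial * coeff (2 * m) S⁻¹ := by
  rw [one_add_Phi, ← map_pow, coeff_expand_mul, coeff_Ttau_pow M _ m hm, coeff_Ftau m hm0]

lemma coeff_one_add_Phi_odd (M n k : ℕ) (hn : ¬ 2 ∣ n) : coeff n ((1 + Phi f M) ^ k) = 0 := by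
  rw [one_add_Phi, ← map_pow, coeff_expand_of_not_dvd 2 two_ne_zero _ hn]

lemma rescale_S : rescale (-1 : ℚ) S = S := by
  ext n
  rw [coeff_rescale, S, coeff_mk]
  split_ifs with h
  · rw [h.neg_one_pow, one_mul]
  · rw [mul_zero]

lemma S_mul_inv : S * S⁻¹ = 1 :=
  PowerSeries.mul_inv_cancel _ (by rw [constantCoeff_S]; exact one_ne_zero)

lemma rescale_S_inv : rescale (-1 : ℚ) S⁻¹ = S⁻¹ := by
  have h1 : S * rescale (-1 : ℚ) S⁻¹ = 1 := by
    have h2 : rescale (-1 : ℚ) S * rescale (-1 : ℚ) S⁻¹ = 1 := by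
      rw [← map_mul, S_mul_inv, map_one]
    rwa [rescale_S] at h2
  have h3 : S ≠ 0 := by
    intro h
    rw [h, zero_mul] at h1
    exact zero_ne_one h1
  exact mul_left_cancel₀ h3 (h1.trans S_mul_inv.symm)

lemma coeff_S_inv_odd (n : ℕ) (hn : ¬ 2 ∣ n) : coeff n S⁻¹ = 0 := by
  have h1 := congrArg (coeff n) rescale_S_inv
  rw [coeff_rescale] at h1
  have h2 : Odd n := by
    rw [← Nat.not_even_iff_odd]
    exact fun h => hn h.two_dvd
  rw [h2.neg_one_pow] at h1
  linarith

/-- The coefficients of the series `G`. -/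
noncomputable def gc (N : ℕ) : ℚ := (N - 1).factorial * coeff (N + 1) S⁻¹

lemma gc_even (N : ℕ) (hN : 2 ∣ N) : gc N = 0 := by
  rw [gc, coeff_S_inv_odd (N + 1) (by omega), mul_zero]

lemma sum_hc (M N : ℕ) (hN : N + 1 ≤ 2 * M) :
    ∑ k ∈ Finset.range (N + 2), hc f M k N = gc N := by
  have h1 : ∑ k ∈ Finset.range (N + 2), hc f M k N =
      1 / ((N + 1) * N) * coeff (N + 1) ((1 + Phi f M) ^ (N + 1)) := by
    rw [add_comm (1 : ℚ⟦X⟧), add_pow, map_sum, Finset.mul_sum]
    apply Finset.sum_congr rfl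
    intro k _
    rw [one_pow, mul_one, hc]
    have : Phi f M ^ k * (((N + 1).choose k : ℕ) : ℚ⟦X⟧) =
        (((N + 1).choose k : ℕ) : ℚ) • Phi f M ^ k := by
      rw [Algebra.smul_def, mul_comm]; simp
    rw [this, coeff_smul, smul_eq_mul]
    ring
  rw [h1]
  by_cases hodd : 2 ∣ N + 1
  · obtain ⟨m, hm⟩ := hodd
    rw [hm, coeff_one_add_Phi_even M m (by omega) (by omega), gc, hm]
    have h2 : (2 * m).factorial = (2 * m) * ((N - 1 + 1) * (N - 1).factorial) := by
      rw [← Nat.factorial_succ, ← hm]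
      have : N - 1 + 1 = N := by omega
      rw [this, Nat.factorial_succ]
    have h3 : N - 1 + 1 = N := by omega
    rw [h2, h3]
    have h4 : (N : ℚ) ≠ 0 := by
      have : N ≠ 0 := by omega
      exact_mod_cast this
    have h5 : ((2 * m : ℕ) : ℚ) = N + 1 := by rw [← hm]; push_cast; ring
    have h6 : (N : ℚ) + 1 ≠ 0 := by positivity
    push_cast at h5 ⊢
    rw [h5]
    field_simp
  · rw [coeff_one_add_Phi_odd M (N + 1) (N + 1) hodd, gc, coeff_S_inv_odd (N + 1) hodd]
    ring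

section Abstract

variable {R : Type*} [CommRing R] [Algebra ℚ R] (a : ℚ) (br : ℕ → R)

/-- The series `H` at `ε = 1`. -/
noncomputable def Hinf : R⟦X⟧ := mk fun n => match n with
  | 0 => 0
  | N + 1 => gc N • br N

lemma constantCoeff_Hinf : constantCoeff (-a • Hinf br) = 0 := by
  rw [← coeff_zero_eq_constantCoeff_apply, coeff_smul, Hinf, coeff_mk, smul_zero]

/-- The series `Ψ` at `ε = 1`. -/
noncomputable def Pinf : R⟦X⟧ := (PowerSeries.exp R).subst (-a • Hinf br)

lemma isExp_Pinf : IsExp (Pinf a br) (derivative R (-a • Hinf br)) :=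
  isExp_exp (constantCoeff_Hinf a br)

/-- Evaluation at `ε = 1`. -/
noncomputable def ev1 : (Polynomial R)⟦X⟧ →+* R⟦X⟧ := PowerSeries.map (Polynomial.evalRingHom 1)

omit [Algebra ℚ R] in
lemma coeff_ev1 (n : ℕ) (Θ : (Polynomial R)⟦X⟧) :
    coeff n (ev1 Θ) = Polynomial.eval 1 (coeff n Θ) := by
  rw [ev1, coeff_map, Polynomial.coe_evalRingHom]

omit [Algebra ℚ R] in
lemma derivative_ev1 (Θ : (Polynomial R)⟦X⟧) :
    derivative R (ev1 Θ) = ev1 (derivative _ Θ) := by
  ext n
  rw [coeff_derivative, coeff_ev1, coeff_ev1, coeff_derivative, Polynomial.eval_mul]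
  simp

lemma coeff_Hser_eval (M N : ℕ) (hN : N + 1 ≤ 2 * M) :
    coeff (N + 1) (ev1 (Hser br f M)) = gc N • br N := by
  rw [coeff_ev1, Hser, coeff_mk]
  simp only [Polynomial.eval_finsetSum, Polynomial.eval_monomial, one_pow, mul_one]
  rw [← Finset.sum_smul, sum_hc M N hN]

lemma isExp_ev1_Psi (M : ℕ) :
    IsExp (ev1 (Psi a br f M)) (derivative R (-a • ev1 (Hser br f M))) := by
  have h := isExp_Psi a br f M
  constructor
  · rw [derivative_ev1, h.deriv, map_mul]
    congr 1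
    rw [← derivative_ev1]
    congr 1
    ext n
    rw [coeff_ev1, coeff_smul, coeff_smul, coeff_ev1, Polynomial.eval_smul]
  · have := h.const
    rw [← coeff_zero_eq_constantCoeff_apply, coeff_ev1, coeff_zero_eq_constantCoeff_apply, this]
    simp

/-- Comparison of two exponentials. -/
lemma exp_congr {Y Z r s : R⟦X⟧} (hY : IsExp Y r) (hZ : IsExp Z s) (n : ℕ)
    (h : ∀ i < n, coeff i r = coeff i s) : ∀ j ≤ n, coeff j Y = coeff j Z := by
  induction n with
  | zero =>
    intro j hj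
    obtain rfl : j = 0 := by omega
    rw [coeff_zero_eq_constantCoeff_apply, coeff_zero_eq_constantCoeff_apply, hY.const, hZ.const]
  | succ n ih =>
    intro j hj
    have ih' := ih fun i hi => h i (by omega)
    rcases Nat.lt_or_ge j (n + 1) with hj' | hj'
    · exact ih' j (by omega)
    · obtain rfl : j = n + 1 := by omega
      have h1 := congrArg (coeff n) hY.deriv
      have h2 := congrArg (coeff n) hZ.deriv
      rw [coeff_derivative, coeff_mul] at h1 h2
      have h3 : ∑ p ∈ antidiagonal n, coeff p.1 r * coeff p.2 Y =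
          ∑ p ∈ antidiagonal n, coeff p.1 s * coeff p.2 Z := by
        apply Finset.sum_congr rfl
        intro p hp
        have := mem_antidiagonal.mp hp
        rw [h p.1 (by omega), ih' p.2 (by omega)]
      apply natCast_smul_cancel (n := n + 1) (by omega)
      push_cast
      rw [mul_comm, h1, h3, ← h2, mul_comm]

/-- The weighted sums over compositions. -/
theorem CJ_eq_Pinf (n : ℕ) (hn : n ≠ 0) : -a • CJ f a br n = coeff (2 * n) (Pinf a br) := by
  rw [CJ_eq f n a br n hn le_rfl, ← coeff_ev1]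
  apply exp_congr (isExp_ev1_Psi a br n) (isExp_Pinf a br) (2 * n) _ (2 * n) le_rfl
  intro i hi
  rw [coeff_derivative, coeff_derivative, coeff_smul, coeff_smul, coeff_Hser_eval br n i (by omega),
    Hinf, coeff_mk]

end Abstract

end Pool.Agent.H74.Strata
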