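import Pool.Agent.H74.EulT
import Pool.Agent.H74.EulR

/-!
# The Euler characteristic in terms of the series `Ψ`
-/

namespace Pool.Agent.H74.Strata

open PowerSeries
open Finset.HasAntidiagonal (antidiagonal mem_antidiagonal)

lemma total_append (P Q : List ℕ) : total (P ++ Q) = total P + total Q := by
  simp [total]

lemma total_take_drop (L : List ℕ) : total (L.take 1) + total (L.drop 1) = total L := by
  rw [← total_append, List.take_append_drop]

lemma twoLevel_eq (h n : ℕ) (hn : n ≠ 0) :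
    twoLevel h n = extr h (2 * h + 2 * n - 1) (CJ f ((2 * h + 2 * n - 1 : ℕ) : ℚ) brk n) := by
  rw [twoLevel, CJ, map_sum]
  apply Finset.sum_congr rfl
  intro c _
  rw [map_smul, smul_eq_mul, Jone]
  congr 1
  have hpos : ∀ x ∈ c.blocks.map (fun m => 2 * m - 1), 0 < x := by
    intro x hx
    obtain ⟨m, hm, rfl⟩ := List.mem_map.mp hx
    have := c.blocks_pos hm
    omega
  have hlen : 1 ≤ (c.blocks.map fun m => 2 * m - 1).length := by
    rw [List.length_map]
    by_contra h0
    have h1 : c.blocks = [] := List.length_eq_zero_iff.mp (by omega)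
    have := c.blocks_sum
    rw [h1] at this
    exact hn this.symm
  rw [resInt_eq h _ _ rfl _ (by rw [List.length_take]; omega)
    (fun x hx => hpos x (List.mem_of_mem_take hx)) (fun x hx => hpos x (List.mem_of_mem_drop hx))]
  have ht : 2 * h + total ((c.blocks.map fun m => 2 * m - 1).take 1) +
      total ((c.blocks.map fun m => 2 * m - 1).drop 1) - 1 = 2 * h + 2 * n - 1 := by
    rw [Nat.add_assoc, total_take_drop, total_map _ (fun x hx => c.blocks_pos hx), c.blocks_sum]
  rw [ht]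

lemma twoLevel_zero (n : ℕ) (hn : n ≠ 0) : twoLevel 0 n = f n := by
  rw [twoLevel, sum_composition n fun k l => (1 / (k.factorial : ℚ)) * (l.map f).prod *
    resInt 0 ((l.map fun m => 2 * m - 1).take 1) ((l.map fun m => 2 * m - 1).drop 1)]
  rw [Finset.sum_eq_single 1]
  · rw [sum_CL_succ]
    rw [Finset.sum_eq_single n]
    · rw [Nat.sub_self, sum_CL_zero, if_pos rfl]
      simp [resInt_nil, psiInt_zero]
    · intro m hm hmn
      have := Finset.mem_Icc.mp hm
      rw [sum_CL_zero, if_neg (by omega)]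
    · intro h
      exfalso
      exact h (Finset.mem_Icc.mpr (by omega))
  · intro k _ hk
    apply Finset.sum_eq_zero
    intro l hl
    obtain ⟨h1, h2, h3⟩ := mem_CL.mp hl
    rcases l with _ | ⟨x, _ | ⟨y, l⟩⟩
    · exfalso
      exact hn h3.symm
    · exfalso
      exact hk h1.symm
    · simp only [List.map_cons, List.take_succ_cons, List.take_zero, List.drop_succ_cons,
        List.drop_zero]
      rw [resInt_genus_zero_one, mul_zero]
  · intro h
    exfalso
    exact h (Finset.mem_range.mpr (by omega))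

/-- The Euler characteristic as a sum of coefficients. -/
theorem chi_eq (g : ℕ) (hg : g ≠ 0) :
    chi g = -(1 / ((2 * g - 1 : ℕ) : ℚ) ^ 2) * ∑ h ∈ Finset.range g,
      ((2 * (g - h) : ℕ) : ℚ) * ((2 * g - 1 : ℕ) : ℚ) ^ (2 * h) * extr h (2 * g - 1)
        (coeff (2 * (g - h)) (Pinf ((2 * g - 1 : ℕ) : ℚ) brk)) := by
  have ha : ((2 * g - 1 : ℕ) : ℚ) = 2 * g - 1 := by
    rw [Nat.cast_sub (by omega)]; push_cast; ring
  have ha0 : ((2 * g - 1 : ℕ) : ℚ) ≠ 0 := by
    have : 2 * g - 1 ≠ 0 := by omega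
    exact_mod_cast this
  have h1 : ∀ h ∈ Finset.range g, extr h (2 * g - 1)
      (coeff (2 * (g - h)) (Pinf ((2 * g - 1 : ℕ) : ℚ) brk)) =
      -((2 * g - 1 : ℕ) : ℚ) * twoLevel h (g - h) := by
    intro h hh
    have hh' := Finset.mem_range.mp hh
    have e : 2 * h + 2 * (g - h) - 1 = 2 * g - 1 := by omega
    rw [← CJ_eq_Pinf _ _ (g - h) (by omega), map_smul, smul_eq_mul,
      twoLevel_eq h (g - h) (by omega), e]
  rw [Finset.mul_sum, Finset.range_eq_Ico, Finset.sum_eq_sum_Ico_succ_bot (by omega)]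
  rw [chi]
  congr 1
  · rw [h1 0 (Finset.mem_range.mpr (by omega)), Nat.sub_zero, twoLevel_zero g hg, ← ha]
    push_cast
    field_simp
  · apply Finset.sum_congr rfl
    intro h hh
    have hh' := Finset.mem_Ico.mp hh
    rw [h1 h (Finset.mem_range.mpr (by omega)), ← ha]
    obtain ⟨l, rfl⟩ : ∃ l, h = l + 1 := ⟨h - 1, by omega⟩
    have e : 2 * (l + 1) - 1 = 2 * l + 1 := by omega
    have e2 : ((g - (l + 1) : ℕ) : ℚ) = (g : ℚ) - ((l + 1 : ℕ) : ℚ) := by
      rw [Nat.cast_sub (by omega)]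
    rw [e, Nat.cast_mul 2 (g - (l + 1)), e2]
    have e3 : ((2 * g - 1 : ℕ) : ℚ) ^ (2 * (l + 1)) =
        ((2 * g - 1 : ℕ) : ℚ) ^ (2 * l + 1) * ((2 * g - 1 : ℕ) : ℚ) := by ring
    rw [e3]
    field_simp
    push_cast
    ring

end Pool.Agent.H74.Strata
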