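import Pool.Agent.H74.EulE

/-!
# Evaluation of the inner variable
-/

namespace Pool.Agent.H74.Strata

open PowerSeries
open Finset.HasAntidiagonal (antidiagonal mem_antidiagonal)

section Theta

variable {R : Type*} [CommRing R]

/-- The operator `u d/du`. -/
noncomputable def theta (T : R⟦X⟧) : R⟦X⟧ := mk fun n => (n : R) * coeff n T

@[simp] lemma coeff_theta (n : ℕ) (T : R⟦X⟧) : coeff n (theta T) = n * coeff n T := coeff_mk _ _

lemma theta_eq (T : R⟦X⟧) : theta T = X * derivative R T := by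
  ext n
  cases n with
  | zero => simp
  | succ n =>
    rw [coeff_theta, coeff_succ_X_mul, coeff_derivative]
    push_cast
    ring

lemma theta_exp {Y K : R⟦X⟧} (hY : IsExp Y (derivative R K)) : theta Y = theta K * Y := by
  rw [theta_eq, theta_eq, hY.deriv, mul_assoc]

end Theta

lemma eq_zero_of_dvd {A : ℚ⟦X⟧} (h : ∀ N, X ^ N ∣ A) : A = 0 := by
  ext n
  simpa using X_pow_dvd_iff.mp (h (n + 1)) n (by omega)

lemma dvd_derivative {A : ℚ⟦X⟧} {N : ℕ} (h : X ^ (N + 1) ∣ A) : X ^ N ∣ derivative ℚ A := by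
  rw [X_pow_dvd_iff] at h ⊢
  intro m hm
  rw [coeff_derivative, h (m + 1) (by omega), zero_mul]

/-- Evaluation of the inner variable at `c`. -/
noncomputable def ev (c : ℚ⟦X⟧) (T : (ℚ⟦X⟧)⟦X⟧) : ℚ⟦X⟧ :=
  mk fun n => ∑ j ∈ Finset.range (n + 1), coeff n (coeff j T * c ^ j)

section Ev

variable {c : ℚ⟦X⟧} (hc : constantCoeff c = 0)

include hc

lemma X_pow_dvd_pow (j : ℕ) : (X : ℚ⟦X⟧) ^ j ∣ c ^ j :=
  pow_dvd_pow_of_dvd (X_dvd_iff.mpr hc) j

lemma coeff_mul_pow_of_lt {n j : ℕ} (h : n < j) (A : ℚ⟦X⟧) : coeff n (A * c ^ j) = 0 :=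
  X_pow_dvd_iff.mp ((X_pow_dvd_pow hc j).trans (dvd_mul_left _ _)) n h

lemma coeff_ev {n N : ℕ} (h : n < N) (T : (ℚ⟦X⟧)⟦X⟧) :
    coeff n (ev c T) = ∑ j ∈ Finset.range N, coeff n (coeff j T * c ^ j) := by
  rw [ev, coeff_mk]
  apply Finset.sum_subset
  · intro j hj
    have := Finset.mem_range.mp hj
    exact Finset.mem_range.mpr (by omega)
  · intro j _ hj
    have := Finset.mem_range.not.mp hj
    exact coeff_mul_pow_of_lt hc (by omega) _

lemma ev_dvd (N : ℕ) (T : (ℚ⟦X⟧)⟦X⟧) :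
    X ^ N ∣ ev c T - ∑ j ∈ Finset.range N, coeff j T * c ^ j := by
  rw [X_pow_dvd_iff]
  intro n hn
  rw [map_sub, coeff_ev hc hn, map_sum, sub_self]

omit hc in
lemma constantCoeff_ev (T : (ℚ⟦X⟧)⟦X⟧) : constantCoeff (ev c T) = constantCoeff (constantCoeff T) := by
  rw [← coeff_zero_eq_constantCoeff_apply, ev, coeff_mk]
  simp

omit hc in
lemma ev_add (T T' : (ℚ⟦X⟧)⟦X⟧) : ev c (T + T') = ev c T + ev c T' := by
  ext n
  simp only [ev, coeff_mk, map_add, add_mul, Finset.sum_add_distrib]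

omit hc in
lemma ev_smul (r : ℚ) (T : (ℚ⟦X⟧)⟦X⟧) : ev c (r • T) = r • ev c T := by
  ext n
  rw [coeff_smul, ev, ev, coeff_mk, coeff_mk, smul_eq_mul, Finset.mul_sum]
  apply Finset.sum_congr rfl
  intro j _
  rw [coeff_smul, smul_mul_assoc, coeff_smul, smul_eq_mul]

omit hc in
lemma sum_antidiagonal_range {V : Type*} [AddCommMonoid V] (F : ℕ → ℕ → V) (N : ℕ)
    (hF : ∀ i j, N ≤ i + j → F i j = 0) :
    ∑ j ∈ Finset.range N, ∑ p ∈ antidiagonal j, F p.1 p.2 =
      ∑ i ∈ Finset.range N, ∑ j ∈ Finset.range N, F i j := by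
  rw [← Finset.sum_product' (Finset.range N) (Finset.range N) F]
  rw [← Finset.sum_filter_of_ne (s := Finset.range N ×ˢ Finset.range N)
    (p := fun p => p.1 + p.2 < N) (f := fun p => F p.1 p.2)]
  · rw [Finset.sum_sigma']
    refine Finset.sum_nbij' (fun x => x.2) (fun p => ⟨p.1 + p.2, p⟩) ?_ ?_ ?_ ?_ ?_
    · rintro ⟨j, i, i'⟩ h
      simp only [Finset.mem_sigma, mem_antidiagonal, Finset.mem_range, Finset.mem_filter,
        Finset.mem_product] at h ⊢
      omega
    · rintro ⟨i, i'⟩ h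
      simp only [Finset.mem_sigma, mem_antidiagonal, Finset.mem_range, Finset.mem_filter,
        Finset.mem_product, and_true] at h ⊢
      omega
    · rintro ⟨j, i, i'⟩ h
      simp only [Finset.mem_sigma, mem_antidiagonal, Finset.mem_range] at h
      obtain ⟨_, rfl⟩ := h
      rfl
    · rintro ⟨i, i'⟩ h
      rfl
    · rintro ⟨j, i, i'⟩ h
      rfl
  · intro p _ hp
    by_contra h
    exact hp (hF _ _ (by omega))

lemma ev_mul (T T' : (ℚ⟦X⟧)⟦X⟧) : ev c (T * T') = ev c T * ev c T' := by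
  ext n
  rw [coeff_ev hc (Nat.lt_succ_self n)]
  have h1 : ∀ j ∈ Finset.range (n + 1), coeff n (coeff j (T * T') * c ^ j) =
      ∑ p ∈ antidiagonal j, coeff n ((coeff p.1 T * c ^ p.1) * (coeff p.2 T' * c ^ p.2)) := by
    intro j _
    have e : coeff j (T * T') = ∑ p ∈ antidiagonal j, coeff p.1 T * coeff p.2 T' := coeff_mul _ _ _
    rw [e, Finset.sum_mul, map_sum]
    apply Finset.sum_congr rfl
    intro p hp
    rw [← mem_antidiagonal.mp hp, pow_add]
    congr 1
    ring
  rw [Finset.sum_congr rfl h1, sum_antidiagonal_range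
    (fun i j => coeff n ((coeff i T * c ^ i) * (coeff j T' * c ^ j)))]
  · have h2 : ∀ i ∈ Finset.range (n + 1), ∑ j ∈ Finset.range (n + 1),
        coeff n ((coeff i T * c ^ i) * (coeff j T' * c ^ j)) =
        coeff n ((coeff i T * c ^ i) * ∑ j ∈ Finset.range (n + 1), coeff j T' * c ^ j) := by
      intro i _
      rw [Finset.mul_sum, map_sum]
    rw [Finset.sum_congr rfl h2, ← map_sum, ← Finset.sum_mul]
    have h3 : X ^ (n + 1) ∣ ev c T * ev c T' -
        (∑ i ∈ Finset.range (n + 1), coeff i T * c ^ i) *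
          ∑ j ∈ Finset.range (n + 1), coeff j T' * c ^ j := by
      have e : ev c T * ev c T' - (∑ i ∈ Finset.range (n + 1), coeff i T * c ^ i) *
          (∑ j ∈ Finset.range (n + 1), coeff j T' * c ^ j) =
          (ev c T - ∑ i ∈ Finset.range (n + 1), coeff i T * c ^ i) * ev c T' +
          (∑ i ∈ Finset.range (n + 1), coeff i T * c ^ i) *
            (ev c T' - ∑ j ∈ Finset.range (n + 1), coeff j T' * c ^ j) := by ring
      rw [e]
      exact dvd_add ((ev_dvd hc _ _).mul_right _) ((ev_dvd hc _ _).mul_left _)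
    have h4 := X_pow_dvd_iff.mp h3 n (Nat.lt_succ_self n)
    rw [map_sub] at h4
    linarith
  · intro i j hij
    have : (coeff i T * c ^ i) * (coeff j T' * c ^ j) = coeff i T * coeff j T' * c ^ (i + j) := by
      rw [pow_add]; ring
    rw [this]
    exact coeff_mul_pow_of_lt hc (by omega) _

/-- The derivation `d/dz` of the ring of coefficients. -/
noncomputable def dz : Derivation ℚ ℚ⟦X⟧ ℚ⟦X⟧ := derivative ℚ

omit hc in
lemma dz_apply (A : ℚ⟦X⟧) : dz A = derivative ℚ A := rfl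

/-- The chain rule. -/
lemma ev_chain (T : (ℚ⟦X⟧)⟦X⟧) : c * derivative ℚ (ev c T) =
    c * ev c (D dz T) + ev c (theta T) * derivative ℚ c := by
  rw [← sub_eq_zero]
  apply eq_zero_of_dvd
  intro N
  have h1 := dvd_derivative (ev_dvd hc (N + 1) T)
  have h2 := ev_dvd hc (N + 1) (D dz T)
  have h3 := ev_dvd hc (N + 1) (theta T)
  have h2' := (pow_dvd_pow (X : ℚ⟦X⟧) (Nat.le_succ N)).trans h2
  have h3' := (pow_dvd_pow (X : ℚ⟦X⟧) (Nat.le_succ N)).trans h3
  have key : c * derivative ℚ (∑ j ∈ Finset.range (N + 1), coeff j T * c ^ j) =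
      c * (∑ j ∈ Finset.range (N + 1), coeff j (D dz T) * c ^ j) +
        (∑ j ∈ Finset.range (N + 1), coeff j (theta T) * c ^ j) * derivative ℚ c := by
    rw [map_sum, Finset.mul_sum, Finset.mul_sum, Finset.sum_mul, ← Finset.sum_add_distrib]
    apply Finset.sum_congr rfl
    intro j _
    rw [Derivation.leibniz, coeff_D, coeff_theta, dz_apply, derivative_pow, smul_eq_mul,
      smul_eq_mul]
    cases j with
    | zero => simp
    | succ j =>
      rw [Nat.add_sub_cancel, pow_succ]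
      ring
  rw [map_sub] at h1
  have e : c * derivative ℚ (ev c T) - (c * ev c (D dz T) + ev c (theta T) * derivative ℚ c) =
      c * (derivative ℚ (ev c T) -
        derivative ℚ (∑ j ∈ Finset.range (N + 1), coeff j T * c ^ j)) -
      c * (ev c (D dz T) - ∑ j ∈ Finset.range (N + 1), coeff j (D dz T) * c ^ j) -
      (ev c (theta T) - ∑ j ∈ Finset.range (N + 1), coeff j (theta T) * c ^ j) *
        derivative ℚ c := by
    linear_combination key
  rw [e]
  exact dvd_sub (dvd_sub (h1.mul_left _) (h2'.mul_left _)) (h3'.mul_right _)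

/-- The value of an exponential. -/
lemma isExp_ev {P K : (ℚ⟦X⟧)⟦X⟧} (hc0 : c ≠ 0) (hD : D dz P = D dz K * P)
    (hT : theta P = theta K * P) (hP : constantCoeff P = 1) :
    IsExp (ev c P) (derivative ℚ (ev c K)) := by
  constructor
  · have h1 := ev_chain hc P
    have h2 := ev_chain hc K
    rw [hD, hT, ev_mul hc, ev_mul hc] at h1
    apply mul_left_cancel₀ hc0
    linear_combination h1 - (ev c P) * h2
  · rw [constantCoeff_ev, hP, map_one]

end Ev

end Pool.Agent.H74.Strata
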