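import Pool.Agent.H74.EulV
import Pool.Agent.H74.EulR
import Pool.Agent.H74.EulT

/-!
# Series in `q = exp (z/2)`
-/

namespace Pool.Agent.H74.Strata

open PowerSeries
open Finset.HasAntidiagonal (antidiagonal mem_antidiagonal)

lemma coeff_mul_subst {τ : ℚ⟦X⟧} (hτ : constantCoeff τ = 0) (A F : ℚ⟦X⟧) (n : ℕ) :
    coeff n (A * F.subst τ) = ∑ d ∈ Finset.range (n + 1), coeff d F * coeff n (A * τ ^ d) := by
  have hs : HasSubst τ := HasSubst.of_constantCoeff_zero' hτ
  have h1 : ∀ m ≤ n, coeff m (F.subst τ) =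
      ∑ d ∈ Finset.range (n + 1), coeff d F * coeff m (τ ^ d) := by
    intro m hm
    rw [coeff_subst' hs, finsum_eq_sum_of_support_subset]
    · rfl
    · intro d hd
      rw [Function.mem_support] at hd
      rw [Finset.mem_coe, Finset.mem_range]
      by_contra h
      apply hd
      have : coeff m (1 * τ ^ d) = 0 := coeff_mul_pow_of_lt hτ (by omega) 1
      rw [one_mul] at this
      rw [this, smul_zero]
  rw [coeff_mul]
  have h2 : ∀ p ∈ antidiagonal n, coeff p.1 A * coeff p.2 (F.subst τ) =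
      ∑ d ∈ Finset.range (n + 1), coeff d F * (coeff p.1 A * coeff p.2 (τ ^ d)) := by
    intro p hp
    have := mem_antidiagonal.mp hp
    rw [h1 p.2 (by omega), Finset.mul_sum]
    apply Finset.sum_congr rfl
    intro d _
    ring
  rw [Finset.sum_congr rfl h2, Finset.sum_comm]
  apply Finset.sum_congr rfl
  intro d _
  rw [coeff_mul, Finset.mul_sum]

lemma coeff_subst_range {τ : ℚ⟦X⟧} (hτ : constantCoeff τ = 0) (F : ℚ⟦X⟧) (n : ℕ) :
    coeff n (F.subst τ) = ∑ d ∈ Finset.range (n + 1), coeff d F * coeff n (τ ^ d) := by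
  have := coeff_mul_subst hτ 1 F n
  simpa using this

/-- `q = exp (z/2)`. -/
noncomputable def q : ℚ⟦X⟧ := rescale (1 / 2 : ℚ) (PowerSeries.exp ℚ)

/-- `1/q = exp (-z/2)`. -/
noncomputable def qi : ℚ⟦X⟧ := rescale (-(1 / 2) : ℚ) (PowerSeries.exp ℚ)

lemma rescale_zero_exp : rescale (0 : ℚ) (PowerSeries.exp ℚ) = 1 := by
  rw [rescale_zero]
  simp

lemma q_mul_qi : q * qi = 1 := by
  rw [q, qi, exp_mul_exp_eq_exp_add, add_neg_cancel, rescale_zero_exp]

lemma q_mul_q : q * q = PowerSeries.exp ℚ := by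
  rw [q, exp_mul_exp_eq_exp_add]
  norm_num [rescale_one]

lemma X_mul_S : X * S = q - qi := by
  ext n
  cases n with
  | zero =>
    rw [coeff_zero_X_mul, map_sub, q, qi, coeff_rescale, coeff_rescale]
    simp
  | succ n =>
    rw [coeff_succ_X_mul, S, coeff_mk, map_sub, q, qi, coeff_rescale, coeff_rescale, coeff_exp]
    simp only [Algebra.algebraMap_self, RingHom.id_apply]
    have h1 : ((n + 1).factorial : ℚ) ≠ 0 := by positivity
    rcases Nat.even_or_odd n with h | h
    · rw [if_pos h]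
      have h2 : (-(1 / 2 : ℚ)) ^ (n + 1) = -(1 / 2) ^ (n + 1) := by
        rw [neg_pow, (Even.add_one h).neg_one_pow]; ring
      rw [h2, pow_succ, one_div_pow]
      field_simp
      ring
    · rw [if_neg (Nat.not_even_iff_odd.mpr h)]
      have h2 : (-(1 / 2 : ℚ)) ^ (n + 1) = (1 / 2) ^ (n + 1) := by
        rw [neg_pow, (Odd.add_one h).neg_one_pow]; ring
      rw [h2]
      ring

lemma rescale_pow_q (N : ℕ) : rescale (N : ℚ) q = q ^ N := by
  rw [q, rescale_rescale, ← map_pow, exp_pow_eq_rescale_exp, rescale_rescale, mul_comm]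

lemma rescale_pow_qi (N : ℕ) : rescale (N : ℚ) qi = qi ^ N := by
  rw [qi, rescale_rescale, ← map_pow, exp_pow_eq_rescale_exp, rescale_rescale, mul_comm]

lemma rescale_X' (r : ℚ) : rescale r (X : ℚ⟦X⟧) = r • X := by
  ext n
  rw [coeff_rescale, coeff_smul, coeff_X, smul_eq_mul]
  split_ifs with h
  · rw [h, pow_one]
  · ring

section

variable (a : ℚ)

/-- `c = (q - 1/q)/a`. -/
noncomputable def cc : ℚ⟦X⟧ := (1 / a) • (X * S)

/-- `σ = (e^z - 1)/a`. -/
noncomputable def sg : ℚ⟦X⟧ := q * cc a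

/-- `σ' = (1 - e^(-z))/a`. -/
noncomputable def sg' : ℚ⟦X⟧ := qi * cc a

lemma constantCoeff_cc : constantCoeff (cc a) = 0 := by
  rw [← coeff_zero_eq_constantCoeff_apply, cc, coeff_smul, coeff_zero_X_mul, smul_zero]

lemma constantCoeff_sg : constantCoeff (sg a) = 0 := by
  rw [sg, map_mul, constantCoeff_cc, mul_zero]

lemma constantCoeff_sg' : constantCoeff (sg' a) = 0 := by
  rw [sg', map_mul, constantCoeff_cc, mul_zero]

variable {a} (ha : a ≠ 0)

include ha

lemma a_smul_cc : a • cc a = q - qi := by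
  rw [cc, smul_smul, mul_one_div_cancel ha, one_smul, X_mul_S]

lemma a_smul_sg : a • sg a = PowerSeries.exp ℚ - 1 := by
  rw [sg, ← mul_smul_comm, a_smul_cc ha, mul_sub, q_mul_q, q_mul_qi]

lemma cc_ne_zero : cc a ≠ 0 := by
  intro h
  have h1 := congrArg (coeff 1) h
  rw [cc, coeff_smul] at h1
  have h2 : coeff 1 (X * S) = 1 := by
    rw [show (1 : ℕ) = 0 + 1 from rfl, coeff_succ_X_mul, coeff_zero_eq_constantCoeff_apply,
      constantCoeff_S]
  rw [h2] at h1
  simp at h1
  exact ha h1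

lemma sg_ne_zero : sg a ≠ 0 := by
  apply mul_ne_zero _ (cc_ne_zero ha)
  intro h
  have := q_mul_qi
  rw [h, zero_mul] at this
  exact zero_ne_one this

lemma brk_mul_pow (N : ℕ) :
    a • (brk N * cc a ^ (N + 1)) = sg a ^ N - sg' a ^ N := by
  have h1 : rescale (N : ℚ) (X * S) = q ^ N - qi ^ N := by
    rw [X_mul_S, map_sub, rescale_pow_q, rescale_pow_qi]
  rw [map_mul, rescale_X'] at h1
  have h2 : brk N * (X * S) = (N : ℚ) • X * rescale (N : ℚ) S := by
    rw [brk]
    simp only [smul_mul_assoc]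
    congr 1
    have : rescale (N : ℚ) S * S⁻¹ * (X * S) = X * rescale (N : ℚ) S * (S * S⁻¹) := by ring
    rw [this, S_mul_inv, mul_one]
  have h3 : a • cc a = X * S := by
    rw [cc, smul_smul, mul_one_div_cancel ha, one_smul]
  have h4 : a • (brk N * cc a ^ (N + 1)) = cc a ^ N * (brk N * (a • cc a)) := by
    rw [pow_succ]
    simp only [mul_smul_comm]
    congr 1
    ring
  rw [h4, h3, h2, h1, sg, sg', mul_pow, mul_pow]
  ring

end

end Pool.Agent.H74.Strata
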