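import Pool.Agent.H74.EulX

/-!
# The formal Stirling series
-/

namespace Pool.Agent.H74.Strata

open PowerSeries
open Finset.HasAntidiagonal (antidiagonal mem_antidiagonal)

/-- `X / (1 + X)`. -/
noncomputable def tq : ℚ⟦X⟧ := X * (1 + X)⁻¹

lemma one_add_X_inv : (1 + X : ℚ⟦X⟧)⁻¹ = rescale (-1 : ℚ) (mk 1) := by
  have h1 : rescale (-1 : ℚ) (mk 1) * (1 + X) = 1 := by
    have h2 := congrArg (rescale (-1 : ℚ)) (mk_one_mul_one_sub_eq_one ℚ)
    rw [map_mul, map_sub, map_one, rescale_X'] at h2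
    have h3 : (1 : ℚ⟦X⟧) - (-1 : ℚ) • X = 1 + X := by
      rw [neg_smul, one_smul, sub_neg_eq_add]
    rwa [h3] at h2
  rw [PowerSeries.inv_eq_iff_mul_eq_one]
  · exact h1
  · simp

lemma coeff_tq_pow (N d : ℕ) : coeff (N + 1) (tq ^ (d + 1)) =
    if d ≤ N then (-1) ^ (N - d) * (N.choose d : ℚ) else 0 := by
  rw [tq, one_add_X_inv, mul_pow, ← map_pow, mk_one_pow_eq_mk_choose_add, coeff_X_pow_mul']
  by_cases h : d ≤ N
  · rw [if_pos (by omega), if_pos h, coeff_rescale, coeff_mk]
    have e1 : N + 1 - (d + 1) = N - d := by omega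
    have e2 : d + (N - d) = N := by omega
    rw [e1, e2]
  · rw [if_neg (by omega), if_neg h]

lemma constantCoeff_tq : constantCoeff tq = 0 := by
  rw [tq, map_mul, constantCoeff_X, zero_mul]

/-- The series `G`. -/
noncomputable def Gs : ℚ⟦X⟧ := mk gc

/-- The series `exp (-X)`. -/
noncomputable def em : ℚ⟦X⟧ := rescale (-1 : ℚ) (PowerSeries.exp ℚ)

lemma qi_mul_qi : qi * qi = em := by
  rw [qi, exp_mul_exp_eq_exp_add, em]
  norm_num

lemma S_inv_mul : S⁻¹ * em = S⁻¹ - X * qi := by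
  have h1 : S * (S⁻¹ - X * qi) = em := by
    rw [mul_sub, S_mul_inv]
    have h2 : S * (X * qi) = (X * S) * qi := by ring
    rw [h2, X_mul_S, sub_mul, q_mul_qi, qi_mul_qi]
    ring
  rw [← h1, ← mul_assoc, mul_comm S⁻¹ S, S_mul_inv, one_mul]

lemma coeff_em (n : ℕ) : coeff n em = (-1) ^ n / n.factorial := by
  rw [em, coeff_rescale, coeff_exp]
  simp
  ring

lemma coeff_qi (n : ℕ) : coeff n qi = (-(1 / 2)) ^ n / n.factorial := by
  rw [qi, coeff_rescale, coeff_exp]
  simp
  ring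

lemma coeff_one_S_inv : coeff 1 S⁻¹ = 0 := coeff_S_inv_odd 1 (by omega)

lemma coeff_subst_tq (N : ℕ) : coeff (N + 1) (Gs.subst tq) =
    N.factorial * (coeff (N + 2) S⁻¹ - (-(1 / 2)) ^ (N + 1) / (N + 1).factorial -
      (-1) ^ (N + 2) / (N + 2).factorial) := by
  rw [coeff_subst_range constantCoeff_tq, Finset.sum_range_succ']
  have h0 : coeff 0 Gs * coeff (N + 1) (tq ^ 0) = 0 := by
    rw [pow_zero, coeff_one, if_neg (by omega), mul_zero]
  rw [h0, add_zero]
  have h1 : ∀ d ∈ Finset.range (N + 1), coeff (d + 1) Gs * coeff (N + 1) (tq ^ (d + 1)) =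
      N.factorial * (coeff (d + 2) S⁻¹ * coeff (N - d) em) := by
    intro d hd
    have hd' : d ≤ N := by have := Finset.mem_range.mp hd; omega
    rw [coeff_tq_pow, if_pos hd', Gs, coeff_mk, gc, coeff_em, Nat.add_sub_cancel]
    have h2 := Nat.choose_mul_factorial_mul_factorial hd'
    have h3 : (N.factorial : ℚ) = N.choose d * d.factorial * (N - d).factorial := by
      rw [← h2]; push_cast; ring
    rw [h3]
    have h4 : ((N - d).factorial : ℚ) ≠ 0 := by positivity
    field_simp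
  rw [Finset.sum_congr rfl h1, ← Finset.mul_sum]
  congr 1
  have h5 := congrArg (coeff (N + 2)) S_inv_mul
  rw [coeff_mul, Finset.Nat.sum_antidiagonal_eq_sum_range_succ_mk, Finset.sum_range_succ',
    Finset.sum_range_succ', map_sub, coeff_succ_X_mul, coeff_qi] at h5
  simp only [Nat.sub_zero, coeff_one_S_inv, zero_mul, add_zero, coeff_em (N + 2),
    coeff_zero_eq_constantCoeff_apply, constantCoeff_S_inv, one_mul, Nat.zero_add] at h5
  have h6 : ∀ d ∈ Finset.range (N + 1), coeff (d + 1 + 1) S⁻¹ * coeff (N + 2 - (d + 1 + 1)) em =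
      coeff (d + 2) S⁻¹ * coeff (N - d) em := by
    intro d _
    have e : N + 2 - (d + 1 + 1) = N - d := by omega
    rw [e]
  rw [Finset.sum_congr rfl h6] at h5
  linarith

/-- The basic difference equation. -/
lemma base : X * (Gs.subst tq - Gs) = X * rescale (1 / 2 : ℚ) (PowerSeries.log ℚ) -
    (1 + X) * PowerSeries.log ℚ + X := by
  ext n
  cases n with
  | zero => simp
  | succ n =>
    simp only [map_add, map_sub, coeff_succ_X_mul, add_mul, one_mul]
    cases n with
    | zero =>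
      have h1 : coeff 0 (Gs.subst tq) = 0 := by
        rw [coeff_subst_range constantCoeff_tq]
        simp [Gs, gc, coeff_one_S_inv]
      have h2 : coeff 0 Gs = 0 := by simp [Gs, gc, coeff_one_S_inv]
      rw [h1, h2, coeff_rescale]
      simp
    | succ N =>
      rw [coeff_subst_tq, Gs, coeff_mk, gc, Nat.add_sub_cancel, coeff_rescale, coeff_log,
        coeff_log, coeff_X, if_neg (by omega), if_neg (by omega), if_neg (by omega)]
      simp only [Algebra.algebraMap_self, RingHom.id_apply]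
      have h1 : (N.factorial : ℚ) ≠ 0 := by positivity
      have h2 : ((N + 1).factorial : ℚ) = (N + 1) * N.factorial := by
        rw [Nat.factorial_succ]; push_cast; ring
      have h3 : ((N + 2).factorial : ℚ) = (N + 2) * ((N + 1) * N.factorial) := by
        rw [Nat.factorial_succ, Nat.factorial_succ]; push_cast; ring
      have h4 : (N : ℚ) + 1 ≠ 0 := by positivity
      have h5 : (N : ℚ) + 2 ≠ 0 := by positivity
      rw [h2, h3]
      have h6 : (-(1 / 2 : ℚ)) ^ (N + 1) = (-1) ^ (N + 1) * (1 / 2) ^ (N + 1) := by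
        rw [← mul_pow]; norm_num
      rw [h6]
      generalize (1 / 2 : ℚ) ^ (N + 1) = t
      push_cast
      have h7 : (N : ℚ) + 1 + 1 = N + 2 := by ring
      rw [h7]
      field_simp
      ring

/-- `Log θ = log (1 + θ)`. -/
noncomputable def Lg (θ : ℚ⟦X⟧) : ℚ⟦X⟧ := (PowerSeries.log ℚ).subst θ

lemma constantCoeff_Lg {θ : ℚ⟦X⟧} (h : constantCoeff θ = 0) : constantCoeff (Lg θ) = 0 := by
  rw [Lg, constantCoeff_subst_of_zero h, constantCoeff_log]

lemma derivative_log : derivative ℚ (PowerSeries.log ℚ) = (1 + X)⁻¹ := by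
  rw [deriv_log, one_add_X_inv]
  ext n
  rw [coeff_mk, coeff_rescale, coeff_mk]
  simp

lemma one_add_ne_zero {θ : ℚ⟦X⟧} (h : constantCoeff θ = 0) : (1 + θ) ≠ 0 := by
  intro h0
  have := congrArg constantCoeff h0
  rw [map_add, h, map_one, map_zero] at this
  norm_num at this

lemma derivative_Lg {θ : ℚ⟦X⟧} (h : constantCoeff θ = 0) :
    (1 + θ) * derivative ℚ (Lg θ) = derivative ℚ θ := by
  have hs : HasSubst θ := HasSubst.of_constantCoeff_zero' h
  rw [Lg, derivative_subst hs, derivative_log]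
  have h1 : (1 + θ) * ((1 + X : ℚ⟦X⟧)⁻¹.subst θ) = 1 := by
    have h2 : (1 + X : ℚ⟦X⟧) * (1 + X)⁻¹ = 1 :=
      PowerSeries.mul_inv_cancel _ (by simp)
    have h3 := congrArg (fun F : ℚ⟦X⟧ => F.subst θ) h2
    rw [subst_mul hs, subst_add hs, subst_X hs] at h3
    have h4 : ((1 : ℚ⟦X⟧).subst θ : ℚ⟦X⟧) = 1 := by
      rw [← coe_substAlgHom hs, map_one]
    rw [h4] at h3
    exact h3
  rw [← mul_assoc, h1, one_mul]

/-- `log` of a product. -/
lemma Lg_mul {θ θ' θ'' : ℚ⟦X⟧} (h : constantCoeff θ = 0) (h' : constantCoeff θ' = 0)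
    (h'' : (1 + θ) * (1 + θ') = 1 + θ'') : Lg θ'' = Lg θ + Lg θ' := by
  have hc : constantCoeff θ'' = 0 := by
    have := congrArg constantCoeff h''
    rw [map_mul, map_add, map_add, map_add, h, h', map_one] at this
    linarith
  apply derivative.ext
  · have h1 := derivative_Lg h
    have h2 := derivative_Lg h'
    have h3 := derivative_Lg hc
    apply mul_left_cancel₀ (one_add_ne_zero hc)
    rw [h3, map_add, ← h'']
    have h4 : derivative ℚ θ'' = derivative ℚ (1 + θ'') := by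
      rw [map_add, Derivation.map_one_eq_zero, zero_add]
    rw [h4, ← h'', Derivation.leibniz, map_add, map_add, Derivation.map_one_eq_zero, zero_add,
      zero_add, smul_eq_mul, smul_eq_mul]
    linear_combination (-(1 + θ')) * h1 - (1 + θ) * h2
  · rw [map_add, constantCoeff_Lg hc, constantCoeff_Lg h, constantCoeff_Lg h', add_zero]

/-- The difference equation after a substitution. -/
lemma base_subst {τ τ' : ℚ⟦X⟧} (h : constantCoeff τ = 0) (h' : (1 + τ) * τ' = τ) :
    τ * (Gs.subst τ' - Gs.subst τ) = τ * Lg ((1 / 2 : ℚ) • τ) - (1 + τ) * Lg τ + τ := by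
  have hs : HasSubst τ := HasSubst.of_constantCoeff_zero' h
  have h1 := congrArg (fun F : ℚ⟦X⟧ => (F.subst τ : ℚ⟦X⟧)) base
  rw [subst_mul hs, subst_add hs, subst_sub hs, subst_sub hs, subst_mul hs, subst_mul hs,
    subst_add hs, subst_X hs] at h1
  have h4 : ((1 : ℚ⟦X⟧).subst τ : ℚ⟦X⟧) = 1 := by
    rw [← coe_substAlgHom hs, map_one]
  have h5 : (PowerSeries.subst τ (PowerSeries.subst tq Gs : ℚ⟦X⟧) : ℚ⟦X⟧) = Gs.subst τ' := by
    rw [subst_comp_subst_apply (HasSubst.of_constantCoeff_zero' constantCoeff_tq) hs]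
    congr 1
    have h6 : (1 + X) * tq = X := by
      have h2 : (1 + X : ℚ⟦X⟧) * (1 + X)⁻¹ = 1 :=
        PowerSeries.mul_inv_cancel _ (by simp)
      rw [tq]
      linear_combination X * h2
    have h7 := congrArg (fun F : ℚ⟦X⟧ => (F.subst τ : ℚ⟦X⟧)) h6
    rw [subst_mul hs, subst_add hs, subst_X hs, h4] at h7
    exact mul_left_cancel₀ (one_add_ne_zero h) (h7.trans h'.symm)
  have h8 : (PowerSeries.subst τ (rescale (1 / 2 : ℚ) (PowerSeries.log ℚ)) : ℚ⟦X⟧) =
      Lg ((1 / 2 : ℚ) • τ) := by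
    rw [rescale_eq_subst, subst_comp_subst_apply (HasSubst.smul_X' _) hs, Lg]
    congr 1
    rw [subst_smul hs, subst_X hs]
  rw [h4, h5, h8] at h1
  exact h1

end Pool.Agent.H74.Strata
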