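import Pool.Agent.H74.EulY
import Pool.Agent.H74.EulU

/-!
# The Stirling identity
-/

namespace Pool.Agent.H74.Strata

open PowerSeries
open Finset.HasAntidiagonal (antidiagonal mem_antidiagonal)

lemma constantCoeff_smul' (r : ℚ) {s : ℚ⟦X⟧} (hs : constantCoeff s = 0) :
    constantCoeff (r • s) = 0 := by
  rw [← coeff_zero_eq_constantCoeff_apply, coeff_smul, coeff_zero_eq_constantCoeff_apply, hs,
    smul_zero]

section Telescope

variable {s : ℚ⟦X⟧} (hs : constantCoeff s = 0)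

/-- `s / (1 + j s)`. -/
noncomputable def tj (s : ℚ⟦X⟧) (j : ℕ) : ℚ⟦X⟧ := s * (1 + (j : ℚ) • s)⁻¹

include hs

lemma mul_tj (j : ℕ) : (1 + (j : ℚ) • s) * tj s j = s := by
  have h : (1 + (j : ℚ) • s) * (1 + (j : ℚ) • s)⁻¹ = 1 := by
    apply PowerSeries.mul_inv_cancel
    rw [map_add, constantCoeff_smul' _ hs, map_one, add_zero]
    exact one_ne_zero
  rw [tj]
  linear_combination s * h

lemma constantCoeff_tj (j : ℕ) : constantCoeff (tj s j) = 0 := by
  rw [tj, map_mul, hs, zero_mul]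

lemma one_add_tj (j : ℕ) :
    (1 + (j : ℚ) • s) * (1 + tj s j) = 1 + ((j + 1 : ℕ) : ℚ) • s := by
  rw [mul_add, mul_tj hs]
  push_cast
  rw [add_smul, one_smul]
  ring

lemma tj_succ (j : ℕ) : (1 + tj s j) * tj s (j + 1) = tj s j := by
  have h0 : (1 + (j : ℚ) • s) ≠ 0 := one_add_ne_zero (constantCoeff_smul' _ hs)
  apply mul_left_cancel₀ h0
  rw [← mul_assoc, one_add_tj hs, mul_tj hs, mul_tj hs]

lemma Lg_tj (j : ℕ) : Lg (tj s j) = Lg (((j + 1 : ℕ) : ℚ) • s) - Lg ((j : ℚ) • s) := by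
  rw [Lg_mul (constantCoeff_smul' _ hs) (constantCoeff_tj hs j) (one_add_tj hs j)]
  ring

lemma Lg_half_tj (j : ℕ) :
    Lg ((1 / 2 : ℚ) • tj s j) = Lg (((j : ℚ) + 1 / 2) • s) - Lg ((j : ℚ) • s) := by
  have h : (1 + (j : ℚ) • s) * (1 + (1 / 2 : ℚ) • tj s j) = 1 + ((j : ℚ) + 1 / 2) • s := by
    rw [mul_add, mul_smul_comm, mul_tj hs, add_smul]
    ring
  rw [Lg_mul (constantCoeff_smul' _ hs) (constantCoeff_smul' _ (constantCoeff_tj hs j)) h]
  ring

lemma step (j : ℕ) : s * (Gs.subst (tj s (j + 1)) - Gs.subst (tj s j)) =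
    s * (Lg (((j : ℚ) + 1 / 2) • s) - Lg ((j : ℚ) • s)) -
      (1 + ((j + 1 : ℕ) : ℚ) • s) * (Lg (((j + 1 : ℕ) : ℚ) • s) - Lg ((j : ℚ) • s)) + s := by
  have h := base_subst (constantCoeff_tj hs j) (tj_succ hs j)
  rw [Lg_tj hs, Lg_half_tj hs] at h
  have h2 := mul_tj hs j
  have h3 := one_add_tj hs j
  rw [← h3]
  generalize Lg (((j + 1 : ℕ) : ℚ) • s) = l1 at *
  generalize Lg ((j : ℚ) • s) = l0 at *
  generalize Lg (((j : ℚ) + 1 / 2) • s) = l2 at *
  generalize (1 + (j : ℚ) • s) = d at *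
  generalize (Gs.subst (tj s (j + 1)) : ℚ⟦X⟧) = g1 at *
  generalize (Gs.subst (tj s j) : ℚ⟦X⟧) = g0 at *
  generalize tj s j = t at *
  rw [← h2]
  linear_combination d * h

omit hs in
lemma Lg_zero : Lg ((0 : ℚ) • s) = 0 := by
  rw [zero_smul]
  apply derivative.ext
  · have h := derivative_Lg (θ := (0 : ℚ⟦X⟧)) (by simp)
    rw [add_zero, one_mul, map_zero] at h
    rw [h, map_zero]
  · rw [constantCoeff_Lg (by simp), map_zero]

lemma telescoped (n : ℕ) : s * (Gs.subst (tj s n) - Gs.subst (tj s 0)) =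
    s * ∑ j ∈ Finset.range n, Lg (((j : ℚ) + 1 / 2) • s) -
      (1 + (n : ℚ) • s) * Lg ((n : ℚ) • s) + (n : ℚ) • s := by
  induction n with
  | zero =>
    rw [Finset.sum_range_zero, Nat.cast_zero, Lg_zero, zero_smul]
    ring
  | succ n ih =>
    have h := step hs n
    rw [Finset.sum_range_succ]
    have e : s * (Gs.subst (tj s (n + 1)) - Gs.subst (tj s 0)) =
        s * (Gs.subst (tj s (n + 1)) - Gs.subst (tj s n)) +
        s * (Gs.subst (tj s n) - Gs.subst (tj s 0)) := by ring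
    rw [e, h, ih]
    push_cast
    simp only [add_smul, one_smul]
    ring

end Telescope

lemma derivative_rescale_exp (r : ℚ) :
    derivative ℚ (rescale r (PowerSeries.exp ℚ)) = r • rescale r (PowerSeries.exp ℚ) := by
  ext n
  rw [coeff_derivative, coeff_rescale, coeff_smul, coeff_rescale, coeff_exp, coeff_exp]
  simp only [Algebra.algebraMap_self, RingHom.id_apply, smul_eq_mul]
  rw [Nat.factorial_succ]
  have h1 : (n.factorial : ℚ) ≠ 0 := by positivity
  have h2 : (n : ℚ) + 1 ≠ 0 := by positivity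
  push_cast
  field_simp
  ring

lemma derivative_q : derivative ℚ q = (1 / 2 : ℚ) • q := derivative_rescale_exp _

lemma derivative_qi : derivative ℚ qi = (-(1 / 2) : ℚ) • qi := derivative_rescale_exp _

lemma constantCoeff_q : constantCoeff q = 1 := by
  rw [← coeff_zero_eq_constantCoeff_apply, q, coeff_rescale]
  simp

/-- The exponent of `w`. -/
noncomputable def Eg : ℚ⟦X⟧ := X * derivative ℚ S * S⁻¹

lemma isExp_w : IsExp w (derivative ℚ Eg) := isExp_exp (by simp)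

lemma exp_sub_one : PowerSeries.exp ℚ - 1 = q * (X * S) := by
  rw [X_mul_S, mul_sub, q_mul_q, q_mul_qi]

lemma Eg_identity : (PowerSeries.exp ℚ - 1) * (Eg + (1 / 2 : ℚ) • X) =
    PowerSeries.exp ℚ * X - (PowerSeries.exp ℚ - 1) := by
  have h1 : S + X * derivative ℚ S = (1 / 2 : ℚ) • (q + qi) := by
    have h := congrArg (derivative ℚ) X_mul_S
    rw [Derivation.leibniz, derivative_X, smul_eq_mul, smul_eq_mul, mul_one, map_sub, derivative_q,
      derivative_qi] at h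
    rw [smul_add, add_comm, h, neg_smul, sub_neg_eq_add]
  have h2 : S * Eg = X * derivative ℚ S := by
    rw [Eg]
    linear_combination X * derivative ℚ S * S_mul_inv
  have h3 := exp_sub_one
  have h4 : X * derivative ℚ S = (1 / 2 : ℚ) • (q + qi) - S := by rw [← h1]; ring
  have h5 : (PowerSeries.exp ℚ - 1) * Eg = q * X * ((1 / 2 : ℚ) • (q + qi) - S) := by
    rw [h3, ← h4, ← h2]; ring
  have h6 : q * X * ((1 / 2 : ℚ) • (q + qi) - S) =
      (1 / 2 : ℚ) • (X * (PowerSeries.exp ℚ + 1)) - (PowerSeries.exp ℚ - 1) := by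
    have h7 : q * X * S = PowerSeries.exp ℚ - 1 := by rw [h3]; ring
    rw [mul_sub, h7, mul_smul_comm]
    congr 2
    have : q * X * (q + qi) = X * (q * q + q * qi) := by ring
    rw [this, q_mul_q, q_mul_qi]
  rw [mul_add, h5, h6, mul_smul_comm]
  have h8 : (1 / 2 : ℚ) • (X * (PowerSeries.exp ℚ + 1)) +
      (1 / 2 : ℚ) • ((PowerSeries.exp ℚ - 1) * X) = PowerSeries.exp ℚ * X := by
    rw [← smul_add]
    have : X * (PowerSeries.exp ℚ + 1) + (PowerSeries.exp ℚ - 1) * X =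
        (2 : ℚ) • (PowerSeries.exp ℚ * X) := by
      rw [two_smul]; ring
    rw [this, smul_smul]
    norm_num
  linear_combination h8

lemma Lg_exp : Lg (PowerSeries.exp ℚ - 1) = X := by
  have hc : constantCoeff (PowerSeries.exp ℚ - 1 : ℚ⟦X⟧) = 0 := by simp
  apply derivative.ext
  · have h := derivative_Lg hc
    rw [add_sub_cancel, map_sub, Derivation.map_one_eq_zero, sub_zero, derivative_exp] at h
    have h0 : PowerSeries.exp ℚ ≠ 0 := by
      intro h0
      have := congrArg constantCoeff h0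
      simp at this
    rw [derivative_X]
    apply mul_left_cancel₀ h0
    rw [h, mul_one]
  · rw [constantCoeff_Lg hc, constantCoeff_X]

section

variable (A : ℕ) (hA : A ≠ 0)

include hA

lemma castA : (A : ℚ) ≠ 0 := by exact_mod_cast hA

/-- The additive form of the Stirling identity. -/
lemma stirling_add : (Gs.subst (sg' (A : ℚ)) - Gs.subst (sg (A : ℚ)) : ℚ⟦X⟧) +
    (A : ℚ) • (Eg + (1 / 2 : ℚ) • X) =
    ∑ j ∈ Finset.range A, Lg (((j : ℚ) + 1 / 2) • sg (A : ℚ)) := by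
  have hs := constantCoeff_sg (A : ℚ)
  have h := telescoped hs A
  have h1 := a_smul_sg (castA A hA)
  have h0 : tj (sg (A : ℚ)) 0 = sg (A : ℚ) := by
    have := mul_tj hs 0
    rwa [Nat.cast_zero, zero_smul, add_zero, one_mul] at this
  have h2 : tj (sg (A : ℚ)) A = sg' (A : ℚ) := by
    have h3 := mul_tj hs A
    rw [h1, add_sub_cancel] at h3
    have h4 : PowerSeries.exp ℚ ≠ 0 := by
      intro h0
      have := congrArg constantCoeff h0
      simp at this
    apply mul_left_cancel₀ h4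
    rw [h3, sg', sg, ← q_mul_q]
    linear_combination (-(q * cc (A : ℚ))) * q_mul_qi
  rw [h0, h2, h1, add_sub_cancel, Lg_exp] at h
  apply mul_left_cancel₀ (sg_ne_zero (castA A hA))
  rw [mul_add, h]
  have h5 : sg (A : ℚ) * ((A : ℚ) • (Eg + (1 / 2 : ℚ) • X)) =
      (PowerSeries.exp ℚ - 1) * (Eg + (1 / 2 : ℚ) • X) := by
    rw [mul_smul_comm, ← smul_mul_assoc, h1]
  rw [h5, Eg_identity]
  ring

/-- A double series attached to a sequence. -/
noncomputable def Hg (g : ℕ → ℚ) : (ℚ⟦X⟧)⟦X⟧ := mk fun n => match n with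
  | 0 => 0
  | N + 1 => g N • brk N

lemma ev_Hg (g : ℕ → ℚ) : (A : ℚ) • ev (cc (A : ℚ)) (Hg g) =
    (mk g).subst (sg (A : ℚ)) - (mk g).subst (sg' (A : ℚ)) := by
  have hc := constantCoeff_cc (A : ℚ)
  ext n
  rw [coeff_smul, coeff_ev hc (N := n + 2) (by omega), Finset.sum_range_succ', map_sub,
    coeff_subst_range (constantCoeff_sg _), coeff_subst_range (constantCoeff_sg' _),
    ← Finset.sum_sub_distrib]
  have h0 : coeff n (coeff 0 (Hg g) * cc (A : ℚ) ^ 0) = 0 := by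
    rw [Hg, coeff_mk, zero_mul, map_zero]
  rw [h0, add_zero, smul_eq_mul, Finset.mul_sum]
  apply Finset.sum_congr rfl
  intro N _
  have h1 : coeff (N + 1) (Hg g) = g N • brk N := by rw [Hg, coeff_mk]
  rw [h1, smul_mul_assoc, coeff_smul, coeff_mk, ← mul_sub, ← map_sub,
    ← brk_mul_pow (castA A hA) N, coeff_smul, smul_eq_mul, smul_eq_mul]
  ring

/-- The value of `Ψ`. -/
noncomputable def Vs : ℚ⟦X⟧ := ev (cc (A : ℚ)) (Pinf (A : ℚ) brk)

omit hA in
lemma Hinf_eq : Hinf brk = Hg gc := rfl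

lemma isExp_Vs : IsExp (Vs A)
    (derivative ℚ (Gs.subst (sg' (A : ℚ)) - Gs.subst (sg (A : ℚ)) : ℚ⟦X⟧)) := by
  have h1 : ev (cc (A : ℚ)) (-(A : ℚ) • Hinf brk) =
      (Gs.subst (sg' (A : ℚ)) - Gs.subst (sg (A : ℚ)) : ℚ⟦X⟧) := by
    have h2 := ev_Hg A hA gc
    rw [ev_smul, neg_smul, Hinf_eq, h2]
    exact neg_sub _ _
  rw [← h1]
  exact isExp_ev (constantCoeff_cc _) (cc_ne_zero (castA A hA))
    (D_exp dz (isExp_Pinf (A : ℚ) brk) (constantCoeff_Hinf (A : ℚ) brk))
    (theta_exp (isExp_Pinf (A : ℚ) brk)) (isExp_Pinf (A : ℚ) brk).const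

omit hA in
lemma isExp_q : IsExp q (derivative ℚ ((1 / 2 : ℚ) • X)) := by
  constructor
  · rw [derivative_q, Derivation.map_smul, derivative_X, smul_mul_assoc, one_mul]
  · exact constantCoeff_q

omit hA in
lemma isExp_one_add {θ : ℚ⟦X⟧} (h : constantCoeff θ = 0) :
    IsExp (1 + θ) (derivative ℚ (Lg θ)) := by
  constructor
  · rw [map_add, Derivation.map_one_eq_zero, zero_add, mul_comm, derivative_Lg h]
  · rw [map_add, map_one, h, add_zero]

/-- The Stirling identity. -/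
theorem stirling : Vs A * w ^ A * q ^ A =
    ∏ j ∈ Finset.range A, (1 + ((j : ℚ) + 1 / 2) • sg (A : ℚ)) := by
  have hs := constantCoeff_sg (A : ℚ)
  have h1 := ((isExp_Vs A hA).mul (isExp_w.pow A)).mul (isExp_q.pow A)
  have h2 : IsExp (∏ j ∈ Finset.range A, (1 + ((j : ℚ) + 1 / 2) • sg (A : ℚ)))
      (∑ j ∈ Finset.range A, derivative ℚ (Lg (((j : ℚ) + 1 / 2) • sg (A : ℚ)))) :=
    IsExp.prod _ fun j _ => isExp_one_add (constantCoeff_smul' _ hs)
  refine IsExp.unique h1 ?_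
  convert! h2 using 1
  have h3 : derivative ℚ ((A : ℚ) • (Eg + (1 / 2 : ℚ) • X)) =
      (A : ℚ⟦X⟧) * derivative ℚ Eg + (A : ℚ⟦X⟧) * derivative ℚ ((1 / 2 : ℚ) • X) := by
    rw [Derivation.map_smul, map_add, smul_add, Algebra.smul_def, Algebra.smul_def]
    simp only [map_natCast]
  rw [← map_sum, ← stirling_add A hA, map_add, h3, add_assoc]

end

end Pool.Agent.H74.Strata
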