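import Pool.Agent.H74.EulZ

/-!
# The residue computation
-/

namespace Pool.Agent.H74.Strata

open PowerSeries
open Finset.HasAntidiagonal (antidiagonal mem_antidiagonal)

/-- Parity of exponentials. -/
lemma exp_odd {R : Type*} [CommRing R] [Algebra ℚ R] {Y r : R⟦X⟧} (hY : IsExp Y r)
    (hr : ∀ i, Even i → coeff i r = 0) : ∀ n, Odd n → coeff n Y = 0 := by
  intro n
  induction n using Nat.strong_induction_on with
  | _ n ih =>
  intro hn
  obtain ⟨k, rfl⟩ : ∃ k, n = k + 1 := ⟨n - 1, by have := hn.pos; omega⟩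
  have hk : Even k := by
    rcases Nat.even_or_odd k with h | h
    · exact h
    · exfalso
      exact (Nat.not_even_iff_odd.mpr hn) (Odd.add_one h)
  have h1 := congrArg (coeff k) hY.deriv
  rw [coeff_derivative, coeff_mul] at h1
  have h2 : ∑ p ∈ antidiagonal k, coeff p.1 r * coeff p.2 Y = 0 := by
    apply Finset.sum_eq_zero
    intro p hp
    have hp' := mem_antidiagonal.mp hp
    rcases Nat.even_or_odd p.1 with h | h
    · rw [hr p.1 h, zero_mul]
    · have h3 : Odd p.2 := by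
        rcases Nat.even_or_odd p.2 with h' | h'
        · exfalso
          have := h.add_even h'
          rw [hp'] at this
          exact (Nat.not_even_iff_odd.mpr this) hk
        · exact h'
      rw [ih p.2 (by omega) h3, mul_zero]
  rw [h2] at h1
  apply natCast_smul_cancel (n := k + 1) (by omega)
  push_cast
  rw [mul_comm, h1, mul_zero]

lemma coeff_Pinf_odd (a : ℚ) (n : ℕ) (hn : Odd n) : coeff n (Pinf a brk) = 0 := by
  apply exp_odd (isExp_Pinf a brk) _ n hn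
  intro i hi
  have h1 : coeff (i + 1) (Hinf brk) = gc i • brk i := by rw [Hinf, coeff_mk]
  rw [coeff_derivative, coeff_smul, h1, gc_even i hi.two_dvd, zero_smul, smul_zero, zero_mul]

/-- The coefficients of the series `K`. -/
noncomputable def kc (N : ℕ) : ℚ := (N + 1) * gc N

/-- The series `K`. -/
noncomputable def Ks : ℚ⟦X⟧ := mk kc

lemma kc_even (N : ℕ) (hN : Even N) : kc N = 0 := by
  rw [kc, gc_even N hN.two_dvd, mul_zero]

lemma theta_Hinf (a : ℚ) : theta (-a • Hinf brk) = -a • Hg kc := by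
  ext1 n
  rw [coeff_theta, coeff_smul, coeff_smul]
  cases n with
  | zero => simp [Hg]
  | succ N =>
    rw [Hinf, Hg, coeff_mk, coeff_mk]
    simp only [kc, smul_smul]
    have : (((N + 1 : ℕ) : ℚ⟦X⟧)) * ((-a * gc N) • brk N) =
        ((N + 1 : ℕ) : ℚ) • ((-a * gc N) • brk N) := by
      rw [Algebra.smul_def ((N + 1 : ℕ) : ℚ), map_natCast]
    rw [this, smul_smul]
    congr 1
    push_cast
    ring

section

variable (A : ℕ) (hA : A ≠ 0)

lemma cc_pow (n : ℕ) : cc (A : ℚ) ^ n = (1 / (A : ℚ)) ^ n • (X ^ n * S ^ n) := by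
  rw [cc, smul_pow, mul_pow]

lemma S_inv_pow_mul (m n : ℕ) : S⁻¹ ^ (m + n) * S ^ n = S⁻¹ ^ m := by
  rw [pow_add, mul_assoc, ← mul_pow, mul_comm S⁻¹ S, S_mul_inv, one_pow, mul_one]

/-- The sum over `h` as a coefficient. -/
lemma sum_extr (g : ℕ) (hg : g ≠ 0) (hA : A ≠ 0) : ∑ h ∈ Finset.range g,
      ((2 * (g - h) : ℕ) : ℚ) * (A : ℚ) ^ (2 * h) * extr h A
        (coeff (2 * (g - h)) (Pinf (A : ℚ) brk)) =
    (A : ℚ) ^ (2 * g) * coeff (2 * g) (w ^ A * S⁻¹ ^ (2 * g + 1) *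
      ev (cc (A : ℚ)) (theta (Pinf (A : ℚ) brk))) := by
  have hA' : (A : ℚ) ≠ 0 := by exact_mod_cast hA
  set P := Pinf (A : ℚ) brk with hP
  set B := w ^ A * S⁻¹ ^ (2 * g + 1) with hB
  have h1 : coeff (2 * g) (B * ev (cc (A : ℚ)) (theta P)) =
      ∑ j ∈ Finset.range (2 * g + 1), coeff (2 * g) (B * (coeff j (theta P) * cc (A : ℚ) ^ j)) := by
    have h2 := (ev_dvd (constantCoeff_cc (A : ℚ)) (2 * g + 1) (theta P)).mul_left B
    have h3 := X_pow_dvd_iff.mp h2 (2 * g) (by omega)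
    rw [mul_sub, map_sub, Finset.mul_sum, map_sum] at h3
    linarith
  have h4 : ∑ j ∈ Finset.range (2 * g + 1),
      coeff (2 * g) (B * (coeff j (theta P) * cc (A : ℚ) ^ j)) =
      ∑ i ∈ Finset.range (g + 1),
        coeff (2 * g) (B * (coeff (2 * i) (theta P) * cc (A : ℚ) ^ (2 * i))) := by
    symm
    apply Finset.sum_of_injOn (fun i => 2 * i)
    · intro i _ j _ hij
      simp only at hij
      omega
    · intro i hi
      have := Finset.mem_range.mp (Finset.mem_coe.mp hi)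
      exact Finset.mem_coe.mpr (Finset.mem_range.mpr (show 2 * i < 2 * g + 1 by omega))
    · intro j hj hj'
      have hodd : Odd j := by
        rw [← Nat.not_even_iff_odd]
        rintro ⟨i, hi⟩
        apply hj'
        have := Finset.mem_range.mp hj
        exact ⟨i, Finset.mem_coe.mpr (Finset.mem_range.mpr (by omega)), by simp only; omega⟩
      rw [coeff_theta, hP, coeff_Pinf_odd _ j hodd]
      simp
    · intro i _
      rfl
  rw [h1, h4, Finset.mul_sum]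
  -- reindex
  have h5 : ∑ i ∈ Finset.range (g + 1), (A : ℚ) ^ (2 * g) *
      coeff (2 * g) (B * (coeff (2 * i) (theta P) * cc (A : ℚ) ^ (2 * i))) =
      ∑ h ∈ Finset.range (g + 1), (A : ℚ) ^ (2 * g) *
      coeff (2 * g) (B * (coeff (2 * (g - h)) (theta P) * cc (A : ℚ) ^ (2 * (g - h)))) := by
    rw [← Finset.sum_range_reflect]
    apply Finset.sum_congr rfl
    intro h _
    have e : g + 1 - 1 - h = g - h := by omega
    rw [e]
  rw [h5, Finset.sum_range_succ]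
  have h6 : (A : ℚ) ^ (2 * g) *
      coeff (2 * g) (B * (coeff (2 * (g - g)) (theta P) * cc (A : ℚ) ^ (2 * (g - g)))) = 0 := by
    rw [coeff_theta, Nat.sub_self]
    simp
  rw [h6, add_zero]
  apply Finset.sum_congr rfl
  intro h hh
  have hh' := Finset.mem_range.mp hh
  rw [extr_apply, coeff_theta, cc_pow]
  have h7 : B * (((2 * (g - h) : ℕ) : ℚ⟦X⟧) * coeff (2 * (g - h)) P *
      (1 / (A : ℚ)) ^ (2 * (g - h)) • (X ^ (2 * (g - h)) * S ^ (2 * (g - h)))) =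
      (((2 * (g - h) : ℕ) : ℚ) * (1 / (A : ℚ)) ^ (2 * (g - h))) • (X ^ (2 * (g - h)) *
        (w ^ A * S⁻¹ ^ (2 * h + 1) * coeff (2 * (g - h)) P)) := by
    have h8 := S_inv_pow_mul (2 * h + 1) (2 * (g - h))
    have e : 2 * h + 1 + 2 * (g - h) = 2 * g + 1 := by omega
    rw [e] at h8
    rw [← h8, hB, mul_smul, mul_smul_comm, mul_smul_comm, smul_comm,
      Algebra.smul_def ((2 * (g - h) : ℕ) : ℚ), map_natCast]
    congr 1
    ring
  rw [h7, coeff_smul, smul_eq_mul]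
  have h9 : coeff (2 * g) (X ^ (2 * (g - h)) * (w ^ A * S⁻¹ ^ (2 * h + 1) *
      coeff (2 * (g - h)) P)) = coeff (2 * h) (w ^ A * S⁻¹ ^ (2 * h + 1) *
      coeff (2 * (g - h)) P) := by
    rw [coeff_X_pow_mul', if_pos (by omega)]
    congr 2
    omega
  rw [h9]
  have h10 : (A : ℚ) ^ (2 * g) = (A : ℚ) ^ (2 * h) * (A : ℚ) ^ (2 * (g - h)) := by
    rw [← pow_add]; congr 1; omega
  rw [h10, one_div, inv_pow]
  field_simp

include hA

lemma ev_theta : ev (cc (A : ℚ)) (theta (Pinf (A : ℚ) brk)) =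
    (Ks.subst (sg' (A : ℚ)) - Ks.subst (sg (A : ℚ)) : ℚ⟦X⟧) * Vs A := by
  rw [theta_exp (isExp_Pinf (A : ℚ) brk), ev_mul (constantCoeff_cc _), theta_Hinf, ev_smul,
    neg_smul, ev_Hg A hA kc, Vs, neg_sub]
  rfl

/-- The product `Π`. -/
noncomputable def Pi' : ℚ⟦X⟧ := ∏ j ∈ Finset.range A, (qi + ((j : ℚ) + 1 / 2) • cc (A : ℚ))

lemma w_mul_Vs : w ^ A * Vs A = Pi' A := by
  have h := stirling A hA
  have h1 : qi ^ A * (Vs A * w ^ A * q ^ A) = w ^ A * Vs A := by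
    have : qi ^ A * (Vs A * w ^ A * q ^ A) = w ^ A * Vs A * (q * qi) ^ A := by ring
    rw [this, q_mul_qi, one_pow, mul_one]
  have h2 : qi ^ A = ∏ _j ∈ Finset.range A, qi := by rw [Finset.prod_const, Finset.card_range]
  rw [← h1, h, Pi', h2, ← Finset.prod_mul_distrib]
  apply Finset.prod_congr rfl
  intro j _
  rw [mul_add, mul_one, mul_smul_comm, sg, ← mul_assoc, mul_comm qi q, q_mul_qi, one_mul]

lemma w_mul_Vs' : w ^ A * Vs A = qi ^ A *
    ∏ j ∈ Finset.range A, (1 + ((j : ℚ) + 1 / 2) • sg (A : ℚ)) := by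
  have h := stirling A hA
  rw [← h]
  have : qi ^ A * (Vs A * w ^ A * q ^ A) = w ^ A * Vs A * (q * qi) ^ A := by ring
  rw [this, q_mul_qi, one_pow, mul_one]

omit hA in
lemma rescale_q : rescale (-1 : ℚ) q = qi := by
  rw [q, qi, rescale_rescale]
  norm_num

omit hA in
lemma rescale_qi : rescale (-1 : ℚ) qi = q := by
  rw [q, qi, rescale_rescale]
  norm_num

omit hA in
lemma rescale_smul' (r s : ℚ) (T : ℚ⟦X⟧) : rescale r (s • T) = s • rescale r T := by
  ext n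
  rw [coeff_rescale, coeff_smul, coeff_smul, coeff_rescale, smul_eq_mul, smul_eq_mul]
  ring

omit hA in
lemma rescale_cc : rescale (-1 : ℚ) (cc (A : ℚ)) = -cc (A : ℚ) := by
  rw [cc, rescale_smul', map_mul, rescale_X', rescale_S, neg_smul, one_smul, neg_mul, smul_neg]

omit hA in
lemma rescale_sg' : rescale (-1 : ℚ) (sg' (A : ℚ)) = -sg (A : ℚ) := by
  rw [sg', map_mul, rescale_qi, rescale_cc, sg, mul_neg]

lemma rescale_Pi : rescale (-1 : ℚ) (Pi' A) = Pi' A := by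
  have h1 := a_smul_cc (castA A hA)
  rw [Pi', map_prod, ← Finset.prod_range_reflect]
  apply Finset.prod_congr rfl
  intro j hj
  have hj' := Finset.mem_range.mp hj
  rw [map_add, rescale_qi, rescale_smul', rescale_cc]
  have e : ((A - 1 - j : ℕ) : ℚ) = (A : ℚ) - 1 - j := by
    rw [Nat.cast_sub (by omega), Nat.cast_sub (by omega)]
    push_cast
    ring
  have h2 : q = qi + (A : ℚ) • cc (A : ℚ) := by rw [h1]; ring
  rw [e]
  conv_lhs => rw [h2]
  rw [smul_neg, add_assoc, ← sub_eq_add_neg, ← sub_smul]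
  congr 2
  ring

omit hA in
lemma rescale_subst (r : ℚ) {τ : ℚ⟦X⟧} (hτ : constantCoeff τ = 0) (F : ℚ⟦X⟧) :
    rescale r (F.subst τ : ℚ⟦X⟧) = F.subst (rescale r τ) := by
  have hτ' : constantCoeff (rescale r τ) = 0 := by
    rw [← coeff_zero_eq_constantCoeff_apply, coeff_rescale, coeff_zero_eq_constantCoeff_apply, hτ,
      mul_zero]
  ext n
  rw [coeff_rescale, coeff_subst_range hτ, coeff_subst_range hτ', Finset.mul_sum]
  apply Finset.sum_congr rfl
  intro d _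
  rw [← map_pow, coeff_rescale]
  ring

omit hA in
lemma Ks_subst_neg {τ : ℚ⟦X⟧} (hτ : constantCoeff τ = 0) :
    (Ks.subst (-τ) : ℚ⟦X⟧) = -Ks.subst τ := by
  have hτ' : constantCoeff (-τ) = 0 := by rw [map_neg, hτ, neg_zero]
  ext n
  rw [map_neg, coeff_subst_range hτ, coeff_subst_range hτ', ← Finset.sum_neg_distrib]
  apply Finset.sum_congr rfl
  intro d _
  rcases Nat.even_or_odd d with h | h
  · rw [Ks, coeff_mk, kc_even d h]; ring
  · rw [h.neg_pow, map_neg, mul_neg]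

/-- The symmetry `z ↦ -z`. -/
lemma symm_coeff (g : ℕ) :
    coeff (2 * g) (S⁻¹ ^ (2 * g + 1) * ((Ks.subst (sg' (A : ℚ)) : ℚ⟦X⟧) * Pi' A)) =
      -coeff (2 * g) (S⁻¹ ^ (2 * g + 1) * ((Ks.subst (sg (A : ℚ)) : ℚ⟦X⟧) * Pi' A)) := by
  have h1 : rescale (-1 : ℚ) (S⁻¹ ^ (2 * g + 1) * ((Ks.subst (sg' (A : ℚ)) : ℚ⟦X⟧) * Pi' A)) =
      -(S⁻¹ ^ (2 * g + 1) * ((Ks.subst (sg (A : ℚ)) : ℚ⟦X⟧) * Pi' A)) := by
    rw [map_mul, map_mul, map_pow, rescale_S_inv, rescale_Pi A hA,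
      rescale_subst _ (constantCoeff_sg' _), rescale_sg', Ks_subst_neg (constantCoeff_sg _)]
    ring
  have h2 := congrArg (coeff (2 * g)) h1
  rw [coeff_rescale, map_neg, (even_two_mul g).neg_one_pow, one_mul] at h2
  exact h2

end

/-- Residues: the change of variables. -/
lemma residue_zero (n : ℕ) : coeff (n + 1) (PowerSeries.exp ℚ * (qi * S⁻¹) ^ (n + 2)) = 0 := by
  set φ : ℚ⟦X⟧ := q * S with hφ
  set ψ : ℚ⟦X⟧ := qi * S⁻¹ with hψ
  have h1 : φ * ψ = 1 := by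
    have : φ * ψ = (q * qi) * (S * S⁻¹) := by rw [hφ, hψ]; ring
    rw [this, q_mul_qi, S_mul_inv, one_mul]
  have h2 : PowerSeries.exp ℚ = φ + X * derivative ℚ φ := by
    have h3 : X * φ = PowerSeries.exp ℚ - 1 := by rw [exp_sub_one, hφ]; ring
    have h4 := congrArg (derivative ℚ) h3
    rw [Derivation.leibniz, derivative_X, map_sub, Derivation.map_one_eq_zero, sub_zero,
      derivative_exp, smul_eq_mul, smul_eq_mul, mul_one] at h4
    rw [← h4]; ring
  have h5 : derivative ℚ φ * ψ + φ * derivative ℚ ψ = 0 := by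
    have h6 := congrArg (derivative ℚ) h1
    rw [Derivation.leibniz, Derivation.map_one_eq_zero, smul_eq_mul, smul_eq_mul] at h6
    rw [← h6]; ring
  have h7 : ((n + 1 : ℕ) : ℚ) • (PowerSeries.exp ℚ * ψ ^ (n + 2)) =
      ((n + 1 : ℕ) : ℚ) • ψ ^ (n + 1) - X * derivative ℚ (ψ ^ (n + 1)) := by
    rw [derivative_pow, Algebra.smul_def, Algebra.smul_def, map_natCast, Nat.add_sub_cancel, h2]
    have h8 : ψ ^ (n + 2) = ψ ^ n * ψ * ψ := by ring
    have h9 : ψ ^ (n + 1) = ψ ^ n * ψ := by ring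
    rw [h8, h9]
    linear_combination (((n + 1 : ℕ) : ℚ⟦X⟧) * ψ ^ n * (ψ - X * derivative ℚ ψ)) * h1 +
      (((n + 1 : ℕ) : ℚ⟦X⟧) * ψ ^ n * ψ * X) * h5
  have h10 := congrArg (coeff (n + 1)) h7
  rw [coeff_smul, map_sub, coeff_smul, coeff_X_mul_derivative, smul_eq_mul, smul_eq_mul,
    sub_self] at h10
  have h11 : ((n + 1 : ℕ) : ℚ) ≠ 0 := by positivity
  exact (mul_eq_zero.mp h10).resolve_left h11

lemma residue (g : ℕ) (hg : g ≠ 0) (d : ℕ) (hd : d ≤ 2 * g) :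
    coeff (2 * g) (S⁻¹ ^ (2 * g + 1) * qi ^ (2 * g - 1) * sg ((2 * g - 1 : ℕ) : ℚ) ^ d) =
      if d = 2 * g then (1 / ((2 * g - 1 : ℕ) : ℚ)) ^ d else 0 := by
  obtain ⟨n, hn⟩ : ∃ n, 2 * g = n + d := ⟨2 * g - d, by omega⟩
  have h1 : S⁻¹ ^ (2 * g + 1) * qi ^ (2 * g - 1) * sg ((2 * g - 1 : ℕ) : ℚ) ^ d =
      (1 / ((2 * g - 1 : ℕ) : ℚ)) ^ d • (X ^ d * (S⁻¹ ^ (n + 1) * (qi ^ (2 * g - 1) * q ^ d))) := by
    have h2 := S_inv_pow_mul (n + 1) d
    have e : n + 1 + d = 2 * g + 1 := by omega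
    rw [e] at h2
    rw [sg, mul_pow, cc_pow, ← h2]
    simp only [mul_smul_comm]
    congr 1
    ring
  rw [h1, coeff_smul, coeff_X_pow_mul', if_pos hd, smul_eq_mul]
  have e2 : 2 * g - d = n := by omega
  rw [e2]
  rcases Nat.eq_zero_or_pos n with h0 | hpos
  · subst h0
    rw [if_pos (by omega)]
    have h3 : coeff 0 (S⁻¹ ^ (0 + 1) * (qi ^ (2 * g - 1) * q ^ d)) = 1 := by
      rw [coeff_zero_eq_constantCoeff_apply, map_mul, map_mul, map_pow, map_pow, map_pow,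
        constantCoeff_S_inv, constantCoeff_q]
      have : constantCoeff qi = 1 := by
        rw [← coeff_zero_eq_constantCoeff_apply, coeff_qi]; simp
      rw [this]
      simp
    rw [h3, mul_one]
  · obtain ⟨m, rfl⟩ : ∃ m, n = m + 1 := ⟨n - 1, by omega⟩
    rw [if_neg (by omega)]
    have h4 : S⁻¹ ^ (m + 1 + 1) * (qi ^ (2 * g - 1) * q ^ d) =
        PowerSeries.exp ℚ * (qi * S⁻¹) ^ (m + 2) := by
      have e3 : 2 * g - 1 = m + d := by omega
      rw [e3, mul_pow, ← q_mul_q]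
      have h5 : q * q * (qi ^ (m + 2) * S⁻¹ ^ (m + 2)) =
          (q * qi) ^ 2 * qi ^ m * S⁻¹ ^ (m + 2) := by ring
      have h6 : S⁻¹ ^ (m + 1 + 1) * (qi ^ (m + d) * q ^ d) =
          (q * qi) ^ d * qi ^ m * S⁻¹ ^ (m + 2) := by ring
      rw [h5, h6, q_mul_qi, one_pow, one_pow]
    rw [h4, residue_zero, mul_zero]

/-- The polynomial `∏ (1 + (j + 1/2) X)` as a power series. -/
noncomputable def Pp (A : ℕ) : ℚ⟦X⟧ := ∏ j ∈ Finset.range A, (1 + ((j : ℚ) + 1 / 2) • X)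

/-- The Euler characteristic as one coefficient. -/
theorem chi_eq_coeff (g : ℕ) (hg : g ≠ 0) :
    chi g = 2 / ((2 * g - 1 : ℕ) : ℚ) ^ 2 * coeff (2 * g) (Ks * Pp (2 * g - 1)) := by
  have hA : 2 * g - 1 ≠ 0 := by omega
  rw [chi_eq g hg, sum_extr (2 * g - 1) g hg hA, ev_theta (2 * g - 1) hA]
  set A := 2 * g - 1 with hAdef
  have hA' : (A : ℚ) ≠ 0 := by exact_mod_cast hA
  have h1 : w ^ A * S⁻¹ ^ (2 * g + 1) * ((Ks.subst (sg' (A : ℚ)) - Ks.subst (sg (A : ℚ)) : ℚ⟦X⟧) *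
      Vs A) = S⁻¹ ^ (2 * g + 1) * ((Ks.subst (sg' (A : ℚ)) : ℚ⟦X⟧) * Pi' A) -
      S⁻¹ ^ (2 * g + 1) * ((Ks.subst (sg (A : ℚ)) : ℚ⟦X⟧) * Pi' A) := by
    rw [← w_mul_Vs A hA]; ring
  have h2 : coeff (2 * g) (S⁻¹ ^ (2 * g + 1) * ((Ks.subst (sg (A : ℚ)) : ℚ⟦X⟧) * Pi' A)) =
      (1 / (A : ℚ)) ^ (2 * g) * coeff (2 * g) (Ks * Pp A) := by
    have hs : HasSubst (sg (A : ℚ)) := HasSubst.of_constantCoeff_zero' (constantCoeff_sg _)
    have h3 : (Ks * Pp A).subst (sg (A : ℚ)) = (Ks.subst (sg (A : ℚ)) : ℚ⟦X⟧) *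
        ∏ j ∈ Finset.range A, (1 + ((j : ℚ) + 1 / 2) • sg (A : ℚ)) := by
      rw [subst_mul hs]
      congr 1
      rw [Pp, ← coe_substAlgHom hs, map_prod]
      apply Finset.prod_congr rfl
      intro j _
      rw [map_add, map_one, map_smul, coe_substAlgHom hs, subst_X hs]
    have h4 : S⁻¹ ^ (2 * g + 1) * ((Ks.subst (sg (A : ℚ)) : ℚ⟦X⟧) * Pi' A) =
        S⁻¹ ^ (2 * g + 1) * qi ^ A * (Ks * Pp A).subst (sg (A : ℚ)) := by
      rw [h3, ← w_mul_Vs A hA, w_mul_Vs' A hA]; ring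
    rw [h4, coeff_mul_subst (constantCoeff_sg _), Finset.sum_range_succ]
    rw [Finset.sum_eq_zero, zero_add]
    · rw [hAdef, residue g hg (2 * g) le_rfl, if_pos rfl, mul_comm]
    · intro d hd
      have := Finset.mem_range.mp hd
      rw [hAdef, residue g hg d (by omega), if_neg (by omega), mul_zero]
  have h5 : (A : ℚ) ^ (2 * g) * (1 / (A : ℚ)) ^ (2 * g) = 1 := by
    rw [← mul_pow, mul_one_div_cancel hA', one_pow]
  rw [h1, map_sub, symm_coeff A hA g, h2]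
  linear_combination (2 / (A : ℚ) ^ 2 * coeff (2 * g) (Ks * Pp A)) * h5

end Pool.Agent.H74.Strata
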