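import Pool.Agent.H74.EulZa

/-!
# The pairing of polynomials with power series, and the final formula
-/

namespace Pool.Agent.H74.Strata

open PowerSeries
open scoped Polynomial

/-- The pairing `⟨X^n, k⟩ = n! k_n`. -/
noncomputable def pr (k : ℚ⟦X⟧) : ℚ[X] →ₗ[ℚ] ℚ :=
  Polynomial.lsum fun n => ((n.factorial : ℚ) * coeff n k) • LinearMap.id

lemma pr_monomial (k : ℚ⟦X⟧) (n : ℕ) (c : ℚ) :
    pr k (Polynomial.monomial n c) = n.factorial * coeff n k * c := by
  rw [pr, Polynomial.lsum_apply, Polynomial.sum_monomial_index]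
  · simp
  · simp

lemma pr_ext (k l : ℚ⟦X⟧) (φ : ℚ[X] →ₗ[ℚ] ℚ[X]) (h : ∀ n, pr k (φ (Polynomial.X ^ n)) =
    pr l (Polynomial.X ^ n)) (Q : ℚ[X]) : pr k (φ Q) = pr l Q := by
  induction Q using Polynomial.induction_on' with
  | add p q hp hq => rw [map_add, map_add, map_add, hp, hq]
  | monomial n c =>
    have : Polynomial.monomial n c = c • (Polynomial.X ^ n : ℚ[X]) := by
      rw [← Polynomial.C_mul_X_pow_eq_monomial, Polynomial.smul_eq_C_mul]
    rw [this, map_smul, map_smul, map_smul, h]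

lemma pr_X_mul (k : ℚ⟦X⟧) (Q : ℚ[X]) :
    pr k (Polynomial.X * Q) = pr (derivative ℚ k) Q := by
  induction Q using Polynomial.induction_on' with
  | add p q hp hq => rw [mul_add, map_add, map_add, hp, hq]
  | monomial n c =>
    rw [Polynomial.X_mul_monomial, pr_monomial, pr_monomial, coeff_derivative,
      Nat.factorial_succ]
    push_cast
    ring

lemma pr_add_left (k l : ℚ⟦X⟧) (Q : ℚ[X]) : pr (k + l) Q = pr k Q + pr l Q := by
  induction Q using Polynomial.induction_on' with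
  | add p q hp hq => rw [map_add, map_add, map_add, hp, hq]; ring
  | monomial n c => rw [pr_monomial, pr_monomial, pr_monomial, map_add]; ring

lemma pr_smul_left (r : ℚ) (k : ℚ⟦X⟧) (Q : ℚ[X]) : pr (r • k) Q = r * pr k Q := by
  induction Q using Polynomial.induction_on' with
  | add p q hp hq => rw [map_add, map_add, hp, hq]; ring
  | monomial n c => rw [pr_monomial, pr_monomial, coeff_smul, smul_eq_mul]; ring

lemma pr_sub_left (k l : ℚ⟦X⟧) (Q : ℚ[X]) : pr (k - l) Q = pr k Q - pr l Q := by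
  have h := pr_add_left k ((-1 : ℚ) • l) Q
  rw [pr_smul_left] at h
  have e : k - l = k + (-1 : ℚ) • l := by rw [neg_smul, one_smul, sub_eq_add_neg]
  rw [e, h]
  ring

/-- Shifting the polynomial amounts to multiplication with the exponential series. -/
lemma pr_shift_pow (n : ℕ) : ∀ k : ℚ⟦X⟧, pr k ((Polynomial.X + 1) ^ n) =
    pr (PowerSeries.exp ℚ * k) (Polynomial.X ^ n) := by
  induction n with
  | zero =>
    intro k
    have : (1 : ℚ[X]) = Polynomial.monomial 0 1 := rfl
    rw [pow_zero, pow_zero, this, pr_monomial, pr_monomial, coeff_zero_eq_constantCoeff_apply,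
      coeff_zero_eq_constantCoeff_apply, map_mul, constantCoeff_exp, one_mul]
  | succ n ih =>
    intro k
    rw [pow_succ', add_mul, one_mul, map_add, pr_X_mul, ih, ih, ← pr_add_left, pow_succ', pr_X_mul,
      Derivation.leibniz, derivative_exp, smul_eq_mul, smul_eq_mul]
    congr 2
    ring

lemma pr_shift (k : ℚ⟦X⟧) (Q : ℚ[X]) :
    pr k (Q.comp (Polynomial.X + 1)) = pr (PowerSeries.exp ℚ * k) Q := by
  induction Q using Polynomial.induction_on' with
  | add p q hp hq => rw [Polynomial.add_comp, map_add, map_add, hp, hq]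
  | monomial n c =>
    have : Polynomial.monomial n c = c • (Polynomial.X ^ n : ℚ[X]) := by
      rw [← Polynomial.C_mul_X_pow_eq_monomial, Polynomial.smul_eq_C_mul]
    rw [this, Polynomial.smul_comp, Polynomial.X_pow_comp, map_smul, map_smul, pr_shift_pow]

/-- The forward difference. -/
noncomputable def fd (Q : ℚ[X]) : ℚ[X] := Q.comp (Polynomial.X + 1) - Q

lemma pr_fd (k : ℚ⟦X⟧) (Q : ℚ[X]) :
    pr k (fd Q) = pr ((PowerSeries.exp ℚ - 1) * k) Q := by
  rw [fd, map_sub, pr_shift, ← pr_sub_left]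
  congr 2
  ring

lemma pr_exp (t : ℚ) (Q : ℚ[X]) : pr (rescale t (PowerSeries.exp ℚ)) Q = Q.eval t := by
  induction Q using Polynomial.induction_on' with
  | add p q hp hq => rw [map_add, Polynomial.eval_add, hp, hq]
  | monomial n c =>
    rw [pr_monomial, coeff_rescale, coeff_exp, Polynomial.eval_monomial]
    simp only [Algebra.algebraMap_self, RingHom.id_apply]
    have : (n.factorial : ℚ) ≠ 0 := by positivity
    field_simp

/-- `∏_{j < n} (X + r + j)`. -/
noncomputable def rp (r : ℚ) (n : ℕ) : ℚ[X] :=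
  ∏ j ∈ Finset.range n, (Polynomial.X + Polynomial.C (r + j))

lemma rp_comp (r : ℚ) (n : ℕ) : (rp r n).comp (Polynomial.X + 1) = rp (r + 1) n := by
  rw [rp, Polynomial.prod_comp, rp]
  apply Finset.prod_congr rfl
  intro j _
  rw [Polynomial.add_comp, Polynomial.X_comp, Polynomial.C_comp]
  have : Polynomial.C (r + 1 + j) = 1 + Polynomial.C (r + j) := by
    rw [← Polynomial.C_1, ← Polynomial.C_add]
    congr 1
    ring
  rw [this]
  ring

lemma fd_rp (r : ℚ) (n : ℕ) : fd (rp r (n + 1)) = ((n + 1 : ℕ) : ℚ) • rp (r + 1) n := by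
  rw [fd, rp_comp]
  have h1 : rp (r + 1) (n + 1) = rp (r + 1) n * (Polynomial.X + Polynomial.C (r + 1 + n)) := by
    rw [rp, Finset.prod_range_succ, ← rp]
  have h2 : rp r (n + 1) = rp (r + 1) n * (Polynomial.X + Polynomial.C r) := by
    rw [rp, Finset.prod_range_succ', Nat.cast_zero, add_zero, rp]
    congr 1
    apply Finset.prod_congr rfl
    intro j _
    congr 2
    push_cast
    ring
  rw [h1, h2, ← mul_sub]
  have h3 : Polynomial.X + Polynomial.C (r + 1 + n) - (Polynomial.X + Polynomial.C r) =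
      Polynomial.C ((n + 1 : ℕ) : ℚ) := by
    rw [add_sub_add_left_eq_sub, ← Polynomial.C_sub]
    congr 1
    push_cast
    ring
  rw [h3, Polynomial.smul_eq_C_mul, mul_comm]

/-- The series `k = B'/s`, `B = 1/S`. -/
noncomputable def k0 : ℚ⟦X⟧ := mk fun n => (n + 2) * coeff (n + 2) S⁻¹

/-- The formal Laplace transform. -/
noncomputable def lap (k : ℚ⟦X⟧) : ℚ⟦X⟧ := mk fun n => match n with
  | 0 => 0
  | n + 1 => n.factorial * coeff n k

lemma coeff_lap_zero (k : ℚ⟦X⟧) : coeff 0 (lap k) = 0 := by rw [lap, coeff_mk]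

lemma coeff_lap_succ (k : ℚ⟦X⟧) (n : ℕ) : coeff (n + 1) (lap k) = n.factorial * coeff n k := by
  rw [lap, coeff_mk]

lemma lap_k0 : lap k0 = Ks := by
  ext n
  cases n with
  | zero =>
    rw [coeff_lap_zero, Ks, coeff_mk, kc, gc_even 0 (by simp), mul_zero]
  | succ n =>
    rw [coeff_lap_succ, Ks, coeff_mk, kc, gc, k0, coeff_mk, Nat.add_sub_cancel]
    push_cast
    ring

lemma lap_eq (k : ℚ⟦X⟧) :
    lap k = X * (C (constantCoeff k) + lap (derivative ℚ k)) := by
  ext n
  cases n with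
  | zero => rw [coeff_zero_X_mul, coeff_lap_zero]
  | succ n =>
    rw [coeff_succ_X_mul, coeff_lap_succ, map_add, coeff_C]
    cases n with
    | zero =>
      rw [coeff_lap_zero]
      simp
    | succ n =>
      rw [coeff_lap_succ, if_neg (by omega), zero_add, coeff_derivative, Nat.factorial_succ]
      push_cast
      ring

lemma Pp_succ (A : ℕ) : Pp (A + 1) = Pp A * (1 + ((A : ℚ) + 1 / 2) • X) := by
  rw [Pp, Finset.prod_range_succ, ← Pp]

lemma coeff_Pp (A : ℕ) : ∀ n, A < n → coeff n (Pp A) = 0 := by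
  induction A with
  | zero =>
    intro n hn
    rw [Pp, Finset.prod_range_zero, coeff_one, if_neg (by omega)]
  | succ A ih =>
    intro n hn
    obtain ⟨m, rfl⟩ : ∃ m, n = m + 1 := ⟨n - 1, by omega⟩
    rw [Pp_succ, mul_add, mul_one, map_add, ih _ (by omega), mul_smul_comm, coeff_smul,
      coeff_succ_mul_X, ih m (by omega), smul_zero, add_zero]

/-- The coefficient as a pairing. -/
lemma coeff_lap (A : ℕ) : ∀ k : ℚ⟦X⟧, coeff (A + 1) (lap k * Pp A) = pr k (rp (1 / 2) A) := by
  induction A with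
  | zero =>
    intro k
    rw [Pp, Finset.prod_range_zero, mul_one, rp, Finset.prod_range_zero]
    have : (1 : ℚ[X]) = Polynomial.monomial 0 1 := rfl
    rw [this, pr_monomial, coeff_lap_succ]
    simp
  | succ A ih =>
    intro k
    have h1 : coeff (A + 2) (lap k * Pp A) = coeff (A + 1) (lap (derivative ℚ k) * Pp A) := by
      rw [lap_eq k, mul_assoc, coeff_succ_X_mul, add_mul, map_add, coeff_C_mul,
        coeff_Pp A (A + 1) (by omega), mul_zero, zero_add]
    have h2 : rp (1 / 2) (A + 1) = rp (1 / 2) A * (Polynomial.X + Polynomial.C (1 / 2 + (A : ℚ))) := by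
      rw [rp, Finset.prod_range_succ, ← rp]
    rw [Pp_succ, mul_add, mul_one, mul_add, map_add, h1, ih, h2, mul_add, map_add, mul_comm _
      Polynomial.X, pr_X_mul, mul_smul_comm, mul_smul_comm, coeff_smul, ← mul_assoc,
      coeff_succ_mul_X, ih, mul_comm _ (Polynomial.C _), ← Polynomial.smul_eq_C_mul, map_smul]
    congr 2
    ring

/-- The formula `(e^s - 1)² k = (e^(3s/2) - e^(s/2))/s - (e^(3s/2) + e^(s/2))/2`. -/
noncomputable def d0 : ℚ⟦X⟧ :=
  mk fun n => ((3 / 2 : ℚ) ^ (n + 1) - (1 / 2) ^ (n + 1)) / (n + 1).factorial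

lemma X_mul_d0 : X * d0 = rescale (3 / 2 : ℚ) (PowerSeries.exp ℚ) - q := by
  ext n
  rw [map_sub, coeff_rescale, q, coeff_rescale, coeff_exp]
  simp only [Algebra.algebraMap_self, RingHom.id_apply]
  cases n with
  | zero => simp
  | succ n =>
    rw [coeff_succ_X_mul, d0, coeff_mk]
    ring

lemma X_mul_k0 : X * k0 = derivative ℚ S⁻¹ := by
  ext n
  cases n with
  | zero =>
    rw [coeff_zero_X_mul, coeff_derivative]
    rw [show (0 : ℕ) + 1 = 1 from rfl, coeff_one_S_inv, zero_mul]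
  | succ n =>
    rw [coeff_succ_X_mul, k0, coeff_mk, coeff_derivative]
    push_cast
    ring

lemma sq_mul_k0 : (PowerSeries.exp ℚ - 1) * ((PowerSeries.exp ℚ - 1) * k0) =
    d0 - (1 / 2 : ℚ) • (rescale (3 / 2 : ℚ) (PowerSeries.exp ℚ) + q) := by
  have hX : (X : ℚ⟦X⟧) ≠ 0 := X_ne_zero
  apply mul_left_cancel₀ hX
  set e := PowerSeries.exp ℚ with he
  have h3 : rescale (3 / 2 : ℚ) (PowerSeries.exp ℚ) = e * q := by
    rw [he, q]
    have := exp_mul_exp_eq_exp_add (A := ℚ) 1 (1 / 2)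
    rw [rescale_one, RingHom.id_apply] at this
    rw [this]
    norm_num
  -- the equation for `B = S⁻¹`
  have hB : (e - 1) * S⁻¹ = q * X := by
    rw [he, exp_sub_one]
    linear_combination (q * X) * S_mul_inv
  have hB' : e * S⁻¹ + (e - 1) * derivative ℚ S⁻¹ = q + X * ((1 / 2 : ℚ) • q) := by
    have h := congrArg (derivative ℚ) hB
    rw [Derivation.leibniz, Derivation.leibniz, map_sub, Derivation.map_one_eq_zero, sub_zero,
      derivative_exp, derivative_X, derivative_q, smul_eq_mul, smul_eq_mul, smul_eq_mul,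
      smul_eq_mul, mul_one] at h
    linear_combination h
  have h4 : (1 / 2 : ℚ) • q = C (1 / 2 : ℚ) * q := by rw [smul_eq_C_mul]
  have h5 : (1 / 2 : ℚ) • (e * q + q) = C (1 / 2 : ℚ) * (e * q + q) := by rw [smul_eq_C_mul]
  have h6 : (C (1 / 2 : ℚ) : ℚ⟦X⟧) * 2 = 1 := by
    have : (2 : ℚ⟦X⟧) = C (2 : ℚ) := (map_ofNat C 2).symm
    rw [this, ← map_mul]
    norm_num
  have h7 : X * ((e - 1) * ((e - 1) * k0)) = (e - 1) * ((e - 1) * derivative ℚ S⁻¹) := by
    rw [← X_mul_k0]; ring
  rw [h7, mul_sub, X_mul_d0, h3, h5]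
  rw [h4] at hB'
  linear_combination (e - 1) * hB' - e * hB + (X * q * e) * h6

/-- The functional of integration from `1/2` to `3/2`. -/
lemma pr_d0 (Q : ℚ[X]) : ((pr d0 Q : ℚ) : ℝ) =
    ∫ t in (1 / 2 : ℝ)..(3 / 2), (Q.map (algebraMap ℚ ℝ)).eval t := by
  induction Q using Polynomial.induction_on' with
  | add p q hp hq =>
    simp only [map_add, Polynomial.map_add, Polynomial.eval_add]
    rw [intervalIntegral.integral_add]
    · push_cast
      rw [hp, hq]
    · exact (Polynomial.continuous _).intervalIntegrable _ _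
    · exact (Polynomial.continuous _).intervalIntegrable _ _
  | monomial n c =>
    rw [pr_monomial, d0, coeff_mk]
    simp only [Polynomial.map_monomial, Polynomial.eval_monomial, eq_ratCast]
    rw [intervalIntegral.integral_const_mul, integral_pow]
    have h1 : (n.factorial : ℝ) ≠ 0 := by positivity
    have h2 : (n : ℝ) + 1 ≠ 0 := by positivity
    rw [Nat.factorial_succ]
    push_cast
    field_simp

/-- The final formula. -/
theorem coeff_eq_integral (A : ℕ) : ((coeff (A + 1) (Ks * Pp A) : ℚ) : ℝ) =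
    -(1 / ((A + 1) * (A + 2))) * ∫ x in (0 : ℝ)..1, x * (1 - x) * ∏ j ∈ Finset.range A, (x + (j + 1)) := by
  have h1 : fd (fd (rp (-(3 / 2)) (A + 2))) = (((A + 1 : ℕ) : ℚ) * ((A + 2 : ℕ) : ℚ)) •
      rp (1 / 2) A := by
    rw [fd_rp (-(3 / 2)) (A + 1)]
    have h2 : fd (((A + 1 + 1 : ℕ) : ℚ) • rp (-(3 / 2) + 1) (A + 1)) =
        ((A + 1 + 1 : ℕ) : ℚ) • fd (rp (-(3 / 2) + 1) (A + 1)) := by
      rw [fd, fd, Polynomial.smul_comp, smul_sub]
    rw [h2, fd_rp, smul_smul]
    congr 1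
    · push_cast; ring
    · norm_num
  have h3 : pr k0 (rp (1 / 2) A) * (((A + 1 : ℕ) : ℚ) * ((A + 2 : ℕ) : ℚ)) =
      pr d0 (rp (-(3 / 2)) (A + 2)) := by
    have h4 := congrArg (pr k0) h1
    rw [pr_fd, pr_fd, map_smul, smul_eq_mul] at h4
    rw [mul_comm, ← h4]
    have h5 : (PowerSeries.exp ℚ - 1) * ((PowerSeries.exp ℚ - 1) * k0) =
        d0 - (1 / 2 : ℚ) • (rescale (3 / 2 : ℚ) (PowerSeries.exp ℚ) +
          rescale (1 / 2 : ℚ) (PowerSeries.exp ℚ)) := sq_mul_k0
    rw [h5, pr_sub_left, pr_smul_left, pr_add_left, pr_exp, pr_exp]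
    have h6 : (rp (-(3 / 2)) (A + 2)).eval (3 / 2 : ℚ) = 0 := by
      rw [rp, Polynomial.eval_prod]
      apply Finset.prod_eq_zero (i := 0) (Finset.mem_range.mpr (by omega))
      simp
    have h7 : (rp (-(3 / 2)) (A + 2)).eval (1 / 2 : ℚ) = 0 := by
      rw [rp, Polynomial.eval_prod]
      apply Finset.prod_eq_zero (i := 1) (Finset.mem_range.mpr (by omega))
      simp
      norm_num
    rw [h6, h7]
    ring
  have h8 : ∫ t in (1 / 2 : ℝ)..(3 / 2), ((rp (-(3 / 2)) (A + 2)).map (algebraMap ℚ ℝ)).eval t =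
      -∫ x in (0 : ℝ)..1, x * (1 - x) * ∏ j ∈ Finset.range A, (x + (j + 1)) := by
    have h9 : ∀ x : ℝ, ((rp (-(3 / 2)) (A + 2)).map (algebraMap ℚ ℝ)).eval (x + 1 / 2) =
        -(x * (1 - x) * ∏ j ∈ Finset.range A, (x + (j + 1))) := by
      intro x
      rw [rp, Polynomial.map_prod, Polynomial.eval_prod, Finset.prod_range_succ',
        Finset.prod_range_succ']
      simp only [Polynomial.map_add, Polynomial.map_X, Polynomial.map_C, Polynomial.eval_add,
        Polynomial.eval_X, Polynomial.eval_C, eq_ratCast]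
      have h10 : ∀ j ∈ Finset.range A, x + 1 / 2 + (((-(3 / 2) + ((j + 1 + 1 : ℕ) : ℚ) : ℚ)) : ℝ) =
          x + (j + 1) := by
        intro j _
        push_cast
        ring
      rw [Finset.prod_congr rfl h10]
      push_cast
      ring
    have h11 := intervalIntegral.integral_comp_add_right
      (a := (0 : ℝ)) (b := 1) (fun t : ℝ => ((rp (-(3 / 2)) (A + 2)).map (algebraMap ℚ ℝ)).eval t)
      (1 / 2)
    have e1 : (0 : ℝ) + 1 / 2 = 1 / 2 := by norm_num
    have e2 : (1 : ℝ) + 1 / 2 = 3 / 2 := by norm_num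
    rw [e1, e2] at h11
    rw [← h11, ← intervalIntegral.integral_neg]
    congr 1
    funext x
    exact h9 x
  have h12 : ((pr k0 (rp (1 / 2) A) : ℚ) : ℝ) * ((A + 1) * (A + 2)) =
      -∫ x in (0 : ℝ)..1, x * (1 - x) * ∏ j ∈ Finset.range A, (x + (j + 1)) := by
    rw [← h8, ← pr_d0, ← h3]
    push_cast
    ring
  rw [← lap_k0, coeff_lap]
  have h13 : ((A : ℝ) + 1) * (A + 2) ≠ 0 := by positivity
  field_simp
  rw [← h12]
  ring

end Pool.Agent.H74.Strata
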