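import Pool.Agent.H74.EulZb

/-!
# Gregory coefficients, sign and growth
-/

namespace Pool.Agent.H74.Strata

open PowerSeries
open scoped Polynomial
open Finset.HasAntidiagonal (antidiagonal mem_antidiagonal)

lemma rp_succ (r : ℚ) (n : ℕ) :
    rp r (n + 1) = rp r n * (Polynomial.X + Polynomial.C (r + n)) := by
  rw [rp, Finset.prod_range_succ, ← rp]

/-- The derivative of a rising factorial. -/
lemma derivative_rp (r : ℚ) (n : ℕ) : Polynomial.derivative (rp r n) =
    ∑ i ∈ Finset.range n, ((n.factorial : ℚ) / ((n - i) * i.factorial)) • rp r i := by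
  induction n with
  | zero => simp [rp]
  | succ n ih =>
    have h1 : Polynomial.derivative (rp r (n + 1)) =
        Polynomial.derivative (rp r n) * (Polynomial.X + Polynomial.C (r + n)) + rp r n := by
      rw [rp_succ, Polynomial.derivative_mul, Polynomial.derivative_add, Polynomial.derivative_X,
        Polynomial.derivative_C, add_zero, mul_one]
    have h2 : ∀ i ∈ Finset.range n, ((n.factorial : ℚ) / ((n - i) * i.factorial)) • rp r i *
        (Polynomial.X + Polynomial.C (r + n)) =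
        ((n.factorial : ℚ) / ((n - i) * i.factorial)) • rp r (i + 1) +
        ((n.factorial : ℚ) / i.factorial) • rp r i := by
      intro i hi
      have hi' := Finset.mem_range.mp hi
      have h3 : Polynomial.X + Polynomial.C (r + n) =
          (Polynomial.X + Polynomial.C (r + i)) + Polynomial.C ((n : ℚ) - i) := by
        rw [add_assoc, ← Polynomial.C_add]
        congr 2
        ring
      have h4 : (n : ℚ) - i ≠ 0 := by
        have : (i : ℚ) < n := by exact_mod_cast hi'
        linarith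
      rw [h3, mul_add, smul_mul_assoc, ← rp_succ, smul_mul_assoc, mul_comm (rp r i),
        ← Polynomial.smul_eq_C_mul, smul_smul]
      congr 2
      have h5 : (i.factorial : ℚ) ≠ 0 := by positivity
      field_simp
    rw [h1, ih, Finset.sum_mul, Finset.sum_congr rfl h2, Finset.sum_add_distrib]
    -- reorganise
    have h6 : ∑ i ∈ Finset.range n, ((n.factorial : ℚ) / ((n - i) * i.factorial)) • rp r (i + 1) =
        ∑ i ∈ Finset.range (n + 1), ((n.factorial : ℚ) * i / ((n + 1 - i) * i.factorial)) •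
          rp r i := by
      rw [Finset.sum_range_succ' (fun i => ((n.factorial : ℚ) * i /
        ((n + 1 - i) * i.factorial)) • rp r i) n]
      rw [Nat.cast_zero, mul_zero, zero_div, zero_smul, add_zero]
      apply Finset.sum_congr rfl
      intro i hi
      have hi' := Finset.mem_range.mp hi
      have h4 : (n : ℚ) - i ≠ 0 := by
        have : (i : ℚ) < n := by exact_mod_cast hi'
        linarith
      congr 1
      rw [Nat.factorial_succ]
      have h5 : (i.factorial : ℚ) ≠ 0 := by positivity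
      have h7 : (i : ℚ) + 1 ≠ 0 := by positivity
      push_cast
      have h8 : (n : ℚ) + 1 - (i + 1) = n - i := by ring
      rw [h8]
      field_simp
    have h9 : (∑ i ∈ Finset.range n, ((n.factorial : ℚ) / i.factorial) • rp r i) + rp r n =
        ∑ i ∈ Finset.range (n + 1), ((n.factorial : ℚ) / i.factorial) • rp r i := by
      rw [Finset.sum_range_succ]
      have : (n.factorial : ℚ) ≠ 0 := by positivity
      rw [div_self this, one_smul]
    rw [h6, add_assoc, h9, ← Finset.sum_add_distrib]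
    apply Finset.sum_congr rfl
    intro i hi
    have hi' := Finset.mem_range.mp hi
    have h4 : (n : ℚ) + 1 - i ≠ 0 := by
      have : (i : ℚ) < n + 1 := by exact_mod_cast hi'
      linarith
    rw [← add_smul]
    congr 1
    rw [Nat.factorial_succ]
    have h5 : (i.factorial : ℚ) ≠ 0 := by positivity
    push_cast
    field_simp
    ring

lemma pr_derivative (k : ℚ⟦X⟧) (Q : ℚ[X]) :
    pr k (Polynomial.derivative Q) = pr (X * k) Q := by
  induction Q using Polynomial.induction_on' with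
  | add p q hp hq => rw [Polynomial.derivative_add, map_add, map_add, hp, hq]
  | monomial n c =>
    rw [Polynomial.derivative_monomial, pr_monomial, pr_monomial]
    cases n with
    | zero => simp
    | succ n =>
      rw [Nat.add_sub_cancel, coeff_succ_X_mul, Nat.factorial_succ]
      push_cast
      ring

/-- The numbers `∫ (t - 3/2)_n dt`. -/
noncomputable def gn (n : ℕ) : ℚ := pr d0 (rp (-(3 / 2)) n)

lemma sum_gn (n : ℕ) : ∑ i ∈ Finset.range (n + 1),
    (((n + 1).factorial : ℚ) / ((n + 1 - i) * i.factorial)) * gn i = if n = 0 then 1 else 0 := by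
  have h1 := congrArg (pr d0) (derivative_rp (-(3 / 2)) (n + 1))
  rw [pr_derivative, map_sum, X_mul_d0, pr_sub_left] at h1
  have h2 : pr q (rp (-(3 / 2)) (n + 1)) = (rp (-(3 / 2)) (n + 1)).eval (1 / 2) := pr_exp _ _
  rw [pr_exp, h2] at h1
  have h6 : (rp (-(3 / 2)) (n + 1)).eval (3 / 2 : ℚ) = 0 := by
    rw [rp, Polynomial.eval_prod]
    apply Finset.prod_eq_zero (i := 0) (Finset.mem_range.mpr (by omega))
    simp
  have h7 : (rp (-(3 / 2)) (n + 1)).eval (1 / 2 : ℚ) = if n = 0 then -1 else 0 := by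
    by_cases h : n = 0
    · subst h
      rw [if_pos rfl, rp, Finset.prod_range_one]
      simp
      norm_num
    · rw [if_neg h, rp, Polynomial.eval_prod]
      apply Finset.prod_eq_zero (i := 1) (Finset.mem_range.mpr (by omega))
      simp
      norm_num
  rw [h6, h7] at h1
  have h8 : (if n = 0 then (1 : ℚ) else 0) = 0 - (if n = 0 then -1 else 0) := by
    split_ifs <;> norm_num
  rw [h8, h1]
  apply Finset.sum_congr rfl
  intro i _
  rw [map_smul, smul_eq_mul, gn]
  push_cast
  rfl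

/-- The series `log (1 + X) / X`. -/
noncomputable def lser : ℚ⟦X⟧ := mk fun n => (-1) ^ n / (n + 1)

lemma lser_inv : lser⁻¹ = mk fun n => (-1) ^ n * gn n / n.factorial := by
  rw [PowerSeries.inv_eq_iff_mul_eq_one (by
    rw [← coeff_zero_eq_constantCoeff_apply, lser, coeff_mk]; simp)]
  ext n
  rw [mul_comm, coeff_mul, Finset.Nat.sum_antidiagonal_eq_sum_range_succ_mk, coeff_one]
  have h1 := sum_gn n
  rw [← Finset.sum_range_reflect]
  have h2 : ∀ i ∈ Finset.range (n + 1), coeff (n + 1 - 1 - i) lser *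
      coeff (n - (n + 1 - 1 - i)) (mk fun n => (-1) ^ n * gn n / n.factorial : ℚ⟦X⟧) =
      (-1) ^ n / (n + 1).factorial * ((((n + 1).factorial : ℚ) / ((n + 1 - i) * i.factorial)) *
        gn i) := by
    intro i hi
    have hi' := Finset.mem_range.mp hi
    have e1 : n + 1 - 1 - i = n - i := by omega
    have e2 : n - (n - i) = i := by omega
    rw [e1, e2, lser, coeff_mk, coeff_mk]
    have h3 : ((n - i : ℕ) : ℚ) = n - i := by rw [Nat.cast_sub (by omega)]
    have h4 : (-1 : ℚ) ^ n = (-1) ^ (n - i) * (-1) ^ i := by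
      rw [← pow_add]; congr 1; omega
    have h5 : (n : ℚ) + 1 - i ≠ 0 := by
      have : (i : ℚ) < n + 1 := by exact_mod_cast hi'
      linarith
    have h6 : (n : ℚ) - i + 1 ≠ 0 := by
      intro h; apply h5; rw [← h]; ring
    have h7 : ((n + 1).factorial : ℚ) ≠ 0 := by positivity
    have h8 : (i.factorial : ℚ) ≠ 0 := by positivity
    have h9 : (n : ℚ) + 1 - i = n - i + 1 := by ring
    rw [h3, h4, h9]
    field_simp
  rw [Finset.sum_congr rfl h2, ← Finset.mul_sum, h1]
  split_ifs with h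
  · subst h; simp
  · simp

lemma pr_k0 (A : ℕ) : pr k0 (rp (1 / 2) A) * (((A + 1 : ℕ) : ℚ) * ((A + 2 : ℕ) : ℚ)) =
    gn (A + 2) := by
  have h1 : fd (fd (rp (-(3 / 2)) (A + 2))) = (((A + 1 : ℕ) : ℚ) * ((A + 2 : ℕ) : ℚ)) •
      rp (1 / 2) A := by
    rw [fd_rp (-(3 / 2)) (A + 1)]
    have h2 : fd (((A + 1 + 1 : ℕ) : ℚ) • rp (-(3 / 2) + 1) (A + 1)) =
        ((A + 1 + 1 : ℕ) : ℚ) • fd (rp (-(3 / 2) + 1) (A + 1)) := by
      rw [fd, fd, Polynomial.smul_comp, smul_sub]
    rw [h2, fd_rp, smul_smul]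
    congr 1
    · push_cast; ring
    · norm_num
  have h4 := congrArg (pr k0) h1
  rw [pr_fd, pr_fd, map_smul, smul_eq_mul] at h4
  rw [mul_comm, ← h4]
  have h5 : (PowerSeries.exp ℚ - 1) * ((PowerSeries.exp ℚ - 1) * k0) =
      d0 - (1 / 2 : ℚ) • (rescale (3 / 2 : ℚ) (PowerSeries.exp ℚ) +
        rescale (1 / 2 : ℚ) (PowerSeries.exp ℚ)) := sq_mul_k0
  rw [h5, pr_sub_left, pr_smul_left, pr_add_left, pr_exp, pr_exp]
  have h6 : (rp (-(3 / 2)) (A + 2)).eval (3 / 2 : ℚ) = 0 := by
    rw [rp, Polynomial.eval_prod]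
    apply Finset.prod_eq_zero (i := 0) (Finset.mem_range.mpr (by omega))
    simp
  have h7 : (rp (-(3 / 2)) (A + 2)).eval (1 / 2 : ℚ) = 0 := by
    rw [rp, Polynomial.eval_prod]
    apply Finset.prod_eq_zero (i := 1) (Finset.mem_range.mpr (by omega))
    simp
    norm_num
  rw [h6, h7, gn]
  ring

/-- The Euler characteristic in terms of Gregory coefficients. -/
theorem chi_gregory (g : ℕ) (hg : g ≠ 0) :
    chi g = -(2 * (2 * g - 1).factorial / ((2 * g - 1 : ℕ) : ℚ) ^ 2) * coeff (2 * g + 1) lser⁻¹ := by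
  obtain ⟨A, hA⟩ : ∃ A, 2 * g = A + 1 := ⟨2 * g - 1, by omega⟩
  have hA0 : A ≠ 0 := by omega
  rw [chi_eq_coeff g hg, hA, Nat.add_sub_cancel, ← lap_k0, coeff_lap, lser_inv, coeff_mk, ← pr_k0]
  have h1 : ((A + 1 + 1).factorial : ℚ) = (A + 2) * ((A + 1) * A.factorial) := by
    rw [Nat.factorial_succ, Nat.factorial_succ]; push_cast; ring
  have h2 : (-1 : ℚ) ^ (A + 1 + 1) = -1 := by
    have : Odd (A + 1 + 1) := ⟨g, by omega⟩
    exact this.neg_one_pow
  rw [h1, h2]
  have h3 : (A : ℚ) ≠ 0 := by exact_mod_cast hA0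
  have h4 : (A : ℚ) + 1 ≠ 0 := by positivity
  have h5 : (A : ℚ) + 2 ≠ 0 := by positivity
  have h6 : (A.factorial : ℚ) ≠ 0 := by positivity
  push_cast
  field_simp

/-- The integral formula. -/
theorem chi_integral (g : ℕ) (hg : g ≠ 0) : ((chi g : ℚ) : ℝ) =
    -(2 / (((2 * g - 1 : ℕ) : ℝ) ^ 2 * ((((2 * g - 1 : ℕ) : ℝ) + 1) * (((2 * g - 1 : ℕ) : ℝ) + 2)))) *
      ∫ x in (0 : ℝ)..1, x * (1 - x) * ∏ j ∈ Finset.range (2 * g - 1), (x + (j + 1)) := by
  obtain ⟨A, hA⟩ : ∃ A, 2 * g = A + 1 := ⟨2 * g - 1, by omega⟩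
  have hA0 : A ≠ 0 := by omega
  rw [chi_eq_coeff g hg, hA, Nat.add_sub_cancel]
  have h := coeff_eq_integral A
  push_cast
  rw [h]
  have h3 : (A : ℝ) ≠ 0 := by exact_mod_cast hA0
  have h4 : (A : ℝ) + 1 ≠ 0 := by positivity
  have h5 : (A : ℝ) + 2 ≠ 0 := by positivity
  field_simp

lemma integral_parabola : ∫ x in (0 : ℝ)..1, x * (1 - x) = 1 / 6 := by
  have h : ∀ x : ℝ, x * (1 - x) = x ^ 1 - x ^ 2 := fun x => by ring
  simp only [h]
  rw [intervalIntegral.integral_sub (by simp) (by simp), integral_pow, integral_pow]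
  norm_num

lemma integral_bounds (A : ℕ) :
    (A.factorial : ℝ) / 6 ≤ ∫ x in (0 : ℝ)..1, x * (1 - x) * ∏ j ∈ Finset.range A, (x + (j + 1)) ∧
    ∫ x in (0 : ℝ)..1, x * (1 - x) * ∏ j ∈ Finset.range A, (x + (j + 1)) ≤
      ((A + 1).factorial : ℝ) / 6 := by
  have hcont : Continuous fun x : ℝ => x * (1 - x) * ∏ j ∈ Finset.range A, (x + (j + 1)) := by
    fun_prop
  have hf1 : (A.factorial : ℝ) = ∏ j ∈ Finset.range A, ((j : ℝ) + 1) := by
    rw [← Finset.prod_range_add_one_eq_factorial]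
    push_cast
    rfl
  have hf2 : ((A + 1).factorial : ℝ) = ∏ j ∈ Finset.range A, (1 + ((j : ℝ) + 1)) := by
    rw [← Finset.prod_range_add_one_eq_factorial, Finset.prod_range_succ']
    push_cast
    rw [mul_one]
    apply Finset.prod_congr rfl
    intro j _
    ring
  have hint : ∀ c : ℝ, ∫ x in (0 : ℝ)..1, x * (1 - x) * c = c / 6 := by
    intro c
    rw [intervalIntegral.integral_mul_const, integral_parabola]
    ring
  constructor
  · rw [← hint]
    apply intervalIntegral.integral_mono_on (by norm_num)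
    · exact (by fun_prop : Continuous fun x : ℝ => x * (1 - x) * (A.factorial : ℝ)).intervalIntegrable _ _
    · exact hcont.intervalIntegrable _ _
    · intro x hx
      have h0 : 0 ≤ x * (1 - x) := mul_nonneg hx.1 (by linarith [hx.2])
      apply mul_le_mul_of_nonneg_left _ h0
      rw [hf1]
      apply Finset.prod_le_prod
      · intro j _; positivity
      · intro j _; linarith [hx.1]
  · rw [← hint]
    apply intervalIntegral.integral_mono_on (by norm_num)
    · exact hcont.intervalIntegrable _ _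
    · exact (by fun_prop : Continuous fun x : ℝ => x * (1 - x) * ((A + 1).factorial : ℝ)).intervalIntegrable _ _
    · intro x hx
      have h0 : 0 ≤ x * (1 - x) := mul_nonneg hx.1 (by linarith [hx.2])
      apply mul_le_mul_of_nonneg_left _ h0
      rw [hf2]
      apply Finset.prod_le_prod
      · intro j _
        have : (0 : ℝ) ≤ j := by positivity
        linarith [hx.1]
      · intro j _; linarith [hx.2]

/-- Two-sided bounds. -/
theorem chi_bounds (g : ℕ) (hg : g ≠ 0) :
    (1 / 18 : ℝ) * (2 * g - 1).factorial / ((2 * g - 1 : ℕ) : ℝ) ^ 4 ≤ -(chi g : ℝ) ∧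
    -(chi g : ℝ) ≤ (1 / 3 : ℝ) * (2 * g - 1).factorial / ((2 * g - 1 : ℕ) : ℝ) ^ 3 := by
  rw [chi_integral g hg]
  obtain ⟨A, hA⟩ : ∃ A, 2 * g = A + 1 := ⟨2 * g - 1, by omega⟩
  have hA0 : 1 ≤ A := by omega
  rw [hA, Nat.add_sub_cancel]
  obtain ⟨h1, h2⟩ := integral_bounds A
  set I := ∫ x in (0 : ℝ)..1, x * (1 - x) * ∏ j ∈ Finset.range A, (x + (j + 1)) with hI
  have ha : (1 : ℝ) ≤ A := by exact_mod_cast hA0
  have hf : (0 : ℝ) < A.factorial := by positivity
  have hf1 : ((A + 1).factorial : ℝ) = (A + 1) * A.factorial := by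
    rw [Nat.factorial_succ]; push_cast; ring
  rw [hf1] at h2
  have hpos : (0 : ℝ) < (A : ℝ) ^ 2 * (((A : ℝ) + 1) * ((A : ℝ) + 2)) := by positivity
  constructor
  · rw [neg_mul, neg_neg]
    have h3 : (2 / ((A : ℝ) ^ 2 * (((A : ℝ) + 1) * ((A : ℝ) + 2)))) * (A.factorial / 6) ≤
        (2 / ((A : ℝ) ^ 2 * (((A : ℝ) + 1) * ((A : ℝ) + 2)))) * I :=
      mul_le_mul_of_nonneg_left h1 (by positivity)
    refine le_trans ?_ h3
    rw [div_mul_div_comm, div_le_div_iff₀ (by positivity) (by positivity)]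
    have h4 : ((A : ℝ) + 1) * (A + 2) ≤ 6 * (A : ℝ) ^ 2 := by nlinarith
    have h5 : 0 ≤ (A : ℝ) ^ 2 * A.factorial := by positivity
    nlinarith [mul_le_mul_of_nonneg_left h4 h5]
  · rw [neg_mul, neg_neg]
    have h3 : (2 / ((A : ℝ) ^ 2 * (((A : ℝ) + 1) * ((A : ℝ) + 2)))) * I ≤
        (2 / ((A : ℝ) ^ 2 * (((A : ℝ) + 1) * ((A : ℝ) + 2)))) * ((A + 1) * A.factorial / 6) :=
      mul_le_mul_of_nonneg_left h2 (by positivity)
    refine le_trans h3 ?_
    rw [div_mul_div_comm, div_le_div_iff₀ (by positivity) (by positivity)]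
    have h5 : 0 ≤ (A : ℝ) ^ 2 * A.factorial * (A + 1) := by positivity
    nlinarith

/-- The main theorem. -/
theorem main : (∀ g : ℕ, 1 ≤ g → chi g = -(2 * (2 * g - 1).factorial / (2 * g - 1) ^ 2) *
      coeff (2 * g + 1) (PowerSeries.mk fun n => ((-1) ^ n / (n + 1) : ℚ))⁻¹) ∧
    (∀ g : ℕ, 1 ≤ g → chi g < 0) ∧
    ∃ A B : ℝ, 0 < A ∧ 0 < B ∧ ∀ g : ℕ, 1 ≤ g →
      A * ((2 * g - 1).factorial / (2 * g - 1) ^ 4) ≤ -(chi g : ℝ) ∧
      -(chi g : ℝ) ≤ B * ((2 * g - 1).factorial / (2 * g - 1) ^ 3) := by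
  refine ⟨?_, ?_, 1 / 18, 1 / 3, by norm_num, by norm_num, ?_⟩
  · intro g hg
    have h := chi_gregory g (by omega)
    have h1 : ((2 * g - 1 : ℕ) : ℚ) = 2 * g - 1 := by
      rw [Nat.cast_sub (by omega)]; push_cast; ring
    rw [h1] at h
    exact h
  · intro g hg
    have h := (chi_bounds g (by omega)).1
    have h1 : ((2 * g - 1 : ℕ) : ℝ) ≠ 0 := by
      have : 2 * g - 1 ≠ 0 := by omega
      exact_mod_cast this
    have h2 : (0 : ℝ) < (1 / 18 : ℝ) * (2 * g - 1).factorial / ((2 * g - 1 : ℕ) : ℝ) ^ 4 := by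
      positivity
    have h3 : ((chi g : ℚ) : ℝ) < 0 := by linarith
    exact_mod_cast h3
  · intro g hg
    have h := chi_bounds g (by omega)
    have h1 : ((2 * g - 1 : ℕ) : ℝ) = 2 * g - 1 := by
      rw [Nat.cast_sub (by omega)]; push_cast; ring
    rw [h1] at h
    constructor
    · rw [← mul_div_assoc]; exact h.1
    · rw [← mul_div_assoc]; exact h.2

end Pool.Agent.H74.Strata
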