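import Pool.Agent.H74.EulZc

/-!
# The values of `chi` for small genus
-/

namespace Pool.Agent.H74.Strata

open PowerSeries

lemma gregory_rec (n : ℕ) :
    coeff (n + 1) (PowerSeries.mk fun n => ((-1) ^ n / (n + 1) : ℚ))⁻¹ =
      -∑ j ∈ Finset.range (n + 1), ((-1) ^ (n + 1 - j) / ((n + 1 - j : ℕ) + 1) : ℚ) *
        coeff j (PowerSeries.mk fun n => ((-1) ^ n / (n + 1) : ℚ))⁻¹ := by
  set B : ℚ⟦X⟧ := PowerSeries.mk fun n => ((-1) ^ n / (n + 1) : ℚ) with hB
  have h0 : constantCoeff B ≠ 0 := by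
    rw [← coeff_zero_eq_constantCoeff_apply, hB, coeff_mk]
    norm_num
  have h1 : coeff (n + 1) (B⁻¹ * B) = 0 := by
    rw [PowerSeries.inv_mul_cancel _ h0, coeff_one]
    simp
  rw [coeff_mul, Finset.Nat.sum_antidiagonal_eq_sum_range_succ
    (fun i j => coeff i B⁻¹ * coeff j B), Finset.sum_range_succ] at h1
  have h2 : coeff (n + 1 - (n + 1)) B = 1 := by
    rw [hB, coeff_mk]; simp
  rw [h2, mul_one] at h1
  have h3 : ∑ j ∈ Finset.range (n + 1), ((-1) ^ (n + 1 - j) / ((n + 1 - j : ℕ) + 1) : ℚ) *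
      coeff j B⁻¹ = ∑ x ∈ Finset.range (n + 1), coeff x B⁻¹ * coeff (n + 1 - x) B := by
    apply Finset.sum_congr rfl
    intro j _
    rw [hB, coeff_mk, mul_comm]
  rw [h3]
  linarith

/-- The values of `chi` in genus `1, ..., 5`; they agree with the published table. -/
theorem chi_values : chi 1 = -1 / 12 ∧ chi 2 = -1 / 40 ∧ chi 3 = -55 / 504 ∧
    chi 4 = -1169 / 720 ∧ chi 5 = -4671 / 88 := by
  have h := main.1
  have g0 : coeff 0 (PowerSeries.mk fun n => ((-1) ^ n / (n + 1) : ℚ))⁻¹ = 1 := by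
    rw [coeff_zero_eq_constantCoeff_apply, constantCoeff_inv,
      ← coeff_zero_eq_constantCoeff_apply, coeff_mk]
    norm_num
  have g1 := gregory_rec 0
  norm_num [Finset.sum_range_succ, g0] at g1
  have g2 := gregory_rec 1
  norm_num [Finset.sum_range_succ, g0, g1] at g2
  have g3 := gregory_rec 2
  norm_num [Finset.sum_range_succ, g0, g1, g2] at g3
  have g4 := gregory_rec 3
  norm_num [Finset.sum_range_succ, g0, g1, g2, g3] at g4
  have g5 := gregory_rec 4
  norm_num [Finset.sum_range_succ, g0, g1, g2, g3, g4] at g5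
  have g6 := gregory_rec 5
  norm_num [Finset.sum_range_succ, g0, g1, g2, g3, g4, g5] at g6
  have g7 := gregory_rec 6
  norm_num [Finset.sum_range_succ, g0, g1, g2, g3, g4, g5, g6] at g7
  have g8 := gregory_rec 7
  norm_num [Finset.sum_range_succ, g0, g1, g2, g3, g4, g5, g6, g7] at g8
  have g9 := gregory_rec 8
  norm_num [Finset.sum_range_succ, g0, g1, g2, g3, g4, g5, g6, g7, g8] at g9
  have g10 := gregory_rec 9
  norm_num [Finset.sum_range_succ, g0, g1, g2, g3, g4, g5, g6, g7, g8, g9] at g10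
  have g11 := gregory_rec 10
  norm_num [Finset.sum_range_succ, g0, g1, g2, g3, g4, g5, g6, g7, g8, g9, g10] at g11
  refine ⟨?_, ?_, ?_, ?_, ?_⟩
  · rw [h 1 (by norm_num)]; norm_num [g3, Nat.factorial]
  · rw [h 2 (by norm_num)]; norm_num [g5, Nat.factorial]
  · rw [h 3 (by norm_num)]; norm_num [g7, Nat.factorial]
  · rw [h 4 (by norm_num)]; norm_num [g9, Nat.factorial]
  · rw [h 5 (by norm_num)]; norm_num [g11, Nat.factorial]

end Pool.Agent.H74.Strata
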