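import Mathlib

/-!
# Flat manifolds, complex structures and complex automorphism groups

The definitions used in the statement of `Pool.Agent.Results.MP_bb2d27_ag.InfiniteAut.result`.
-/

namespace Pool.Agent.H74.Flat

noncomputable section

/-! ### The objects of the question

`V` is a Euclidean vector space; in the theorem it is `ℝ^m = EuclideanSpace ℝ (Fin m)`.  The
isometry group `Isom(V) = O(V) ⋉ V` is `V ≃ᵃⁱ[ℝ] V`. -/

variable {V : Type} [NormedAddCommGroup V] [InnerProductSpace ℝ V]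

/-- `Γ ⊂ Isom(V)` is a Bieberbach group: it is discrete (equivalently it acts properly
discontinuously: for each compact set `K` only finitely many `γ ∈ Γ` have `γ K ∩ K ≠ ∅`),
cocompact and torsion-free. -/
structure IsBieberbach (Γ : Subgroup (V ≃ᵃⁱ[ℝ] V)) : Prop where
  discrete : ∀ K : Set V, IsCompact K → {γ : V ≃ᵃⁱ[ℝ] V | γ ∈ Γ ∧ (γ '' K ∩ K).Nonempty}.Finite
  cocompact : ∃ K : Set V, IsCompact K ∧ ∀ x : V, ∃ γ ∈ Γ, γ x ∈ K
  torsionFree : ∀ γ ∈ Γ, IsOfFinOrder γ → γ = 1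

/-- `x` and `y` lie in one `Γ`-orbit. -/
def SameOrbit (Γ : Subgroup (V ≃ᵃⁱ[ℝ] V)) (x y : V) : Prop := ∃ γ ∈ Γ, γ x = y

lemma sameOrbit_equivalence (Γ : Subgroup (V ≃ᵃⁱ[ℝ] V)) : Equivalence (SameOrbit Γ) where
  refl := fun x => ⟨1, Γ.one_mem, rfl⟩
  symm := by
    rintro x y ⟨γ, hγ, rfl⟩
    exact ⟨γ⁻¹, Γ.inv_mem hγ, by simp⟩
  trans := by
    rintro x y z ⟨γ, hγ, rfl⟩ ⟨δ, hδ, rfl⟩
    exact ⟨δ * γ, Γ.mul_mem hδ hγ, rfl⟩

/-- The orbit relation of `Γ` on `V`. -/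
def orbitSetoid (Γ : Subgroup (V ≃ᵃⁱ[ℝ] V)) : Setoid V :=
  ⟨SameOrbit Γ, sameOrbit_equivalence Γ⟩

/-- The flat manifold `M = V / Γ`. -/
def FlatManifold (Γ : Subgroup (V ≃ᵃⁱ[ℝ] V)) : Type := Quotient (orbitSetoid Γ)

/-- The covering projection `V → M`. -/
def proj (Γ : Subgroup (V ≃ᵃⁱ[ℝ] V)) (x : V) : FlatManifold Γ :=
  Quotient.mk (orbitSetoid Γ) x

/-- The first Betti number of `M = V / Γ`: the rank of `H_1(M; ℤ)`, which is the
abelianisation of `Γ = π_1(M)`. -/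
def bettiOne (Γ : Subgroup (V ≃ᵃⁱ[ℝ] V)) : Cardinal :=
  Module.rank ℤ (Additive (Abelianization Γ))

/-- `J ∈ GL(V)` is a complex structure on `M = V / Γ`: `J² = -1` and `J` commutes with
every element of the holonomy group, i.e. with the linear part of every `γ ∈ Γ`. -/
def IsComplexStructure (Γ : Subgroup (V ≃ᵃⁱ[ℝ] V)) (J : V ≃ₗ[ℝ] V) : Prop :=
  (∀ v, J (J v) = -v) ∧ ∀ γ ∈ Γ, ∀ v, J (γ.linearIsometryEquiv v) = γ.linearIsometryEquiv (J v)

/-- The bijection `f : M → M` is an affine self-map of `M` with `df ∘ J = J ∘ df`: it has a lift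
`F ∈ GL(V) ⋉ V` to `V` whose linear part commutes with `J`. -/
def IsHolomorphicAffine (Γ : Subgroup (V ≃ᵃⁱ[ℝ] V)) (J : V ≃ₗ[ℝ] V)
    (f : Equiv.Perm (FlatManifold Γ)) : Prop :=
  ∃ F : V ≃ᵃ[ℝ] V, (∀ x, f (proj Γ x) = proj Γ (F x)) ∧ ∀ v, F.linear (J v) = J (F.linear v)

section

variable (Γ : Subgroup (V ≃ᵃⁱ[ℝ] V)) (J : V ≃ₗ[ℝ] V)

lemma isHolomorphicAffine_one : IsHolomorphicAffine Γ J 1 := ⟨1, fun _ => rfl, fun _ => rfl⟩

lemma isHolomorphicAffine_mul {f g : Equiv.Perm (FlatManifold Γ)}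
    (hf : IsHolomorphicAffine Γ J f) (hg : IsHolomorphicAffine Γ J g) :
    IsHolomorphicAffine Γ J (f * g) := by
  obtain ⟨F, hF, hF'⟩ := hf
  obtain ⟨G, hG, hG'⟩ := hg
  refine ⟨F * G, fun x => ?_, fun v => ?_⟩
  · rw [Equiv.Perm.mul_apply, hG, hF]; rfl
  · change F.linear (G.linear (J v)) = J (F.linear (G.linear v))
    rw [hG', hF']

lemma isHolomorphicAffine_inv {f : Equiv.Perm (FlatManifold Γ)}
    (hf : IsHolomorphicAffine Γ J f) : IsHolomorphicAffine Γ J f⁻¹ := by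
  obtain ⟨F, hF, hF'⟩ := hf
  refine ⟨F⁻¹, fun x => ?_, fun v => ?_⟩
  · rw [Equiv.Perm.inv_eq_iff_eq, hF]
    congr 1
    exact (F.apply_symm_apply x).symm
  · change F.linear.symm (J v) = J (F.linear.symm v)
    rw [LinearEquiv.symm_apply_eq, hF', LinearEquiv.apply_symm_apply]

end

/-- `Aut(M, J)`, the group of all bijective affine self-maps `f` of `M` with
`df ∘ J = J ∘ df`. -/
def Aut (Γ : Subgroup (V ≃ᵃⁱ[ℝ] V)) (J : V ≃ₗ[ℝ] V) : Subgroup (Equiv.Perm (FlatManifold Γ)) where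
  carrier := {f | IsHolomorphicAffine Γ J f}
  one_mem' := isHolomorphicAffine_one Γ J
  mul_mem' hf hg := isHolomorphicAffine_mul Γ J hf hg
  inv_mem' hf := isHolomorphicAffine_inv Γ J hf

/-- There is a flat manifold `M = V / Γ`, with `Γ ⊂ Isom(V)` a Bieberbach group, having the three
properties of Q1: `b_1(M) = 0`; `M` admits a complex structure; `Aut(M, J)` is infinite for
every complex structure `J` on `M`. -/
def HasExample (V : Type) [NormedAddCommGroup V] [InnerProductSpace ℝ V] : Prop :=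
  ∃ Γ : Subgroup (V ≃ᵃⁱ[ℝ] V), IsBieberbach Γ ∧ bettiOne Γ = 0 ∧
    (∃ J : V ≃ₗ[ℝ] V, IsComplexStructure Γ J) ∧
    ∀ J : V ≃ₗ[ℝ] V, IsComplexStructure Γ J → Infinite (Aut Γ J)

end

end Pool.Agent.H74.Flat
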