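import Pool.Agent.H74.FlatDefs

namespace Pool.Agent.H74.Flat

noncomputable section

/-! ### The example: index arithmetic

Coordinates of `ℝ^16` are indexed by pairs `(β, p)`, `β` the block and `p` the position.  The
holonomy group is `ℤ/2 × ℤ/8`; its generator `b` of order `8` shifts the positions in each block
(with a sign in the blocks `0, 1` and with a half-translation in the blocks `2, 3` whenever the
position `0` is crossed), and its generator `a` of order `2` acts by a half translation on block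
`0`, by minus and a half-translation on block `1`, by minus on the blocks `2, 3`. -/

/-- Euclidean space `ℝ^m`. -/
abbrev Euc (m : ℕ) : Type := EuclideanSpace ℝ (Fin m)

/-- The group `Isom(ℝ^m)`. -/
abbrev Isom (m : ℕ) : Type := Euc m ≃ᵃⁱ[ℝ] Euc m

/-- The index of position `p` of block `β`. -/
def ix : Fin 4 × Fin 4 ≃ Fin 16 := finProdFinEquiv

/-- Number of crossings (up to sign). -/
def W (p : Fin 4) (j : ℤ) : ℤ := (((p : ℕ) : ℤ) - j) / 4

/-- Shifted position. -/
def Q (p : Fin 4) (j : ℤ) : Fin 4 := ⟨((((p : ℕ) : ℤ) - j) % 4).toNat, by omega⟩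

lemma Q_val (p : Fin 4) (j : ℤ) : ((Q p j : ℕ) : ℤ) = (((p : ℕ) : ℤ) - j) % 4 := by
  unfold Q; simp only; omega

lemma Q_add (p : Fin 4) (j j' : ℤ) : Q p (j + j') = Q (Q p j) j' := by
  have h1 := Q_val p (j + j')
  have h2 := Q_val (Q p j) j'
  have h3 := Q_val p j
  apply Fin.ext
  omega

lemma W_add (p : Fin 4) (j j' : ℤ) : W p (j + j') = W p j + W (Q p j) j' := by
  have h3 := Q_val p j
  unfold W
  omega

@[simp] lemma Q_zero (p : Fin 4) : Q p 0 = p := by
  have h1 := Q_val p 0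
  have := p.2
  apply Fin.ext
  omega

@[simp] lemma W_zero (p : Fin 4) : W p 0 = 0 := by
  have := p.2
  unfold W
  omega

@[simp] lemma Q_neg_self (p : Fin 4) (j : ℤ) : Q (Q p (-j)) j = p := by
  rw [← Q_add]; simp

@[simp] lemma Q_self_neg (p : Fin 4) (j : ℤ) : Q (Q p j) (-j) = p := by
  rw [← Q_add]; simp

lemma W_neg (p : Fin 4) (j : ℤ) : W (Q p (-j)) j = - W p (-j) := by
  have := W_add p (-j) j
  simp at this
  omega

/-- Exponent of the sign. -/
def sx (β : Fin 4) (i w : ℤ) : ℤ :=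
  if β = 0 then w else if β = 1 then w + i else i

/-- Twice the half-translation. -/
def hx (β : Fin 4) (i w : ℤ) : ℤ :=
  if β = 0 then i else if β = 1 then i else w

lemma sx_add (β : Fin 4) (i w i' w' : ℤ) : sx β (i + i') (w + w') = sx β i w + sx β i' w' := by
  unfold sx; split_ifs <;> ring

lemma hx_add (β : Fin 4) (i w i' w' : ℤ) : hx β (i + i') (w + w') = hx β i w + hx β i' w' := by
  unfold hx; split_ifs <;> ring

lemma sx_neg (β : Fin 4) (i w : ℤ) : sx β (-i) (-w) = - sx β i w := by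
  unfold sx; split_ifs <;> ring

lemma hx_neg (β : Fin 4) (i w : ℤ) : hx β (-i) (-w) = - hx β i w := by
  unfold hx; split_ifs <;> ring

/-- The sign `(-1)^n`. -/
def sg (n : ℤ) : ℝ := (-1) ^ n

lemma sg_add (n m : ℤ) : sg (n + m) = sg n * sg m := by
  unfold sg; rw [zpow_add₀ (by norm_num)]

@[simp] lemma sg_zero : sg 0 = 1 := by simp [sg]

lemma sg_even {n : ℤ} (h : Even n) : sg n = 1 := by unfold sg; exact h.neg_one_zpow

lemma sg_odd {n : ℤ} (h : ¬ Even n) : sg n = -1 := by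
  unfold sg; exact (Int.not_even_iff_odd.mp h).neg_one_zpow

@[simp] lemma sg_neg (n : ℤ) : sg (-n) = sg n := by
  by_cases h : Even n
  · rw [sg_even h, sg_even h.neg]
  · rw [sg_odd h, sg_odd (by simpa using h)]

@[simp] lemma sg_mul_self (n : ℤ) : sg n * sg n = 1 := by
  by_cases h : Even n
  · rw [sg_even h]; norm_num
  · rw [sg_odd h]; norm_num

@[simp] lemma sg_sq (n : ℤ) : sg n ^ 2 = 1 := by rw [sq, sg_mul_self]

@[simp] lemma sg_mul_sg_mul (n : ℤ) (x : ℝ) : sg n * (sg n * x) = x := by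
  rw [← mul_assoc, sg_mul_self, one_mul]

/-! ### The linear parts -/

/-- The underlying map of the linear part. -/
def linFun (i j : ℤ) (x : Euc 16) : Euc 16 :=
  WithLp.toLp 2 (fun k => sg (sx (ix.symm k).1 i (W (ix.symm k).2 j)) *
    x (ix ((ix.symm k).1, Q (ix.symm k).2 j)))

lemma linFun_apply (i j : ℤ) (x : Euc 16) (β p : Fin 4) :
    linFun i j x (ix (β, p)) = sg (sx β i (W p j)) * x (ix (β, Q p j)) := by
  simp [linFun]

lemma euc_ext {x y : Euc 16} (h : ∀ β p, x (ix (β, p)) = y (ix (β, p))) : x = y := by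
  ext k
  have := h (ix.symm k).1 (ix.symm k).2
  simpa using this

lemma linFun_comp (i j i' j' : ℤ) (x : Euc 16) :
    linFun i j (linFun i' j' x) = linFun (i + i') (j + j') x := by
  apply euc_ext
  intro β p
  rw [linFun_apply, linFun_apply, linFun_apply, Q_add, W_add, sx_add, sg_add]
  ring

lemma linFun_zero (x : Euc 16) : linFun 0 0 x = x := by
  apply euc_ext
  intro β p
  rw [linFun_apply]
  simp [sx]

/-- Positions are permuted. -/
def permQ (j : ℤ) : Fin 4 ≃ Fin 4 where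
  toFun p := Q p j
  invFun p := Q p (-j)
  left_inv p := by simp
  right_inv p := by simp

lemma norm_sq_eq (x : Euc 16) : ‖x‖ ^ 2 = ∑ β : Fin 4, ∑ p : Fin 4, x (ix (β, p)) ^ 2 := by
  rw [EuclideanSpace.norm_eq, Real.sq_sqrt (Finset.sum_nonneg fun _ _ => by positivity)]
  rw [← Equiv.sum_comp ix, Fintype.sum_prod_type]
  simp

lemma linFun_norm (i j : ℤ) (x : Euc 16) : ‖linFun i j x‖ = ‖x‖ := by
  have : ‖linFun i j x‖ ^ 2 = ‖x‖ ^ 2 := by
    rw [norm_sq_eq, norm_sq_eq]
    refine Finset.sum_congr rfl fun β _ => ?_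
    rw [← Equiv.sum_comp (permQ j) (fun p => x (ix (β, p)) ^ 2)]
    refine Finset.sum_congr rfl fun p _ => ?_
    rw [linFun_apply, mul_pow, sg_sq, one_mul]
    rfl
  exact (sq_eq_sq₀ (norm_nonneg _) (norm_nonneg _)).mp this

/-- The linear isometry with parameters `(i, j)`. -/
def lin (i j : ℤ) : Euc 16 ≃ₗᵢ[ℝ] Euc 16 where
  toFun := linFun i j
  invFun := linFun (-i) (-j)
  map_add' x y := by
    apply euc_ext; intro β p
    simp only [linFun_apply, PiLp.add_apply]; ring
  map_smul' c x := by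
    apply euc_ext; intro β p
    simp only [linFun_apply, PiLp.smul_apply, smul_eq_mul, RingHom.id_apply]; ring
  left_inv x := by rw [linFun_comp]; simp [linFun_zero]
  right_inv x := by rw [linFun_comp]; simp [linFun_zero]
  norm_map' x := linFun_norm i j x

lemma lin_apply (i j : ℤ) (x : Euc 16) (β p : Fin 4) :
    lin i j x (ix (β, p)) = sg (sx β i (W p j)) * x (ix (β, Q p j)) := linFun_apply i j x β p

/-! ### The group -/

/-- `γ` has parameters `(i, j)` and integral translation part `n`. -/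
def IsElt (γ : Isom 16) (i j : ℤ) (n : Fin 4 → Fin 4 → ℤ) : Prop :=
  ∀ (x : Euc 16) (β p : Fin 4), γ x (ix (β, p)) =
    sg (sx β i (W p j)) * x (ix (β, Q p j)) + ((hx β i (W p j) : ℝ) / 2 + n β p)

/-- The isometry with parameters `(i, j)` and integral translation part `n`. -/
def elt (i j : ℤ) (n : Fin 4 → Fin 4 → ℤ) : Isom 16 :=
  (lin i j).toAffineIsometryEquiv.trans (AffineIsometryEquiv.constVAdd ℝ (Euc 16)
    (WithLp.toLp 2 (fun k => (hx (ix.symm k).1 i (W (ix.symm k).2 j) : ℝ) / 2 +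
      n (ix.symm k).1 (ix.symm k).2)))

lemma isElt_elt (i j : ℤ) (n : Fin 4 → Fin 4 → ℤ) : IsElt (elt i j n) i j n := by
  intro x β p
  simp [elt, lin_apply]
  ring

lemma elt_lin (i j : ℤ) (n : Fin 4 → Fin 4 → ℤ) : (elt i j n).linearIsometryEquiv = lin i j := by
  ext x k
  have h := (elt i j n).map_vadd 0 x
  have h2 : (elt i j n).linearIsometryEquiv x = elt i j n x - elt i j n 0 := by
    simp only [vadd_eq_add, add_zero] at h
    rw [h]; simp
  rw [h2]
  have h3 : elt i j n x - elt i j n 0 = lin i j x := by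
    apply euc_ext
    intro β p
    rw [PiLp.sub_apply, isElt_elt i j n x, isElt_elt i j n 0, lin_apply]
    simp
  rw [h3]

lemma IsElt.eq {γ : Isom 16} {i j : ℤ} {n : Fin 4 → Fin 4 → ℤ} (h : IsElt γ i j n) :
    γ = elt i j n := by
  apply AffineIsometryEquiv.ext
  intro x
  apply euc_ext
  intro β p
  rw [h x, isElt_elt i j n x]

lemma sg_half (s h n : ℤ) : ∃ c : ℤ, sg s * ((h : ℝ) / 2 + n) = (h : ℝ) / 2 + c := by
  by_cases hs : Even s
  · exact ⟨n, by rw [sg_even hs, one_mul]⟩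
  · exact ⟨-h - n, by rw [sg_odd hs]; push_cast; ring⟩

lemma IsElt.mul {γ γ' : Isom 16} {i j i' j' : ℤ} {n n' : Fin 4 → Fin 4 → ℤ}
    (h : IsElt γ i j n) (h' : IsElt γ' i' j' n') :
    ∃ n'', IsElt (γ * γ') (i + i') (j + j') n'' := by
  choose c hc using fun (β p : Fin 4) =>
    sg_half (sx β i (W p j)) (hx β i' (W (Q p j) j')) (n' β (Q p j))
  refine ⟨fun β p => c β p + n β p, fun x β p => ?_⟩
  change γ (γ' x) (ix (β, p)) = _
  rw [h, h', mul_add (sg _), hc, W_add, Q_add, sx_add, hx_add, sg_add]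
  push_cast
  ring

lemma IsElt.inv {γ : Isom 16} {i j : ℤ} {n : Fin 4 → Fin 4 → ℤ} (h : IsElt γ i j n) :
    ∃ n', IsElt γ⁻¹ (-i) (-j) n' := by
  choose c hc using fun (β p : Fin 4) =>
    sg_half (sx β i (W (Q p (-j)) j)) (- hx β i (W (Q p (-j)) j)) (- n β (Q p (-j)))
  refine ⟨fun β p => c β p, fun y β p => ?_⟩
  obtain ⟨x, rfl⟩ := γ.surjective y
  have h1 : (γ⁻¹ : Isom 16) (γ x) = x := γ.symm_apply_apply x
  rw [h1, h x β (Q p (-j))]
  have h2 := hc β p
  rw [Q_neg_self]
  have e1 : sx β (-i) (W p (-j)) = - sx β i (W (Q p (-j)) j) := by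
    rw [W_neg, ← sx_neg, neg_neg]
  have e2 : hx β (-i) (W p (-j)) = - hx β i (W (Q p (-j)) j) := by
    rw [W_neg, ← hx_neg, neg_neg]
  rw [e1, e2, sg_neg, mul_add, sg_mul_sg_mul]
  rw [← h2]
  push_cast
  ring

lemma isElt_one : IsElt 1 0 0 (fun _ _ => 0) := by
  intro x β p
  simp [sx, hx]

/-- The Bieberbach group of the example. -/
def Gam : Subgroup (Isom 16) where
  carrier := {γ | ∃ i j n, IsElt γ i j n}
  mul_mem' := by
    rintro γ γ' ⟨i, j, n, h⟩ ⟨i', j', n', h'⟩
    obtain ⟨n'', h''⟩ := h.mul h'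
    exact ⟨_, _, _, h''⟩
  one_mem' := ⟨0, 0, _, isElt_one⟩
  inv_mem' := by
    rintro γ ⟨i, j, n, h⟩
    obtain ⟨n', h'⟩ := h.inv
    exact ⟨_, _, _, h'⟩

lemma elt_mem (i j : ℤ) (n : Fin 4 → Fin 4 → ℤ) : elt i j n ∈ Gam := ⟨i, j, n, isElt_elt i j n⟩

lemma IsElt.pow {γ : Isom 16} {i j : ℤ} {n : Fin 4 → Fin 4 → ℤ} (h : IsElt γ i j n) (k : ℕ) :
    ∃ n', IsElt (γ ^ k) (k * i) (k * j) n' := by
  induction k with
  | zero => exact ⟨_, by simpa using isElt_one⟩
  | succ k ih =>
    obtain ⟨n', h'⟩ := ih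
    obtain ⟨n'', h''⟩ := h'.mul h
    refine ⟨n'', ?_⟩
    have e1 : ((k + 1 : ℕ) : ℤ) * i = k * i + i := by push_cast; ring
    have e2 : ((k + 1 : ℕ) : ℤ) * j = k * j + j := by push_cast; ring
    rw [pow_succ, e1, e2]
    exact h''

/-- Some power of a non-trivial element translates some coordinate. -/
lemma exists_translated {γ : Isom 16} (hγ : γ ∈ Gam) (h1 : γ ≠ 1) :
    ∃ (k : ℕ) (c : Fin 16) (t : ℝ), t ≠ 0 ∧ ∀ x : Euc 16, (γ ^ k) x c = x c + t := by
  obtain ⟨i, j, n, h⟩ := hγ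
  have odd_ne : ∀ a b : ℤ, ¬ Even a → (a : ℝ) / 2 + b ≠ 0 := by
    intro a b ha hab
    apply ha
    have : (a : ℝ) = ((-2 * b : ℤ) : ℝ) := by push_cast; linarith
    have := Int.cast_injective this
    exact ⟨-b, by omega⟩
  by_cases hj : (8 : ℤ) ∣ j
  · by_cases hi : Even i
    · -- a translation
      have hW : ∀ p : Fin 4, W p j = - (j / 4) := by
        intro p
        have := p.2
        unfold W
        omega
      have hQ : ∀ p : Fin 4, Q p j = p := by
        intro p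
        have h1 := Q_val p j
        have := p.2
        apply Fin.ext
        omega
      have hW' : Even (-(j / 4)) := by
        obtain ⟨c, rfl⟩ := hj
        exact ⟨-c, by omega⟩
      have hs : ∀ β p : Fin 4, Even (sx β i (W p j)) := by
        intro β p
        rw [hW]
        unfold sx
        split_ifs
        · exact hW'
        · exact hW'.add hi
        · exact hi
      by_cases hall : ∀ β p : Fin 4, (hx β i (W p j) : ℝ) / 2 + n β p = 0
      · exfalso
        apply h1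
        apply AffineIsometryEquiv.ext
        intro x
        apply euc_ext
        intro β p
        rw [h x, hall β p, sg_even (hs β p), hQ]
        simp
      · push Not at hall
        obtain ⟨β, p, hne⟩ := hall
        refine ⟨1, ix (β, p), _, hne, fun x => ?_⟩
        rw [pow_one, h x, sg_even (hs β p), hQ, one_mul]
    · refine ⟨1, ix (0, 0), _, odd_ne (hx 0 i (W 0 j)) (n 0 0) (by simpa [hx] using hi),
        fun x => ?_⟩
      have hW : Even (W 0 j) := by
        obtain ⟨c, rfl⟩ := hj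
        refine ⟨-c, ?_⟩
        unfold W
        simp
        omega
      have hQ : Q 0 j = 0 := by
        have h1 := Q_val 0 j
        apply Fin.ext
        simp at h1 ⊢
        omega
      rw [pow_one, h x, hQ, sg_even (by simpa [sx] using hW), one_mul]
  · have hk : ∃ k : ℕ, ((k : ℤ) * j) % 8 = 4 := by
      have : j % 8 = 1 ∨ j % 8 = 2 ∨ j % 8 = 3 ∨ j % 8 = 4 ∨ j % 8 = 5 ∨ j % 8 = 6 ∨
        j % 8 = 7 := by omega
      rcases this with h | h | h | h | h | h | h
      · exact ⟨4, by push_cast; omega⟩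
      · exact ⟨2, by push_cast; omega⟩
      · exact ⟨4, by push_cast; omega⟩
      · exact ⟨1, by push_cast; omega⟩
      · exact ⟨4, by push_cast; omega⟩
      · exact ⟨2, by push_cast; omega⟩
      · exact ⟨4, by push_cast; omega⟩
    obtain ⟨k, hk⟩ := hk
    obtain ⟨n', h'⟩ := h.pow k
    set i' := (k : ℤ) * i with hi'
    set j' := (k : ℤ) * j with hj'
    have hQ : Q 0 j' = 0 := by
      have h1 := Q_val 0 j'
      apply Fin.ext
      simp at h1 ⊢
      omega
    have hW : ¬ Even (W 0 j') := by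
      rw [Int.even_iff]
      unfold W
      simp
      omega
    by_cases hi : Even i'
    · refine ⟨k, ix (2, 0), _, odd_ne (hx 2 i' (W 0 j')) (n' 2 0) (by simpa [hx] using hW),
        fun x => ?_⟩
      rw [h' x, hQ, sg_even (by simpa [sx] using hi), one_mul]
    · refine ⟨k, ix (1, 0), _, odd_ne (hx 1 i' (W 0 j')) (n' 1 0) (by simpa [hx] using hi),
        fun x => ?_⟩
      have : Even (sx 1 i' (W 0 j')) := by
        simp only [sx, one_ne_zero, if_false, if_true]
        rw [Int.not_even_iff_odd] at hW hi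
        exact hW.add_odd hi
      rw [h' x, hQ, sg_even this, one_mul]

lemma eq_one_of_fixed {γ : Isom 16} (hγ : γ ∈ Gam) {x : Euc 16} (hx : γ x = x) : γ = 1 := by
  by_contra h1
  obtain ⟨k, c, t, ht, h⟩ := exists_translated hγ h1
  have : ∀ k : ℕ, (γ ^ k) x = x := by
    intro k
    induction k with
    | zero => simp
    | succ k ih => rw [pow_succ]; change (γ ^ k) (γ x) = x; rw [hx, ih]
  have h2 := h x
  rw [this k] at h2
  apply ht
  linarith

lemma torsionFree_Gam {γ : Isom 16} (hγ : γ ∈ Gam) (hf : IsOfFinOrder γ) : γ = 1 := by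
  by_contra h1
  obtain ⟨k, c, t, ht, h⟩ := exists_translated hγ h1
  obtain ⟨N, hN, hN'⟩ := isOfFinOrder_iff_pow_eq_one.mp hf
  have key : ∀ N : ℕ, ((γ ^ k) ^ N) (0 : Euc 16) c = N * t := by
    intro N
    induction N with
    | zero => simp
    | succ N ih =>
      rw [pow_succ']
      change (γ ^ k) (((γ ^ k) ^ N) 0) c = _
      rw [h, ih]
      push_cast
      ring
  have h2 := key N
  rw [← pow_mul, mul_comm, pow_mul, hN', one_pow] at h2
  simp at h2
  rcases h2 with h2 | h2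
  · omega
  · exact ht h2

lemma IsElt.reduce {γ : Isom 16} {i j : ℤ} {n : Fin 4 → Fin 4 → ℤ} (h : IsElt γ i j n) :
    ∃ n', IsElt γ (i % 2) (j % 8) n' := by
  have hQ : ∀ p, Q p (j % 8) = Q p j := by
    intro p
    have h1 := Q_val p j
    have h2 := Q_val p (j % 8)
    apply Fin.ext
    omega
  have hW : ∀ p, W p j = W p (j % 8) + -2 * (j / 8) := by
    intro p
    unfold W
    omega
  have hi : i = i % 2 + 2 * (i / 2) := by omega
  have hs : ∀ β p, sg (sx β i (W p j)) = sg (sx β (i % 2) (W p (j % 8))) := by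
    intro β p
    rw [hW p]
    conv_lhs => rw [hi]
    rw [sx_add, sg_add, sg_even (n := sx β (2 * (i / 2)) (-2 * (j / 8))), mul_one]
    unfold sx
    split_ifs
    · exact ⟨-(j / 8), by ring⟩
    · exact ⟨-(j / 8) + i / 2, by ring⟩
    · exact ⟨i / 2, by ring⟩
  have hh : ∀ β p, ∃ c : ℤ, hx β i (W p j) = hx β (i % 2) (W p (j % 8)) + 2 * c := by
    intro β p
    rw [hW p]
    conv => rhs; intro c; lhs; rw [hi]
    simp only [hx_add]
    unfold hx
    split_ifs
    · exact ⟨i / 2, by ring⟩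
    · exact ⟨i / 2, by ring⟩
    · exact ⟨-(j / 8), by ring⟩
  choose c hc using hh
  refine ⟨fun β p => n β p + c β p, fun x β p => ?_⟩
  rw [h x, hs, hQ, hc]
  push_cast
  ring

lemma coord_le_norm (x : Euc 16) (k : Fin 16) : |x k| ≤ ‖x‖ := by
  have := PiLp.norm_apply_le x k
  simpa using this

lemma finite_small (R : ℝ) : {γ : Isom 16 | γ ∈ Gam ∧ ‖γ 0‖ ≤ R}.Finite := by
  set N : ℤ := ⌈R⌉ + 1 with hN
  set S : Finset (ℤ × ℤ × (Fin 4 → Fin 4 → ℤ)) := (Finset.Icc 0 1) ×ˢ ((Finset.Icc 0 7) ×ˢ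
    (Fintype.piFinset fun _ : Fin 4 => Fintype.piFinset fun _ : Fin 4 =>
      Finset.Icc (-N) N)) with hS
  refine (S.finite_toSet.image fun t => elt t.1 t.2.1 t.2.2).subset ?_
  rintro γ ⟨⟨i, j, n, h⟩, hR⟩
  obtain ⟨n', h'⟩ := h.reduce
  refine ⟨(i % 2, j % 8, n'), ?_, h'.eq.symm⟩
  rw [Finset.mem_coe, hS]
  simp only [Finset.mem_product, Finset.mem_Icc, Fintype.mem_piFinset]
  refine ⟨by omega, by omega, fun β p => ?_⟩
  have h1 := h' 0 β p
  have h2 := (coord_le_norm (γ 0) (ix (β, p))).trans hR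
  rw [h1] at h2
  simp only [PiLp.zero_apply, mul_zero, zero_add] at h2
  have h3 : -2 ≤ hx β (i % 2) (W p (j % 8)) ∧ hx β (i % 2) (W p (j % 8)) ≤ 2 := by
    have := p.2
    unfold hx W
    split_ifs <;> omega
  have h4 : (-2 : ℝ) ≤ hx β (i % 2) (W p (j % 8)) := by exact_mod_cast h3.1
  have h5 : (hx β (i % 2) (W p (j % 8)) : ℝ) ≤ 2 := by exact_mod_cast h3.2
  have h6 := abs_le.mp h2
  have h7 : R ≤ ⌈R⌉ := Int.le_ceil R
  have h8 : (n' β p : ℝ) ≤ (N : ℤ) := by rw [hN]; push_cast; linarith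
  have h9 : ((-N : ℤ) : ℝ) ≤ (n' β p : ℝ) := by rw [hN]; push_cast; linarith
  exact ⟨by exact_mod_cast h9, by exact_mod_cast h8⟩

lemma isBieberbach_Gam : IsBieberbach Gam where
  discrete K hK := by
    obtain ⟨R, hR⟩ := hK.isBounded.subset_closedBall (0 : Euc 16)
    refine (finite_small (2 * R)).subset ?_
    rintro γ ⟨hγ, ⟨y, ⟨x, hx, rfl⟩, hy⟩⟩
    refine ⟨hγ, ?_⟩
    have h1 : ‖x‖ ≤ R := by simpa using hR hx
    have h2 : ‖γ x‖ ≤ R := by simpa using hR hy
    have h3 : dist (γ 0) (γ x) = dist (0 : Euc 16) x := γ.dist_map 0 x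
    rw [dist_zero_left] at h3
    have h4 : ‖γ 0‖ ≤ dist (γ 0) (γ x) + ‖γ x‖ := by
      have := dist_triangle (γ 0) (γ x) 0
      simpa [dist_zero_right] using this
    linarith
  cocompact := by
    refine ⟨Metric.closedBall 0 4, isCompact_closedBall _ _, fun x => ?_⟩
    refine ⟨elt 0 0 (fun β p => -⌊x (ix (β, p))⌋), elt_mem _ _ _, ?_⟩
    rw [mem_closedBall_zero_iff]
    have h1 : ‖elt 0 0 (fun β p => -⌊x (ix (β, p))⌋) x‖ ^ 2 ≤ 4 ^ 2 := by
      rw [norm_sq_eq]
      calc _ ≤ ∑ β : Fin 4, ∑ p : Fin 4, (1 : ℝ) := by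
            refine Finset.sum_le_sum fun β _ => Finset.sum_le_sum fun p _ => ?_
            rw [isElt_elt]
            have e : sg (sx β 0 (W p 0)) * x (ix (β, Q p 0)) +
                ((hx β 0 (W p 0) : ℝ) / 2 + ((-⌊x (ix (β, p))⌋ : ℤ) : ℝ)) =
                Int.fract (x (ix (β, p))) := by
              simp only [sx, hx, W_zero, Q_zero, ite_self, sg_zero, one_mul, Int.cast_zero,
                zero_div, zero_add, Int.cast_neg]
              rw [← Int.self_sub_floor]
              ring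
            rw [e]
            have h2 := Int.fract_nonneg (x (ix (β, p)))
            have h3 := Int.fract_lt_one (x (ix (β, p)))
            nlinarith
        _ = 4 ^ 2 := by norm_num
    exact (sq_le_sq₀ (norm_nonneg _) (by norm_num)).mp h1
  torsionFree γ hγ hf := torsionFree_Gam hγ hf

/-! ### The first Betti number -/

/-- Two integral translations compose by adding. -/
lemma isElt_transl_mul {γ γ' : Isom 16} {n n' : Fin 4 → Fin 4 → ℤ}
    (h : IsElt γ 0 0 n) (h' : IsElt γ' 0 0 n') :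
    IsElt (γ * γ') 0 0 (fun β p => n β p + n' β p) := by
  intro x β p
  change γ (γ' x) (ix (β, p)) = _
  rw [h, h']
  simp [sx, hx]
  ring

/-- The element `b⁴`. -/
def b4 : Gam := ⟨elt 0 4 0, elt_mem _ _ _⟩

/-- The element `a`. -/
def a1 : Gam := ⟨elt 1 0 0, elt_mem _ _ _⟩

/-- The translation by an integral vector. -/
def tr (n : Fin 4 → Fin 4 → ℤ) : Gam := ⟨elt 0 0 n, elt_mem _ _ _⟩

lemma tr_apply (n : Fin 4 → Fin 4 → ℤ) (x : Euc 16) (β p : Fin 4) :
    (tr n : Isom 16) x (ix (β, p)) = x (ix (β, p)) + n β p := by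
  have := isElt_elt 0 0 n x β p
  change (elt 0 0 n : Isom 16) x (ix (β, p)) = _
  simpa [sx, hx] using this

lemma W_four (p : Fin 4) : W p 4 = -1 := by
  have := p.2
  unfold W
  omega

lemma Q_four (p : Fin 4) : Q p 4 = p := by
  have h1 := Q_val p 4
  have := p.2
  apply Fin.ext
  omega

lemma b4_apply (x : Euc 16) (β p : Fin 4) :
    (b4 : Isom 16) x (ix (β, p)) =
      (if β = 0 ∨ β = 1 then -x (ix (β, p)) else x (ix (β, p)) - 1 / 2) := by
  have := isElt_elt 0 4 0 x β p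
  simp only [b4]
  rw [this, W_four, Q_four]
  fin_cases β <;> simp [sx, hx, sg_odd, sg_even] <;> ring

lemma a1_apply (x : Euc 16) (β p : Fin 4) :
    (a1 : Isom 16) x (ix (β, p)) =
      (if β = 0 then x (ix (β, p)) + 1 / 2 else if β = 1 then - x (ix (β, p)) + 1 / 2
        else - x (ix (β, p))) := by
  have := isElt_elt 1 0 0 x β p
  simp only [a1]
  rw [this, W_zero, Q_zero]
  fin_cases β <;> simp [sx, hx, sg_odd]

lemma conj_b4 (n : Fin 4 → Fin 4 → ℤ) (hn : ∀ β p, β ≠ 0 → β ≠ 1 → n β p = 0) :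
    b4 * tr n = (tr n)⁻¹ * b4 := by
  rw [eq_inv_mul_iff_mul_eq]
  apply Subtype.ext
  apply AffineIsometryEquiv.ext
  intro x
  apply euc_ext
  intro β p
  change (tr n : Isom 16) ((b4 : Isom 16) ((tr n : Isom 16) x)) (ix (β, p)) =
    (b4 : Isom 16) x (ix (β, p))
  rw [tr_apply, b4_apply, b4_apply, tr_apply]
  by_cases h : β = 0 ∨ β = 1
  · simp [h]
  · have h0 : β ≠ 0 := fun h' => h (Or.inl h')
    have h1 : β ≠ 1 := fun h' => h (Or.inr h')
    simp [h0, h1, hn β p h0 h1]

lemma conj_a1 (n : Fin 4 → Fin 4 → ℤ) (hn : ∀ β p, β ≠ 2 → β ≠ 3 → n β p = 0) :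
    a1 * tr n = (tr n)⁻¹ * a1 := by
  rw [eq_inv_mul_iff_mul_eq]
  apply Subtype.ext
  apply AffineIsometryEquiv.ext
  intro x
  apply euc_ext
  intro β p
  change (tr n : Isom 16) ((a1 : Isom 16) ((tr n : Isom 16) x)) (ix (β, p)) =
    (a1 : Isom 16) x (ix (β, p))
  rw [tr_apply, a1_apply, a1_apply, tr_apply]
  by_cases h0 : β = 0
  · simp [h0, hn 0 p (by decide) (by decide)]
  · by_cases h1 : β = 1
    · simp [h1, hn 1 p (by decide) (by decide)]
    · simp [h0, h1]

lemma sq_eq_one_of_conj {G : Type*} [CommGroup G] {g t : G} (h : g * t = t⁻¹ * g) :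
    t ^ 2 = 1 := by
  have : t = t⁻¹ := by
    have h2 : g * t = g * t⁻¹ := by rw [h, mul_comm]
    exact mul_left_cancel h2
  rw [sq]
  nth_rewrite 2 [this]
  simp

lemma tr_add (n n' : Fin 4 → Fin 4 → ℤ) :
    tr (fun β p => n β p + n' β p) = tr n * tr n' := by
  apply Subtype.ext
  apply AffineIsometryEquiv.ext
  intro x
  apply euc_ext
  intro β p
  change _ = (tr n : Isom 16) ((tr n' : Isom 16) x) (ix (β, p))
  rw [tr_apply, tr_apply, tr_apply]
  push_cast
  ring

lemma abel_tr (n : Fin 4 → Fin 4 → ℤ) : (Abelianization.of (tr n)) ^ 2 = 1 := by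
  set n1 : Fin 4 → Fin 4 → ℤ := fun β p => if β = 0 ∨ β = 1 then n β p else 0 with hn1
  set n2 : Fin 4 → Fin 4 → ℤ := fun β p => if β = 0 ∨ β = 1 then 0 else n β p with hn2
  have e : n = fun β p => n1 β p + n2 β p := by
    funext β p
    simp only [hn1, hn2]
    split_ifs <;> simp
  have h1 : (Abelianization.of (tr n1)) ^ 2 = 1 := by
    have := conj_b4 n1 (by
      intro β p h0 h1
      simp [hn1, h0, h1])
    apply sq_eq_one_of_conj (g := Abelianization.of b4)
    rw [← map_mul, this, map_mul, map_inv]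
  have h2 : (Abelianization.of (tr n2)) ^ 2 = 1 := by
    have := conj_a1 n2 (by
      intro β p h0 h1
      have : β = 0 ∨ β = 1 := by
        fin_cases β <;> simp at h0 h1 ⊢
      simp [hn2, this])
    apply sq_eq_one_of_conj (g := Abelianization.of a1)
    rw [← map_mul, this, map_mul, map_inv]
  rw [e, tr_add, map_mul, mul_pow, h1, h2, one_mul]

lemma abel_pow (γ : Gam) : (Abelianization.of γ) ^ 16 = 1 := by
  obtain ⟨i, j, n, h⟩ := γ.2
  obtain ⟨n', h'⟩ := h.pow 8
  obtain ⟨n'', h''⟩ := h'.reduce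
  have e1 : (((8 : ℕ) : ℤ) * i) % 2 = 0 := by push_cast; omega
  have e2 : (((8 : ℕ) : ℤ) * j) % 8 = 0 := by push_cast; omega
  rw [e1, e2] at h''
  have e3 : γ ^ 8 = tr n'' := by
    apply Subtype.ext
    exact h''.eq
  have e4 : (Abelianization.of γ) ^ 16 = ((Abelianization.of γ) ^ 8) ^ 2 := by
    rw [← pow_mul]
  rw [e4, ← map_pow, e3, abel_tr]

lemma bettiOne_Gam : bettiOne Gam = 0 := by
  unfold bettiOne
  rw [rank_eq_zero_iff]
  intro x
  refine ⟨16, by norm_num, ?_⟩
  obtain ⟨γ, hγ⟩ : ∃ γ : Gam, Abelianization.of γ = x.toMul :=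
    QuotientGroup.mk_surjective x.toMul
  have := abel_pow γ
  rw [hγ] at this
  have h2 : (16 : ℕ) • x = 0 := by
    apply Additive.toMul.injective
    rw [toMul_nsmul, this]
    rfl
  exact_mod_cast h2

/-! ### A complex structure -/

/-- The underlying map of a complex structure. -/
def jFun (x : Euc 16) : Euc 16 :=
  WithLp.toLp 2 (fun k => if (ix.symm k).1 = 2 then - x (ix (3, (ix.symm k).2))
    else if (ix.symm k).1 = 3 then x (ix (2, (ix.symm k).2))
    else sg (W (ix.symm k).2 2) * x (ix ((ix.symm k).1, Q (ix.symm k).2 2)))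

lemma jFun_apply (x : Euc 16) (β p : Fin 4) :
    jFun x (ix (β, p)) = if β = 2 then - x (ix (3, p)) else if β = 3 then x (ix (2, p))
      else sg (W p 2) * x (ix (β, Q p 2)) := by
  simp [jFun]

lemma jFun_jFun (x : Euc 16) : jFun (jFun x) = -x := by
  apply euc_ext
  intro β p
  rw [PiLp.neg_apply, jFun_apply]
  by_cases h2 : β = 2
  · subst h2
    rw [if_pos rfl, jFun_apply]
    simp
  · by_cases h3 : β = 3
    · subst h3
      rw [if_neg (by decide), if_pos rfl, jFun_apply]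
      simp
    · rw [if_neg h2, if_neg h3, jFun_apply, if_neg h2, if_neg h3, ← mul_assoc, ← sg_add,
        ← W_add, ← Q_add]
      have e : (2 : ℤ) + 2 = 4 := by norm_num
      rw [e, W_four, Q_four, sg_odd (by decide)]
      ring

/-- A complex structure on the example. -/
def jEquiv : Euc 16 ≃ₗ[ℝ] Euc 16 where
  toFun := jFun
  invFun x := - jFun x
  map_add' x y := by
    apply euc_ext; intro β p
    simp only [jFun_apply, PiLp.add_apply]; split_ifs <;> ring
  map_smul' c x := by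
    apply euc_ext; intro β p
    simp only [jFun_apply, PiLp.smul_apply, smul_eq_mul, RingHom.id_apply]
    split_ifs <;> ring
  left_inv x := by
    change - jFun (jFun x) = x
    rw [jFun_jFun, neg_neg]
  right_inv x := by
    change jFun (- jFun x) = x
    have h : jFun (- jFun x) = - jFun (jFun x) := by
      apply euc_ext; intro β p
      simp only [jFun_apply, PiLp.neg_apply]
      split_ifs <;> ring
    rw [h, jFun_jFun, neg_neg]

lemma IsElt.lin_eq {γ : Isom 16} {i j : ℤ} {n : Fin 4 → Fin 4 → ℤ} (h : IsElt γ i j n) :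
    γ.linearIsometryEquiv = lin i j := by
  rw [h.eq, elt_lin]

lemma isComplexStructure_jEquiv : IsComplexStructure Gam jEquiv := by
  refine ⟨jFun_jFun, ?_⟩
  rintro γ ⟨i, j, n, h⟩ v
  rw [h.lin_eq]
  change jFun (lin i j v) = lin i j (jFun v)
  apply euc_ext
  intro β p
  rw [jFun_apply, lin_apply i j (jFun v), jFun_apply]
  by_cases h2 : β = 2
  · subst h2
    rw [if_pos rfl, if_pos rfl, lin_apply]
    simp [sx]
  · by_cases h3 : β = 3
    · subst h3
      have h32 : ¬ ((3 : Fin 4) = 2) := by decide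
      rw [if_neg h32, if_neg h32, if_pos rfl, if_pos rfl, lin_apply]
      simp [sx]
    · rw [if_neg h2, if_neg h2, if_neg h3, if_neg h3, lin_apply, ← mul_assoc, ← mul_assoc,
        ← Q_add, ← Q_add, ← sg_add, ← sg_add]
      have e1 : W p 2 = sx β 0 (W p 2) := by
        have : β = 0 ∨ β = 1 := by
          fin_cases β <;> simp at h2 h3 ⊢
        rcases this with rfl | rfl <;> simp [sx]
      have e2 : W (Q p j) 2 = sx β 0 (W (Q p j) 2) := by
        have : β = 0 ∨ β = 1 := by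
          fin_cases β <;> simp at h2 h3 ⊢
        rcases this with rfl | rfl <;> simp [sx]
      rw [e1, e2, ← sx_add, ← sx_add, ← W_add, ← W_add, add_comm 2 j, add_zero, zero_add]

/-! ### The unit `3 + 2√2` -/

/-- The linear map `1 + (1 - B⁴)(1 + B + B⁻¹)`, where `B = lin 0 1`. -/
def uMap (x : Euc 16) : Euc 16 :=
  (2 : ℝ) • x + lin 0 1 x + lin 0 (-1) x - lin 0 3 x - lin 0 4 x - lin 0 5 x

/-- Its inverse `1 + (1 - B⁴)(1 - B - B⁻¹)`. -/
def vMap (x : Euc 16) : Euc 16 :=
  (2 : ℝ) • x - lin 0 1 x - lin 0 (-1) x + lin 0 3 x - lin 0 4 x + lin 0 5 x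

lemma uMap_apply (x : Euc 16) (β p : Fin 4) : uMap x (ix (β, p)) = 2 * x (ix (β, p)) +
    sg (sx β 0 (W p 1)) * x (ix (β, Q p 1)) + sg (sx β 0 (W p (-1))) * x (ix (β, Q p (-1))) -
    sg (sx β 0 (W p 3)) * x (ix (β, Q p 3)) - sg (sx β 0 (W p 4)) * x (ix (β, Q p 4)) -
    sg (sx β 0 (W p 5)) * x (ix (β, Q p 5)) := by
  simp [uMap, lin_apply]

lemma vMap_apply (x : Euc 16) (β p : Fin 4) : vMap x (ix (β, p)) = 2 * x (ix (β, p)) -
    sg (sx β 0 (W p 1)) * x (ix (β, Q p 1)) - sg (sx β 0 (W p (-1))) * x (ix (β, Q p (-1))) +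
    sg (sx β 0 (W p 3)) * x (ix (β, Q p 3)) - sg (sx β 0 (W p 4)) * x (ix (β, Q p 4)) +
    sg (sx β 0 (W p 5)) * x (ix (β, Q p 5)) := by
  simp [vMap, lin_apply]

lemma sg_one' : sg 1 = -1 := sg_odd (by decide)
lemma sg_neg_one' : sg (-1) = -1 := sg_odd (by decide)
lemma sg_neg_two' : sg (-2) = 1 := sg_even (by decide)

/-- Coordinates of `uMap` on blocks `0, 1`. -/
lemma uMap_01 (x : Euc 16) (β : Fin 4) (h : β = 0 ∨ β = 1) :
    uMap x (ix (β, 0)) = 3 * x (ix (β, 0)) + 2 * (x (ix (β, 1)) - x (ix (β, 3))) ∧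
    uMap x (ix (β, 1)) = 3 * x (ix (β, 1)) + 2 * (x (ix (β, 0)) + x (ix (β, 2))) ∧
    uMap x (ix (β, 2)) = 3 * x (ix (β, 2)) + 2 * (x (ix (β, 1)) + x (ix (β, 3))) ∧
    uMap x (ix (β, 3)) = 3 * x (ix (β, 3)) + 2 * (x (ix (β, 2)) - x (ix (β, 0))) := by
  have hs : ∀ w, sx β 0 w = w := by
    intro w
    rcases h with rfl | rfl <;> simp [sx]
  have w01 : W 0 1 = -1 := by decide
  have w11 : W 1 1 = 0 := by decide
  have w21 : W 2 1 = 0 := by decide
  have w31 : W 3 1 = 0 := by decide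
  have w0m : W 0 (-1) = 0 := by decide
  have w1m : W 1 (-1) = 0 := by decide
  have w2m : W 2 (-1) = 0 := by decide
  have w3m : W 3 (-1) = 1 := by decide
  have w03 : W 0 3 = -1 := by decide
  have w13 : W 1 3 = -1 := by decide
  have w23 : W 2 3 = -1 := by decide
  have w33 : W 3 3 = 0 := by decide
  have w05 : W 0 5 = -2 := by decide
  have w15 : W 1 5 = -1 := by decide
  have w25 : W 2 5 = -1 := by decide
  have w35 : W 3 5 = -1 := by decide
  have q01 : Q 0 1 = 3 := by decide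
  have q11 : Q 1 1 = 0 := by decide
  have q21 : Q 2 1 = 1 := by decide
  have q31 : Q 3 1 = 2 := by decide
  have q0m : Q 0 (-1) = 1 := by decide
  have q1m : Q 1 (-1) = 2 := by decide
  have q2m : Q 2 (-1) = 3 := by decide
  have q3m : Q 3 (-1) = 0 := by decide
  have q03 : Q 0 3 = 1 := by decide
  have q13 : Q 1 3 = 2 := by decide
  have q23 : Q 2 3 = 3 := by decide
  have q33 : Q 3 3 = 0 := by decide
  have q05 : Q 0 5 = 3 := by decide
  have q15 : Q 1 5 = 0 := by decide
  have q25 : Q 2 5 = 1 := by decide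
  have q35 : Q 3 5 = 2 := by decide
  simp only [uMap_apply, hs, W_four, Q_four, w01, w11, w21, w31, w0m, w1m, w2m, w3m, w03, w13,
    w23, w33, w05, w15, w25, w35, q01, q11, q21, q31, q0m, q1m, q2m, q3m, q03, q13, q23, q33,
    q05, q15, q25, q35, sg_one', sg_neg_one', sg_neg_two', sg_zero]
  refine ⟨by ring, by ring, by ring, by ring⟩

/-- Coordinates of `vMap` on blocks `0, 1`. -/
lemma vMap_01 (x : Euc 16) (β : Fin 4) (h : β = 0 ∨ β = 1) :
    vMap x (ix (β, 0)) = 3 * x (ix (β, 0)) - 2 * (x (ix (β, 1)) - x (ix (β, 3))) ∧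
    vMap x (ix (β, 1)) = 3 * x (ix (β, 1)) - 2 * (x (ix (β, 0)) + x (ix (β, 2))) ∧
    vMap x (ix (β, 2)) = 3 * x (ix (β, 2)) - 2 * (x (ix (β, 1)) + x (ix (β, 3))) ∧
    vMap x (ix (β, 3)) = 3 * x (ix (β, 3)) - 2 * (x (ix (β, 2)) - x (ix (β, 0))) := by
  have hs : ∀ w, sx β 0 w = w := by
    intro w
    rcases h with rfl | rfl <;> simp [sx]
  have w01 : W 0 1 = -1 := by decide
  have w11 : W 1 1 = 0 := by decide
  have w21 : W 2 1 = 0 := by decide
  have w31 : W 3 1 = 0 := by decide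
  have w0m : W 0 (-1) = 0 := by decide
  have w1m : W 1 (-1) = 0 := by decide
  have w2m : W 2 (-1) = 0 := by decide
  have w3m : W 3 (-1) = 1 := by decide
  have w03 : W 0 3 = -1 := by decide
  have w13 : W 1 3 = -1 := by decide
  have w23 : W 2 3 = -1 := by decide
  have w33 : W 3 3 = 0 := by decide
  have w05 : W 0 5 = -2 := by decide
  have w15 : W 1 5 = -1 := by decide
  have w25 : W 2 5 = -1 := by decide
  have w35 : W 3 5 = -1 := by decide
  have q01 : Q 0 1 = 3 := by decide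
  have q11 : Q 1 1 = 0 := by decide
  have q21 : Q 2 1 = 1 := by decide
  have q31 : Q 3 1 = 2 := by decide
  have q0m : Q 0 (-1) = 1 := by decide
  have q1m : Q 1 (-1) = 2 := by decide
  have q2m : Q 2 (-1) = 3 := by decide
  have q3m : Q 3 (-1) = 0 := by decide
  have q03 : Q 0 3 = 1 := by decide
  have q13 : Q 1 3 = 2 := by decide
  have q23 : Q 2 3 = 3 := by decide
  have q33 : Q 3 3 = 0 := by decide
  have q05 : Q 0 5 = 3 := by decide
  have q15 : Q 1 5 = 0 := by decide
  have q25 : Q 2 5 = 1 := by decide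
  have q35 : Q 3 5 = 2 := by decide
  simp only [vMap_apply, hs, W_four, Q_four, w01, w11, w21, w31, w0m, w1m, w2m, w3m, w03, w13,
    w23, w33, w05, w15, w25, w35, q01, q11, q21, q31, q0m, q1m, q2m, q3m, q03, q13, q23, q33,
    q05, q15, q25, q35, sg_one', sg_neg_one', sg_neg_two', sg_zero]
  refine ⟨by ring, by ring, by ring, by ring⟩

lemma Q_neg_one (p : Fin 4) : Q p (-1) = Q p 3 := by
  have h1 := Q_val p (-1)
  have h2 := Q_val p 3
  apply Fin.ext
  omega

lemma Q_five (p : Fin 4) : Q p 5 = Q p 1 := by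
  have h1 := Q_val p 5
  have h2 := Q_val p 1
  apply Fin.ext
  omega

lemma uMap_23 (x : Euc 16) (β p : Fin 4) (h0 : β ≠ 0) (h1 : β ≠ 1) :
    uMap x (ix (β, p)) = x (ix (β, p)) := by
  have hs : ∀ w, sx β 0 w = 0 := by
    intro w
    simp [sx, h0, h1]
  rw [uMap_apply]
  simp only [hs, Q_four, Q_neg_one, Q_five, sg_zero]
  ring

lemma vMap_23 (x : Euc 16) (β p : Fin 4) (h0 : β ≠ 0) (h1 : β ≠ 1) :
    vMap x (ix (β, p)) = x (ix (β, p)) := by
  have hs : ∀ w, sx β 0 w = 0 := by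
    intro w
    simp [sx, h0, h1]
  rw [vMap_apply]
  simp only [hs, Q_four, Q_neg_one, Q_five, sg_zero]
  ring

lemma uMap_vMap (x : Euc 16) : uMap (vMap x) = x := by
  apply euc_ext
  intro β p
  by_cases h : β = 0 ∨ β = 1
  · obtain ⟨u0, u1, u2, u3⟩ := uMap_01 (vMap x) β h
    obtain ⟨v0, v1, v2, v3⟩ := vMap_01 x β h
    have hp : p = 0 ∨ p = 1 ∨ p = 2 ∨ p = 3 := by fin_cases p <;> simp
    rcases hp with rfl | rfl | rfl | rfl
    · rw [u0, v0, v1, v3]; ring
    · rw [u1, v0, v1, v2]; ring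
    · rw [u2, v1, v2, v3]; ring
    · rw [u3, v0, v2, v3]; ring
  · rw [not_or] at h
    rw [uMap_23 _ _ _ h.1 h.2, vMap_23 _ _ _ h.1 h.2]

lemma vMap_uMap (x : Euc 16) : vMap (uMap x) = x := by
  apply euc_ext
  intro β p
  by_cases h : β = 0 ∨ β = 1
  · obtain ⟨u0, u1, u2, u3⟩ := vMap_01 (uMap x) β h
    obtain ⟨v0, v1, v2, v3⟩ := uMap_01 x β h
    have hp : p = 0 ∨ p = 1 ∨ p = 2 ∨ p = 3 := by fin_cases p <;> simp
    rcases hp with rfl | rfl | rfl | rfl
    · rw [u0, v0, v1, v3]; ring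
    · rw [u1, v0, v1, v2]; ring
    · rw [u2, v1, v2, v3]; ring
    · rw [u3, v0, v2, v3]; ring
  · rw [not_or] at h
    rw [vMap_23 _ _ _ h.1 h.2, uMap_23 _ _ _ h.1 h.2]

/-- The unit as a linear automorphism. -/
def uEquiv : Euc 16 ≃ₗ[ℝ] Euc 16 where
  toFun := uMap
  invFun := vMap
  map_add' x y := by
    simp only [uMap, map_add, smul_add]; abel
  map_smul' c x := by
    simp only [uMap, map_smul, RingHom.id_apply, smul_comm c (2 : ℝ), smul_add, smul_sub]
  left_inv := vMap_uMap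
  right_inv := uMap_vMap

lemma uEquiv_commutes {J : Euc 16 ≃ₗ[ℝ] Euc 16} (hJ : IsComplexStructure Gam J) (v : Euc 16) :
    uEquiv (J v) = J (uEquiv v) := by
  have h : ∀ j : ℤ, J (lin 0 j v) = lin 0 j (J v) := by
    intro j
    have := hJ.2 (elt 0 j 0) (elt_mem _ _ _) v
    rwa [elt_lin] at this
  change uMap (J v) = J (uMap v)
  simp only [uMap, map_add, map_sub, map_smul, h]

lemma lin_uMap (i j : ℤ) (x : Euc 16) : uMap (lin i j x) = lin i j (uMap x) := by
  have h : ∀ k : ℤ, lin 0 k (lin i j x) = lin i j (lin 0 k x) := by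
    intro k
    change linFun 0 k (linFun i j x) = linFun i j (linFun 0 k x)
    rw [linFun_comp, linFun_comp, add_comm, add_comm k j]
  simp only [uMap, map_add, map_sub, map_smul, h]

lemma lin_vMap (i j : ℤ) (x : Euc 16) : vMap (lin i j x) = lin i j (vMap x) := by
  have h : ∀ k : ℤ, lin 0 k (lin i j x) = lin i j (lin 0 k x) := by
    intro k
    change linFun 0 k (linFun i j x) = linFun i j (linFun 0 k x)
    rw [linFun_comp, linFun_comp, add_comm, add_comm k j]
  simp only [vMap, map_add, map_sub, map_smul, h]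

lemma IsElt.apply_eq {γ : Isom 16} {i j : ℤ} {n : Fin 4 → Fin 4 → ℤ} (h : IsElt γ i j n)
    (x : Euc 16) : γ x = lin i j x + γ 0 := by
  apply euc_ext
  intro β p
  rw [PiLp.add_apply, h x, h 0, lin_apply]
  simp

/-- A linear map which is the identity modulo `2` on blocks `0, 1`, is the identity on blocks
`2, 3` and commutes with all `lin i j` preserves the orbits. -/
lemma descend (F : Euc 16 →ₗ[ℝ] Euc 16) (hF : ∀ i j x, F (lin i j x) = lin i j (F x))
    (hF' : ∀ (m : Fin 4 → Fin 4 → ℤ), ∃ m' : Fin 4 → Fin 4 → ℤ, ∀ (a : Euc 16),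
      (∀ β p, a (ix (β, p)) = (m β p : ℝ) / 2) → ∀ β p, F a (ix (β, p)) =
        a (ix (β, p)) + m' β p)
    {x y : Euc 16} (hxy : ∃ γ ∈ Gam, γ x = y) : ∃ γ ∈ Gam, γ (F x) = F y := by
  obtain ⟨γ, ⟨i, j, n, h⟩, rfl⟩ := hxy
  obtain ⟨m', hm'⟩ := hF' (fun β p => hx β i (W p j) + 2 * n β p)
  have h1 := hm' (γ 0) (by
    intro β p
    rw [h 0 β p]
    push_cast
    simp
    ring)
  refine ⟨elt i j (fun β p => n β p + m' β p), elt_mem _ _ _, ?_⟩
  rw [h.apply_eq x, map_add, hF]
  apply euc_ext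
  intro β p
  rw [PiLp.add_apply, isElt_elt, lin_apply, h1, h 0 β p]
  push_cast
  simp
  ring

lemma descend_u {x y : Euc 16} (hxy : ∃ γ ∈ Gam, γ x = y) :
    ∃ γ ∈ Gam, γ (uEquiv x) = uEquiv y := by
  refine descend uEquiv.toLinearMap lin_uMap ?_ hxy
  intro m
  refine ⟨fun β p => if β = 0 ∨ β = 1 then (if p = 0 then m β 0 + (m β 1 - m β 3) else
    if p = 1 then m β 1 + (m β 0 + m β 2) else if p = 2 then m β 2 + (m β 1 + m β 3) else
    m β 3 + (m β 2 - m β 0)) else 0, fun a ha β p => ?_⟩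
  change uMap a (ix (β, p)) = _
  by_cases h : β = 0 ∨ β = 1
  · obtain ⟨u0, u1, u2, u3⟩ := uMap_01 a β h
    have hp : p = 0 ∨ p = 1 ∨ p = 2 ∨ p = 3 := by fin_cases p <;> simp
    rcases hp with rfl | rfl | rfl | rfl
    · rw [u0, ha, ha, ha]; simp [h]; ring
    · rw [u1, ha, ha, ha]; simp [h]; ring
    · rw [u2, ha, ha, ha]; simp [h]; ring
    · rw [u3, ha, ha, ha]; simp [h]; ring
  · have h' := not_or.mp h
    rw [uMap_23 _ _ _ h'.1 h'.2]
    simp [h]

lemma descend_v {x y : Euc 16} (hxy : ∃ γ ∈ Gam, γ x = y) :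
    ∃ γ ∈ Gam, γ (uEquiv.symm x) = uEquiv.symm y := by
  refine descend uEquiv.symm.toLinearMap lin_vMap ?_ hxy
  intro m
  refine ⟨fun β p => if β = 0 ∨ β = 1 then (if p = 0 then m β 0 - (m β 1 - m β 3) else
    if p = 1 then m β 1 - (m β 0 + m β 2) else if p = 2 then m β 2 - (m β 1 + m β 3) else
    m β 3 - (m β 2 - m β 0)) else 0, fun a ha β p => ?_⟩
  change vMap a (ix (β, p)) = _
  by_cases h : β = 0 ∨ β = 1
  · obtain ⟨u0, u1, u2, u3⟩ := vMap_01 a β h
    have hp : p = 0 ∨ p = 1 ∨ p = 2 ∨ p = 3 := by fin_cases p <;> simp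
    rcases hp with rfl | rfl | rfl | rfl
    · rw [u0, ha, ha, ha]; simp [h]; ring
    · rw [u1, ha, ha, ha]; simp [h]; ring
    · rw [u2, ha, ha, ha]; simp [h]; ring
    · rw [u3, ha, ha, ha]; simp [h]; ring
  · have h' := not_or.mp h
    rw [vMap_23 _ _ _ h'.1 h'.2]
    simp [h]

/-- The self-map of `M` induced by the unit. -/
def fU : Equiv.Perm (FlatManifold Gam) :=
  Quotient.congr uEquiv.toEquiv (fun x y => ⟨descend_u, fun h => by
    obtain ⟨γ, hγ, hγ'⟩ := descend_v h
    refine ⟨γ, hγ, ?_⟩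
    simpa using hγ'⟩)

lemma fU_proj (x : Euc 16) : fU (proj Gam x) = proj Gam (uEquiv x) := rfl

lemma fU_mem {J : Euc 16 ≃ₗ[ℝ] Euc 16} (hJ : IsComplexStructure Gam J) : fU ∈ Aut Gam J :=
  ⟨uEquiv.toAffineEquiv, fun x => fU_proj x, fun v => uEquiv_commutes hJ v⟩

/-- An eigenvector of the unit. -/
def wVec : Euc 16 := WithLp.toLp 2 (fun k => if (ix.symm k).1 = 0 then
  (if (ix.symm k).2 = 0 then √2 else if (ix.symm k).2 = 1 then 1 else
    if (ix.symm k).2 = 2 then 0 else -1) else 0)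

lemma wVec_apply (β p : Fin 4) : wVec (ix (β, p)) = if β = 0 then
  (if p = 0 then √2 else if p = 1 then 1 else if p = 2 then 0 else -1) else 0 := by
  simp [wVec]

lemma abs_wVec_le (β p : Fin 4) : |wVec (ix (β, p))| ≤ 2 := by
  rw [wVec_apply]
  have h2 : √2 ≤ 2 := by
    rw [Real.sqrt_le_left (by norm_num)]; norm_num
  split_ifs
  · rw [abs_of_nonneg (Real.sqrt_nonneg 2)]; exact h2
  · norm_num
  · norm_num
  · norm_num
  · norm_num

lemma uEquiv_wVec : uEquiv wVec = (3 + 2 * √2) • wVec := by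
  change uMap wVec = _
  have hsq : √2 * √2 = 2 := Real.mul_self_sqrt (by norm_num)
  apply euc_ext
  intro β p
  rw [PiLp.smul_apply, smul_eq_mul]
  by_cases h : β = 0 ∨ β = 1
  · obtain ⟨u0, u1, u2, u3⟩ := uMap_01 wVec β h
    have hp : p = 0 ∨ p = 1 ∨ p = 2 ∨ p = 3 := by fin_cases p <;> simp
    rcases hp with rfl | rfl | rfl | rfl
    · rw [u0]; simp only [wVec_apply]
      rcases h with rfl | rfl
      · simp; linarith
      · simp
    · rw [u1]; simp only [wVec_apply]
      rcases h with rfl | rfl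
      · simp
      · simp
    · rw [u2]; simp only [wVec_apply]
      rcases h with rfl | rfl
      · simp
      · simp
    · rw [u3]; simp only [wVec_apply]
      rcases h with rfl | rfl
      · simp; ring
      · simp
  · have h' := not_or.mp h
    rw [uMap_23 _ _ _ h'.1 h'.2, wVec_apply, if_neg h'.1]
    simp

lemma fU_pow_proj (k : ℕ) (s : ℝ) :
    (fU ^ k) (proj Gam (s • wVec)) = proj Gam (((3 + 2 * √2) ^ k * s) • wVec) := by
  induction k generalizing s with
  | zero => simp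
  | succ k ih =>
    rw [pow_succ, Equiv.Perm.mul_apply, fU_proj, map_smul, uEquiv_wVec, smul_smul, ih]
    congr 2
    ring

lemma fU_pow_injective : Function.Injective (fun k : ℕ => fU ^ k) := by
  intro k l hkl
  simp only at hkl
  set L : ℝ := 3 + 2 * √2 with hL
  have hL1 : 1 < L := by
    have := Real.sqrt_nonneg 2
    rw [hL]; linarith
  have hL0 : 0 < L := by linarith
  set s : ℝ := 1 / (8 * (L ^ k + L ^ l)) with hs
  have hsum : 0 < L ^ k + L ^ l := by positivity
  have hs0 : 0 < s := by positivity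
  have h1 := fU_pow_proj k s
  rw [hkl, fU_pow_proj l s] at h1
  obtain ⟨γ, ⟨i, j, n, h⟩, hγ⟩ : ∃ γ ∈ Gam, γ ((L ^ l * s) • wVec) = (L ^ k * s) • wVec :=
    Quotient.exact h1
  have h0 : γ 0 = 0 := by
    apply euc_ext
    intro β p
    have e1 := h ((L ^ l * s) • wVec) β p
    rw [hγ] at e1
    have e2 := h 0 β p
    simp only [PiLp.zero_apply, mul_zero, zero_add] at e2
    rw [← e2] at e1
    simp only [PiLp.smul_apply, smul_eq_mul] at e1
    have e3 : γ 0 (ix (β, p)) = L ^ k * s * wVec (ix (β, p)) -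
        sg (sx β i (W p j)) * (L ^ l * s * wVec (ix (β, Q p j))) := by linarith
    have e4 : |γ 0 (ix (β, p))| ≤ 1 / 4 := by
      rw [e3]
      calc _ ≤ |L ^ k * s * wVec (ix (β, p))| +
            |sg (sx β i (W p j)) * (L ^ l * s * wVec (ix (β, Q p j)))| := abs_sub _ _
        _ = L ^ k * s * |wVec (ix (β, p))| + L ^ l * s * |wVec (ix (β, Q p j))| := by
            have hsg : |sg (sx β i (W p j))| = 1 := by
              by_cases hh : Even (sx β i (W p j))
              · rw [sg_even hh]; norm_num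
              · rw [sg_odd hh]; norm_num
            rw [abs_mul, abs_mul (sg _), hsg, one_mul, abs_mul (L ^ l * s),
              abs_of_pos (by positivity : 0 < L ^ k * s),
              abs_of_pos (by positivity : 0 < L ^ l * s)]
        _ ≤ L ^ k * s * 2 + L ^ l * s * 2 := by
            gcongr
            · exact abs_wVec_le _ _
            · exact abs_wVec_le _ _
        _ = 1 / 4 := by
            rw [hs]
            field_simp
            ring
    have e5 : γ 0 (ix (β, p)) = ((hx β i (W p j) + 2 * n β p : ℤ) : ℝ) / 2 := by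
      rw [e2]; push_cast; ring
    rw [e5, abs_le] at e4
    have e6 : ((hx β i (W p j) + 2 * n β p : ℤ) : ℝ) < 1 := by linarith [e4.2]
    have e7 : (-1 : ℝ) < ((hx β i (W p j) + 2 * n β p : ℤ) : ℝ) := by linarith [e4.1]
    have e8 : (hx β i (W p j) + 2 * n β p : ℤ) < 1 := by exact_mod_cast e6
    have e9 : (-1 : ℤ) < (hx β i (W p j) + 2 * n β p : ℤ) := by exact_mod_cast e7
    have e10 : (hx β i (W p j) + 2 * n β p : ℤ) = 0 := by omega
    rw [e5, e10]
    simp
  have h2 : γ = 1 := eq_one_of_fixed ⟨i, j, n, h⟩ h0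
  rw [h2] at hγ
  have h3 : L ^ l * s = L ^ k * s := by
    have := congrArg (fun v : Euc 16 => v (ix (0, 1))) hγ
    simpa [wVec_apply] using this
  have h4 : L ^ l = L ^ k := mul_right_cancel₀ hs0.ne' h3
  exact (pow_right_injective₀ hL0 hL1.ne' h4).symm

lemma infinite_Aut {J : Euc 16 ≃ₗ[ℝ] Euc 16} (hJ : IsComplexStructure Gam J) :
    Infinite (Aut Gam J) := by
  refine Infinite.of_injective
    (fun k : ℕ => (⟨fU ^ k, Subgroup.pow_mem _ (fU_mem hJ) k⟩ : Aut Gam J)) ?_
  intro k l hkl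
  exact fU_pow_injective (congrArg Subtype.val hkl)

lemma hasExample_Euc : HasExample (Euc 16) :=
  ⟨Gam, isBieberbach_Gam, bettiOne_Gam, ⟨jEquiv, isComplexStructure_jEquiv⟩,
    fun _ hJ => infinite_Aut hJ⟩

end

end Pool.Agent.H74.Flat
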