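import Pool.Agent.H74.ForestDefs

set_option autoImplicit false

/-! # One lattice: segments in non-rational directions come close to the lattice -/

namespace Pool.Agent.H74.Forest

open Complex

/-- lattice vector with integer coordinates -/
noncomputable def lv (a b : ℤ) : ℂ := (a : ℂ) + (b : ℂ) * w3

theorem lv_mem (a b : ℤ) : lv a b ∈ Lam := ⟨a, b, rfl⟩

theorem lv_re (a b : ℤ) : (lv a b).re = a + b / 2 := by
  simp [lv, w3]; ring

theorem lv_im (a b : ℤ) : (lv a b).im = b * (Real.sqrt 3 / 2) := by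
  simp [lv, w3]

theorem lv_add (a b c d : ℤ) : lv (a + c) (b + d) = lv a b + lv c d := by
  simp only [lv]; push_cast; ring

theorem lv_neg (a b : ℤ) : lv (-a) (-b) = - lv a b := by
  simp only [lv]; push_cast; ring

theorem lv_smul (n a b : ℤ) : lv (n * a) (n * b) = (n : ℂ) * lv a b := by
  simp only [lv]; push_cast; ring

theorem lv_normSq (a b : ℤ) : Complex.normSq (lv a b) = (a : ℝ) ^ 2 + a * b + b ^ 2 := by
  rw [Complex.normSq_apply, lv_re, lv_im]
  have h3 : Real.sqrt 3 * Real.sqrt 3 = 3 := Real.mul_self_sqrt (by norm_num)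
  linear_combination ((b : ℝ) ^ 2 / 4) * h3

theorem lv_ne_zero {a b : ℤ} (h : (a, b) ≠ (0, 0)) : lv a b ≠ 0 := by
  intro h0
  have hn : Complex.normSq (lv a b) = 0 := by rw [h0]; simp
  rw [lv_normSq] at hn
  have hb : (b : ℝ) = 0 := by
    nlinarith [sq_nonneg ((a : ℝ) + b / 2), sq_nonneg (b : ℝ)]
  have ha : (a : ℝ) = 0 := by
    rw [hb] at hn
    nlinarith [sq_nonneg (a : ℝ)]
  apply h
  have ha' : a = 0 := by exact_mod_cast ha
  have hb' : b = 0 := by exact_mod_cast hb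
  rw [ha', hb']

theorem norm_w3 : ‖w3‖ = 1 := by
  have h : Complex.normSq w3 = 1 := by
    have := lv_normSq 0 1
    simpa [lv] using this
  rw [Complex.normSq_eq_norm_sq] at h
  have := norm_nonneg w3
  nlinarith

theorem lv_norm_le (a b : ℤ) (N : ℝ) (ha : |(a : ℝ)| ≤ N) (hb : |(b : ℝ)| ≤ N) :
    ‖lv a b‖ ≤ 2 * N := by
  calc ‖lv a b‖ ≤ ‖(a : ℂ)‖ + ‖(b : ℂ) * w3‖ := norm_add_le _ _
    _ = |(a : ℝ)| + |(b : ℝ)| := by
        rw [norm_mul, norm_w3, mul_one, Complex.norm_intCast, Complex.norm_intCast]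
    _ ≤ 2 * N := by linarith

/-- every point is within distance 1 of the lattice -/
theorem exists_near (z : ℂ) : ∃ a b : ℤ, ‖lv a b - z‖ ≤ 1 := by
  set β : ℝ := z.im / (Real.sqrt 3 / 2) with hβ
  set α : ℝ := z.re - β / 2 with hα
  have h3 : (0 : ℝ) < Real.sqrt 3 / 2 := by positivity
  have hz : z = (α : ℂ) + (β : ℂ) * w3 := by
    apply Complex.ext
    · simp only [w3, Complex.add_re, Complex.ofReal_re, Complex.mul_re, Complex.ofReal_im, zero_mul,
        sub_zero, hα]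
      ring
    · simp only [w3, Complex.add_im, Complex.ofReal_re, Complex.mul_im, Complex.ofReal_im, zero_mul,
        add_zero, zero_add]
      rw [hβ, div_mul_cancel₀ _ h3.ne']
  refine ⟨round α, round β, ?_⟩
  have h1 : lv (round α) (round β) - z = (((round α : ℝ) - α : ℝ) : ℂ) +
      (((round β : ℝ) - β : ℝ) : ℂ) * w3 := by
    rw [hz]
    simp only [lv]
    push_cast
    ring
  rw [h1]
  calc _ ≤ ‖(((round α : ℝ) - α : ℝ) : ℂ)‖ + ‖(((round β : ℝ) - β : ℝ) : ℂ) * w3‖ := norm_add_le _ _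
    _ = |(round α : ℝ) - α| + |(round β : ℝ) - β| := by
        rw [norm_mul, norm_w3, mul_one, Complex.norm_real, Complex.norm_real]; rfl
    _ ≤ 1 / 2 + 1 / 2 := by
        have := abs_sub_round α
        have := abs_sub_round β
        rw [abs_sub_comm (round α : ℝ), abs_sub_comm (round β : ℝ)]
        linarith
    _ = 1 := by norm_num

/-- Dirichlet: a short lattice vector almost parallel to the unit vector `u`. -/
theorem dirichlet (u : ℂ) (hu : ‖u‖ = 1) (n : ℕ) (hn : 0 < n) :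
    ∃ a b : ℤ, (a, b) ≠ (0, 0) ∧ |(a : ℝ)| ≤ n + 1 ∧ |(b : ℝ)| ≤ n + 1 ∧
      |((starRingEnd ℂ) u * lv a b).im| ≤ 1 / (n + 1) := by
  set α : ℝ := ((starRingEnd ℂ) u).im with hα
  set β : ℝ := ((starRingEnd ℂ) u * w3).im with hβ
  have hexp : ∀ a b : ℤ, ((starRingEnd ℂ) u * lv a b).im = a * α + b * β := by
    intro a b
    have : (starRingEnd ℂ) u * lv a b = (a : ℂ) * (starRingEnd ℂ) u +
        (b : ℂ) * ((starRingEnd ℂ) u * w3) := by
      simp only [lv]; ring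
    rw [this, Complex.add_im]
    simp [hα, hβ]
  have hα1 : |α| ≤ 1 := by
    calc |α| ≤ ‖(starRingEnd ℂ) u‖ := Complex.abs_im_le_norm _
      _ = 1 := by rw [Complex.norm_conj, hu]
  have hβ1 : |β| ≤ 1 := by
    calc |β| ≤ ‖(starRingEnd ℂ) u * w3‖ := Complex.abs_im_le_norm _
      _ = 1 := by rw [norm_mul, Complex.norm_conj, hu, norm_w3, one_mul]
  have hnn : (0 : ℝ) < (n : ℝ) + 1 := by positivity
  have key : ∀ x y : ℝ, |x| ≤ 1 → |y| ≤ 1 → |x| ≤ |y| → y ≠ 0 →
      ∃ j k : ℤ, 0 < k ∧ |(k : ℝ)| ≤ n + 1 ∧ |(j : ℝ)| ≤ n + 1 ∧ |(k : ℝ) * x - j * y| ≤ 1 / (n + 1) := by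
    intro x y _ hy hxy hy0
    obtain ⟨j, k, hk0, hkn, hjk⟩ := Real.exists_int_int_abs_mul_sub_le (x / y) hn
    have hk0' : (0 : ℝ) < k := by exact_mod_cast hk0
    have hkn' : (k : ℝ) ≤ n := by exact_mod_cast hkn
    refine ⟨j, k, hk0, ?_, ?_, ?_⟩
    · rw [abs_of_pos hk0']; linarith
    · have h1 : |x / y| ≤ 1 := by
        rw [abs_div]
        exact div_le_one_of_le₀ hxy (abs_nonneg _)
      have h2 : |(j : ℝ)| ≤ |(k : ℝ) * (x / y)| + |(k : ℝ) * (x / y) - j| := by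
        calc |(j : ℝ)| = |(k : ℝ) * (x / y) - ((k : ℝ) * (x / y) - j)| := by ring_nf
          _ ≤ _ := abs_sub _ _
      have h3 : |(k : ℝ) * (x / y)| ≤ n := by
        rw [abs_mul, abs_of_pos hk0']
        calc (k : ℝ) * |x / y| ≤ k * 1 := by gcongr
          _ ≤ n := by linarith
      have h4 : (1 : ℝ) / (n + 1) ≤ 1 := by
        rw [div_le_one hnn]
        have : (0 : ℝ) ≤ n := Nat.cast_nonneg n
        linarith
      linarith
    · have h5 : (k : ℝ) * x - j * y = ((k : ℝ) * (x / y) - j) * y := by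
        field_simp
      rw [h5, abs_mul]
      calc |(k : ℝ) * (x / y) - j| * |y| ≤ (1 / (n + 1)) * 1 := by gcongr
        _ = 1 / (n + 1) := by ring
  have hne : ¬ (α = 0 ∧ β = 0) := by
    rintro ⟨h1, h2⟩
    have hu1 : u.im = 0 := by simpa [hα] using h1
    have hu2 : u.re * (Real.sqrt 3 / 2) = 0 := by
      have : β = u.re * (Real.sqrt 3 / 2) - u.im * (1 / 2) := by
        simp [hβ, w3]; ring
      rw [this, hu1] at h2
      linarith
    have h3 : (0 : ℝ) < Real.sqrt 3 / 2 := by positivity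
    have hu3 : u.re = 0 := by
      rcases mul_eq_zero.mp hu2 with h | h
      · exact h
      · exact absurd h h3.ne'
    have : u = 0 := Complex.ext hu3 hu1
    rw [this] at hu
    simp at hu
  rcases le_total |α| |β| with h | h
  · have hβ0 : β ≠ 0 := by
      intro h0
      apply hne
      refine ⟨?_, h0⟩
      rw [h0, abs_zero] at h
      exact abs_eq_zero.mp (le_antisymm h (abs_nonneg _))
    obtain ⟨j, k, hk, hk1, hj1, hjk⟩ := key α β hα1 hβ1 h hβ0
    refine ⟨k, -j, ?_, hk1, by push_cast; rwa [abs_neg], ?_⟩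
    · intro h'
      rw [Prod.mk.injEq] at h'
      omega
    · rw [hexp]
      push_cast
      rw [show (k : ℝ) * α + -(j : ℝ) * β = k * α - j * β by ring]
      exact hjk
  · have hα0 : α ≠ 0 := by
      intro h0
      apply hne
      refine ⟨h0, ?_⟩
      rw [h0, abs_zero] at h
      exact abs_eq_zero.mp (le_antisymm h (abs_nonneg _))
    obtain ⟨j, k, hk, hk1, hj1, hjk⟩ := key β α hβ1 hα1 h hα0
    refine ⟨-j, k, ?_, by push_cast; rwa [abs_neg], hk1, ?_⟩
    · intro h'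
      rw [Prod.mk.injEq] at h'
      omega
    · rw [hexp]
      push_cast
      rw [show -(j : ℝ) * α + (k : ℝ) * β = k * β - j * α by ring]
      exact hjk

/-- decomposition of a vector along a unit vector -/
theorem decomp (u p : ℂ) (hu : ‖u‖ = 1) :
    p = ((((starRingEnd ℂ) u * p).re : ℝ) : ℂ) * u + ((((starRingEnd ℂ) u * p).im : ℝ) : ℂ) * (I * u) := by
  have h1 : u * (starRingEnd ℂ) u = 1 := by
    rw [Complex.mul_conj, Complex.normSq_eq_norm_sq, hu]; simp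
  have h2 : (starRingEnd ℂ) u * p = ((((starRingEnd ℂ) u * p).re : ℝ) : ℂ) +
      ((((starRingEnd ℂ) u * p).im : ℝ) : ℂ) * I := (Complex.re_add_im _).symm
  calc p = u * ((starRingEnd ℂ) u * p) := by rw [← mul_assoc, h1, one_mul]
    _ = u * (((((starRingEnd ℂ) u * p).re : ℝ) : ℂ) +
      ((((starRingEnd ℂ) u * p).im : ℝ) : ℂ) * I) := by rw [← h2]
    _ = _ := by ring

/-- One lattice lemma. -/
theorem one_lattice (n : ℕ) (hn : 0 < n) (δ : ℝ) (hδ : 0 < δ) (u : ℂ) (hu : ‖u‖ = 1)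
    (H : ∀ a b : ℤ, (a, b) ≠ (0, 0) → |(a : ℝ)| ≤ n + 1 → |(b : ℝ)| ≤ n + 1 →
      δ ≤ |((starRingEnd ℂ) u * lv a b).im|) (z0 : ℂ) :
    ∃ t : ℝ, 0 ≤ t ∧ t ≤ 2 + 4 * (n + 1) / δ ∧ ∃ a b : ℤ,
      ‖z0 + (t : ℂ) * u - lv a b‖ ≤ 1 / (n + 1) := by
  obtain ⟨a0, b0, hab0, ha0, hb0, hw0⟩ := dirichlet u hu n hn
  -- choose the sign so that the component along `u` is nonnegative
  obtain ⟨a, b, hab, ha, hb, hw, hs⟩ : ∃ a b : ℤ, (a, b) ≠ (0, 0) ∧ |(a : ℝ)| ≤ n + 1 ∧
      |(b : ℝ)| ≤ n + 1 ∧ |((starRingEnd ℂ) u * lv a b).im| ≤ 1 / (n + 1) ∧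
      0 ≤ ((starRingEnd ℂ) u * lv a b).re := by
    rcases le_total 0 ((starRingEnd ℂ) u * lv a0 b0).re with h | h
    · exact ⟨a0, b0, hab0, ha0, hb0, hw0, h⟩
    · refine ⟨-a0, -b0, ?_, ?_, ?_, ?_, ?_⟩
      · intro h'
        apply hab0
        rw [Prod.mk.injEq] at h' ⊢
        omega
      · push_cast; rwa [abs_neg]
      · push_cast; rwa [abs_neg]
      · rw [lv_neg, mul_neg, Complex.neg_im, abs_neg]; exact hw0
      · rw [lv_neg, mul_neg, Complex.neg_re]; linarith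
  set s : ℝ := ((starRingEnd ℂ) u * lv a b).re with hsdef
  set w : ℝ := ((starRingEnd ℂ) u * lv a b).im with hwdef
  have hδw : δ ≤ |w| := H a b hab ha hb
  have hwpos : 0 < |w| := lt_of_lt_of_le hδ hδw
  have hp : lv a b = (s : ℂ) * u + (w : ℂ) * (I * u) := decomp u _ hu
  have hsle : s ≤ 2 * (n + 1) := by
    calc s ≤ |s| := le_abs_self _
      _ ≤ ‖(starRingEnd ℂ) u * lv a b‖ := Complex.abs_re_le_norm _
      _ = ‖lv a b‖ := by rw [norm_mul, Complex.norm_conj, hu, one_mul]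
      _ ≤ 2 * (n + 1) := lv_norm_le a b _ ha hb
  -- sign of w
  obtain ⟨σ, hσ, hσw⟩ : ∃ σ : ℝ, (σ = 1 ∨ σ = -1) ∧ w = σ * |w| := by
    rcases le_total 0 w with h | h
    · exact ⟨1, Or.inl rfl, by rw [abs_of_nonneg h]; ring⟩
    · exact ⟨-1, Or.inr rfl, by rw [abs_of_nonpos h]; ring⟩
  have hσ2 : σ * σ = 1 := by rcases hσ with h | h <;> rw [h] <;> norm_num
  -- centre of the target disc
  set c : ℂ := z0 + u - (σ : ℂ) * (I * u) with hc
  obtain ⟨a1, b1, hab1⟩ := exists_near c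
  set e : ℂ := lv a1 b1 - c with he
  set e1 : ℝ := ((starRingEnd ℂ) u * e).re with he1
  set e2 : ℝ := ((starRingEnd ℂ) u * e).im with he2
  have hedec : e = (e1 : ℂ) * u + (e2 : ℂ) * (I * u) := decomp u _ hu
  have hne : ‖(starRingEnd ℂ) u * e‖ ≤ 1 := by
    rw [norm_mul, Complex.norm_conj, hu, one_mul]; exact hab1
  have hb1 : |e1| ≤ 1 := le_trans (Complex.abs_re_le_norm _) hne
  have hb2 : |e2| ≤ 1 := le_trans (Complex.abs_im_le_norm _) hne
  have hb1' := abs_le.mp hb1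
  have hb2' := abs_le.mp hb2
  -- y coordinate
  set y : ℝ := 1 - σ * e2 with hy
  have hσe : |σ * e2| ≤ 1 := by
    rw [abs_mul]
    have : |σ| = 1 := by rcases hσ with h | h <;> rw [h] <;> norm_num
    rw [this, one_mul]; exact hb2
  have hσe' := abs_le.mp hσe
  have hy0 : 0 ≤ y := by rw [hy]; linarith
  have hy2 : y ≤ 2 := by rw [hy]; linarith
  set j : ℕ := ⌊y / |w|⌋₊ with hj
  have hjle : (j : ℝ) ≤ y / |w| := Nat.floor_le (by positivity)
  have hjlt : y / |w| < j + 1 := Nat.lt_floor_add_one _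
  have hj1 : (j : ℝ) * |w| ≤ y := by rwa [le_div_iff₀ hwpos] at hjle
  have hj2 : y < (j + 1) * |w| := by rwa [div_lt_iff₀ hwpos] at hjlt
  refine ⟨(1 + e1) + j * s, ?_, ?_, a1 + j * a, b1 + j * b, ?_⟩
  · have : 0 ≤ (j : ℝ) * s := by positivity
    linarith
  · have h1 : (j : ℝ) * s ≤ 4 * (n + 1) / δ := by
      have hj3 : (j : ℝ) ≤ 2 / δ := by
        calc (j : ℝ) ≤ y / |w| := hjle
          _ ≤ 2 / |w| := by gcongr
          _ ≤ 2 / δ := by gcongr
      calc (j : ℝ) * s ≤ (2 / δ) * (2 * (n + 1)) := by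
            apply mul_le_mul hj3 hsle hs; positivity
        _ = 4 * (n + 1) / δ := by ring
    linarith
  · have h2 : lv (a1 + j * a) (b1 + j * b) = lv a1 b1 + (j : ℂ) * lv a b := by
      rw [lv_add, lv_smul]; push_cast; ring
    have h3 : lv a1 b1 = c + e := by rw [he]; ring
    have h4 : z0 + (((1 + e1) + j * s : ℝ) : ℂ) * u - lv (a1 + j * a) (b1 + j * b) =
        (((σ * (y - j * |w|)) : ℝ) : ℂ) * (I * u) := by
      rw [h2, h3, hedec, hc, hp]
      have hσc : (σ : ℂ) * (σ : ℂ) = 1 := by exact_mod_cast hσ2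
      have hwc : (w : ℂ) = (σ : ℂ) * ((|w| : ℝ) : ℂ) := by exact_mod_cast hσw
      rw [hwc, hy]
      push_cast
      linear_combination ((e2 : ℂ) * (I * u)) * hσc
    rw [h4, norm_mul, norm_mul, Complex.norm_I, hu, Complex.norm_real, one_mul, mul_one,
      Real.norm_eq_abs, abs_mul]
    have hσ1 : |σ| = 1 := by rcases hσ with h | h <;> rw [h] <;> norm_num
    rw [hσ1, one_mul, abs_of_nonneg (by linarith)]
    have : y - j * |w| ≤ |w| := by nlinarith
    linarith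

end Pool.Agent.H74.Forest
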