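import Pool.Agent.H74.ForestA

set_option autoImplicit false

/-! # Two generically rotated lattices form a dense forest -/

namespace Pool.Agent.H74.Forest

open Complex

/-- The generic condition on a pair of rotations: no nonzero vector of the first rotated lattice is
parallel to a nonzero vector of the second one. -/
def Gen (c1 c2 : ℂ) : Prop :=
  ∀ a b c d : ℤ, (a, b) ≠ (0, 0) → (c, d) ≠ (0, 0) →
    ((starRingEnd ℂ) (c1 * lv a b) * (c2 * lv c d)).im ≠ 0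

/-- box of integer pairs -/
noncomputable def box (n : ℕ) : Finset (ℤ × ℤ) :=
  ((Finset.Icc (-(n + 1 : ℤ)) (n + 1)) ×ˢ (Finset.Icc (-(n + 1 : ℤ)) (n + 1))).filter (· ≠ (0, 0))

theorem mem_box (n : ℕ) (a b : ℤ) (hab : (a, b) ≠ (0, 0)) (ha : |(a : ℝ)| ≤ n + 1)
    (hb : |(b : ℝ)| ≤ n + 1) : (a, b) ∈ box n := by
  have ha' := abs_le.mp ha
  have hb' := abs_le.mp hb
  have h1 : (-(n + 1 : ℤ)) ≤ a := by
    have : ((-(n + 1 : ℤ) : ℤ) : ℝ) ≤ a := by push_cast; linarith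
    exact_mod_cast this
  have h2 : a ≤ (n + 1 : ℤ) := by
    have : (a : ℝ) ≤ ((n + 1 : ℤ) : ℝ) := by push_cast; linarith
    exact_mod_cast this
  have h3 : (-(n + 1 : ℤ)) ≤ b := by
    have : ((-(n + 1 : ℤ) : ℤ) : ℝ) ≤ b := by push_cast; linarith
    exact_mod_cast this
  have h4 : b ≤ (n + 1 : ℤ) := by
    have : (b : ℝ) ≤ ((n + 1 : ℤ) : ℝ) := by push_cast; linarith
    exact_mod_cast this
  simp only [box, Finset.mem_filter, Finset.mem_product, Finset.mem_Icc]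
  exact ⟨⟨⟨h1, h2⟩, ⟨h3, h4⟩⟩, hab⟩

theorem exists_gap (c1 c2 : ℂ) (hG : Gen c1 c2) (n : ℕ) :
    ∃ δ0 : ℝ, 0 < δ0 ∧ ∀ a b c d : ℤ, (a, b) ≠ (0, 0) → (c, d) ≠ (0, 0) →
      |(a : ℝ)| ≤ n + 1 → |(b : ℝ)| ≤ n + 1 → |(c : ℝ)| ≤ n + 1 → |(d : ℝ)| ≤ n + 1 →
      δ0 ≤ |((starRingEnd ℂ) (c1 * lv a b) * (c2 * lv c d)).im| := by
  classical
  set f : (ℤ × ℤ) × (ℤ × ℤ) → ℝ := fun q =>
    |((starRingEnd ℂ) (c1 * lv q.1.1 q.1.2) * (c2 * lv q.2.1 q.2.2)).im| with hf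
  set B := (box n) ×ˢ (box n) with hB
  have hne : B.Nonempty := by
    refine ⟨((1, 0), (1, 0)), ?_⟩
    rw [hB, Finset.mem_product]
    have : ((1 : ℤ), (0 : ℤ)) ∈ box n := by
      apply mem_box
      · simp
      · have : (0 : ℝ) ≤ n := Nat.cast_nonneg n
        simp
      · have : (0 : ℝ) ≤ n := Nat.cast_nonneg n
        simp; linarith
    exact ⟨this, this⟩
  obtain ⟨q, hq, hmin⟩ := B.exists_min_image f hne
  refine ⟨f q, ?_, ?_⟩
  · have h1 : q.1 ∈ box n := (Finset.mem_product.mp hq).1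
    have h2 : q.2 ∈ box n := (Finset.mem_product.mp hq).2
    have h1' : q.1 ≠ (0, 0) := (Finset.mem_filter.mp h1).2
    have h2' : q.2 ≠ (0, 0) := (Finset.mem_filter.mp h2).2
    exact abs_pos.mpr (hG q.1.1 q.1.2 q.2.1 q.2.2 h1' h2')
  · intro a b c d hab hcd ha hb hc hd
    exact hmin ((a, b), (c, d)) (Finset.mem_product.mpr ⟨mem_box n a b hab ha hb, mem_box n c d hcd hc hd⟩)

/-- For a generic pair of rotations a direction cannot be bad for both lattices. -/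
theorem alternative (c1 c2 : ℂ) (h1 : ‖c1‖ = 1) (h2 : ‖c2‖ = 1) (hG : Gen c1 c2) (n : ℕ) :
    ∃ δ : ℝ, 0 < δ ∧ ∀ u : ℂ, ‖u‖ = 1 →
      (∀ a b : ℤ, (a, b) ≠ (0, 0) → |(a : ℝ)| ≤ n + 1 → |(b : ℝ)| ≤ n + 1 →
        δ ≤ |((starRingEnd ℂ) u * (c1 * lv a b)).im|) ∨
      (∀ a b : ℤ, (a, b) ≠ (0, 0) → |(a : ℝ)| ≤ n + 1 → |(b : ℝ)| ≤ n + 1 →
        δ ≤ |((starRingEnd ℂ) u * (c2 * lv a b)).im|) := by
  obtain ⟨δ0, hδ0, hgap⟩ := exists_gap c1 c2 hG n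
  have hn : (0 : ℝ) < 4 * ((n : ℝ) + 1) := by positivity
  refine ⟨δ0 / (4 * (n + 1)), by positivity, ?_⟩
  intro u hu
  by_contra hcon
  push Not at hcon
  obtain ⟨⟨a, b, hab, ha, hb, hw1⟩, ⟨c, d, hcd, hc, hd, hw2⟩⟩ := hcon
  set p := c1 * lv a b with hp
  set q := c2 * lv c d with hq
  set s1 := ((starRingEnd ℂ) u * p).re
  set w1 := ((starRingEnd ℂ) u * p).im
  set s2 := ((starRingEnd ℂ) u * q).re
  set w2 := ((starRingEnd ℂ) u * q).im
  have hpn : ‖p‖ ≤ 2 * (n + 1) := by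
    rw [hp, norm_mul, h1, one_mul]; exact lv_norm_le a b _ ha hb
  have hqn : ‖q‖ ≤ 2 * (n + 1) := by
    rw [hq, norm_mul, h2, one_mul]; exact lv_norm_le c d _ hc hd
  have hs1 : |s1| ≤ 2 * (n + 1) := by
    calc |s1| ≤ ‖(starRingEnd ℂ) u * p‖ := Complex.abs_re_le_norm _
      _ = ‖p‖ := by rw [norm_mul, Complex.norm_conj, hu, one_mul]
      _ ≤ _ := hpn
  have hs2 : |s2| ≤ 2 * (n + 1) := by
    calc |s2| ≤ ‖(starRingEnd ℂ) u * q‖ := Complex.abs_re_le_norm _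
      _ = ‖q‖ := by rw [norm_mul, Complex.norm_conj, hu, one_mul]
      _ ≤ _ := hqn
  have hdet : ((starRingEnd ℂ) p * q).im = s1 * w2 - w1 * s2 := by
    have hu1 : u * (starRingEnd ℂ) u = 1 := by
      rw [Complex.mul_conj, Complex.normSq_eq_norm_sq, hu]; simp
    have h3 : (starRingEnd ℂ) p * q = (starRingEnd ℂ) ((starRingEnd ℂ) u * p) * ((starRingEnd ℂ) u * q) := by
      have h33 : (starRingEnd ℂ) ((starRingEnd ℂ) u * p) = u * (starRingEnd ℂ) p := by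
        rw [map_mul (starRingEnd ℂ) ((starRingEnd ℂ) u) p, Complex.conj_conj]
      rw [h33]
      calc (starRingEnd ℂ) p * q = (u * (starRingEnd ℂ) u) * ((starRingEnd ℂ) p * q) := by
            rw [hu1, one_mul]
        _ = _ := by ring
    rw [h3, Complex.mul_im, Complex.conj_re, Complex.conj_im]
    ring
  have hlow := hgap a b c d hab hcd ha hb hc hd
  have hup : |s1 * w2 - w1 * s2| < δ0 := by
    have h4 : |s1 * w2 - w1 * s2| ≤ |s1| * |w2| + |w1| * |s2| := by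
      calc |s1 * w2 - w1 * s2| ≤ |s1 * w2| + |w1 * s2| := abs_sub _ _
        _ = _ := by rw [abs_mul, abs_mul]
    have h5 : |s1| * |w2| ≤ 2 * (n + 1) * |w2| := by gcongr
    have h6 : |w1| * |s2| ≤ |w1| * (2 * (n + 1)) := by gcongr
    have hn2 : (0 : ℝ) < 2 * ((n : ℝ) + 1) := by positivity
    have h7 : 2 * ((n : ℝ) + 1) * |w2| < 2 * (n + 1) * (δ0 / (4 * (n + 1))) := by
      exact mul_lt_mul_of_pos_left hw2 hn2
    have h8 : |w1| * (2 * ((n : ℝ) + 1)) < (δ0 / (4 * (n + 1))) * (2 * (n + 1)) := by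
      exact mul_lt_mul_of_pos_right hw1 hn2
    have h9 : 2 * ((n : ℝ) + 1) * (δ0 / (4 * (n + 1))) = δ0 / 2 := by
      field_simp; ring
    have h10 : (δ0 / (4 * ((n : ℝ) + 1))) * (2 * (n + 1)) = δ0 / 2 := by
      field_simp; ring
    linarith
  rw [hdet] at hlow
  linarith

/-- one lattice lemma, rotated and translated version -/
theorem one_lattice' (n : ℕ) (hn : 0 < n) (δ : ℝ) (hδ : 0 < δ) (c x u : ℂ) (hc : ‖c‖ = 1)
    (hu : ‖u‖ = 1)
    (H : ∀ a b : ℤ, (a, b) ≠ (0, 0) → |(a : ℝ)| ≤ n + 1 → |(b : ℝ)| ≤ n + 1 →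
      δ ≤ |((starRingEnd ℂ) u * (c * lv a b)).im|) (z0 : ℂ) :
    ∃ t : ℝ, 0 ≤ t ∧ t ≤ 2 + 4 * (n + 1) / δ ∧ ∃ a b : ℤ,
      ‖z0 + (t : ℂ) * u - (c * lv a b + x)‖ ≤ 1 / (n + 1) := by
  have hcc : c * (starRingEnd ℂ) c = 1 := by
    rw [Complex.mul_conj, Complex.normSq_eq_norm_sq, hc]; simp
  obtain ⟨t, ht0, ht1, a, b, hab⟩ := one_lattice n hn δ hδ ((starRingEnd ℂ) c * u)
    (by rw [norm_mul, Complex.norm_conj, hc, hu, one_mul])
    (by
      intro a b h1 h2 h3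
      have := H a b h1 h2 h3
      rw [map_mul, Complex.conj_conj]
      rwa [show c * (starRingEnd ℂ) u * lv a b = (starRingEnd ℂ) u * (c * lv a b) by ring])
    ((starRingEnd ℂ) c * (z0 - x))
  refine ⟨t, ht0, ht1, a, b, ?_⟩
  have h4 : z0 + (t : ℂ) * u - (c * lv a b + x) =
      c * ((starRingEnd ℂ) c * (z0 - x) + (t : ℂ) * ((starRingEnd ℂ) c * u) - lv a b) := by
    linear_combination (-(z0 - x) - (t : ℂ) * u) * hcc
  rw [h4, norm_mul, hc, one_mul]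
  exact hab

/-- **Two generically rotated lattices form a dense forest** (with arbitrary translations, and
also inside any larger set). -/
theorem denseForest_of_gen (c1 c2 x1 x2 : ℂ) (h1 : ‖c1‖ = 1) (h2 : ‖c2‖ = 1) (hG : Gen c1 c2)
    (Y : Set ℂ) (hY1 : ∀ a b : ℤ, c1 * lv a b + x1 ∈ Y) (hY2 : ∀ a b : ℤ, c2 * lv a b + x2 ∈ Y) :
    IsDenseForest Y := by
  have hex : ∀ ε : ℝ, 0 < ε → ∃ T : ℝ, 0 < T ∧ ∀ a b : ℂ, dist a b = T →
      ∃ z ∈ segment ℝ a b, ∃ y ∈ Y, dist z y ≤ ε := by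
    intro ε hε
    obtain ⟨n0, hn0⟩ := exists_nat_one_div_lt hε
    set n := n0 + 1 with hn
    have hnε : (1 : ℝ) / (n + 1) ≤ ε := by
      have : (1 : ℝ) / (n + 1) ≤ 1 / (n0 + 1) := by
        rw [hn]; push_cast
        apply one_div_le_one_div_of_le
        · positivity
        · linarith
      linarith
    obtain ⟨δ, hδ, halt⟩ := alternative c1 c2 h1 h2 hG n
    set T : ℝ := 2 + 4 * (n + 1) / δ with hT
    have hTpos : 0 < T := by positivity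
    refine ⟨T, hTpos, ?_⟩
    intro a b hab
    set u : ℂ := ((T : ℝ)⁻¹ : ℂ) * (b - a) with hu
    have hTc : (T : ℂ) ≠ 0 := by exact_mod_cast hTpos.ne'
    have hun : ‖u‖ = 1 := by
      rw [hu, norm_mul, norm_inv, Complex.norm_real, Real.norm_eq_abs, abs_of_pos hTpos,
        ← dist_eq_norm, dist_comm, hab, inv_mul_cancel₀ hTpos.ne']
    have hmain : ∃ t : ℝ, 0 ≤ t ∧ t ≤ T ∧ ∃ y ∈ Y, ‖a + (t : ℂ) * u - y‖ ≤ ε := by
      rcases halt u hun with H | H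
      · obtain ⟨t, ht0, ht1, p, q, hpq⟩ := one_lattice' n (by omega) δ hδ c1 x1 u h1 hun H a
        exact ⟨t, ht0, ht1, _, hY1 p q, le_trans hpq hnε⟩
      · obtain ⟨t, ht0, ht1, p, q, hpq⟩ := one_lattice' n (by omega) δ hδ c2 x2 u h2 hun H a
        exact ⟨t, ht0, ht1, _, hY2 p q, le_trans hpq hnε⟩
    obtain ⟨t, ht0, ht1, y, hy, hty⟩ := hmain
    refine ⟨a + (t : ℂ) * u, ?_, y, hy, by rw [dist_eq_norm]; exact hty⟩
    rw [segment_eq_image']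
    refine ⟨t / T, ⟨by positivity, by rw [div_le_one hTpos]; exact ht1⟩, ?_⟩
    simp only [Complex.real_smul]
    rw [hu]
    push_cast
    field_simp
  choose! V hV0 hV using hex
  exact ⟨V, fun ε h _ => hV0 ε h, fun ε h _ => hV ε h⟩

end Pool.Agent.H74.Forest
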