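import Pool.Agent.H74.ForestB

set_option autoImplicit false

/-! # Genericity is almost sure; small cases; failure of uniform discreteness -/

namespace Pool.Agent.H74.Forest

open Complex MeasureTheory Set

theorem toCircle_norm (θ : S1) : ‖((AddCircle.toCircle θ : Circle) : ℂ)‖ = 1 := Circle.norm_coe _

theorem countable_bad (A : ℂ) (hA : A ≠ 0) :
    {y : S1 | (((AddCircle.toCircle y : Circle) : ℂ) * A).im = 0}.Countable := by
  have hsub : {y : S1 | (((AddCircle.toCircle y : Circle) : ℂ) * A).im = 0} ⊆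
      (fun y : S1 => ((AddCircle.toCircle y : Circle) : ℂ)) ⁻¹'
        {(‖A‖ : ℂ) / A, -(‖A‖ : ℂ) / A} := by
    intro y hy
    simp only [mem_ofPred_eq] at hy
    set e : ℂ := ((AddCircle.toCircle y : Circle) : ℂ) with he
    have h1 : ‖e * A‖ = ‖A‖ := by rw [norm_mul, he, toCircle_norm, one_mul]
    have h2 : e * A = (((e * A).re : ℝ) : ℂ) := by
      apply Complex.ext
      · simp
      · rw [Complex.ofReal_im]; exact hy
    have h3 : |(e * A).re| = ‖A‖ := by
      rw [← h1]
      conv_rhs => rw [h2]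
      rw [Complex.norm_real, Real.norm_eq_abs]
    have h4 : (e * A).re = ‖A‖ ∨ (e * A).re = -‖A‖ := by
      rcases abs_choice ((e * A).re) with h | h
      · left; rw [← h3, h]
      · right; rw [← h3, h]; ring
    simp only [mem_preimage, mem_insert_iff, mem_singleton_iff]
    rcases h4 with h | h
    · left
      rw [eq_div_iff hA, h2, h]
    · right
      rw [eq_div_iff hA, h2, h]
      push_cast
      ring
  apply Set.Countable.mono hsub
  apply Set.Countable.preimage_of_injOn
  · exact (Set.countable_singleton _).insert _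
  · intro y _ y' _ h
    have h' : AddCircle.toCircle y = AddCircle.toCircle y' := Circle.ext h
    exact AddCircle.injective_toCircle (Real.two_pi_pos.ne') h'

theorem nsc : NullSingletonClass (volume : Measure S1) := by
  constructor
  intro x
  rw [← Metric.closedBall_zero, AddCircle.volume_closedBall]
  have : min (2 * Real.pi) (2 * 0) = 0 := by
    rw [mul_zero]; exact min_eq_right Real.two_pi_pos.le
  rw [this, ENNReal.ofReal_zero]

theorem null_bad (m : ℕ) (p q : ℂ) (hp : p ≠ 0) (hq : q ≠ 0) :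
    (volume : Measure (Fin (m + 2) → S1)) {θ | ((starRingEnd ℂ) ((AddCircle.toCircle (θ 0) : ℂ) * p) *
      ((AddCircle.toCircle (θ 1) : ℂ) * q)).im = 0} = 0 := by
  set S' : Set (S1 × (Fin (m + 1) → S1)) := {z | ((starRingEnd ℂ) ((AddCircle.toCircle z.1 : ℂ) * p) *
      ((AddCircle.toCircle (z.2 0) : ℂ) * q)).im = 0} with hS'
  have hpre : {θ : Fin (m + 2) → S1 | ((starRingEnd ℂ) ((AddCircle.toCircle (θ 0) : ℂ) * p) *
      ((AddCircle.toCircle (θ 1) : ℂ) * q)).im = 0} =
      (MeasurableEquiv.piFinSuccAbove (fun _ : Fin (m + 2) => S1) 0) ⁻¹' S' := by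
    ext θ
    rfl
  rw [hpre, (volume_preserving_piFinSuccAbove (fun _ : Fin (m + 2) => S1) 0).measure_preimage_equiv]
  have hclosed : IsClosed S' := by
    apply isClosed_eq
    · have hc : Continuous (fun y : S1 => ((AddCircle.toCircle y : Circle) : ℂ)) :=
        continuous_subtype_val.comp AddCircle.continuous_toCircle
      apply Complex.continuous_im.comp
      apply Continuous.mul
      · exact Complex.continuous_conj.comp ((hc.comp continuous_fst).mul continuous_const)
      · exact (hc.comp ((continuous_apply 0).comp continuous_snd)).mul continuous_const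
    · exact continuous_const
  rw [Measure.volume_eq_prod, Measure.measure_prod_null hclosed.measurableSet]
  apply Filter.Eventually.of_forall
  intro z
  simp only [Pi.zero_apply]
  set A : ℂ := (starRingEnd ℂ) ((AddCircle.toCircle z : ℂ) * p) * q with hA
  have hA0 : A ≠ 0 := by
    apply mul_ne_zero _ hq
    intro h0
    have : ((AddCircle.toCircle z : Circle) : ℂ) * p = 0 := by
      have := congrArg (starRingEnd ℂ) h0
      rwa [Complex.conj_conj, map_zero] at this
    rcases mul_eq_zero.mp this with h | h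
    · have := toCircle_norm z
      rw [h] at this
      simp at this
    · exact hp h
  have hsub : (Prod.mk z) ⁻¹' S' ⊆ ⋃ y ∈ {y : S1 | (((AddCircle.toCircle y : Circle) : ℂ) * A).im = 0},
      {g : Fin (m + 1) → S1 | g 0 = y} := by
    intro g hg
    simp only [hS', mem_preimage, mem_ofPred_eq] at hg
    simp only [mem_iUnion, mem_ofPred_eq, exists_prop]
    refine ⟨g 0, ?_, rfl⟩
    rwa [show ((AddCircle.toCircle (g 0) : Circle) : ℂ) * A = (starRingEnd ℂ) ((AddCircle.toCircle z : ℂ) * p) *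
      ((AddCircle.toCircle (g 0) : ℂ) * q) by rw [hA]; ring]
  apply measure_mono_null hsub
  rw [measure_biUnion_null_iff (countable_bad A hA0)]
  intro y _
  rw [volume_pi]
  have := nsc
  exact Measure.pi_hyperplane (fun _ : Fin (m + 1) => (volume : Measure S1)) 0 y

theorem ae_gen (m : ℕ) : ∀ᵐ θ : Fin (m + 2) → S1,
    Gen (AddCircle.toCircle (θ 0) : ℂ) (AddCircle.toCircle (θ 1) : ℂ) := by
  unfold Gen
  rw [ae_all_iff]; intro a
  rw [ae_all_iff]; intro b
  rw [ae_all_iff]; intro c
  rw [ae_all_iff]; intro d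
  by_cases hab : (a, b) = (0, 0)
  · apply Filter.Eventually.of_forall
    intro θ h; exact absurd hab h
  by_cases hcd : (c, d) = (0, 0)
  · apply Filter.Eventually.of_forall
    intro θ _ h; exact absurd hcd h
  have h0 := null_bad m (lv a b) (lv c d) (lv_ne_zero hab) (lv_ne_zero hcd)
  have h1 : ∀ᵐ θ : Fin (m + 2) → S1, ¬ (((starRingEnd ℂ) ((AddCircle.toCircle (θ 0) : ℂ) * lv a b) *
      ((AddCircle.toCircle (θ 1) : ℂ) * lv c d)).im = 0) := by
    rw [ae_iff]
    simpa using h0
  filter_upwards [h1] with θ hθ _ _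
  exact hθ

theorem ae_gen' (m : ℕ) : ∀ᵐ ω : (Fin (m + 2) → S1) × (Fin (m + 2) → ℂ),
    Gen (AddCircle.toCircle (ω.1 0) : ℂ) (AddCircle.toCircle (ω.1 1) : ℂ) := by
  rw [Measure.volume_eq_prod]
  exact Measure.quasiMeasurePreserving_fst.ae (ae_gen m)

theorem mem_TBG {k : ℕ} (θ : Fin k → S1) (x : Fin k → ℂ) (i : Fin k) (a b : ℤ) :
    (AddCircle.toCircle (θ i) : ℂ) * lv a b + x i ∈ TBG k θ x :=
  ⟨i, lv a b, lv_mem a b, rfl⟩

/-- one lattice (or none) is never a dense forest -/
theorem not_dense_small (k : ℕ) (hk : k < 2) (θ : Fin k → S1) (x : Fin k → ℂ) :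
    ¬ IsDenseForest (TBG k θ x) := by
  rintro ⟨V, hV0, hV⟩
  have hVp := hV0 (1 / 4) (by norm_num) (by norm_num)
  set T := V (1 / 4) with hT
  have hk' : k = 0 ∨ k = 1 := by omega
  rcases hk' with h | h
  · subst h
    obtain ⟨z, _, y, ⟨i, _⟩, _⟩ := hV (1 / 4) (by norm_num) (by norm_num) 0 (T : ℂ)
      (by rw [dist_comm, dist_zero_right, Complex.norm_real, Real.norm_eq_abs, abs_of_pos hVp])
    exact i.elim0
  · subst h
    set c : ℂ := (AddCircle.toCircle (θ 0) : ℂ) with hc
    have hcn : ‖c‖ = 1 := toCircle_norm _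
    set h : ℝ := Real.sqrt 3 / 4 with hh
    obtain ⟨z, hz, y, ⟨i, w, ⟨a, b, hw⟩, hy⟩, hzy⟩ := hV (1 / 4) (by norm_num) (by norm_num)
      (c * ((h : ℂ) * I) + x 0) (c * ((T : ℂ) + (h : ℂ) * I) + x 0) (by
        rw [dist_comm, dist_eq_norm,
          show c * ((T : ℂ) + (h : ℂ) * I) + x 0 - (c * ((h : ℂ) * I) + x 0) = c * (T : ℂ) by ring,
          norm_mul, hcn, one_mul, Complex.norm_real, Real.norm_eq_abs, abs_of_pos hVp])
    have hi : i = 0 := Subsingleton.elim _ _
    subst hi
    rw [segment_eq_image'] at hz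
    obtain ⟨s, _, hs⟩ := hz
    simp only [Complex.real_smul] at hs
    have h1 : z - y = c * (((s * T : ℝ) : ℂ) + (h : ℂ) * I - lv a b) := by
      rw [← hs, hy, hw]
      simp only [rot, lv]
      rw [← hc]
      push_cast
      ring
    rw [dist_eq_norm, h1, norm_mul, hcn, one_mul] at hzy
    have h2 : (((s * T : ℝ) : ℂ) + (h : ℂ) * I - lv a b).im = h - b * (Real.sqrt 3 / 2) := by
      rw [Complex.sub_im, lv_im]
      simp
    have h3 : |h - b * (Real.sqrt 3 / 2)| ≤ 1 / 4 := by
      rw [← h2]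
      exact le_trans (Complex.abs_im_le_norm _) hzy
    have h4 : h - b * (Real.sqrt 3 / 2) = (1 - 2 * b) * (Real.sqrt 3 / 4) := by rw [hh]; ring
    rw [h4, abs_mul] at h3
    have h5 : (1 : ℝ) ≤ |1 - 2 * (b : ℝ)| := by
      have : (1 : ℤ) ≤ |1 - 2 * b| := Int.one_le_abs (by omega)
      have h6 : ((|1 - 2 * b| : ℤ) : ℝ) = |1 - 2 * (b : ℝ)| := by push_cast; rfl
      rw [← h6]
      exact_mod_cast this
    have h7 : (1 : ℝ) < Real.sqrt 3 := by
      rw [show (1 : ℝ) = Real.sqrt 1 by simp]
      exact Real.sqrt_lt_sqrt (by norm_num) (by norm_num)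
    have h8 : |Real.sqrt 3 / 4| = Real.sqrt 3 / 4 := abs_of_pos (by positivity)
    rw [h8] at h3
    nlinarith

/-- **Dense forest exactly from two copies on.** -/
theorem main_dense (k : ℕ) : (∀ᵐ ω : (Fin k → S1) × (Fin k → ℂ), IsDenseForest (TBG k ω.1 ω.2)) ↔
    2 ≤ k := by
  constructor
  · intro h
    by_contra hk
    have h1 : ∀ᵐ ω : (Fin k → S1) × (Fin k → ℂ), False := by
      filter_upwards [h] with ω hω
      exact not_dense_small k (by omega) ω.1 ω.2 hω
    rw [Filter.eventually_false_iff_eq_bot, ae_eq_bot] at h1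
    have h2 : (volume : Measure ((Fin k → S1) × (Fin k → ℂ))) univ ≠ 0 := by
      have : (univ : Set ((Fin k → S1) × (Fin k → ℂ))).Nonempty := univ_nonempty
      exact (isOpen_univ.measure_pos _ this).ne'
    apply h2
    rw [h1]
    simp
  · intro hk
    obtain ⟨m, rfl⟩ : ∃ m, k = m + 2 := ⟨k - 2, by omega⟩
    filter_upwards [ae_gen' m] with ω hω
    exact denseForest_of_gen _ _ (ω.2 0) (ω.2 1) (toCircle_norm _) (toCircle_norm _) hω _
      (fun a b => mem_TBG ω.1 ω.2 0 a b) (fun a b => mem_TBG ω.1 ω.2 1 a b)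

end Pool.Agent.H74.Forest
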