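import Pool.Agent.H74.ForestC

set_option autoImplicit false

/-! # Almost sure failure of uniform discreteness -/

namespace Pool.Agent.H74.Forest

open Complex MeasureTheory Set Filter Topology

theorem w3_mul_lv (a b : ℤ) : w3 * lv a b = lv (-b) (a + b) := by
  have h : w3 * w3 = w3 - 1 := by
    have h3 : Real.sqrt 3 * Real.sqrt 3 = 3 := Real.mul_self_sqrt (by norm_num)
    apply Complex.ext
    · simp only [w3, Complex.mul_re, Complex.sub_re, Complex.one_re]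
      linear_combination (-1 / 4 : ℝ) * h3
    · simp only [w3, Complex.mul_im, Complex.sub_im, Complex.one_im]
      ring
  simp only [lv]
  push_cast
  linear_combination (b : ℂ) * h

/-- there are arbitrarily small nonzero combinations -/
theorem small_comb (c1 c2 : ℂ) (h1 : ‖c1‖ = 1) (h2 : ‖c2‖ = 1) (hG : Gen c1 c2) (ε : ℝ)
    (hε : 0 < ε) : ∃ a b c d : ℤ, 0 < ‖c1 * lv a b - c2 * lv c d‖ ∧
      ‖c1 * lv a b - c2 * lv c d‖ < ε := by
  have hc2 : c2 ≠ 0 := by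
    intro h; rw [h] at h2; simp at h2
  have hc1 : c1 ≠ 0 := by
    intro h; rw [h] at h1; simp at h1
  choose A B hAB using fun z : ℂ => exists_near z
  set f : ℕ → ℂ := fun j => c1 * lv (j : ℤ) 0 - c2 * lv (A (c1 * lv (j : ℤ) 0 / c2)) (B (c1 * lv (j : ℤ) 0 / c2)) with hf
  have hfb : ∀ j, f j ∈ Metric.closedBall (0 : ℂ) 1 := by
    intro j
    rw [Metric.mem_closedBall, dist_zero_right]
    have h3 : f j = -(c2 * (lv (A (c1 * lv (j : ℤ) 0 / c2)) (B (c1 * lv (j : ℤ) 0 / c2)) -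
        c1 * lv (j : ℤ) 0 / c2)) := by
      simp only [hf]
      field_simp
      ring
    rw [h3, norm_neg, norm_mul, h2, one_mul]
    exact hAB _
  obtain ⟨l, _, φ, hφ, hlim⟩ := (isCompact_closedBall (0 : ℂ) 1).tendsto_subseq hfb
  have hcau := hlim.cauchySeq
  rw [Metric.cauchySeq_iff] at hcau
  obtain ⟨N, hN⟩ := hcau ε hε
  have h4 := hN N le_rfl (N + 1) (by omega)
  rw [dist_eq_norm] at h4
  have h5 : φ N < φ (N + 1) := hφ (by omega)
  set i := φ N
  set j := φ (N + 1)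
  set a1 := A (c1 * lv (i : ℤ) 0 / c2)
  set b1 := B (c1 * lv (i : ℤ) 0 / c2)
  set a2 := A (c1 * lv (j : ℤ) 0 / c2)
  set b2 := B (c1 * lv (j : ℤ) 0 / c2)
  have h6 : f i - f j = c1 * lv ((i : ℤ) - j) 0 - c2 * lv (a1 - a2) (b1 - b2) := by
    change c1 * lv (i : ℤ) 0 - c2 * lv a1 b1 - (c1 * lv (j : ℤ) 0 - c2 * lv a2 b2) = _
    clear_value a1 a2 b1 b2
    simp only [lv]
    push_cast
    ring
  refine ⟨(i : ℤ) - j, 0, a1 - a2, b1 - b2, ?_, ?_⟩
  · rw [norm_pos_iff]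
    intro h0
    have hij : ((i : ℤ) - j, (0 : ℤ)) ≠ (0, 0) := by
      intro h; rw [Prod.mk.injEq] at h; omega
    have h7 : c1 * lv ((i : ℤ) - j) 0 = c2 * lv (a1 - a2) (b1 - b2) := sub_eq_zero.mp h0
    have hne : c1 * lv ((i : ℤ) - j) 0 ≠ 0 := mul_ne_zero hc1 (lv_ne_zero hij)
    have hcd : (a1 - a2, b1 - b2) ≠ (0, 0) := by
      intro h
      rw [Prod.mk.injEq] at h
      rw [h.1, h.2] at h7
      apply hne
      rw [h7]
      simp [lv]
    apply hG _ _ _ _ hij hcd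
    rw [← h7, mul_comm, Complex.mul_conj]
    simp
  · rw [← h6]; exact h4

theorem not_unifDiscrete (c1 c2 x1 x2 : ℂ) (h1 : ‖c1‖ = 1) (h2 : ‖c2‖ = 1) (hG : Gen c1 c2)
    (Y : Set ℂ) (hY1 : ∀ a b : ℤ, c1 * lv a b + x1 ∈ Y) (hY2 : ∀ a b : ℤ, c2 * lv a b + x2 ∈ Y) :
    ¬ IsUniformlyDiscrete Y := by
  rintro ⟨r, hr, hY⟩
  obtain ⟨a, b, c, d, hpos, hlt⟩ := small_comb c1 c2 h1 h2 hG r hr
  set h := c1 * lv a b - c2 * lv c d with hh
  have hne : h ≠ 0 := norm_pos_iff.mp hpos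
  obtain ⟨m, n, hmn⟩ := exists_near ((x2 - x1) / h)
  -- multiples of `h` by lattice vectors
  have hmul : ∀ m n : ℤ, ∃ p q s t : ℤ, lv m n * h = c1 * lv p q - c2 * lv s t := by
    intro m n
    have e1 : ∀ p q : ℤ, lv m n * lv p q = lv (m * p - n * q) (m * q + n * (p + q)) := by
      intro p q
      have h3 := w3_mul_lv p q
      have h4 : lv m n * lv p q = (m : ℂ) * lv p q + (n : ℂ) * (w3 * lv p q) := by
        simp only [lv]; ring
      rw [h4, h3, ← lv_smul, ← lv_smul, ← lv_add]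
      congr 1
      ring
    refine ⟨m * a - n * b, m * b + n * (a + b), m * c - n * d, m * d + n * (c + d), ?_⟩
    rw [← e1, ← e1, hh]
    ring
  -- main claim: a combination at distance in `(0, r)` from `x2 - x1`
  have hclaim : ∃ m n : ℤ, 0 < ‖lv m n * h - (x2 - x1)‖ ∧ ‖lv m n * h - (x2 - x1)‖ < r := by
    have h5 : ‖lv m n * h - (x2 - x1)‖ ≤ ‖h‖ := by
      have : lv m n * h - (x2 - x1) = (lv m n - (x2 - x1) / h) * h := by
        field_simp
      rw [this, norm_mul]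
      calc _ ≤ 1 * ‖h‖ := by gcongr
        _ = ‖h‖ := one_mul _
    by_cases h6 : lv m n * h - (x2 - x1) = 0
    · refine ⟨m + 1, n + 0, ?_, ?_⟩
      · rw [lv_add, show lv 1 0 = 1 by simp [lv], add_mul, one_mul, show lv m n * h + h - (x2 - x1) =
          (lv m n * h - (x2 - x1)) + h by ring, h6, zero_add]
        exact hpos
      · rw [lv_add, show lv 1 0 = 1 by simp [lv], add_mul, one_mul, show lv m n * h + h - (x2 - x1) =
          (lv m n * h - (x2 - x1)) + h by ring, h6, zero_add]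
        exact hlt
    · exact ⟨m, n, norm_pos_iff.mpr h6, lt_of_le_of_lt h5 hlt⟩
  obtain ⟨m', n', hp, hl⟩ := hclaim
  obtain ⟨p, q, s, t, hpq⟩ := hmul m' n'
  have h7 : (c1 * lv p q + x1) - (c2 * lv s t + x2) = lv m' n' * h - (x2 - x1) := by
    rw [hpq]; ring
  have h8 := hY _ (hY1 p q) _ (hY2 s t) (by
    intro h9
    rw [← sub_eq_zero, h7] at h9
    rw [h9] at hp
    simp at hp)
  rw [dist_eq_norm, h7] at h8
  linarith

/-- Almost surely, the union of at least two copies is not uniformly discrete. -/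
theorem main_not_ud (k : ℕ) (hk : 2 ≤ k) :
    ∀ᵐ ω : (Fin k → S1) × (Fin k → ℂ), ¬ IsUniformlyDiscrete (TBG k ω.1 ω.2) := by
  obtain ⟨m, rfl⟩ : ∃ m, k = m + 2 := ⟨k - 2, by omega⟩
  filter_upwards [ae_gen' m] with ω hω
  exact not_unifDiscrete _ _ (ω.2 0) (ω.2 1) (toCircle_norm _) (toCircle_norm _) hω _
    (fun a b => mem_TBG ω.1 ω.2 0 a b) (fun a b => mem_TBG ω.1 ω.2 1 a b)

end Pool.Agent.H74.Forest
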