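import Mathlib

set_option autoImplicit false

/-! # Unions of rotated and translated triangular lattices: definitions -/

namespace Pool.Agent.H74.Forest

open MeasureTheory

/-- The second basis vector `(1/2, √3/2)` of the triangular lattice, as a point of `ℂ = ℝ²`. -/
noncomputable def w3 : ℂ := ⟨1 / 2, Real.sqrt 3 / 2⟩

/-- The triangular lattice `Λ = ℤ (1,0) + ℤ (1/2, √3/2)` in the plane `ℂ = ℝ²`. -/
def Lam : Set ℂ := {z | ∃ a b : ℤ, z = (a : ℂ) + (b : ℂ) * w3}

/-- The circle `S¹ = ℝ / 2πℤ` of angles. -/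
abbrev S1 : Type := AddCircle (2 * Real.pi)

noncomputable instance : Fact (0 < 2 * Real.pi) := ⟨Real.two_pi_pos⟩

/-- Rotation of the plane by the angle `θ`. -/
noncomputable def rot (θ : S1) (z : ℂ) : ℂ := (AddCircle.toCircle θ : ℂ) * z

/-- The union of the `k` rotated and translated copies `r_{θ_i}(Λ) + x_i` of the lattice. -/
def TBG (k : ℕ) (θ : Fin k → S1) (x : Fin k → ℂ) : Set ℂ :=
  {y | ∃ i : Fin k, ∃ z ∈ Lam, y = rot (θ i) z + x i}

/-- Dense forest: there is `V : (0,1) → (0,∞)` such that for every `ε ∈ (0,1)` every segment of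
length `V ε` contains a point at distance at most `ε` from `Y`. -/
def IsDenseForest (Y : Set ℂ) : Prop :=
  ∃ V : ℝ → ℝ, (∀ ε, 0 < ε → ε < 1 → 0 < V ε) ∧
    ∀ ε, 0 < ε → ε < 1 → ∀ a b : ℂ, dist a b = V ε →
      ∃ z ∈ segment ℝ a b, ∃ y ∈ Y, dist z y ≤ ε

/-- Uniformly discrete: the distances between distinct points are bounded below. -/
def IsUniformlyDiscrete (Y : Set ℂ) : Prop :=
  ∃ r : ℝ, 0 < r ∧ ∀ y ∈ Y, ∀ y' ∈ Y, y ≠ y' → r ≤ dist y y'

end Pool.Agent.H74.Forest
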