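import Mathlib

/-!
# Polynomial interpolation over a factorial domain

Values `v` at pairwise distinct nodes of a factorial domain `R` are interpolated by a polynomial
with coefficients in `R` as soon as this is so, for every prime `π`, on each set of nodes which
are congruent modulo `π`.
-/

namespace Pool.Agent.H74.Interp

open Polynomial

set_option linter.unusedSectionVars false
set_option linter.unusedVariables false

variable {R : Type*} [CommRing R] [IsDomain R] {ι : Type*}

/-- `∏ (X - n i)`. -/
noncomputable def nodal (n : ι → R) (s : Finset ι) : R[X] := ∏ i ∈ s, (X - C (n i))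

lemma nodal_eval_eq_zero (n : ι → R) {s : Finset ι} {i : ι} (hi : i ∈ s) :
    (nodal n s).eval (n i) = 0 := by
  unfold nodal
  rw [eval_prod]
  exact Finset.prod_eq_zero hi (by simp)

lemma nodal_monic (n : ι → R) (s : Finset ι) : (nodal n s).Monic :=
  monic_prod_of_monic _ _ fun i _ => monic_X_sub_C _

/-- A Bezout relation between nodal polynomials. -/
lemma bezout_one (n : ι → R) (a : R) (s : Finset ι) :
    ∃ α β : R[X], α * (X - C a) + β * nodal n s = C (∏ j ∈ s, (a - n j)) := by
  classical
  induction s using Finset.induction_on with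
  | empty => exact ⟨0, 1, by simp [nodal]⟩
  | insert j s hj ih =>
    obtain ⟨α, β, h⟩ := ih
    refine ⟨α * (C (a - n j)) - β * nodal n s, β, ?_⟩
    have h2 : nodal n (insert j s) = (X - C (n j)) * nodal n s := by
      unfold nodal; rw [Finset.prod_insert hj]
    rw [h2, Finset.prod_insert hj, C_mul, ← h, C_sub]
    ring

lemma bezout (n : ι → R) (s t : Finset ι) :
    ∃ α β : R[X], α * nodal n s + β * nodal n t = C (∏ i ∈ s, ∏ j ∈ t, (n i - n j)) := by
  classical
  induction s using Finset.induction_on with
  | empty => exact ⟨1, 0, by simp [nodal]⟩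
  | insert i s hi ih =>
    obtain ⟨α, β, h⟩ := ih
    obtain ⟨α', β', h'⟩ := bezout_one n (n i) t
    have h2 : nodal n (insert i s) = (X - C (n i)) * nodal n s := by
      unfold nodal; rw [Finset.prod_insert hi]
    refine ⟨α * α', α * β' * nodal n s + β * α' * (X - C (n i)) + β * β' * nodal n t, ?_⟩
    rw [h2, Finset.prod_insert hi, C_mul, ← h, ← h']
    ring

/-- Gluing interpolation polynomials on classes modulo a prime. -/
lemma glue (n v : ι → R) {π : R} (hπ : Prime π) (s : Finset ι)
    (hs : ∀ i ∈ s, ∃ q : R[X], ∀ j ∈ s, π ∣ n j - n i → q.eval (n j) = v j) :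
    ∃ a : R, ¬ π ∣ a ∧ ∃ q : R[X], ∀ j ∈ s, q.eval (n j) = a * v j := by
  classical
  induction s using Finset.strongInduction with
  | H s ih =>
    rcases s.eq_empty_or_nonempty with rfl | ⟨i, hi⟩
    · exact ⟨1, hπ.not_dvd_one, 0, by simp⟩
    · set x := s.filter (fun j => π ∣ n j - n i) with hx
      set y := s.filter (fun j => ¬ π ∣ n j - n i) with hy
      have hyss : y ⊂ s := by
        rw [hy, Finset.filter_ssubset]
        exact ⟨i, hi, by simp⟩
      obtain ⟨a, ha, q, hq⟩ := ih y hyss (by
        intro k hk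
        obtain ⟨q, hq⟩ := hs k (Finset.filter_subset _ _ hk)
        exact ⟨q, fun j hj => hq j (Finset.filter_subset _ _ hj)⟩)
      obtain ⟨q', hq'⟩ := hs i hi
      obtain ⟨α, β, h⟩ := bezout n x y
      set ρ := ∏ i ∈ x, ∏ j ∈ y, (n i - n j) with hρ
      have hρπ : ¬ π ∣ ρ := by
        rw [hρ]
        intro hd
        rw [Prime.dvd_finsetProd_iff hπ] at hd
        obtain ⟨k, hk, hd⟩ := hd
        rw [Prime.dvd_finsetProd_iff hπ] at hd
        obtain ⟨l, hl, hd⟩ := hd
        rw [hx, Finset.mem_filter] at hk
        rw [hy, Finset.mem_filter] at hl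
        apply hl.2
        have e : n l - n i = (n k - n i) - (n k - n l) := by ring
        rw [e]
        exact dvd_sub hk.2 hd
      refine ⟨ρ * a, fun hd => (hπ.dvd_or_dvd hd).elim hρπ ha,
        α * nodal n x * q + β * nodal n y * C a * q', fun j hj => ?_⟩
      have h2 : ρ = α.eval (n j) * (nodal n x).eval (n j) +
          β.eval (n j) * (nodal n y).eval (n j) := by
        have := congrArg (Polynomial.eval (n j)) h
        simpa using this.symm
      by_cases hjx : π ∣ n j - n i
      · have hjx' : j ∈ x := by rw [hx, Finset.mem_filter]; exact ⟨hj, hjx⟩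
        have h3 := nodal_eval_eq_zero n hjx'
        rw [h3, mul_zero, zero_add] at h2
        simp only [eval_add, eval_mul, eval_C, h3, mul_zero, zero_mul, zero_add]
        rw [hq' j hj hjx, h2]
      · have hjy' : j ∈ y := by rw [hy, Finset.mem_filter]; exact ⟨hj, hjx⟩
        have h3 := nodal_eval_eq_zero n hjy'
        rw [h3, mul_zero, add_zero] at h2
        simp only [eval_add, eval_mul, eval_C, h3, mul_zero, zero_mul, add_zero]
        rw [hq j hjy', h2]
        ring

/-- A polynomial of small degree vanishing at all nodes is zero. -/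
lemma eq_zero_of_nodes (n : ι → R) (s : Finset ι) (hn : Set.InjOn n s) {q : R[X]}
    (hdeg : q.degree < s.card) (hq : ∀ j ∈ s, q.eval (n j) = 0) : q = 0 :=
  Polynomial.eq_zero_of_degree_lt_of_eval_index_eq_zero s hn hdeg hq

/-- Interpolation with a denominator can be cleared. -/
lemma clear_denominator [UniqueFactorizationMonoid R] (n v : ι → R) (s : Finset ι)
    (hn : Set.InjOn n s)
    (h : ∀ π : R, Prime π → ∃ a : R, ¬ π ∣ a ∧ ∃ q : R[X], ∀ j ∈ s, q.eval (n j) = a * v j)
    (a : R) (ha : a ≠ 0) (q : R[X]) (hq : ∀ j ∈ s, q.eval (n j) = a * v j) :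
    ∃ q : R[X], ∀ j ∈ s, q.eval (n j) = v j := by
  revert q
  induction a using WfDvdMonoid.induction_on_irreducible with
  | zero => exact absurd rfl ha
  | unit u hu =>
    intro q hq
    obtain ⟨u, rfl⟩ := hu
    refine ⟨C (↑u⁻¹ : R) * q, fun j hj => ?_⟩
    rw [eval_mul, eval_C, hq j hj, ← mul_assoc, Units.inv_mul, one_mul]
  | mul b π hb hπ ih =>
    intro q hq
    have hπ' : Prime π := hπ.prime
    obtain ⟨c, hc, r, hr⟩ := h π hπ'
    have hmon := nodal_monic n s
    -- reduce the degrees
    set q' := q %ₘ nodal n s with hq'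
    set r' := r %ₘ nodal n s with hr'
    have key : ∀ (f : R[X]), ∀ j ∈ s, (f %ₘ nodal n s).eval (n j) = f.eval (n j) := by
      intro f j hj
      conv_rhs => rw [← modByMonic_add_div f (nodal n s)]
      rw [eval_add, eval_mul, nodal_eval_eq_zero n hj, zero_mul, add_zero]
    have hdegn : (nodal n s).degree = s.card := by
      unfold nodal
      rw [degree_prod]
      simp
    have hdeg : ∀ f : R[X], (f %ₘ nodal n s).degree < s.card := by
      intro f
      rw [← hdegn]
      exact degree_modByMonic_lt _ hmon
    have hdegC : ∀ (f : R[X]) (c : R), (C c * (f %ₘ nodal n s)).degree < s.card := by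
      intro f c
      refine lt_of_le_of_lt ?_ (hdeg f)
      rw [degree_mul]
      by_cases hc0 : c = 0
      · simp [hc0]
      · rw [degree_C hc0, zero_add]
    have heq : C c * q' - C (π * b) * r' = 0 := by
      apply eq_zero_of_nodes n s hn
      · exact lt_of_le_of_lt (degree_sub_le _ _) (max_lt (hdegC _ _) (hdegC _ _))
      · intro j hj
        rw [eval_sub, eval_mul, eval_mul, eval_C, eval_C, hq', hr', key _ _ hj, key _ _ hj,
          hq j hj, hr j hj]
        ring
    have hdvd : C π ∣ C c * q' := by
      rw [sub_eq_zero.mp heq, C_mul, mul_assoc]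
      exact dvd_mul_right _ _
    have hCπ : Prime (C π : R[X]) := prime_C_iff.mpr hπ'
    have hdvd2 : C π ∣ q' := by
      rcases hCπ.dvd_or_dvd hdvd with h1 | h1
      · exfalso
        apply hc
        rw [C_dvd_iff_dvd_coeff] at h1
        have := h1 0
        simpa using this
      · exact h1
    obtain ⟨q'', hq''⟩ := hdvd2
    refine ih hb q'' fun j hj => ?_
    have h1 : q'.eval (n j) = π * b * v j := by rw [hq', key _ _ hj, hq j hj]
    rw [hq'', eval_mul, eval_C] at h1
    have h2 : π * (q''.eval (n j)) = π * (b * v j) := by rw [h1]; ring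
    exact mul_left_cancel₀ hπ'.ne_zero h2

/-- **Interpolation over a factorial domain.** -/
theorem interpolation [UniqueFactorizationMonoid R] (n v : ι → R) (s : Finset ι)
    (hn : Set.InjOn n s)
    (h : ∀ π : R, Prime π → ∀ i ∈ s, ∃ q : R[X], ∀ j ∈ s, π ∣ n j - n i → q.eval (n j) = v j)
    {π₀ : R} (hπ₀ : Prime π₀) :
    ∃ q : R[X], ∀ j ∈ s, q.eval (n j) = v j := by
  obtain ⟨a, ha, q, hq⟩ := glue n v hπ₀ s (h π₀ hπ₀)
  refine clear_denominator n v s hn (fun π hπ => glue n v hπ s (h π hπ)) a ?_ q hq
  rintro rfl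
  exact ha (dvd_zero _)

end Pool.Agent.H74.Interp
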