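import Pool.Agent.H57.KM.Basic

/-!
# The weak nef cone conjecture (MP_39bf0e_ag): abstract data of a pair

`V n = ℝ^n` is `N^1(X/Z)` with the lattice `ℤ^n`. `PairData n d`: the ample cone, the cone of effective classes,
the image of `Aut(X/Z, Δ)` in `GL_n(ℤ)`, and the form `D_1 ... D_d` on a general fibre of `X → Z`,
`d = dim X - dim Z`, with their standard properties. A contraction `φ : X → Y` over `Z` is given by the subspace
`U = φ^* N^1(Y/Z)`, which is spanned by its face.
-/

set_option autoImplicit false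

namespace Pool.Agent.H74.Nef

open Pool.Agent.H57.KM

/-- the ample cone, the effective cone, the image of the automorphism group and the intersection form -/
structure PairData (n d : ℕ) where
  /-- the ample cone -/
  amp : Set (V n)
  /-- the cone of effective classes -/
  eff : Set (V n)
  /-- the image of the automorphism group -/
  G : Subgroup (GL (Fin n) ℤ)
  /-- the intersection form on a general fibre of `X → Z` -/
  T : MultilinearMap ℝ (fun _ : Fin d => V n) ℝ
  isAmp : IsAmp amp
  eff_zero : (0 : V n) ∈ eff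
  eff_add : ∀ x ∈ eff, ∀ y ∈ eff, x + y ∈ eff
  eff_smul : ∀ c : ℝ, 0 < c → ∀ x ∈ eff, c • x ∈ eff
  amp_eff : amp ⊆ eff
  T_symm : ∀ (π : Equiv.Perm (Fin d)) (v : Fin d → V n), T (fun i => v (π i)) = T v
  T_pos : ∀ x ∈ amp, 0 < T (fun _ => x)
  act_amp : ∀ g ∈ G, ∀ x ∈ amp, act g x ∈ amp
  act_eff : ∀ g ∈ G, ∀ x ∈ eff, act g x ∈ eff
  act_T : ∀ g ∈ G, ∀ v : Fin d → V n, T (fun i => act g (v i)) = T v

variable {n d : ℕ}

/-- the face `F_φ` of the effective nef cone: its part in `U = φ^* N^1(Y/Z)` -/
def PairData.face (D : PairData n d) (U : Submodule ℝ (V n)) : Set (V n) :=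
  closure D.amp ∩ D.eff ∩ U

/-- `U` is spanned by rational classes and by `face U`, and `face U` is a face of the effective nef cone -/
structure PairData.IsContr (D : PairData n d) (U : Submodule ℝ (V n)) : Prop where
  span : Submodule.span ℝ (D.face U) = U
  rat : Submodule.span ℝ {x | x ∈ U ∧ ∃ q : Fin n → ℚ, x = qR q} = U
  extr : ∀ x ∈ closure D.amp ∩ D.eff, ∀ y ∈ closure D.amp ∩ D.eff, x + y ∈ U → x ∈ U ∧ y ∈ U

/-- birational contractions `X → X'` over `Z`: `U = N^1(X'/Z)` contains a nef class of positive degree -/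
def PairData.IsBir (D : PairData n d) (U : Submodule ℝ (V n)) : Prop :=
  D.IsContr U ∧ ∃ x ∈ D.face U, 0 < D.T (fun _ => x)

/-- for `W = N^1(Y/Z)` contained in `U = N^1(X'/Z)`: products of `b + 1` classes of `W` vanish
(`b = dim Y - dim Z`) -/
def PairData.BaseDim (D : PairData n d) (U W : Submodule ℝ (V n)) (b : Fin d) : Prop :=
  ∀ v : Fin d → V n, (∀ i, v i ∈ U) → (∀ i ≤ b, v i ∈ W) → D.T v = 0

/-- `w^b h v_2 ... v_(d-b) = 0` for all `v_j` in `U`: for `w` the class of an ample divisor of `Y` this says that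
`h` is numerically trivial on a general fibre of `X' → Y` -/
def PairData.TrivOn (D : PairData n d) (U : Submodule ℝ (V n)) (b : Fin d) (w h : V n) : Prop :=
  ∀ v : Fin d → V n, (∀ i, v i ∈ U) → (∀ i < b, v i = w) → v b = h → D.T v = 0

/-- nondegenerate fibre spaces `X' → Y`: a class of `U = N^1(X'/Z)` which is numerically trivial on a general
fibre is in `W = N^1(Y/Z)` -/
def PairData.Nondeg (D : PairData n d) (U W : Submodule ℝ (V n)) : Prop :=
  W ≤ U ∧ ∃ b : Fin d, D.BaseDim U W b ∧ ∃ w ∈ W, ∀ h ∈ U, D.TrivOn U b w h → h ∈ W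

/-- the relative nef cone of `X' → Y`, as a subset of `U = N^1(X'/Z)` -/
def PairData.relNef (D : PairData n d) (U W : Submodule ℝ (V n)) : Set (V n) :=
  closure {z | ∃ x ∈ closure D.amp, x ∈ U ∧ ∃ w ∈ W, z = x + w}

/-- properties of the fibre spaces `X' → Y` whose general fibre is regular (`h^1(O) = 0`) and which do not factor
through a birational contraction of `X'`: a class `h` numerically trivial on the general fibre is vertical (so
`w' + h` and `w' - h` are effective for some `w'` in `W`), an effective class of `X'` is nef over `Y`, and the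
relative nef cone contains no line modulo `W` -/
structure PairData.Regular (D : PairData n d) (U W : Submodule ℝ (V n)) : Prop where
  contr : D.IsContr W
  le : W ≤ U
  fib : ∃ b : Fin d, D.BaseDim U W b ∧ ∃ w ∈ W, ∀ h ∈ U, D.TrivOn U b w h →
    ∃ w' ∈ W, w' + h ∈ D.eff ∧ w' - h ∈ D.eff
  nobir : ∀ x ∈ D.eff, x ∈ U → x ∈ D.relNef U W
  pointed : ∀ x ∈ D.relNef U W, -x ∈ D.relNef U W → x ∈ W

/-- the sets of the family lie in finitely many classes under the automorphism group -/
def PairData.FinClasses (D : PairData n d) (F : Set (Set (V n))) : Prop :=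
  ∃ S : Set (Set (V n)), S.Finite ∧ ∀ A ∈ F, ∃ B ∈ S, ∃ g ∈ D.G, A = act g '' B

end Pool.Agent.H74.Nef
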