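import Pool.Agent.H74.NefFib
import Pool.Agent.H74.NefDefs

/-!
# Finiteness of the birational contractions whose exceptional divisors have small centres
-/

set_option autoImplicit false

namespace Pool.Agent.H74.Nef

open Pool.Agent.H57.KM Pool.Agent.H74.NefLin

variable {n d : ℕ}

/-- `w^s x v_1 ... v_(d-s-1) = 0` for all classes `v_j` -/
def PairData.Kills (D : PairData n d) (s : ℕ) (w x : V n) : Prop :=
  ∀ v : Fin d → V n, (∀ i : Fin d, (i : ℕ) < s → v i = w) → (∀ i : Fin d, (i : ℕ) = s → v i = x) →
    D.T v = 0

/-- for `w` in `W` let `N = {x : w^s x = 0}`: (P) `w_1 ... w_s x = 0` for all `w_i` in `W` and `x` in `N`;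
(H) if `w^(s-1) z x y = 0` for all `x`, `y` in `N`, then `z` is in `W`. -/
def PairData.SmallCentres (D : PairData n d) (s : ℕ) (W : Submodule ℝ (V n)) : Prop :=
  ∃ w ∈ W,
    (∀ x, D.Kills s w x → ∀ v : Fin d → V n, (∀ i : Fin d, (i : ℕ) < s → v i ∈ W) →
      (∀ i : Fin d, (i : ℕ) = s → v i = x) → D.T v = 0) ∧
    ∀ z : V n, (∀ x y, D.Kills s w x → D.Kills s w y → ∀ v : Fin d → V n,
      (∀ i : Fin d, (i : ℕ) + 1 < s → v i = w) → (∀ i : Fin d, (i : ℕ) + 1 = s → v i = z) →
      (∀ i : Fin d, (i : ℕ) = s → v i = x) → (∀ i : Fin d, (i : ℕ) = s + 1 → v i = y) →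
        D.T v = 0) → z ∈ W

/-- the classes killed by `w^s` -/
def killSub (D : PairData n d) {s : ℕ} (hs : s < d) (w : V n) : Submodule ℝ (V n) where
  carrier := {x | D.Kills s w x}
  zero_mem' := fun v _ h2 => D.T.map_coord_zero ⟨s, hs⟩ (h2 _ rfl)
  add_mem' := by
    intro x y hx hy v h1 h2
    have e : v = Function.update v ⟨s, hs⟩ (x + y) := by
      funext i
      by_cases hi : i = ⟨s, hs⟩
      · subst hi; rw [Function.update_self]; exact h2 _ rfl
      · rw [Function.update_of_ne hi]
    rw [e, D.T.map_update_add]
    have h3 : D.T (Function.update v ⟨s, hs⟩ x) = 0 := by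
      refine hx _ (fun i hi => ?_) (fun i hi => ?_)
      · have hne : i ≠ ⟨s, hs⟩ := by rintro rfl; simp at hi
        rw [Function.update_of_ne hne, h1 i hi]
      · have : i = ⟨s, hs⟩ := Fin.ext hi
        subst this; rw [Function.update_self]
    have h4 : D.T (Function.update v ⟨s, hs⟩ y) = 0 := by
      refine hy _ (fun i hi => ?_) (fun i hi => ?_)
      · have hne : i ≠ ⟨s, hs⟩ := by rintro rfl; simp at hi
        rw [Function.update_of_ne hne, h1 i hi]
      · have : i = ⟨s, hs⟩ := Fin.ext hi
        subst this; rw [Function.update_self]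
    rw [h3, h4, add_zero]
  smul_mem' := by
    intro c x hx v h1 h2
    have e : v = Function.update v ⟨s, hs⟩ (c • x) := by
      funext i
      by_cases hi : i = ⟨s, hs⟩
      · subst hi; rw [Function.update_self]; exact h2 _ rfl
      · rw [Function.update_of_ne hi]
    rw [e, D.T.map_update_smul]
    have h3 : D.T (Function.update v ⟨s, hs⟩ x) = 0 := by
      refine hx _ (fun i hi => ?_) (fun i hi => ?_)
      · have hne : i ≠ ⟨s, hs⟩ := by rintro rfl; simp at hi
        rw [Function.update_of_ne hne, h1 i hi]
      · have : i = ⟨s, hs⟩ := Fin.ext hi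
        subst this; rw [Function.update_self]
    rw [h3, smul_zero]

theorem mem_killSub (D : PairData n d) {s : ℕ} (hs : s < d) (w x : V n) :
    x ∈ killSub D hs w ↔ D.Kills s w x := Iff.rfl

/-- the derivative of a symmetric form in its first `s` places and in the place `s` -/
theorem deriv_two (D : PairData n d) {s : ℕ} (hs : s < d) (hs1 : 1 ≤ s) (w x a y : V n)
    (u : Fin d → V n) :
    HasDerivAt (fun t : ℝ => D.T (fun i : Fin d => if (i : ℕ) < s then w + t • x
        else if (i : ℕ) = s then a + t • y else u i))
      ((s : ℝ) * D.T (fun i : Fin d => if (i : ℕ) + 1 < s then w else if (i : ℕ) + 1 = s then x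
          else if (i : ℕ) = s then a else u i) +
        D.T (fun i : Fin d => if (i : ℕ) < s then w else if (i : ℕ) = s then y else u i)) 0 := by
  classical
  set c : Fin d → V n := fun i => if (i : ℕ) < s then w else if (i : ℕ) = s then a else u i with hc
  set δ : Fin d → V n := fun i => if (i : ℕ) < s then x else if (i : ℕ) = s then y else 0 with hδ
  have h1 := hasDerivAt_multilinear D.T c δ
  have h2 : (fun t : ℝ => D.T (fun i => c i + t • δ i)) =
      fun t : ℝ => D.T (fun i : Fin d => if (i : ℕ) < s then w + t • x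
        else if (i : ℕ) = s then a + t • y else u i) := by
    funext t
    congr 1
    funext i
    simp only [hc, hδ]
    by_cases h : (i : ℕ) < s
    · simp [h]
    · by_cases h' : (i : ℕ) = s
      · simp [h']
      · simp [h, h']
  rw [h2] at h1
  set R : ℝ := D.T (fun i : Fin d => if (i : ℕ) + 1 < s then w else if (i : ℕ) + 1 = s then x
          else if (i : ℕ) = s then a else u i) with hR
  set S : ℝ := D.T (fun i : Fin d => if (i : ℕ) < s then w else if (i : ℕ) = s then y else u i)
    with hS
  have hsd : s - 1 < d := by omega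
  set k : Fin d := ⟨s - 1, hsd⟩ with hk
  have hkv : (k : ℕ) + 1 = s := by rw [hk]; simp; omega
  have h3 : ∀ i : Fin d, D.T (Function.update c i (δ i)) =
      if (i : ℕ) < s then R else if (i : ℕ) = s then S else 0 := by
    intro i
    by_cases h : (i : ℕ) < s
    · rw [if_pos h, hR]
      have hδi : δ i = x := by simp only [hδ]; rw [if_pos h]
      rw [hδi, ← D.T_symm (Equiv.swap i k)]
      congr 1
      funext j
      by_cases hjk : j = k
      · subst hjk
        rw [Equiv.swap_apply_right, Function.update_self]
        rw [if_neg (by omega), if_pos hkv]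
      · by_cases hji : j = i
        · subst hji
          rw [Equiv.swap_apply_left, Function.update_of_ne (Ne.symm hjk)]
          have e1 : (j : ℕ) + 1 < s := by
            have : (j : ℕ) ≠ (k : ℕ) := fun h' => hjk (Fin.ext h')
            omega
          have e2 : (k : ℕ) < s := by omega
          rw [if_pos e1]
          simp only [hc]
          rw [if_pos e2]
        · rw [Equiv.swap_apply_of_ne_of_ne hji hjk, Function.update_of_ne hji]
          have e0 : (j : ℕ) ≠ (k : ℕ) := fun h' => hjk (Fin.ext h')
          simp only [hc]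
          have e2 : ¬ (j : ℕ) + 1 = s := by omega
          by_cases e1 : (j : ℕ) + 1 < s
          · have e3 : (j : ℕ) < s := by omega
            rw [if_pos e1, if_pos e3]
          · have e3 : ¬ (j : ℕ) < s := by omega
            rw [if_neg e1, if_neg e2, if_neg e3]
    · rw [if_neg h]
      by_cases h' : (i : ℕ) = s
      · rw [if_pos h', hS]
        have hδi : δ i = y := by simp only [hδ]; rw [if_neg h, if_pos h']
        rw [hδi]
        congr 1
        funext j
        by_cases hji : j = i
        · subst hji
          rw [Function.update_self, if_neg h, if_pos h']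
        · rw [Function.update_of_ne hji]
          have e0 : (j : ℕ) ≠ (i : ℕ) := fun h' => hji (Fin.ext h')
          simp only [hc]
          by_cases e1 : (j : ℕ) < s
          · rw [if_pos e1, if_pos e1]
          · rw [if_neg e1, if_neg e1, if_neg (by omega), if_neg (by omega)]
      · rw [if_neg h']
        have hδi : δ i = 0 := by simp only [hδ]; rw [if_neg h, if_neg h']
        rw [hδi]
        exact D.T.map_coord_zero i (by rw [Function.update_self])
  have h4 : ∑ i, D.T (Function.update c i (δ i)) = (s : ℝ) * R + S := by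
    have h5 : ∀ i : Fin d, (if (i : ℕ) < s then R else if (i : ℕ) = s then S else 0) =
        (if (i : ℕ) < s then R else 0) + (if i = ⟨s, hs⟩ then S else 0) := by
      intro i
      by_cases h : (i : ℕ) < s
      · have : i ≠ ⟨s, hs⟩ := by rintro rfl; simp at h
        rw [if_pos h, if_pos h, if_neg this, add_zero]
      · by_cases h' : (i : ℕ) = s
        · have : i = ⟨s, hs⟩ := Fin.ext h'
          rw [if_neg h, if_pos h', if_neg h, if_pos this, zero_add]
        · have : i ≠ ⟨s, hs⟩ := fun h'' => h' (by rw [h''])
          rw [if_neg h, if_neg h', if_neg h, if_neg this, add_zero]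
    rw [Finset.sum_congr rfl fun i _ => (h3 i).trans (h5 i), Finset.sum_add_distrib,
      Finset.sum_ite_eq' Finset.univ (⟨s, hs⟩ : Fin d), if_pos (Finset.mem_univ _),
      ← Finset.sum_filter, Finset.sum_const, nsmul_eq_mul]
    congr 2
    have h6 : (Finset.univ.filter fun i : Fin d => (i : ℕ) < s) = Finset.Iio ⟨s, hs⟩ := by
      ext i; simp [Fin.lt_def]
    rw [h6, Fin.card_Iio]
  rw [← h4]
  exact h1

/-- finiteness for a given dimension of the space of killed classes -/
theorem finite_exc_dim (D : PairData n d) {s : ℕ} (hs1 : 1 ≤ s) (hs : s + 2 ≤ d) (m : ℕ) :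
    {W : Submodule ℝ (V n) | ∃ w ∈ W, Module.finrank ℝ (killSub D (s := s) (by omega) w) = m ∧
      (∀ x, D.Kills s w x → ∀ v : Fin d → V n, (∀ i : Fin d, (i : ℕ) < s → v i ∈ W) →
        (∀ i : Fin d, (i : ℕ) = s → v i = x) → D.T v = 0) ∧
      ∀ z : V n, (∀ x y, D.Kills s w x → D.Kills s w y → ∀ v : Fin d → V n,
        (∀ i : Fin d, (i : ℕ) + 1 < s → v i = w) → (∀ i : Fin d, (i : ℕ) + 1 = s → v i = z) →
        (∀ i : Fin d, (i : ℕ) = s → v i = x) → (∀ i : Fin d, (i : ℕ) = s + 1 → v i = y) →
          D.T v = 0) → z ∈ W}.Finite := by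
  classical
  have hsd : s < d := by omega
  have hsd1 : s + 1 < d := by omega
  -- coordinates: `none` for the point, `some k` for the killed classes
  let σ := Option (Fin m) × Fin n
  let pr : Option (Fin m) → (σ → ℝ) →ₗ[ℝ] V n := fun o =>
    { toFun := fun z j => z (o, j)
      map_add' := fun _ _ => rfl
      map_smul' := fun _ _ => rfl }
  let J : Set ((σ → ℝ) → ℝ) := {f | ∃ (k : Fin m) (u : Fin d → V n), f = fun z =>
    D.T (fun i : Fin d => if (i : ℕ) < s then pr none z
        else if (i : ℕ) = s then pr (some k) z else u i)}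
  have hJ : ∀ f ∈ J, PolyFun f := by
    rintro f ⟨k, u, rfl⟩
    refine polyFun_multilinear D.T (fun z (i : Fin d) => if (i : ℕ) < s then pr none z
        else if (i : ℕ) = s then pr (some k) z else u i) fun i j => ?_
    by_cases h : (i : ℕ) < s
    · simp only [if_pos h]
      exact ⟨MvPolynomial.X (none, j), fun x => MvPolynomial.eval_X _⟩
    · by_cases h' : (i : ℕ) = s
      · simp only [if_neg h, if_pos h']
        exact ⟨MvPolynomial.X (some k, j), fun x => MvPolynomial.eval_X _⟩
      · simp only [if_neg h, if_neg h']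
        exact ⟨MvPolynomial.C (u i j), fun x => MvPolynomial.eval_C _⟩
  refine ((finite_components J hJ).image fun L => L.map (pr none)).subset ?_
  rintro W ⟨w, hw, hm, hP, hH⟩
  let N := killSub D (s := s) hsd w
  let bN : Module.Basis (Fin m) ℝ N := Module.finBasisOfFinrankEq ℝ N hm
  -- the subspace `W × N^m`
  let L : Submodule ℝ (σ → ℝ) := W.comap (pr none) ⊓ ⨅ k : Fin m, N.comap (pr (some k))
  have hL : ∀ z, z ∈ L ↔ pr none z ∈ W ∧ ∀ k : Fin m, pr (some k) z ∈ N := by
    intro z
    simp only [L, Submodule.mem_inf, Submodule.mem_iInf, Submodule.mem_comap]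
  -- the base point
  let p : σ → ℝ := fun q => match q.1 with
    | none => w q.2
    | some k => (bN k : V n) q.2
  have hp0 : pr none p = w := rfl
  have hpk : ∀ k, pr (some k) p = (bN k : V n) := fun k => rfl
  refine ⟨L, ⟨?_, p, ?_, ?_⟩, ?_⟩
  · rintro f ⟨k, u, rfl⟩ z hz
    obtain ⟨h1, h2⟩ := (hL z).1 hz
    refine hP (pr (some k) z) (h2 k) _ (fun i hi => ?_) (fun i hi => ?_)
    · simp only [if_pos hi]; exact h1
    · have : ¬ (i : ℕ) < s := by omega
      simp only [if_neg this, if_pos hi]
  · rw [hL]
    exact ⟨by rw [hp0]; exact hw, fun k => by rw [hpk]; exact Submodule.coe_mem _⟩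
  · intro z hz
    -- the linear equations
    have key : ∀ (k : Fin m) (u : Fin d → V n),
        (s : ℝ) * D.T (fun i : Fin d => if (i : ℕ) + 1 < s then w else if (i : ℕ) + 1 = s then
          pr none z else if (i : ℕ) = s then (bN k : V n) else u i) +
        D.T (fun i : Fin d => if (i : ℕ) < s then w else if (i : ℕ) = s then pr (some k) z
          else u i) = 0 := by
      intro k u
      have h1 := hz _ ⟨k, u, rfl⟩
      have h2 := deriv_two D hsd hs1 w (pr none z) (bN k : V n) (pr (some k) z) u
      have h3 : (fun t : ℝ => D.T (fun i : Fin d => if (i : ℕ) < s then pr none (p + t • z)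
          else if (i : ℕ) = s then pr (some k) (p + t • z) else u i)) =
          fun t : ℝ => D.T (fun i : Fin d => if (i : ℕ) < s then w + t • pr none z
          else if (i : ℕ) = s then (bN k : V n) + t • pr (some k) z else u i) := by
        funext t
        simp only [map_add, map_smul, hp0, hpk]
      rw [h3] at h1
      exact h2.unique h1
    have hs0 : (s : ℝ) ≠ 0 := by
      have : (1 : ℝ) ≤ s := by exact_mod_cast hs1
      linarith
    -- multiplying by a killed class
    have key2 : ∀ (k : Fin m) (y : V n), D.Kills s w y → ∀ u : Fin d → V n,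
        (∀ i : Fin d, (i : ℕ) = s + 1 → u i = y) →
        D.T (fun i : Fin d => if (i : ℕ) + 1 < s then w else if (i : ℕ) + 1 = s then
          pr none z else if (i : ℕ) = s then (bN k : V n) else u i) = 0 := by
      intro k y hy u hu
      have h1 := key k u
      have h2 : D.T (fun i : Fin d => if (i : ℕ) < s then w else if (i : ℕ) = s then pr (some k) z
          else u i) = 0 := by
        rw [← D.T_symm (Equiv.swap ⟨s, hsd⟩ ⟨s + 1, hsd1⟩)]
        refine hy _ (fun i hi => ?_) (fun i hi => ?_)
        · have e1 : i ≠ ⟨s, hsd⟩ := by rintro rfl; simp at hi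
          have e2 : i ≠ ⟨s + 1, hsd1⟩ := by rintro rfl; simp at hi
          simp only [Equiv.swap_apply_of_ne_of_ne e1 e2, if_pos hi]
        · have e1 : i = ⟨s, hsd⟩ := Fin.ext hi
          subst e1
          simp only [Equiv.swap_apply_left]
          rw [if_neg (by omega), if_neg (by omega)]
          exact hu _ rfl
      rw [h2, add_zero] at h1
      exact (mul_eq_zero.1 h1).resolve_left hs0
    -- by linearity for all killed classes
    have key3 : ∀ x y, D.Kills s w x → D.Kills s w y → ∀ v : Fin d → V n,
        (∀ i : Fin d, (i : ℕ) + 1 < s → v i = w) →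
        (∀ i : Fin d, (i : ℕ) + 1 = s → v i = pr none z) →
        (∀ i : Fin d, (i : ℕ) = s → v i = x) → (∀ i : Fin d, (i : ℕ) = s + 1 → v i = y) →
          D.T v = 0 := by
      intro x y hx hy v h1 h2 h3 h4
      have h5 : ∀ c : V n, c ∈ N → D.T (Function.update v ⟨s, hsd⟩ c) = 0 := by
        intro c hc
        have h6 : c = ∑ k, bN.repr ⟨c, hc⟩ k • (bN k : V n) := by
          have h7 := bN.sum_repr ⟨c, hc⟩
          have h8 := congrArg (fun q : N => (q : V n)) h7
          simp only [Submodule.coe_sum, Submodule.coe_smul] at h8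
          exact h8.symm
        rw [h6, D.T.map_update_sum]
        refine Finset.sum_eq_zero fun k _ => ?_
        rw [D.T.map_update_smul]
        have h7 : Function.update v ⟨s, hsd⟩ (bN k : V n) =
            (fun i : Fin d => if (i : ℕ) + 1 < s then w else if (i : ℕ) + 1 = s then
              pr none z else if (i : ℕ) = s then (bN k : V n) else v i) := by
          funext i
          by_cases e : i = ⟨s, hsd⟩
          · subst e
            rw [Function.update_self, if_neg (by simp), if_neg (by simp), if_pos rfl]
          · have e0 : (i : ℕ) ≠ s := fun h => e (Fin.ext h)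
            rw [Function.update_of_ne e]
            by_cases e1 : (i : ℕ) + 1 < s
            · rw [if_pos e1, h1 i e1]
            · by_cases e2 : (i : ℕ) + 1 = s
              · rw [if_neg e1, if_pos e2, h2 i e2]
              · rw [if_neg e1, if_neg e2, if_neg e0]
        rw [h7, key2 k y hy v h4, smul_zero]
      have h9 : v = Function.update v ⟨s, hsd⟩ x := by
        funext i
        by_cases e : i = ⟨s, hsd⟩
        · subst e; rw [Function.update_self]; exact h3 _ rfl
        · rw [Function.update_of_ne e]
      rw [h9]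
      exact h5 x hx
    have hzW : pr none z ∈ W := hH _ key3
    rw [hL]
    refine ⟨hzW, fun k => ?_⟩
    show D.Kills s w (pr (some k) z)
    intro v h1 h2
    have h3 := key k v
    have h4 : D.T (fun i : Fin d => if (i : ℕ) + 1 < s then w else if (i : ℕ) + 1 = s then
          pr none z else if (i : ℕ) = s then (bN k : V n) else v i) = 0 := by
      refine hP (bN k : V n) (bN k).2 _ (fun i hi => ?_) (fun i hi => ?_)
      · by_cases e1 : (i : ℕ) + 1 < s
        · simp only [if_pos e1]; exact hw
        · have e2 : (i : ℕ) + 1 = s := by omega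
          simp only [if_neg e1, if_pos e2]; exact hzW
      · rw [if_neg (by omega), if_neg (by omega), if_pos hi]
    have h5 : (fun i : Fin d => if (i : ℕ) < s then w else if (i : ℕ) = s then pr (some k) z
          else v i) = v := by
      funext i
      by_cases e1 : (i : ℕ) < s
      · rw [if_pos e1, h1 i e1]
      · by_cases e2 : (i : ℕ) = s
        · rw [if_neg e1, if_pos e2, h2 i e2]
        · rw [if_neg e1, if_neg e2]
    rw [h4, mul_zero, zero_add, h5] at h3
    exact h3
  · show L.map (pr none) = W
    ext x
    constructor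
    · rintro ⟨z, hz, rfl⟩
      exact ((hL z).1 hz).1
    · intro hx
      let z : σ → ℝ := fun q => match q.1 with
        | none => x q.2
        | some _ => 0
      refine ⟨z, (hL z).2 ⟨hx, fun k => ?_⟩, rfl⟩
      have : pr (some k) z = 0 := rfl
      rw [this]
      exact N.zero_mem

/-- **Main theorem.** -/
theorem finite_exc (D : PairData n d) {s : ℕ} (hs1 : 1 ≤ s) (hs : s + 2 ≤ d) :
    {W : Submodule ℝ (V n) | D.SmallCentres s W}.Finite := by
  have h1 : {W : Submodule ℝ (V n) | D.SmallCentres s W} ⊆ ⋃ m ∈ Finset.range (n + 1),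
      {W : Submodule ℝ (V n) | ∃ w ∈ W, Module.finrank ℝ (killSub D (s := s) (by omega) w) = m ∧
      (∀ x, D.Kills s w x → ∀ v : Fin d → V n, (∀ i : Fin d, (i : ℕ) < s → v i ∈ W) →
        (∀ i : Fin d, (i : ℕ) = s → v i = x) → D.T v = 0) ∧
      ∀ z : V n, (∀ x y, D.Kills s w x → D.Kills s w y → ∀ v : Fin d → V n,
        (∀ i : Fin d, (i : ℕ) + 1 < s → v i = w) → (∀ i : Fin d, (i : ℕ) + 1 = s → v i = z) →
        (∀ i : Fin d, (i : ℕ) = s → v i = x) → (∀ i : Fin d, (i : ℕ) = s + 1 → v i = y) →
          D.T v = 0) → z ∈ W} := by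
    rintro W ⟨w, hw, hP, hH⟩
    have hsd : s < d := by omega
    have h2 : Module.finrank ℝ (killSub D (s := s) hsd w) ≤ n := by
      have := Submodule.finrank_le (killSub D (s := s) hsd w)
      rwa [Module.finrank_fin_fun] at this
    simp only [Set.mem_iUnion]
    exact ⟨_, Finset.mem_range.2 (by omega), w, hw, rfl, hP, hH⟩
  exact (Set.Finite.biUnion (Finset.finite_toSet _) fun m _ => finite_exc_dim D hs1 hs m).subset h1

end Pool.Agent.H74.Nef
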