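import Mathlib

/-!
# Linear subspaces that are components of an algebraic set

`finite_linear_components`: for a set `J` of real polynomials there are only finitely many
linear subspaces `L` on which all of `J` vanishes and such that for some `p` in `L` every
vector killed by the differentials at `p` of all members of `J` lies in `L`.
-/

namespace Pool.Agent.H74.NefLin

open MvPolynomial

variable {σ : Type*} [Fintype σ] [DecidableEq σ]

/-- the linear polynomial of a linear form -/
noncomputable def toPoly (l : (σ → ℝ) →ₗ[ℝ] ℝ) : MvPolynomial σ ℝ :=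
  ∑ j, C (l (Pi.single j 1)) * X j

theorem eval_toPoly (l : (σ → ℝ) →ₗ[ℝ] ℝ) (x : σ → ℝ) : eval x (toPoly l) = l x := by
  unfold toPoly
  rw [map_sum]
  conv_rhs => rw [LinearMap.pi_apply_eq_sum_univ l x]
  refine Finset.sum_congr rfl fun j _ => ?_
  rw [map_mul, eval_C, eval_X, smul_eq_mul, mul_comm]
  congr 1
  congr 1
  ext k
  by_cases h : j = k
  · subst h; simp
  · simp [h, Ne.symm h]

omit [DecidableEq σ] in
/-- the ideal of polynomials vanishing on a subspace is prime -/
theorem exists_prime (L : Submodule ℝ (σ → ℝ)) :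
    ∃ P : Ideal (MvPolynomial σ ℝ), P.IsPrime ∧ ∀ f, f ∈ P ↔ ∀ x ∈ L, eval x f = 0 := by
  classical
  let b := Module.finBasis ℝ L
  let ρ : MvPolynomial σ ℝ →ₐ[ℝ] MvPolynomial (Fin (Module.finrank ℝ L)) ℝ :=
    aeval (fun i => ∑ k, C ((b k : σ → ℝ) i) * X k)
  have hρ : ∀ (f : MvPolynomial σ ℝ) (y : Fin (Module.finrank ℝ L) → ℝ),
      eval y (ρ f) = eval (fun i => ∑ k, y k * (b k : σ → ℝ) i) f := by
    intro f y
    induction f using MvPolynomial.induction_on with
    | C a => simp [ρ]
    | add p q hp hq => rw [map_add, map_add, map_add, hp, hq]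
    | mul_X p i hp =>
      rw [map_mul, map_mul, map_mul, hp]
      congr 1
      simp only [ρ, aeval_X, map_sum, map_mul, eval_C, eval_X]
      refine Finset.sum_congr rfl fun k _ => ?_
      ring
  refine ⟨RingHom.ker ρ.toRingHom, RingHom.ker_isPrime _, fun f => ?_⟩
  rw [RingHom.mem_ker]
  constructor
  · intro h x hx
    have h1 := hρ f (fun k => b.repr ⟨x, hx⟩ k)
    have h2 : ρ f = 0 := h
    rw [h2, map_zero] at h1
    have h3 : (fun i => ∑ k, b.repr ⟨x, hx⟩ k * (b k : σ → ℝ) i) = x := by
      have h4 := b.sum_repr ⟨x, hx⟩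
      have h5 := congrArg (fun z : L => (z : σ → ℝ)) h4
      simp only [Submodule.coe_sum, Submodule.coe_smul] at h5
      funext i
      have h6 := congrFun h5 i
      simpa [Finset.sum_apply] using h6
    rw [h3] at h1
    exact h1.symm
  · intro h
    show ρ f = 0
    refine MvPolynomial.funext fun y => ?_
    rw [hρ, map_zero]
    apply h
    have : (fun i => ∑ k, y k * (b k : σ → ℝ) i) = ((∑ k, y k • b k : L) : σ → ℝ) := by
      funext i
      simp [Finset.sum_apply]
    rw [this]
    exact Submodule.coe_mem _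

/-- expansion of a polynomial transversally to a subspace -/
theorem exists_expansion {c : ℕ} (π : (σ → ℝ) →ₗ[ℝ] (σ → ℝ)) (l : Fin c → ((σ → ℝ) →ₗ[ℝ] ℝ))
    (h : Fin c → σ → ℝ) (hx : ∀ x, x = π x + ∑ i, l i x • h i) (p : σ → ℝ) (hp : π p = p)
    (f : MvPolynomial σ ℝ) :
    ∃ g : Fin c → MvPolynomial σ ℝ,
      (∀ x, eval x f = eval (π x) f + ∑ i, l i x * eval x (g i)) ∧
      ∀ i, eval p (g i) = ∑ j, h i j * eval p (pderiv j f) := by
  classical
  have hbind : ∀ f : MvPolynomial σ ℝ, ∃ F : MvPolynomial σ ℝ, ∀ x, eval x F = eval (π x) f := by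
    intro f
    refine ⟨aeval (fun j => toPoly ((LinearMap.proj j).comp π)) f, fun x => ?_⟩
    induction f using MvPolynomial.induction_on with
    | C a => simp
    | add p q hp hq => rw [map_add, map_add, map_add, hp, hq]
    | mul_X p i hp =>
      rw [map_mul, map_mul, map_mul, hp]
      congr 1
      rw [aeval_X, eval_toPoly]
      simp
  induction f using MvPolynomial.induction_on with
  | C a => exact ⟨fun _ => 0, fun x => by simp, fun i => by simp⟩
  | add q r hq hr =>
    obtain ⟨g1, h1, h2⟩ := hq
    obtain ⟨g2, h3, h4⟩ := hr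
    refine ⟨fun i => g1 i + g2 i, fun x => ?_, fun i => ?_⟩
    · rw [map_add, map_add, h1, h3]
      simp only [map_add, mul_add, Finset.sum_add_distrib]
      ring
    · rw [map_add, h2, h4, ← Finset.sum_add_distrib]
      refine Finset.sum_congr rfl fun j _ => ?_
      rw [map_add, map_add]
      ring
  | mul_X q k hq =>
    obtain ⟨g, h1, h2⟩ := hq
    obtain ⟨F, hF⟩ := hbind q
    refine ⟨fun i => g i * X k + F * C (h i k), fun x => ?_, fun i => ?_⟩
    · rw [map_mul, map_mul, eval_X, eval_X, h1 x]
      have hk : x k = π x k + ∑ i, l i x * h i k := by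
        have := congrFun (hx x) k
        simpa [Finset.sum_apply] using this
      have e1 : ∑ i, l i x * eval x (g i * X k + F * C (h i k)) =
          (∑ i, l i x * eval x (g i)) * x k + eval (π x) q * ∑ i, l i x * h i k := by
        rw [Finset.sum_mul, Finset.mul_sum, ← Finset.sum_add_distrib]
        refine Finset.sum_congr rfl fun i _ => ?_
        rw [map_add, map_mul, map_mul, eval_X, eval_C, hF]
        ring
      rw [e1]
      linear_combination (eval (π x) q) * hk
    · rw [map_add, map_mul, map_mul, eval_X, eval_C, hF, hp, h2, Finset.sum_mul]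
      have e2 : ∀ j, eval p (pderiv j (q * X k)) =
          eval p (pderiv j q) * p k + eval p q * (Pi.single k (1:ℝ) : σ → ℝ) j := by
        intro j
        rw [Derivation.leibniz]
        simp only [smul_eq_mul, map_add, map_mul, eval_X]
        rw [pderiv_X]
        by_cases hjk : j = k
        · subst hjk; simp; ring
        · simp [hjk]
          ring
      have e3 : ∑ j, h i j * eval p (pderiv j (q * X k)) =
          ∑ j, (h i j * eval p (pderiv j q) * p k + eval p q * (h i j * (Pi.single k (1:ℝ) : σ → ℝ) j)) := by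
        refine Finset.sum_congr rfl fun j _ => ?_
        rw [e2]; ring
      rw [e3, Finset.sum_add_distrib, ← Finset.mul_sum]
      congr 1
      congr 1
      simp [Pi.single_apply]

/-- **Main lemma.** -/
theorem finite_linear_components (J : Set (MvPolynomial σ ℝ)) :
    {L : Submodule ℝ (σ → ℝ) | (∀ f ∈ J, ∀ x ∈ L, eval x f = 0) ∧
      ∃ p ∈ L, ∀ x : σ → ℝ, (∀ f ∈ J, ∑ j, x j * eval p (pderiv j f) = 0) → x ∈ L}.Finite := by
  classical
  let I : Ideal (MvPolynomial σ ℝ) := Ideal.span J
  -- the subspace cut out by the linear forms of a prime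
  let Z : Ideal (MvPolynomial σ ℝ) → Submodule ℝ (σ → ℝ) := fun Q =>
    ⨅ l : {l : (σ → ℝ) →ₗ[ℝ] ℝ // toPoly l ∈ Q}, LinearMap.ker l.1
  have hfin : I.minimalPrimes.Finite := I.finite_minimalPrimes_of_isNoetherianRing
  refine (hfin.image Z).subset ?_
  rintro L ⟨hJ, p, hpL, htan⟩
  obtain ⟨P, hP, hPm⟩ := exists_prime L
  have hIP : I ≤ P := by
    rw [Ideal.span_le]
    intro f hf
    exact (hPm f).2 (hJ f hf)
  obtain ⟨Q, hQ, hQP⟩ := Ideal.exists_minimalPrimes_le hIP
  refine ⟨Q, hQ, ?_⟩
  have hQprime : Q.IsPrime := hQ.1.1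
  have hIQ : I ≤ Q := hQ.1.2
  -- a complement
  obtain ⟨L', hL'⟩ := Submodule.exists_isCompl L
  let b := Module.finBasis ℝ L'
  let c := Module.finrank ℝ L'
  let π : (σ → ℝ) →ₗ[ℝ] (σ → ℝ) := L.projection L' hL'
  let q : (σ → ℝ) →ₗ[ℝ] L' := L'.projectionOnto L hL'.symm
  let l : Fin c → ((σ → ℝ) →ₗ[ℝ] ℝ) := fun i => (b.coord i).comp q
  let h : Fin c → σ → ℝ := fun i => (b i : σ → ℝ)
  have hx : ∀ x, x = π x + ∑ i, l i x • h i := by
    intro x
    have h1 : (π x : σ → ℝ) + (q x : σ → ℝ) = x :=
      Submodule.projection_add_projection_eq_self hL' x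
    have h2 : ∑ i, l i x • h i = (q x : σ → ℝ) := by
      have h3 := b.sum_repr (q x)
      have h4 := congrArg (fun z : L' => (z : σ → ℝ)) h3
      simp only [Submodule.coe_sum, Submodule.coe_smul] at h4
      exact h4
    rw [h2]
    exact h1.symm
  have hπL : ∀ x, π x ∈ L := fun x => Submodule.coe_mem _
  have hqL : ∀ x ∈ L, q x = 0 := by
    intro x hxL
    exact (Submodule.projectionOnto_apply_eq_zero_iff hL'.symm).2 hxL
  have hlL : ∀ i, ∀ x ∈ L, l i x = 0 := by
    intro i x hxL
    simp only [l, LinearMap.comp_apply, hqL x hxL, map_zero]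
  have hπp : π p = p := by
    have h1 := hx p
    rw [Finset.sum_eq_zero (fun i _ => by rw [hlL i p hpL, zero_smul]), add_zero] at h1
    exact h1.symm
  -- expansion of the members of `J`
  have hker : ∀ x : σ → ℝ, (∀ i, l i x = 0) → x ∈ L := by
    intro x hxl
    have h1 := hx x
    rw [Finset.sum_eq_zero (fun i _ => by rw [hxl i, zero_smul]), add_zero] at h1
    rw [h1]; exact hπL x
  -- differential as a linear map to the dual
  let B : MvPolynomial σ ℝ →ₗ[ℝ] (σ → ℝ) →ₗ[ℝ] ℝ :=
    LinearMap.mk₂ ℝ (fun f x => ∑ j, x j * eval p (pderiv j f))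
      (fun f g x => by simp only [map_add, mul_add, Finset.sum_add_distrib])
      (fun r f x => by
        simp only [Derivation.map_smul, smul_eval, smul_eq_mul, Finset.mul_sum]
        exact Finset.sum_congr rfl fun j _ => by ring)
      (fun f x y => by simp only [Pi.add_apply, add_mul, Finset.sum_add_distrib])
      (fun r f x => by
        simp only [Pi.smul_apply, smul_eq_mul, Finset.mul_sum]
        exact Finset.sum_congr rfl fun j _ => by ring)
  have hB : ∀ f x, B f x = ∑ j, x j * eval p (pderiv j f) := fun f x => rfl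
  let H : (Fin c → ℝ) →ₗ[ℝ] (σ → ℝ) := Fintype.linearCombination ℝ h
  have hH : ∀ a, H a = ∑ i, a i • h i := fun a => Fintype.linearCombination_apply ℝ h a
  let D : MvPolynomial σ ℝ →ₗ[ℝ] Module.Dual ℝ (Fin c → ℝ) := (LinearMap.lcomp ℝ ℝ H).comp B
  have hD : ∀ f a, D f a = B f (H a) := fun f a => rfl
  -- the differentials of the span of `J` fill the dual
  let S : Submodule ℝ (MvPolynomial σ ℝ) := Submodule.span ℝ J
  have hsurj : S.map D = ⊤ := by
    have h1 : (S.map D).dualCoannihilator = ⊥ := by
      rw [eq_bot_iff]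
      intro a ha
      rw [Submodule.mem_dualCoannihilator] at ha
      have h2 : H a ∈ L := by
        refine htan _ fun f hf => ?_
        have h3 := ha (D f) (Submodule.mem_map_of_mem (Submodule.subset_span hf))
        rw [hD, hB] at h3
        exact h3
      have h4 : H a ∈ L' := by
        rw [hH]
        exact Submodule.sum_mem _ fun i _ => Submodule.smul_mem _ _ (Submodule.coe_mem _)
      have h5 : H a = 0 := by
        have := Submodule.disjoint_def.1 hL'.disjoint (H a) h2 h4
        exact this
      have h6 : ∑ i, a i • b i = 0 := by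
        apply Subtype.ext
        rw [hH] at h5
        simp only [Submodule.coe_sum, Submodule.coe_smul, Submodule.coe_zero]
        exact h5
      have h7 := Fintype.linearIndependent_iff.1 b.linearIndependent a h6
      rw [Submodule.mem_bot]
      funext i
      exact h7 i
    have h2 := Subspace.dualCoannihilator_dualAnnihilator_eq (W := S.map D)
    rw [h1, Submodule.dualAnnihilator_bot] at h2
    exact h2.symm
  have hF : ∀ k : Fin c, ∃ F ∈ S, D F = LinearMap.proj k := by
    intro k
    have : (LinearMap.proj k : Module.Dual ℝ (Fin c → ℝ)) ∈ S.map D := by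
      rw [hsurj]; exact Submodule.mem_top
    exact this
  choose F hFS hFD using hF
  have hSI : ∀ f ∈ S, f ∈ I := by
    intro f hf
    induction hf using Submodule.span_induction with
    | mem x hx => exact Ideal.subset_span hx
    | zero => exact I.zero_mem
    | add x y _ _ hx hy => exact I.add_mem hx hy
    | smul r x _ hx =>
      rw [smul_eq_C_mul]
      exact I.mul_mem_left _ hx
  choose G hG1 hG2 using fun k => exists_expansion π l h hx p hπp (F k)
  have hFG : ∀ k, F k = ∑ i, toPoly (l i) * G k i := by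
    intro k
    refine MvPolynomial.funext fun x => ?_
    rw [hG1 k x, (hPm (F k)).1 (hIP (hSI _ (hFS k))) _ (hπL x), zero_add, map_sum]
    exact Finset.sum_congr rfl fun i _ => by rw [map_mul, eval_toPoly]
  let M : Matrix (Fin c) (Fin c) (MvPolynomial σ ℝ) := Matrix.of G
  have hM1 : M.mulVec (fun i => toPoly (l i)) = F := by
    funext k
    rw [hFG k]
    show ∑ i, G k i * toPoly (l i) = ∑ i, toPoly (l i) * G k i
    exact Finset.sum_congr rfl fun i _ => mul_comm _ _
  have hdet : eval p M.det = 1 := by
    have h1 : (eval p).mapMatrix M = 1 := by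
      ext k i
      rw [RingHom.mapMatrix_apply, Matrix.map_apply]
      show eval p (G k i) = _
      rw [hG2 k i, ← hB]
      have h2 : h i = H (Pi.single i 1) := by
        rw [hH, Finset.sum_eq_single i]
        · simp
        · intro j _ hj; simp [hj]
        · simp
      rw [h2, ← hD, hFD k]
      simp only [LinearMap.proj_apply, Matrix.one_apply, Pi.single_apply]
    rw [RingHom.map_det, h1, Matrix.det_one]
  have hdetQ : M.det ∉ Q := by
    intro hq
    have := (hPm _).1 (hQP hq) p hpL
    rw [hdet] at this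
    exact one_ne_zero this
  have hlQ : ∀ i, toPoly (l i) ∈ Q := by
    intro i
    have h1 : M.adjugate.mulVec F = M.det • (fun i => toPoly (l i)) := by
      rw [← hM1, Matrix.mulVec_mulVec, Matrix.adjugate_mul, Matrix.smul_mulVec, Matrix.one_mulVec]
    have h2 := congrFun h1 i
    have h3 : M.det * toPoly (l i) ∈ Q := by
      rw [show M.det * toPoly (l i) = (M.det • (fun i => toPoly (l i)) : Fin c → _) i from rfl,
        ← h2]
      show ∑ k, M.adjugate i k * F k ∈ Q
      exact Q.sum_mem fun k _ => Q.mul_mem_left _ (hIQ (hSI _ (hFS k)))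
    exact (hQprime.mem_or_mem h3).resolve_left hdetQ
  -- conclusion
  show (⨅ l : {l : (σ → ℝ) →ₗ[ℝ] ℝ // toPoly l ∈ Q}, LinearMap.ker l.1) = L
  apply le_antisymm
  · intro x hxZ
    rw [Submodule.mem_iInf] at hxZ
    exact hker x fun i => hxZ ⟨l i, hlQ i⟩
  · intro x hxL
    rw [Submodule.mem_iInf]
    rintro ⟨m, hm⟩
    rw [LinearMap.mem_ker]
    have := (hPm _).1 (hQP hm) x hxL
    rwa [eval_toPoly] at this

end Pool.Agent.H74.NefLin
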