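import Mathlib
import Pool.Agent.H74.NefLin

/-!
# Multilinear forms: derivative along lines, polynomiality, and the main lemma for functions
-/

namespace Pool.Agent.H74.NefLin

open MvPolynomial

section deriv

variable {E : Type*} [AddCommGroup E] [Module ℝ E] {d : ℕ}

theorem hasDerivAt_multilinear (T : MultilinearMap ℝ (fun _ : Fin d => E) ℝ) (c δ : Fin d → E) :
    HasDerivAt (fun t : ℝ => T (fun i => c i + t • δ i))
      (∑ i, T (Function.update c i (δ i))) 0 := by
  classical
  have h1 : ∀ t : ℝ, T (fun i => c i + t • δ i) =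
      ∑ s : Finset (Fin d), t ^ s.card * T (s.piecewise δ c) := by
    intro t
    have h2 : (fun i => c i + t • δ i) = (fun i => t • δ i) + c := by
      funext i; simp [add_comm]
    rw [h2, MultilinearMap.map_add_univ]
    refine Finset.sum_congr rfl fun s _ => ?_
    have h3 : s.piecewise (fun i => t • δ i) c =
        s.piecewise (fun i => (fun _ => t) i • (s.piecewise δ c) i) (s.piecewise δ c) := by
      funext i
      by_cases hi : i ∈ s
      · simp [hi]
      · simp [hi]
    rw [h3, MultilinearMap.map_piecewise_smul]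
    simp
  have h4 : HasDerivAt (fun t : ℝ => ∑ s : Finset (Fin d), t ^ s.card * T (s.piecewise δ c))
      (∑ s : Finset (Fin d), ((s.card : ℝ) * (0:ℝ) ^ (s.card - 1)) * T (s.piecewise δ c)) 0 := by
    refine HasDerivAt.fun_sum fun s _ => ?_
    exact (hasDerivAt_pow s.card (0:ℝ)).mul_const _
  have h5 : ∑ s : Finset (Fin d), ((s.card : ℝ) * (0:ℝ) ^ (s.card - 1)) * T (s.piecewise δ c) =
      ∑ i, T (Function.update c i (δ i)) := by
    have h6 : ∑ s ∈ (Finset.univ : Finset (Fin d)).image (fun i => ({i} : Finset (Fin d))),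
        ((s.card : ℝ) * (0:ℝ) ^ (s.card - 1)) * T (s.piecewise δ c) =
        ∑ i, T (Function.update c i (δ i)) := by
      rw [Finset.sum_image (fun i _ j _ h => Finset.singleton_injective h)]
      refine Finset.sum_congr rfl fun i _ => ?_
      rw [Finset.piecewise_singleton]
      simp
    rw [← h6]
    refine (Finset.sum_subset (Finset.subset_univ _) fun s _ hs => ?_).symm
    have h7 : s.card ≠ 1 := by
      intro h
      obtain ⟨a, ha⟩ := Finset.card_eq_one.1 h
      exact hs (Finset.mem_image.2 ⟨a, Finset.mem_univ _, ha.symm⟩)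
    rcases Nat.eq_zero_or_pos s.card with h0 | h0
    · rw [h0]; simp
    · have h8 : s.card - 1 ≠ 0 := by omega
      rw [zero_pow h8]; ring
  rw [← h5]
  have h9 : (fun t : ℝ => T (fun i => c i + t • δ i)) =
      fun t : ℝ => ∑ s : Finset (Fin d), t ^ s.card * T (s.piecewise δ c) := funext h1
  rw [h9]
  exact h4

end deriv

variable {σ : Type*} [Fintype σ] [DecidableEq σ]

theorem hasDerivAt_eval (P : MvPolynomial σ ℝ) (p x : σ → ℝ) :
    HasDerivAt (fun t : ℝ => eval (p + t • x) P) (∑ j, x j * eval p (pderiv j P)) 0 := by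
  classical
  induction P using MvPolynomial.induction_on with
  | C a =>
    simp only [eval_C, pderiv_C, map_zero, mul_zero, Finset.sum_const_zero]
    exact hasDerivAt_const _ _
  | add P Q hP hQ =>
    have := hP.fun_add hQ
    simp only [map_add, mul_add, Finset.sum_add_distrib]
    exact this
  | mul_X P i hP =>
    have h1 : HasDerivAt (fun t : ℝ => (p + t • x) i) (x i) 0 := by
      have : HasDerivAt (fun t : ℝ => p i + t * x i) (x i) 0 := by
        have := ((hasDerivAt_id (0:ℝ)).mul_const (x i)).const_add (p i)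
        simpa using this
      simpa using this
    have h2 := hP.fun_mul h1
    simp only [map_mul, eval_X]
    have h3 : ∀ j, eval p (pderiv j (P * X i)) =
        eval p (pderiv j P) * p i + eval p P * (Pi.single i (1:ℝ) : σ → ℝ) j := by
      intro j
      rw [Derivation.leibniz]
      simp only [smul_eq_mul, map_add, map_mul, eval_X]
      rw [pderiv_X]
      by_cases hji : j = i
      · subst hji; simp; ring
      · simp [hji]
        ring
    have h4 : ∑ j, x j * eval p (pderiv j (P * X i)) =
        (∑ j, x j * eval p (pderiv j P)) * (p + (0:ℝ) • x) i + eval (p + (0:ℝ) • x) P * x i := by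
      have h5 : p + (0:ℝ) • x = p := by simp
      rw [h5, Finset.sum_mul]
      have h6 : ∀ j, x j * eval p (pderiv j (P * X i)) =
          x j * eval p (pderiv j P) * p i + eval p P * (x j * (Pi.single i (1:ℝ) : σ → ℝ) j) := by
        intro j; rw [h3]; ring
      rw [Finset.sum_congr rfl fun j _ => h6 j, Finset.sum_add_distrib, ← Finset.mul_sum]
      congr 2
      simp [Pi.single_apply]
    rw [h4]
    exact h2

/-- a function given by a polynomial -/
def PolyFun (f : (σ → ℝ) → ℝ) : Prop := ∃ P : MvPolynomial σ ℝ, ∀ x, eval x P = f x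

theorem finite_components (J : Set ((σ → ℝ) → ℝ)) (hJ : ∀ f ∈ J, PolyFun f) :
    {L : Submodule ℝ (σ → ℝ) | (∀ f ∈ J, ∀ x ∈ L, f x = 0) ∧
      ∃ p ∈ L, ∀ x : σ → ℝ, (∀ f ∈ J, HasDerivAt (fun t : ℝ => f (p + t • x)) 0 0) →
        x ∈ L}.Finite := by
  refine (finite_linear_components {P : MvPolynomial σ ℝ | (fun x => eval x P) ∈ J}).subset ?_
  rintro L ⟨h1, p, hp, h2⟩
  refine ⟨fun P hP x hx => h1 _ hP x hx, p, hp, fun x hx => h2 x fun f hf => ?_⟩
  obtain ⟨P, hP⟩ := hJ f hf
  have hPf : (fun x => eval x P) = f := funext hP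
  have h3 := hx P (by show (fun x => eval x P) ∈ J; rw [hPf]; exact hf)
  have h4 := hasDerivAt_eval P p x
  rw [h3] at h4
  have h5 : (fun t : ℝ => eval (p + t • x) P) = fun t : ℝ => f (p + t • x) :=
    funext fun t => hP _
  rw [h5] at h4
  exact h4

/-- a multilinear form evaluated at vectors with polynomial coordinates -/
theorem polyFun_multilinear {τ : Type*} [Fintype τ] [DecidableEq τ] {d : ℕ}
    (T : MultilinearMap ℝ (fun _ : Fin d => τ → ℝ) ℝ)
    (v : (σ → ℝ) → Fin d → τ → ℝ) (hv : ∀ i j, PolyFun (fun x => v x i j)) :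
    PolyFun (fun x => T (v x)) := by
  classical
  choose Y hY using hv
  refine ⟨∑ r : Fin d → τ, C (T (fun i => Pi.single (r i) 1)) * ∏ i, Y i (r i), fun x => ?_⟩
  have h1 : v x = fun i => ∑ j : τ, v x i j • (Pi.single j (1:ℝ) : τ → ℝ) := by
    funext i
    have := pi_eq_sum_univ' (v x i)
    conv_lhs => rw [this]
  rw [map_sum]
  show _ = T (v x)
  rw [h1, MultilinearMap.map_sum]
  refine Finset.sum_congr rfl fun r _ => ?_
  rw [map_mul, eval_C, map_prod]
  rw [MultilinearMap.map_smul_univ T (fun i => v x i (r i)) (fun i => Pi.single (r i) (1:ℝ)),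
    smul_eq_mul, mul_comm]
  congr 1
  exact Finset.prod_congr rfl fun i _ => hY i (r i) x

end Pool.Agent.H74.NefLin
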