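import Mathlib
import Pool.Agent.H74.NefMulti

/-!
# Finiteness of the subspaces along which a form vanishes to a given order with nondegenerate leading term
-/

set_option autoImplicit false

namespace Pool.Agent.H74.NefLin

variable {σ : Type*} [Fintype σ] [DecidableEq σ] {d : ℕ}

/-- derivative of a symmetric form in its first `b + 1` places -/
theorem deriv_first {E : Type*} [AddCommGroup E] [Module ℝ E]
    (T : MultilinearMap ℝ (fun _ : Fin d => E) ℝ)
    (hT : ∀ (π : Equiv.Perm (Fin d)) (v : Fin d → E), T (fun i => v (π i)) = T v) (b : Fin d)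
    (w x : E) (u : Fin d → E) :
    HasDerivAt (fun t : ℝ => T (fun i => if i ≤ b then w + t • x else u i))
      (((b : ℕ) + 1 : ℝ) * T (fun i => if i < b then w else if i = b then x else u i)) 0 := by
  classical
  have h1 := hasDerivAt_multilinear T (fun i => if i ≤ b then w else u i)
    (fun i => if i ≤ b then x else 0)
  have h2 : (fun t : ℝ => T (fun i => (if i ≤ b then w else u i) + t • (if i ≤ b then x else 0))) =
      fun t : ℝ => T (fun i => if i ≤ b then w + t • x else u i) := by
    funext t
    congr 1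
    funext i
    by_cases h : i ≤ b
    · simp [h]
    · simp [h]
  rw [h2] at h1
  have h3 : ∀ i : Fin d, T (Function.update (fun i => if i ≤ b then w else u i) i
      (if i ≤ b then x else 0)) =
      if i ≤ b then T (fun i => if i < b then w else if i = b then x else u i) else 0 := by
    intro i
    by_cases h : i ≤ b
    · rw [if_pos h, if_pos h]
      rw [← hT (Equiv.swap i b)]
      congr 1
      funext j
      by_cases hji : j = i
      · subst hji
        rw [Equiv.swap_apply_left]
        by_cases hjb : b = j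
        · subst hjb; simp
        · have hlt : j < b := lt_of_le_of_ne h (fun h' => hjb h'.symm)
          rw [Function.update_of_ne hjb, if_pos le_rfl, if_pos hlt]
      · by_cases hjb : j = b
        · subst hjb
          rw [Equiv.swap_apply_right]
          simp
        · rw [Equiv.swap_apply_of_ne_of_ne hji hjb, Function.update_of_ne hji]
          by_cases hlt : j < b
          · rw [if_pos hlt.le, if_pos hlt]
          · have h4 : ¬ j ≤ b := fun h' => hlt (lt_of_le_of_ne h' hjb)
            rw [if_neg h4, if_neg hlt, if_neg hjb]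
    · rw [if_neg h, if_neg h]
      exact T.map_coord_zero i (by simp)
  have h4 : ∑ i, T (Function.update (fun i => if i ≤ b then w else u i) i
      (if i ≤ b then x else 0)) =
      ((b : ℕ) + 1 : ℝ) * T (fun i => if i < b then w else if i = b then x else u i) := by
    rw [Finset.sum_congr rfl fun i _ => h3 i, ← Finset.sum_filter, Finset.sum_const, nsmul_eq_mul]
    congr 1
    have h5 : (Finset.univ.filter fun i : Fin d => i ≤ b) = Finset.Iic b := by ext; simp
    rw [h5, Fin.card_Iic]
    push_cast
    ring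
  rw [← h4]
  exact h1

/-- finiteness on the whole space -/
theorem finite_top (T : MultilinearMap ℝ (fun _ : Fin d => σ → ℝ) ℝ)
    (hT : ∀ (π : Equiv.Perm (Fin d)) (v : Fin d → σ → ℝ), T (fun i => v (π i)) = T v) (b : Fin d) :
    {L : Submodule ℝ (σ → ℝ) | (∀ v : Fin d → σ → ℝ, (∀ i ≤ b, v i ∈ L) → T v = 0) ∧
      ∃ w ∈ L, ∀ h : σ → ℝ, (∀ v : Fin d → σ → ℝ, (∀ i < b, v i = w) → v b = h → T v = 0) →
        h ∈ L}.Finite := by
  classical
  let J : Set ((σ → ℝ) → ℝ) :=
    {f | ∃ u : Fin d → σ → ℝ, f = fun x => T (fun i => if i ≤ b then x else u i)}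
  have hJ : ∀ f ∈ J, PolyFun f := by
    rintro f ⟨u, rfl⟩
    refine polyFun_multilinear T (fun x i => if i ≤ b then x else u i) fun i j => ?_
    by_cases h : i ≤ b
    · simp only [if_pos h]
      exact ⟨MvPolynomial.X j, fun x => MvPolynomial.eval_X j⟩
    · simp only [if_neg h]
      exact ⟨MvPolynomial.C (u i j), fun x => MvPolynomial.eval_C _⟩
  refine (finite_components J hJ).subset ?_
  rintro L ⟨h1, w, hw, h2⟩
  refine ⟨?_, w, hw, fun x hx => h2 x fun v hv hvb => ?_⟩
  · rintro f ⟨u, rfl⟩ x hx
    exact h1 _ fun i hi => by simp only [if_pos hi]; exact hx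
  · have h3 := hx _ ⟨v, rfl⟩
    have h4 := deriv_first T hT b w x v
    have h5 := h3.unique h4
    have h6 : (fun i => if i < b then w else if i = b then x else v i) = v := by
      funext i
      by_cases hib : i < b
      · rw [if_pos hib, hv i hib]
      · rw [if_neg hib]
        by_cases hib' : i = b
        · subst hib'; rw [if_pos rfl, hvb]
        · rw [if_neg hib']
    rw [h6] at h5
    have h7 : ((b : ℕ) + 1 : ℝ) ≠ 0 := by positivity
    exact (mul_eq_zero.1 h5.symm).resolve_left h7

/-- finiteness inside a subspace -/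
theorem finite_sub {E : Type*} [AddCommGroup E] [Module ℝ E] [FiniteDimensional ℝ E]
    (T : MultilinearMap ℝ (fun _ : Fin d => E) ℝ)
    (hT : ∀ (π : Equiv.Perm (Fin d)) (v : Fin d → E), T (fun i => v (π i)) = T v) (b : Fin d)
    (U : Submodule ℝ E) :
    {W : Submodule ℝ E | W ≤ U ∧
      (∀ v : Fin d → E, (∀ i, v i ∈ U) → (∀ i ≤ b, v i ∈ W) → T v = 0) ∧
      ∃ w ∈ W, ∀ h ∈ U, (∀ v : Fin d → E, (∀ i, v i ∈ U) → (∀ i < b, v i = w) → v b = h →
        T v = 0) → h ∈ W}.Finite := by
  classical
  let m := Module.finrank ℝ U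
  let e : U ≃ₗ[ℝ] (Fin m → ℝ) := (Module.finBasis ℝ U).equivFun
  let j : (Fin m → ℝ) →ₗ[ℝ] E := U.subtype.comp e.symm.toLinearMap
  have hjU : ∀ y, j y ∈ U := fun y => Submodule.coe_mem _
  have hjs : ∀ x ∈ U, ∃ y, j y = x := fun x hx => ⟨e ⟨x, hx⟩, by simp [j]⟩
  let T' : MultilinearMap ℝ (fun _ : Fin d => Fin m → ℝ) ℝ := T.compLinearMap fun _ => j
  have hT'1 : ∀ v, T' v = T (fun i => j (v i)) := fun v => rfl
  have hT' : ∀ (π : Equiv.Perm (Fin d)) (v : Fin d → Fin m → ℝ),
      T' (fun i => v (π i)) = T' v := by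
    intro π v
    rw [hT'1, hT'1]
    exact hT π fun i => j (v i)
  refine ((finite_top T' hT' b).image fun L => L.map j).subset ?_
  rintro W ⟨hWU, h1, w, hw, h2⟩
  refine ⟨W.comap j, ⟨?_, ?_⟩, ?_⟩
  · intro v hv
    rw [hT'1]
    exact h1 _ (fun i => hjU _) fun i hi => hv i hi
  · obtain ⟨y, hy⟩ := hjs w (hWU hw)
    refine ⟨y, by rw [Submodule.mem_comap, hy]; exact hw, fun h hh => ?_⟩
    rw [Submodule.mem_comap]
    refine h2 _ (hjU h) fun v hvU hv hvb => ?_
    choose y' hy' using fun i => hjs (v i) (hvU i)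
    have h3 := hh (fun i => if i < b then y else if i = b then h else y' i)
      (fun i hi => by rw [if_pos hi]) (by simp)
    rw [hT'1] at h3
    rw [← h3]
    congr 1
    funext i
    by_cases hib : i < b
    · rw [if_pos hib, hv i hib, hy]
    · rw [if_neg hib]
      by_cases hib' : i = b
      · subst hib'; rw [if_pos rfl, hvb]
      · rw [if_neg hib', hy']
  · show (W.comap j).map j = W
    rw [Submodule.map_comap_eq]
    refine inf_eq_right.2 fun x hx => ?_
    obtain ⟨y, hy⟩ := hjs x (hWU hx)
    exact ⟨y, hy⟩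

end Pool.Agent.H74.NefLin
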