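import Pool.Agent.H74.NefDefs
import Pool.Agent.H74.NefFib

/-!
# Fibre spaces: absolute finiteness and reduction to birational contractions
-/

set_option autoImplicit false

namespace Pool.Agent.H74.Nef

open Pool.Agent.H57.KM

variable {n d : ℕ}

theorem finite_nondeg (D : PairData n d) (U : Submodule ℝ (V n)) :
    {W : Submodule ℝ (V n) | D.Nondeg U W}.Finite := by
  have h1 : {W : Submodule ℝ (V n) | D.Nondeg U W} = ⋃ b : Fin d,
      {W : Submodule ℝ (V n) | W ≤ U ∧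
      (∀ v : Fin d → V n, (∀ i, v i ∈ U) → (∀ i ≤ b, v i ∈ W) → D.T v = 0) ∧
      ∃ w ∈ W, ∀ h ∈ U, (∀ v : Fin d → V n, (∀ i, v i ∈ U) → (∀ i < b, v i = w) → v b = h →
        D.T v = 0) → h ∈ W} := by
    ext W
    constructor
    · rintro ⟨h1, b, h2, h3⟩
      exact Set.mem_iUnion.2 ⟨b, h1, h2, h3⟩
    · intro h
      obtain ⟨b, h1, h2, h3⟩ := Set.mem_iUnion.1 h
      exact ⟨h1, b, h2, h3⟩
  rw [h1]
  exact Set.finite_iUnion fun b => NefLin.finite_sub D.T D.T_symm b U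

theorem relNef_add (D : PairData n d) {U W : Submodule ℝ (V n)} {x y : V n}
    (hx : x ∈ D.relNef U W) (hy : y ∈ W) : x + y ∈ D.relNef U W := by
  unfold PairData.relNef at *
  have h1 : Continuous fun z : V n => z + y := continuous_id.add continuous_const
  have h2 := map_mem_closure (t := {z | ∃ x ∈ closure D.amp, x ∈ U ∧ ∃ w ∈ W, z = x + w})
    h1 hx ?_
  · exact h2
  rintro z ⟨a, ha, haU, w, hw, rfl⟩
  exact ⟨a, ha, haU, w + y, W.add_mem hw hy, add_assoc a w y⟩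

theorem regular_nondeg (D : PairData n d) {U W : Submodule ℝ (V n)} (h : D.Regular U W) :
    D.Nondeg U W := by
  obtain ⟨b, hb, w, hw, hh⟩ := h.fib
  refine ⟨h.le, b, hb, w, hw, fun x hx hT => ?_⟩
  obtain ⟨w', hw', h1, h2⟩ := hh x hx hT
  have h3 := relNef_add D (h.nobir _ h1 (U.add_mem (h.le hw') hx)) (W.neg_mem hw')
  have h4 := relNef_add D (h.nobir _ h2 (U.sub_mem (h.le hw') hx)) (W.neg_mem hw')
  have e3 : w' + x + -w' = x := by abel
  have e4 : w' - x + -w' = -x := by abel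
  rw [e3] at h3
  rw [e4] at h4
  exact h.pointed x h3 h4

/-- the action as a linear equivalence -/
noncomputable def actL (g : GL (Fin n) ℤ) : V n ≃ₗ[ℝ] V n where
  toFun := act g
  map_add' := act_add g
  map_smul' := act_smul g
  invFun := act g⁻¹
  left_inv := fun x => by rw [← act_mul, inv_mul_cancel, act_one]
  right_inv := fun x => by rw [← act_mul, mul_inv_cancel, act_one]

theorem actL_apply (g : GL (Fin n) ℤ) (x : V n) : actL g x = act g x := rfl

theorem act_inv_act (g : GL (Fin n) ℤ) (x : V n) : act g⁻¹ (act g x) = x := by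
  rw [← act_mul, inv_mul_cancel, act_one]

theorem act_act_inv (g : GL (Fin n) ℤ) (x : V n) : act g (act g⁻¹ x) = x := by
  rw [← act_mul, mul_inv_cancel, act_one]

theorem act_nef (D : PairData n d) {g : GL (Fin n) ℤ} (hg : g ∈ D.G) {x : V n}
    (hx : x ∈ closure D.amp) : act g x ∈ closure D.amp :=
  act_closure (D.act_amp g hg) x hx

theorem face_act (D : PairData n d) {g : GL (Fin n) ℤ} (hg : g ∈ D.G) (U : Submodule ℝ (V n)) :
    D.face (U.map (actL g).toLinearMap) = act g '' D.face U := by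
  have hg' : g⁻¹ ∈ D.G := D.G.inv_mem hg
  ext x
  constructor
  · rintro ⟨⟨h1, h2⟩, y, hy, rfl⟩
    have e : (actL g).toLinearMap y = act g y := rfl
    rw [e] at h1 h2
    refine ⟨y, ⟨⟨?_, ?_⟩, hy⟩, rfl⟩
    · have := act_nef D hg' h1
      rwa [act_inv_act] at this
    · have := D.act_eff _ hg' _ h2
      rwa [act_inv_act] at this
  · rintro ⟨y, ⟨⟨h1, h2⟩, hy⟩, rfl⟩
    exact ⟨⟨act_nef D hg h1, D.act_eff _ hg _ h2⟩, y, hy, rfl⟩

theorem nondeg_act (D : PairData n d) {g : GL (Fin n) ℤ} (hg : g ∈ D.G)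
    {U W : Submodule ℝ (V n)} (h : D.Nondeg U W) :
    D.Nondeg (U.map (actL g).toLinearMap) (W.map (actL g).toLinearMap) := by
  have hg' : g⁻¹ ∈ D.G := D.G.inv_mem hg
  have hmem : ∀ (P : Submodule ℝ (V n)) (x : V n),
      x ∈ P.map (actL g).toLinearMap → act g⁻¹ x ∈ P := by
    rintro P x ⟨y, hy, rfl⟩
    have e : (actL g).toLinearMap y = act g y := rfl
    rw [e, act_inv_act]
    exact hy
  obtain ⟨h1, b, h2, w, hw, h3⟩ := h
  refine ⟨Submodule.map_mono h1, b, ?_, act g w, ⟨w, hw, rfl⟩, ?_⟩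
  · intro v hvU hvW
    rw [← D.act_T _ hg' v]
    exact h2 _ (fun i => hmem U _ (hvU i)) fun i hi => hmem W _ (hvW i hi)
  · intro x hx hT
    refine ⟨act g⁻¹ x, h3 _ (hmem U x hx) fun v hvU hv hvb => ?_, act_act_inv g x⟩
    rw [← D.act_T _ hg v]
    refine hT _ (fun i => ⟨v i, hvU i, rfl⟩) (fun i hi => by rw [hv i hi]) ?_
    rw [hvb, act_act_inv]

/-- **Main theorem.** -/
theorem main (D : PairData n d) :
    (∀ U : Submodule ℝ (V n), {W : Submodule ℝ (V n) | D.Nondeg U W}.Finite) ∧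
    (∀ U W : Submodule ℝ (V n), D.Regular U W → D.Nondeg U W) ∧
    (D.FinClasses {A | ∃ U, D.IsBir U ∧ A = D.face U} →
      D.FinClasses {A | ∃ U W, D.IsBir U ∧ D.Nondeg U W ∧ A = D.face W}) := by
  refine ⟨finite_nondeg D, fun U W => regular_nondeg D, ?_⟩
  rintro ⟨S, hS, hSB⟩
  let S' : Set (Set (V n)) := ⋃ B ∈ S, D.face '' {W | D.Nondeg (Submodule.span ℝ B) W}
  refine ⟨S', hS.biUnion fun B _ => (finite_nondeg D _).image _, ?_⟩
  rintro A ⟨U, W, hU, hW, rfl⟩
  obtain ⟨B, hB, g, hg, hUB⟩ := hSB _ ⟨U, hU, rfl⟩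
  have hg' : g⁻¹ ∈ D.G := D.G.inv_mem hg
  have h1 : Submodule.span ℝ B = U.map (actL g⁻¹).toLinearMap := by
    rw [← hU.1.span, hUB, Submodule.map_span]
    congr 1
    ext x
    constructor
    · intro hx
      exact ⟨act g x, ⟨x, hx, rfl⟩, act_inv_act g x⟩
    · rintro ⟨y, ⟨z, hz, rfl⟩, rfl⟩
      have e : (actL g⁻¹).toLinearMap (act g z) = act g⁻¹ (act g z) := rfl
      rw [e, act_inv_act]
      exact hz
  have h2 := nondeg_act D hg' hW
  rw [← h1] at h2
  refine ⟨D.face (W.map (actL g⁻¹).toLinearMap), ?_, g, hg, ?_⟩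
  · simp only [S', Set.mem_iUnion]
    exact ⟨B, hB, _, h2, rfl⟩
  · rw [face_act D hg' W, Set.image_image]
    simp only [act_act_inv, Set.image_id']

end Pool.Agent.H74.Nef
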